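import Pool.Agent.Lib.MP_580eba_nt.Frob

/-!
Residue fields.
-/

namespace Pool.Agent.Lib.MP_580eba_nt

open NumberField Subgroup WithZero
open scoped Pointwise

variable {K N : Type*} [Field K] [Field N] [NumberField K] [NumberField N]

/-- The residue field. -/
def RF (w : Pl N) : Type _ := 𝓞 N ⧸ w.asIdeal

noncomputable instance (w : Pl N) : Field (RF w) :=
  haveI := w.isMaximal
  Ideal.Quotient.field w.asIdeal

instance (w : Pl N) : Finite (RF w) := Ring.HasFiniteQuotients.finiteQuotient w.ne_bot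

/-- Reduction of algebraic integers. -/
noncomputable def mkR (w : Pl N) : 𝓞 N →+* RF w := Ideal.Quotient.mk w.asIdeal

lemma mkR_eq {w : Pl N} {a b : 𝓞 N} : mkR w a = mkR w b ↔ val w ((a : N) - b) < 1 :=
  Ideal.Quotient.eq.trans (val_int_lt w (a - b)).symm

omit [NumberField N] in
lemma card_RF (w : Pl N) : Nat.card (RF w) = nP w := rfl

/-- Reduction of locally integral elements. -/
noncomputable def res (w : Pl N) (x : N) : RF w :=
  mkR w (Classical.epsilon fun a : 𝓞 N => val w ((a : N) - x) < 1)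

lemma res_eq {w : Pl N} {x : N} {a : 𝓞 N} (h : val w ((a : N) - x) < 1) : res w x = mkR w a := by
  have h1 := Classical.epsilon_spec (p := fun a : 𝓞 N => val w ((a : N) - x) < 1) ⟨a, h⟩
  refine mkR_eq.2 ?_
  simpa using Valuation.map_sub_lt _ h1 h

lemma res_int (w : Pl N) (a : 𝓞 N) : res w a = mkR w a := res_eq (by simp)

lemma exists_int {w : Pl N} {x : N} (hx : val w x ≤ 1) : ∃ a : 𝓞 N, val w ((a : N) - x) < 1 :=
  w.exists_valuation_sub_lt_of_integer hx 1

lemma res_surj {w : Pl N} (z : RF w) : ∃ a : 𝓞 N, res w a = z := by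
  obtain ⟨a, rfl⟩ := Ideal.Quotient.mk_surjective z
  exact ⟨a, res_int w a⟩

lemma res_eq_iff {w : Pl N} {x y : N} (hx : val w x ≤ 1) (hy : val w y ≤ 1) :
    res w x = res w y ↔ val w (x - y) < 1 := by
  obtain ⟨a, ha⟩ := exists_int hx
  obtain ⟨b, hb⟩ := exists_int hy
  rw [res_eq ha, res_eq hb, mkR_eq]
  constructor <;> intro h
  · rw [show x - y = (a - b) - (a - x) + (b - y) by ring]
    exact Valuation.map_add_lt _ (Valuation.map_sub_lt _ h ha) hb
  · rw [show (a : N) - b = (x - y) + (a - x) - (b - y) by ring]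
    exact Valuation.map_sub_lt _ (Valuation.map_add_lt _ h ha) hb

lemma res_add {w : Pl N} {x y : N} (hx : val w x ≤ 1) (hy : val w y ≤ 1) :
    res w (x + y) = res w x + res w y := by
  obtain ⟨a, ha⟩ := exists_int hx
  obtain ⟨b, hb⟩ := exists_int hy
  rw [res_eq ha, res_eq hb, ← map_add]
  refine res_eq ?_
  rw [show ((a + b : 𝓞 N) : N) - (x + y) = (a - x) + (b - y) by push_cast; ring]
  exact Valuation.map_add_lt _ ha hb

lemma res_mul {w : Pl N} {x y : N} (hx : val w x ≤ 1) (hy : val w y ≤ 1) :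
    res w (x * y) = res w x * res w y := by
  obtain ⟨a, ha⟩ := exists_int hx
  obtain ⟨b, hb⟩ := exists_int hy
  rw [res_eq ha, res_eq hb, ← map_mul]
  refine res_eq ?_
  rw [show ((a * b : 𝓞 N) : N) - (x * y) = (a - x) * y + (b - y) * a by push_cast; ring]
  refine Valuation.map_add_lt _ ?_ ?_ <;> rw [map_mul]
  · exact mul_lt_one_of_lt_of_le ha hy
  · exact mul_lt_one_of_lt_of_le hb (val_int_le w a)

lemma res_intCast (w : Pl N) (n : ℤ) : res w n = n := by
  rw [← map_intCast (mkR w), ← res_int]; rfl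

lemma res_natCast (w : Pl N) (n : ℕ) : res w n = n := by
  simpa using res_int w n

lemma res_zero (w : Pl N) : res w 0 = 0 := by simpa using res_natCast w 0

lemma res_one (w : Pl N) : res w 1 = 1 := by simpa using res_natCast w 1

lemma res_neg_one (w : Pl N) : res w (-1) = -1 := by simpa using res_intCast w (-1)

lemma res_eq_zero {w : Pl N} {x : N} (hx : val w x ≤ 1) : res w x = 0 ↔ val w x < 1 := by
  rw [← res_zero, res_eq_iff hx (by simp), sub_zero]

lemma res_ne_zero {w : Pl N} {x : N} (hx : val w x = 1) : res w x ≠ 0 := by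
  rw [Ne, res_eq_zero hx.le, hx]
  exact lt_irrefl _

lemma res_eq_one {w : Pl N} {x : N} (hx : val w x ≤ 1) : res w x = 1 ↔ val w (x - 1) < 1 := by
  rw [← res_one, res_eq_iff hx (by simp)]

lemma res_npow {w : Pl N} {x : N} (hx : val w x ≤ 1) (n : ℕ) : res w (x ^ n) = res w x ^ n := by
  induction n with
  | zero => simp [res_one]
  | succ n ih => rw [pow_succ, res_mul (by rw [map_pow]; exact pow_le_one₀ zero_le hx) hx, ih, pow_succ]

lemma res_sum {w : Pl N} {ι : Type*} (s : Finset ι) {f : ι → N} (h : ∀ i, val w (f i) ≤ 1) :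
    res w (∑ i ∈ s, f i) = ∑ i ∈ s, res w (f i) := by
  classical
  induction s using Finset.induction_on with
  | empty => simp [res_zero]
  | insert i s hi ih =>
    rw [Finset.sum_insert hi, Finset.sum_insert hi,
      res_add (h i) (Valuation.map_sum_le _ fun j _ => h j), ih]

lemma res_div {w : Pl N} {x y : N} (hx : val w x ≤ 1) (hy : val w y = 1) :
    res w (x / y) = res w x / res w y := by
  have h0 : y ≠ 0 := by rintro rfl; simp at hy
  rw [eq_div_iff (res_ne_zero hy), ← res_mul (by rwa [map_div₀, hy, div_one]) hy.le,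
    div_mul_cancel₀ _ h0]

lemma div_mem_U1 {w : Pl N} {x y : Nˣ} : x / y ∈ U1 w ↔ val w ((x : N) - y) < val w (y : N) := by
  rw [mem_U1, Units.val_div_eq_div_val, div_sub_one y.ne_zero, map_div₀,
    div_lt_one₀ (val_pos w y.ne_zero)]

lemma div_mem_U1_iff_res {w : Pl N} {x y : Nˣ} (hx : x ∈ UU w) (hy : y ∈ UU w) :
    x / y ∈ U1 w ↔ res w x = res w y := by
  rw [div_mem_U1, mem_UU.1 hy, res_eq_iff (mem_UU.1 hx).le (mem_UU.1 hy).le]

lemma exists_unit_res {w : Pl N} {z : RF w} (hz : z ≠ 0) : ∃ x ∈ UU w, res w (x : Nˣ) = z := by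
  obtain ⟨a, rfl⟩ := res_surj z
  have h : val w (a : N) = 1 :=
    le_antisymm (val_int_le w a) (not_lt.1 (mt (res_eq_zero (val_int_le w a)).2 hz))
  exact ⟨Units.mk0 a (by rintro h0; simp [h0] at h), h, rfl⟩

lemma two_ne_zero_RF {w : Pl N} (h : val w (2 : N) = 1) : (2 : RF w) ≠ 0 := by
  have h1 := res_ne_zero (w := w) (x := (2 : ℕ)) (by simpa using h)
  rw [res_natCast] at h1
  exact_mod_cast h1

lemma val_two_le (w : Pl N) : val w (2 : N) ≤ 1 := by simpa using val_natCast_le w 2

lemma val_two_eq_one {w : Pl N} (h : ¬ val w (2 : N) < 1) : val w (2 : N) = 1 :=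
  le_antisymm (val_two_le w) (not_lt.1 h)

lemma val_four (w : Pl N) : val w (4 : N) = val w 2 ^ 2 := by
  rw [← map_pow]; norm_num

lemma odd_nP {w : Pl N} (h : val w (2 : N) = 1) : Odd (nP w) := by
  have := Fintype.ofFinite (RF w)
  rw [← card_RF, Nat.card_eq_fintype_card, Nat.odd_iff]
  refine FiniteField.odd_card_of_char_ne_two fun h1 => two_ne_zero_RF h ?_
  exact_mod_cast (ringChar.spec (RF w) 2).2 (h1 ▸ dvd_rfl)

section action

variable {G : Type*} [Group G] [MulSemiringAction G N]

/-- The action of the decomposition group on the residue field. -/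
noncomputable instance resAction (w : Pl N) : MulSemiringAction (MulAction.stabilizer G w) (RF w) :=
  let f : MulAction.stabilizer G w → RF w →+* RF w := fun g =>
    Ideal.quotientMap w.asIdeal (MulSemiringAction.toRingHom G (𝓞 N) g) fun x hx => by
      have := Ideal.smul_mem_pointwise_smul (g : G) _ _ hx
      rwa [← smul_asIdeal, g.2] at this
  { smul g := f g
    one_smul := by rintro ⟨x⟩; exact congrArg (mkR w) (one_smul G x)
    mul_smul := by rintro g h ⟨x⟩; exact congrArg (mkR w) (mul_smul (g : G) (h : G) x)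
    smul_zero g := map_zero (f g)
    smul_add g := map_add (f g)
    smul_one g := map_one (f g)
    smul_mul g := map_mul (f g) }

lemma res_smul {w : Pl N} (g : MulAction.stabilizer G w) {x : N} (hx : val w x ≤ 1) :
    res w ((g : G) • x) = g • res w x := by
  obtain ⟨a, ha⟩ := exists_int hx
  rw [res_eq ha]
  refine res_eq (a := (g : G) • a) ?_
  rwa [coe_smul_int, ← smul_sub, val_smul_of_eq g.2]

lemma mem_In_iff_res {w : Pl N} (g : MulAction.stabilizer G w) :
    (g : G) ∈ In G w ↔ ∀ z : RF w, g • z = z := by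
  rw [mem_In]
  constructor
  · intro h z
    obtain ⟨a, rfl⟩ := res_surj z
    rw [← res_smul g (val_int_le w a),
      res_eq_iff (by rw [val_smul_of_eq g.2]; exact val_int_le w a) (val_int_le w a)]
    exact h _ (val_int_le w a)
  · intro h x hx
    rw [← res_eq_iff (by rwa [val_smul_of_eq g.2]) hx, res_smul g hx, h]

end action

/-- The residue field extension. -/
noncomputable abbrev resAlg (K : Type*) [Field K] [NumberField K] [Algebra K N] (w : Pl N) :
    Algebra (RF (und K w)) (RF w) :=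
  Ideal.Quotient.algebraOfLiesOver w.asIdeal (und K w).asIdeal

lemma exists_card_pow {F E : Type*} [Field F] [Field E] [Finite E] (a : Algebra F E) :
    ∃ n, Nat.card E = Nat.card F ^ n :=
  have : Module.Finite F E := Module.Finite.of_finite
  ⟨_, Module.natCard_eq_pow_finrank (K := F) (V := E)⟩

lemma exists_of_fixed {F E : Type*} [Field F] [Field E] [Finite E] (a : Algebra F E) (x : E)
    (h : ∀ f : E ≃ₐ[F] E, f x = x) : ∃ y, algebraMap F E y = x :=
  have : Module.Finite F E := Module.Finite.of_finite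
  IntermediateField.mem_bot.1 ((IsGalois.mem_bot_iff_fixed _).2 h)

lemma exists_nP_pow [Algebra K N] (w : Pl N) : ∃ n, nP w = nP (und K w) ^ n :=
  exists_card_pow (F := RF (und K w)) (E := RF w) (resAlg K w)

lemma exists_base_of_fixed [Algebra K N] {G : Type*} [Group G] [Finite G] [MulSemiringAction G N]
    [IsGaloisGroup G K N] {w : Pl N} {x : N} (hx : val w x ≤ 1)
    (h : ∀ g : G, g • w = w → val w (g • x - x) < 1) :
    ∃ a : 𝓞 K, val w (algebraMap K N a - x) < 1 := by
  have := w.isPrime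
  have := (und K w).isPrime
  obtain ⟨⟨a⟩, ha⟩ := exists_of_fixed (resAlg K w) (res w x) fun f => by
    obtain ⟨g, rfl⟩ := Ideal.Quotient.stabilizerHom_surjective G (und K w).asIdeal w.asIdeal f
    have hg : (g : G) • w = w := IsDedekindDomain.HeightOneSpectrum.ext g.2
    exact (res_smul (G := G) ⟨g, hg⟩ hx).symm.trans
      ((res_eq_iff (by rwa [val_smul_of_eq hg]) hx).2 (h g hg))
  have h2 := val_int_le w (algebraMap (𝓞 K) (𝓞 N) a)
  exact ⟨a, (res_eq_iff h2 hx).1 ((res_int w _).trans ha)⟩

lemma ord_nonneg {v : Pl K} {x : K} (h : val v x ≤ 1) : 0 ≤ ord v x := by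
  rcases eq_or_ne x 0 with rfl | hx
  · simp [ord]
  rw [val_eq_exp v hx, ← exp_zero, exp_le_exp] at h
  omega

lemma absNorm_eq_prod {b : 𝓞 K} (hb : b ≠ 0) {S : Finset (Pl K)} (hS : ∀ v ∉ S, ord v (b : K) = 0) :
    (Algebra.norm ℤ b).natAbs = ∏ v ∈ S, nP v ^ (ord v (b : K)).toNat := by
  have h0 : Ideal.span {b} ≠ 0 := by simpa using hb
  have h1 : ∀ v : Pl K, v.maxPowDividing (Ideal.span {b}) = v.asIdeal ^ (ord v (b : K)).toNat := by
    intro v
    rw [ord_eq_of_val ((v.valuation_of_algebraMap b).trans (v.intValuation_if_neg hb)),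
      Int.toNat_natCast]
    rfl
  rw [← Ideal.absNorm_span_singleton, ← Ideal.finprod_heightOneSpectrum_factorization h0,
    finprod_eq_prod_of_mulSupport_subset (s := S), map_prod]
  · exact Finset.prod_congr rfl fun v _ => by rw [h1, map_pow]; rfl
  · intro v hv
    by_contra h
    exact hv ((h1 v).trans (by rw [hS v h]; simp))

end Pool.Agent.Lib.MP_580eba_nt
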