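import Pool.Agent.Lib.MP_580eba_nt.Resid

-- part Pool.Agent.Lib.MP_580eba_nt.Quad
section

/-!
Quadratic extensions and local norms.
-/

namespace Pool.Agent.Lib.MP_580eba_nt

open NumberField Subgroup WithZero

universe u

/-- Kummer data for a quadratic extension. -/
structure QD (K M : Type*) [Field K] [Field M] [Algebra K M] where
  σ : M ≃ₐ[K] M
  r : M
  a : Kˣ
  σr : σ • r = -r
  sq : r ^ 2 = algebraMap K M a
  span : ∀ x, ∃ s t : K, x = algebraMap K M s + algebraMap K M t * r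

lemma exists_QD {K : Type u} [Field K] [NumberField K] (b : Kˣ) (hb : ¬ IsSquare (b : K)) :
    ∃ (M : Type u) (_ : Field M) (_ : NumberField M) (_ : Algebra K M) (Q : QD K M), Q.a = b := by
  have : Fact (∀ r : K, r ^ 2 ≠ b + 0 * r) := ⟨fun r h => hb ⟨r, by linear_combination -h⟩⟩
  refine ⟨QuadraticAlgebra K b 0, inferInstance, NumberField.of_module_finite K _, inferInstance,
    ⟨AlgEquiv.ofRingEquiv (f := starRingAut) fun x => ?_, QuadraticAlgebra.omega, b, ?_, ?_,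
      fun x => ⟨x.re, x.im, ?_⟩⟩, rfl⟩
  · ext <;> simp
  · ext <;> simp
  · ext <;> simp [pow_two]
  · ext <;> simp

/-- Units congruent to one modulo four times the prime. -/
noncomputable def U4 {K : Type*} [Field K] [NumberField K] (v : Pl K) : Subgroup Kˣ :=
  Ug v (val v 4) (val_ne_zero v (by norm_num)) (by simpa using val_natCast_le v 4)

/-- Local squares. -/
noncomputable def SQ {K : Type*} [Field K] [NumberField K] (v : Pl K) : Subgroup Kˣ :=
  (powMonoidHom 2 : Kˣ →* Kˣ).range ⊔ U4 v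

variable {K M : Type*} [Field K] [Field M] [NumberField K] [NumberField M] [Algebra K M]

lemma val_four_le (v : Pl K) : val v 4 ≤ 1 := by simpa using val_natCast_le v 4

lemma mem_U4 {v : Pl K} {x : Kˣ} : x ∈ U4 v ↔ val v ((x : K) - 1) < val v 4 := Iff.rfl

lemma U4_le_U1 (v : Pl K) : U4 v ≤ U1 v := fun _ hx => lt_of_lt_of_le hx (val_four_le v)

lemma U4_eq_U1 {v : Pl K} (h : val v (2 : K) = 1) : U4 v = U1 v := by
  ext x
  rw [mem_U4, mem_U1, val_four, h, one_pow]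

lemma mem_SQ {v : Pl K} {x : Kˣ} : x ∈ SQ v ↔ ∃ t : Kˣ, x / t ^ 2 ∈ U4 v := by
  constructor
  · intro h
    obtain ⟨_, ⟨t, rfl⟩, y, hy, rfl⟩ := mem_sup.1 h
    exact ⟨t, by simpa using hy⟩
  · rintro ⟨t, ht⟩
    exact mem_sup.2 ⟨_, ⟨t, rfl⟩, _, ht, by simp⟩

lemma sq_mem_SQ (v : Pl K) (t : Kˣ) : t ^ 2 ∈ SQ v := mem_sup_left ⟨t, rfl⟩

lemma val_map_four (u : Pl M) {x : K} :
    (val u (algebraMap K M x - 1) < val u 4 ↔ val (und K u) (x - 1) < val (und K u) 4) ∧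
    (val u (algebraMap K M x - 1) ≤ val u 4 ↔ val (und K u) (x - 1) ≤ val (und K u) 4) := by
  rw [← map_one (algebraMap K M), ← map_sub, ← map_ofNat (algebraMap K M) 4, ← not_lt, ← not_lt,
    val_map_lt_iff, val_map_lt_iff]
  exact ⟨Iff.rfl, Iff.rfl⟩

lemma val_two_map (u : Pl M) : val u (2 : M) < 1 ↔ val (und K u) (2 : K) < 1 := by
  rw [← val_map_lt_one, map_ofNat (algebraMap K M)]

namespace QD

variable (Q : QD K M)

omit [NumberField K] [NumberField M] in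
lemma r0 : Q.r ≠ 0 := fun h => by
  have := Q.sq
  rw [h, zero_pow two_ne_zero, eq_comm, map_eq_zero] at this
  exact Q.a.ne_zero this

omit [NumberField K] in
lemma σr_ne : Q.σ • Q.r ≠ Q.r := fun h => Q.r0 (by
  rw [Q.σr] at h
  linear_combination (-1 / 2 : M) * h)

omit [NumberField K] in
lemma σ_ne : Q.σ ≠ 1 := fun h => Q.σr_ne (by rw [h, one_smul])

omit [NumberField K] [NumberField M] in
lemma ext' {g h : M ≃ₐ[K] M} (H : g • Q.r = h • Q.r) : g = h := AlgEquiv.ext fun x => by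
  obtain ⟨s, t, rfl⟩ := Q.span x
  simp only [map_add, map_mul, AlgEquiv.commutes]
  exact congrArg (_ + _ * ·) H

omit [NumberField K] [NumberField M] in
lemma cases (g : M ≃ₐ[K] M) : g = 1 ∨ g = Q.σ := by
  rcases smul_eq_or (g := g) (s := Q.r) (by rw [Q.sq]; exact g.commutes _) with h | h
  · exact Or.inl (Q.ext' h)
  · exact Or.inr (Q.ext' (h.trans Q.σr.symm))

omit [NumberField K] [NumberField M] in
lemma σ_mul : Q.σ * Q.σ = 1 := Q.ext' (by rw [mul_smul, Q.σr, smul_neg, Q.σr, neg_neg, one_smul])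

omit [NumberField K] [NumberField M] in
lemma σ_inv : Q.σ⁻¹ = Q.σ := inv_eq_of_mul_eq_one_left Q.σ_mul

omit [NumberField K] in
lemma fixed {x : M} (h : Q.σ • x = x) : ∃ s, algebraMap K M s = x := by
  obtain ⟨s, t, rfl⟩ := Q.span x
  rw [smul_add, smul_mul', smul_algebraMap, smul_algebraMap, Q.σr] at h
  exact ⟨s, by linear_combination (1 / 2 : M) * h⟩

include Q in
lemma isGalois : IsGalois K M := IsGalois.of_fixedField_eq_bot K M (eq_bot_iff.2 fun _ hx =>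
  IntermediateField.mem_bot.2 (Q.fixed (hx ⟨Q.σ, mem_top _⟩)))

omit [NumberField K] [NumberField M] in
lemma mem_zpowers (g : M ≃ₐ[K] M) : g ∈ zpowers Q.σ := by
  rcases Q.cases g with rfl | rfl
  exacts [one_mem _, Subgroup.mem_zpowers _]

lemma univ_eq [DecidableEq (M ≃ₐ[K] M)] : (Finset.univ : Finset (M ≃ₐ[K] M)) = {1, Q.σ} :=
  Finset.ext fun g => by simpa using Q.cases g

include Q in
lemma card : Fintype.card (M ≃ₐ[K] M) = 2 := by
  classical
  rw [← Finset.card_univ, Q.univ_eq, Finset.card_pair Q.σ_ne.symm]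

lemma nrm_eq {A : Type*} [CommGroup A] (a : (M ≃ₐ[K] M) →* Monoid.End A) (x : A) :
    nrm a x = x * a Q.σ x := by
  classical
  rw [nrm_apply, Q.univ_eq, Finset.prod_pair Q.σ_ne.symm, act_one]

/-- The ramified primes. -/
def R : Set (Pl M) := {u | Q.σ ∈ In (M ≃ₐ[K] M) u}

/-- The norm map. -/
def nm : Mˣ →* Mˣ := MonoidHom.mk' (fun y => y * actU (M ≃ₐ[K] M) M Q.σ y) fun x y => by
  rw [map_mul, mul_mul_mul_comm]

omit [NumberField K] [NumberField M] in
lemma nm_apply (y : Mˣ) : Q.nm y = y * actU (M ≃ₐ[K] M) M Q.σ y := rfl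

omit [NumberField K] [NumberField M] in
lemma nm_val (y : Mˣ) : (Q.nm y : M) = y * Q.σ • (y : M) := rfl

omit [NumberField K] [NumberField M] in
lemma nm_mp (t : Kˣ) : Q.nm (mp K M t) = mp K M (t ^ 2) := by
  rw [nm_apply, act_mp, pow_two, map_mul]

omit [NumberField K] in
lemma exists_nm (y : Mˣ) : ∃ t : Kˣ, mp K M t = Q.nm y := by
  obtain ⟨s, hs⟩ := Q.fixed (x := Q.nm y) (by
    rw [nm_val, smul_mul', ← mul_smul, Q.σ_mul, one_smul, mul_comm])
  exact ⟨Units.mk0 s (by rintro rfl; exact (Q.nm y).ne_zero (by rw [← hs, map_zero])), Units.ext hs⟩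

omit [NumberField K] in
lemma ord_nm {u : Pl M} (h : Q.σ • u = u) (y : Mˣ) : ord u (Q.nm y : M) = 2 * ord u (y : M) := by
  rw [nm_val, ord_mul u y.ne_zero ((smul_ne_zero_iff_ne _).2 y.ne_zero), ord_smul_of_eq h, two_mul]

lemma notMem_R {u : Pl M} {t : Kˣ} (h1 : Q.a / t ^ 2 ∈ UU (und K u))
    (h2 : val (und K u) (((Q.a / t ^ 2 : Kˣ) : K) - 1) ≤ val (und K u) 4) : u ∉ Q.R := fun h => by
  have h0 : algebraMap K M t ≠ 0 := by simp
  have h3 : (Q.r / algebraMap K M t) ^ 2 = algebraMap K M (Q.a / t ^ 2 : Kˣ) := by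
    simp [div_pow, Q.sq]
  have := In_fix_of_sq h (s := Q.r / algebraMap K M t) (by rw [h3, smul_algebraMap])
    (by rw [h3]; exact (val_map_eq_one u).2 h1) (by rw [h3]; exact (val_map_four u).2.2 h2)
  rw [smul_div₀', smul_algebraMap, div_left_inj' h0] at this
  exact Q.σr_ne this

lemma notMem_R_odd {u : Pl M} (h : val (und K u) (2 : K) = 1) (h1 : Even (ord (und K u) (Q.a : K))) :
    u ∉ Q.R := by
  obtain ⟨n, hn⟩ := h1
  obtain ⟨t, ht, h2⟩ := exists_ord_eq (und K u) n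
  have h3 : Q.a / Units.mk0 t ht ^ 2 ∈ UU (und K u) :=
    div_mem_UU.2 (by rw [Units.val_pow_eq_pow_val, ord_pow, Units.val_mk0, h2, hn]; ring)
  refine Q.notMem_R h3 ?_
  rw [val_four, h, one_pow]
  exact Valuation.map_sub_le _ (mem_UU.1 h3).le (by simp)

lemma finite_R : Q.R.Finite := by
  refine (finite_und ((finite_val (two_ne_zero' K)).union (finite_ord (Q.a : K)))).subset
    fun u hu => ?_
  by_contra h
  simp only [Set.mem_ofPred_eq, Set.mem_union, not_or, not_not] at h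
  exact Q.notMem_R_odd h.1 (by rw [h.2]; exact Even.zero) hu

omit [NumberField K] [NumberField M] in
lemma smul_mem_R (g : M ≃ₐ[K] M) (u : Pl M) (h : u ∈ Q.R) : g • u ∈ Q.R := by
  rcases Q.cases g with rfl | rfl
  · rwa [one_smul]
  · rwa [smul_eq_of_mem_In h]

lemma ee_eq_one {u : Pl M} (h : u ∉ Q.R) : ee K u = 1 := by
  have := Q.isGalois
  rw [← card_In (M ≃ₐ[K] M), Subgroup.card_eq_one, Subgroup.eq_bot_iff_forall]
  intro g hg
  exact (Q.cases g).resolve_right (by rintro rfl; exact h hg)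

lemma ee_eq_two {u : Pl M} (h : u ∈ Q.R) : ee K u = 2 := by
  have := Q.isGalois
  rw [← card_In (M ≃ₐ[K] M), ← Q.card, ← Nat.card_eq_fintype_card, Subgroup.card_eq_iff_eq_top,
    eq_top_iff]
  rintro g -
  rcases Q.cases g with rfl | rfl
  exacts [one_mem _, h]

lemma split {u : Pl M} (h : Q.a ∈ SQ (und K u)) : Q.σ • u ≠ u := fun hu => by
  obtain ⟨t, ht⟩ := mem_SQ.1 h
  have h3 : (Q.r / algebraMap K M t) ^ 2 = algebraMap K M (Q.a / t ^ 2 : Kˣ) := by
    simp [div_pow, Q.sq]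
  have h4 := (val_map_four u).1.2 ht
  set η := (1 + Q.r / algebraMap K M t) / 2 with hη
  have h5 : val u η * val u (η - 1) < 1 := by
    rw [← map_mul, show η * (η - 1) = ((Q.r / algebraMap K M t) ^ 2 - 1) / 4 by rw [hη]; ring, h3,
      map_div₀, div_lt_one₀ (val_pos u (by norm_num))]
    exact h4
  have h6 : Q.σ • η = -(η - 1) := by
    rw [hη, smul_div₀', smul_add, smul_one, smul_div₀', smul_algebraMap, Q.σr,
      show Q.σ • (2 : M) = 2 from map_ofNat Q.σ 2]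
    ring
  have h7 : val u (η - 1) = val u η := by rw [← val_smul_of_eq hu η, h6, Valuation.map_neg]
  rw [h7, ← pow_two, pow_lt_one_iff two_ne_zero] at h5
  have h8 := Valuation.map_sub_lt _ h5 (h7.trans_lt h5)
  simp at h8

/-- Local norms. -/
noncomputable def Loc (v : Pl K) : Subgroup Kˣ :=
  ⨅ (u : Pl M) (_ : und K u = v) (_ : Q.σ • u = u), (Q.nm.range ⊔ WW Q.R u).comap (mp K M)

lemma mem_Loc {v : Pl K} {x : Kˣ} : x ∈ Q.Loc v ↔ ∀ u : Pl M, und K u = v → Q.σ • u = u →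
    ∃ y, mp K M x / Q.nm y ∈ WW Q.R u := by
  simp only [Loc, mem_iInf, mem_comap]
  refine forall₃_congr fun u _ _ => ⟨fun h => ?_, fun ⟨y, hy⟩ => ?_⟩
  · obtain ⟨_, ⟨y, rfl⟩, z, hz, h⟩ := mem_sup.1 h
    exact ⟨y, by simpa [← h] using hz⟩
  · exact mem_sup.2 ⟨_, ⟨y, rfl⟩, _, hy, by simp⟩

lemma mem_Loc_of_nm {x : Kˣ} {y : Mˣ} (h : mp K M x = Q.nm y) (v : Pl K) : x ∈ Q.Loc v :=
  Q.mem_Loc.2 fun u _ _ => ⟨y, by rw [h, div_self']; exact one_mem _⟩

lemma U1_le_Loc (v : Pl K) : U1 v ≤ Q.Loc v := fun x hx => Q.mem_Loc.2 fun u hu _ =>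
  ⟨1, by rw [map_one, div_one]; exact U1_le_WW _ _ (mp_mem_U1.2 (hu ▸ hx))⟩

lemma SQ_le_Loc (v : Pl K) : SQ v ≤ Q.Loc v := by
  refine sup_le ?_ ((U4_le_U1 v).trans (Q.U1_le_Loc v))
  rintro _ ⟨t, rfl⟩
  exact Q.mem_Loc_of_nm (Q.nm_mp t).symm v

lemma UU_le_Loc {v : Pl K} (h : ∀ u, und K u = v → u ∉ Q.R) : UU v ≤ Q.Loc v :=
  fun x hx => Q.mem_Loc.2 fun u hu _ =>
    ⟨1, by rw [map_one, div_one, WW_of_notMem (h u hu)]; exact mp_mem_UU.2 (hu ▸ hx)⟩

lemma mem_Loc_of_even {v : Pl K} (h : ∀ u, und K u = v → u ∉ Q.R) {x : Kˣ}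
    (hx : Even (ord v (x : K))) : x ∈ Q.Loc v := by
  obtain ⟨n, hn⟩ := hx
  obtain ⟨t, ht, h2⟩ := exists_ord_eq v n
  rw [← div_mul_cancel x (Units.mk0 t ht ^ 2)]
  exact mul_mem (Q.UU_le_Loc h (div_mem_UU.2 (by
    rw [Units.val_pow_eq_pow_val, ord_pow, Units.val_mk0, h2, hn]; ring)))
    (Q.SQ_le_Loc v (sq_mem_SQ v _))

lemma mem_Loc_of_split {v : Pl K} (h : Q.a ∈ SQ v) (x : Kˣ) : x ∈ Q.Loc v :=
  Q.mem_Loc.2 fun _ hu h' => absurd h' (Q.split (hu ▸ h))

lemma even_of_mem_Loc {u : Pl M} (h : u ∉ Q.R) (h' : Q.σ • u = u) {x : Kˣ}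
    (hx : x ∈ Q.Loc (und K u)) : Even (ord (und K u) (x : K)) := by
  obtain ⟨y, hy⟩ := Q.mem_Loc.1 hx u rfl h'
  have h1 := div_mem_UU.1 (WW_le _ _ hy)
  rw [Q.ord_nm h', show ((mp K M x : Mˣ) : M) = algebraMap K M x from rfl, ord_map, Q.ee_eq_one h,
    Nat.cast_one, one_mul] at h1
  exact ⟨_, h1.trans (two_mul _)⟩

lemma lft_mem {i : Pl K → Kˣ} (hi : i ∈ JJ K) (h : ∀ v, i v ∈ Q.Loc v) :
    lft K M i ∈ (JJ M).map (nrm (tw (Pl M) (actU (M ≃ₐ[K] M) M))) ⊔ WWW Q.R := by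
  classical
  have := Q.isGalois
  choose w hw using exists_und (K := K) M
  choose y hy using fun (u : Pl M) (hu : Q.σ • u = u) => Q.mem_Loc.1 (h (und K u)) u rfl hu
  let j : Pl M → Mˣ := fun u =>
    if hu : Q.σ • u = u then y u hu else if u = w (und K u) then mp K M (i (und K u)) else 1
  refine mem_sup.2 ⟨_, ⟨j, (finite_und hi).subset fun u hu h1 => hu ?_, rfl⟩, lft K M i / _,
    mem_WWW.2 fun u => ?_, mul_div_cancel _ _⟩
  · simp only [j]
    split_ifs with h2 h3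
    · have h3 := div_mem_UU.1 (WW_le _ _ (hy u h2))
      rw [Q.ord_nm h2, mem_UU'.1 (mp_mem_UU.2 h1)] at h3
      exact mem_UU'.2 (by omega)
    · exact mp_mem_UU.2 h1
    · exact one_mem _
  · rw [Q.nrm_eq, Pi.div_apply, Pi.mul_apply, tw_apply, Q.σ_inv]
    by_cases h2 : Q.σ • u = u
    · simp only [h2, j, dif_pos]
      exact hy u h2
    have h3 : Q.σ • Q.σ • u = u := by rw [← mul_smul, Q.σ_mul, one_smul]
    have h4 : ¬ Q.σ • Q.σ • u = Q.σ • u := by rw [h3]; exact Ne.symm h2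
    simp only [j, dif_neg h2, dif_neg h4, und_smul]
    by_cases h5 : u = w (und K u)
    · rw [if_pos h5, if_neg (by rw [← h5]; exact h2), map_one, mul_one]
      exact (div_self' (lft K M i u)).symm ▸ one_mem _
    · obtain ⟨g, hg⟩ := exists_smul_eq (M ≃ₐ[K] M) (hw (und K u)).symm
      rcases Q.cases g with rfl | rfl
      · exact absurd ((one_smul _ u).symm.trans hg) h5
      · rw [if_neg h5, if_pos hg, act_mp, one_mul]
        exact (div_self' (lft K M i u)).symm ▸ one_mem _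

/-- No ramification above two. -/
def Tame : Prop := ∀ u ∈ Q.R, val u (2 : M) = 1

/-- Principal ideles times local norms. -/
noncomputable def NL : Subgroup (Pl K → Kˣ) :=
  (cst (Pl K) Kˣ).range ⊔ (Subgroup.pi Set.univ Q.Loc ⊓ JJ K)

theorem main [IsTotallyComplex K] (ht : Q.Tame) : ∃ c : ℕ, c ≠ 0 ∧ 2 * c ∣ Q.NL.relIndex (JJ K) ∧
    (c = 1 → ∀ b : Kˣ, (∀ v, b ∈ Q.Loc v) → ∃ y, Q.nm y = mp K M b) := by
  have := Q.isGalois
  obtain ⟨c, hc, h1, h2⟩ := side Q.mem_zpowers Q.finite_R Q.smul_mem_R fun u x hx => by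
    by_cases hu : u ∈ Q.R
    · have h3 := hx Q.σ (smul_eq_of_mem_In hu)
      rw [WW_of_mem hu] at h3 ⊢
      rw [div_mem_U1, actU_val] at h3
      obtain ⟨s, hs⟩ := Q.fixed (x := (Q.σ • (x : M) + x) / 2) (by
        rw [smul_div₀', smul_add, ← mul_smul, Q.σ_mul, one_smul, add_comm,
          show Q.σ • (2 : M) = 2 from map_ofNat Q.σ 2])
      have h4 : val u (algebraMap K M s - x) < val u (x : M) := by
        rwa [hs, show (Q.σ • (x : M) + x) / 2 - x = (Q.σ • (x : M) - x) / 2 by ring, map_div₀,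
          ht u hu, div_one]
      have h5 : s ≠ 0 := by rintro rfl; simp at h4
      refine ⟨Units.mk0 s h5, ?_⟩
      rw [← inv_mem_iff, inv_div, div_mem_U1]
      exact h4
    · rw [WW_of_notMem hu]
      exact exists_div_mp_mem_UU (Q.ee_eq_one hu) x
  rw [Q.card] at h1
  refine ⟨c, hc, h1.trans (relIndex_dvd_of_le_left _ (sup_le_sup_left
    (fun i hi => Q.lft_mem hi.2 fun v => hi.1 v trivial) _)), fun h b hb => ?_⟩
  obtain ⟨y, hy⟩ := h2 h b (Q.lft_mem (cst_mem_JJ b) hb)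
  exact ⟨y, (Q.nrm_eq _ y).symm.trans hy⟩

theorem first [IsTotallyComplex K] (ht : Q.Tame) :
    ¬ ∀ j ∈ JJ K, ∃ x : Kˣ, ∀ v, j v / x ∈ Q.Loc v := fun h => by
  obtain ⟨c, hc, h1, -⟩ := Q.main ht
  rw [relIndex_eq_one.2 fun j hj => ?_] at h1
  · have := Nat.le_of_dvd one_pos h1
    omega
  · obtain ⟨x, hx⟩ := h j hj
    exact mem_sup.2 ⟨_, ⟨x, rfl⟩, j / cst _ _ x,
      ⟨fun v _ => hx v, (JJ K).div_mem hj (cst_mem_JJ x)⟩, mul_div_cancel _ _⟩

end QD

end Pool.Agent.Lib.MP_580eba_nt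
end

-- part Pool.Agent.Lib.MP_580eba_nt.SUnit
section

/-!
S-units modulo squares and local squares.
-/

namespace Pool.Agent.Lib.MP_580eba_nt

open NumberField Subgroup WithZero

variable {K : Type*} [Field K] [NumberField K]

/-- The squaring map. -/
abbrev pw (M : Type*) [CommGroup M] : M →* M := powMonoidHom 2

/-- The group of `S`-units. -/
def ES (S : Finset (Pl K)) : Subgroup Kˣ := ⨅ v ∉ S, UU v

lemma mem_ES {S : Finset (Pl K)} {x : Kˣ} : x ∈ ES S ↔ ∀ v ∉ S, x ∈ UU v := by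
  simp [ES, mem_iInf]

lemma stab_pw {M : Type*} [CommGroup M] (A : Subgroup M) : Stab 1 (pw M) A :=
  ⟨by rintro _ ⟨x, -, rfl⟩; exact one_mem _, by rintro _ ⟨x, hx, rfl⟩; exact pow_mem hx 2⟩

lemma transfer_pw {M M' : Type*} [CommGroup M] [CommGroup M'] (f : M →* M') (A' : Subgroup M')
    (B : Subgroup M) {r : ℚ} :
    HQ 1 (pw M) (A'.comap f ⊓ B) B r ↔ HQ 1 (pw M') A' (B.map f ⊔ A') r :=
  HQ.transfer f (fun _ => map_one f) (fun x => map_pow f x 2) (stab_pw _) (stab_pw _)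

lemma finite_pw {M : Type*} [CommGroup M] {A B : Subgroup M} (h : A ≤ B) (h' : A.relIndex B ≠ 0) :
    HQ 1 (pw M) A B 1 :=
  HQ.of_finite (fun _ => rfl) (fun _ => one_pow 2) h (stab_pw _) (stab_pw _) h'

lemma mid_pw {M : Type*} [CommGroup M] {A B C : Subgroup M} (h : A ≤ B) (h' : B ≤ C) {r s : ℚ}
    (hr : HQ 1 (pw M) A B r) (hs : HQ 1 (pw M) B C s) : HQ 1 (pw M) A C (r * s) :=
  HQ.mid (fun _ => rfl) (fun _ => one_pow 2) h h' (stab_pw _) (stab_pw _) (stab_pw _) hr hs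

lemma HQ_ES_empty : HQ 1 (pw Kˣ) ⊥ (ES (∅ : Finset (Pl K))) (2 ^ Units.rank K) := by
  let f : (𝓞 K)ˣ →* Kˣ := Units.map (algebraMap (𝓞 K) K : 𝓞 K →* K)
  have h1 : (⊥ : Subgroup Kˣ).comap f ⊓ ⊤ = ⊥ := by
    rw [inf_top_eq, MonoidHom.comap_bot, MonoidHom.ker_eq_bot_iff]
    exact Units.map_injective (IsFractionRing.injective (𝓞 K) K)
  have h2 : (⊤ : Subgroup _).map f ⊔ ⊥ = ES ∅ := by
    rw [sup_bot_eq]
    ext x
    rw [mem_ES]
    constructor
    · rintro ⟨u, -, rfl⟩ v -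
      exact val_unit v u
    · intro hx
      obtain ⟨u, hu⟩ := exists_unit_of_val fun v => hx v (by simp)
      exact ⟨u, mem_top _, Units.ext hu⟩
  let π := QuotientGroup.mk' (Units.torsion K)
  have h3 : (⊥ : Subgroup _).comap π ⊓ ⊤ = Units.torsion K := by
    rw [inf_top_eq, MonoidHom.comap_bot]
    exact QuotientGroup.ker_mk' _
  have h4 : (⊤ : Subgroup _).map π ⊔ ⊥ = ⊤ := by
    rw [sup_bot_eq, ← MonoidHom.range_eq_map]
    exact QuotientGroup.range_mk' _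
  have H : HQ 1 (pw ((𝓞 K)ˣ ⧸ Units.torsion K)) ⊥ ⊤ _ :=
    HQ_pow_free (Additive ((𝓞 K)ˣ ⧸ Units.torsion K)) two_ne_zero
  rw [← h4, ← transfer_pw, h3, Units.finrank_modTorsion] at H
  rw [← h2, ← transfer_pw, h1]
  simpa using mid_pw bot_le le_top (finite_pw bot_le (by simp [Nat.card_pos.ne'])) H

lemma HQ_ES (S : Finset (Pl K)) : HQ 1 (pw Kˣ) (ES (∅ : Finset (Pl K))) (ES S) (2 ^ S.card) := by
  classical
  let o : Kˣ →* Multiplicative (S → ℤ) := MonoidHom.mk'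
    (fun x => Multiplicative.ofAdd fun v => ord (v : Pl K) (x : K)) fun x y =>
      funext fun v => ord_mul _ x.ne_zero y.ne_zero
  have h1 : (⊥ : Subgroup _).comap o ⊓ ES S = ES ∅ := by
    ext x
    rw [mem_inf, mem_ES, mem_ES]
    refine ⟨fun h v _ => ?_, fun h => ⟨funext fun v => mem_UU'.1 (h v (by simp)), fun v _ => h v (by simp)⟩⟩
    by_cases hv : v ∈ S
    · exact mem_UU'.2 (congrFun h.1 ⟨v, hv⟩)
    · exact h.2 v hv
  choose t ht0 ht using fun v : Pl K => exists_ord_eq v 1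
  let ι : Multiplicative (S → ℤ) →* (Pl K → Kˣ) := MonoidHom.mk'
    (fun n v => if h : v ∈ S then Units.mk0 (t v) (ht0 v) ^ n.toAdd ⟨v, h⟩ else 1) fun m n => by
      funext v
      by_cases h : v ∈ S <;> simp [h, zpow_add]
  have h2 : (JJ K).comap ι = ⊤ := eq_top_iff.2 fun n _ => S.finite_toSet.subset fun v hv => by
    by_contra h
    exact hv (by simp [ι, show v ∉ S from h, one_mem])
  have h3 : ((cst (Pl K) Kˣ).range ⊔ UUU K).comap ι ≤ (ES S).map o ⊔ ⊥ := fun n hn => by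
    obtain ⟨_, ⟨x, rfl⟩, u, hu, h⟩ := mem_sup.1 hn
    have h4 : ∀ v, ord v (x : K) = ord v (ι n v : K) := fun v => by
      rw [← h, Pi.mul_apply, Units.val_mul, ord_mul v (Units.ne_zero _) (u v).ne_zero,
        mem_UU'.1 (mem_UUU.1 hu v), add_zero, cst_apply]
    refine mem_sup_left ⟨x, mem_ES.2 fun v hv => mem_UU'.2 ?_, funext fun v => ?_⟩
    · simp [h4, ι, hv, ord_one]
    · change ord v.1 (x : K) = _
      simp [h4, ι, ord_zpow, ht]
      rfl
  have h4 := relIndex_comap_ne_zero ι (relIndex_class K)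
  rw [h2] at h4
  have H := HQ.left (fun _ => rfl) (fun _ => one_pow 2) bot_le le_top (stab_pw _) (stab_pw _)
    (stab_pw _) (finite_pw le_top fun h => h4 (relIndex_eq_zero_of_le_left h3 h))
    (HQ_pow_free (S → ℤ) two_ne_zero)
  rw [← transfer_pw, h1] at H
  simpa using H

theorem index_ES (S : Finset (Pl K)) : ((ES S).map (pw Kˣ)).relIndex (ES S) =
    2 ^ (S.card + Fintype.card (InfinitePlace K)) := by
  have H := (mid_pw bot_le (fun x hx => mem_ES.2 fun v _ => mem_ES.1 hx v (by simp))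
    HQ_ES_empty (HQ_ES S)).2.2
  have h1 : hq (pw Kˣ) 1 ⊥ (ES S) = 2 := by
    have h2 : (⊥ : Subgroup Kˣ).comap (pw Kˣ) ⊓ ES S = zpowers (-1) := by
      refine le_antisymm (fun x hx => ?_) (zpowers_le.2 ⟨by simp, mem_ES.2 fun v _ => by simp [mem_UU]⟩)
      have h3 : (x : K) ^ 2 = 1 ^ 2 := by simpa using congrArg Units.val (mem_bot.1 hx.1)
      rcases sq_eq_sq_iff_eq_or_eq_neg.1 h3 with h | h
      · rw [show x = 1 from Units.ext h]; exact one_mem _
      · rw [show x = -1 from Units.ext h]; exact mem_zpowers _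
    rw [hq, h2, map_one_eq_bot, bot_sup_eq, relIndex_bot_left, Nat.card_zpowers]
    exact orderOf_eq_prime (by simp) (by simp [Units.ext_iff]; norm_num)
  rw [h1, hq, sup_bot_eq, MonoidHom.comap_bot, MonoidHom.ker_one, top_inf_eq] at H
  have h2 : Fintype.card (InfinitePlace K) = Units.rank K + 1 :=
    (Nat.succ_pred_eq_of_pos Fintype.card_pos).symm
  rw [h2]
  refine Nat.cast_injective (R := ℚ) (H.trans ?_)
  push_cast
  ring

theorem exists_gens (Z : Finset (Pl K)) : ∃ T : Finset (Pl K), Disjoint T Z ∧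
    ∀ j ∈ JJ K, ∃ x : Kˣ, ∀ v ∉ T, j v / x ∈ UU v := by
  classical
  set A := ((cst (Pl K) Kˣ).range ⊔ UUU K).subgroupOf (JJ K)
  have : Finite (JJ K ⧸ A) := index_ne_zero_iff_finite.1 (relIndex_class K)
  choose y hy using fun q : JJ K ⧸ A => exists_approx_unit Z (q.out : JJ K).1 (fun _ => 1)
    fun _ => one_ne_zero
  have h1 : (⋃ q : JJ K ⧸ A, {v | (q.out : JJ K).1 v / y q ∉ UU v}).Finite :=
    Set.finite_iUnion fun q => (JJ K).div_mem (q.out : JJ K).2 (cst_mem_JJ (y q))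
  refine ⟨h1.toFinset, Finset.disjoint_left.2 fun v hv hZ => ?_, fun j hj => ?_⟩
  · obtain ⟨q, hq⟩ := Set.mem_iUnion.1 (h1.mem_toFinset.1 hv)
    exact hq (by rw [← inv_mem_iff, inv_div]; exact U1_le_UU v (hy q v hZ))
  · let q : JJ K ⧸ A := QuotientGroup.mk ⟨j, hj⟩
    obtain ⟨_, ⟨x, rfl⟩, u, hu, h⟩ := mem_sup.1 (mem_subgroupOf.1 (QuotientGroup.eq.1 q.out_eq))
    refine ⟨x * y q, fun v hv => ?_⟩
    have h2 : (q.out : JJ K).1 v / y q ∈ UU v := by
      by_contra h2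
      exact hv (h1.mem_toFinset.2 (Set.mem_iUnion.2 ⟨q, h2⟩))
    have h3 : x * u v = ((q.out : JJ K).1 v)⁻¹ * j v := congrFun h v
    rw [show j v / (x * y q) = (q.out : JJ K).1 v / y q * u v by
      rw [eq_inv_mul_iff_mul_eq.1 h3 |>.symm, mul_left_comm, mul_div_mul_left_eq_div,
        div_mul_eq_mul_div]]
    exact mul_mem h2 (mem_UUU.1 hu v)

lemma even_of_div_sq {v : Pl K} {x t : Kˣ} (h : x / t ^ 2 ∈ UU v) : Even (ord v (x : K)) :=
  ⟨ord v t, by rw [div_mem_UU.1 h, Units.val_pow_eq_pow_val, ord_pow]; ring⟩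

lemma exists_div_sq {v : Pl K} {x : Kˣ} (h : Even (ord v (x : K))) : ∃ t : Kˣ, x / t ^ 2 ∈ UU v := by
  obtain ⟨n, hn⟩ := h
  obtain ⟨t, ht, h2⟩ := exists_ord_eq v n
  exact ⟨Units.mk0 t ht, div_mem_UU.2 (by
    rw [Units.val_pow_eq_pow_val, ord_pow, Units.val_mk0, h2, hn]; ring)⟩

lemma even_div {v : Pl K} {x y : Kˣ} (h : (ord v (x : K) : ZMod 2) = ord v (y : K)) :
    Even (ord v ((x / y : Kˣ) : K)) := by
  rw [Units.val_div_eq_div_val, ord_div v x.ne_zero y.ne_zero, even_iff_two_dvd]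
  exact (ZMod.intCast_eq_intCast_iff_dvd_sub _ _ 2).1 h.symm

lemma index_SQ (v : Pl K) :
    (SQ v).index ≠ 0 ∧ (SQ v).index ≤ 4 * nP v ^ (ord v (2 : K)).toNat := by
  classical
  have h2 : (2 : K) ≠ 0 := two_ne_zero
  have h1 := relIndex_ne_zero_of_fun (A := UU v ⊔ SQ v) (B := ⊤)
    (fun x => (ord v (x : K) : ZMod 2)) fun x _ y _ h => by
      obtain ⟨t, ht⟩ := exists_div_sq (even_div h)
      exact mem_sup.2 ⟨_, ht, _, sq_mem_SQ v t, div_mul_cancel _ _⟩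
  obtain ⟨π, hπ0, hπ⟩ := exists_ord_eq v 1
  have hπ1 : val v π = exp (-1) := by rw [val_eq_exp v hπ0, hπ]
  have hex : ∀ x : Kˣ, ∃ (e : ℤˣ) (a : 𝓞 K), x ^ 2 ∈ U4 v →
      val v ((a : K) - (((e : ℤ) : K) * x - 1) / (2 * π)) < val v 2 := fun x => by
    by_cases hx : x ^ 2 ∈ U4 v
    · have h3 : ∃ e : ℤˣ, val v (((e : ℤ) : K) * x - 1) < val v 2 := by
        by_contra! h3
        have h4 := mul_le_mul' (h3 1) (h3 (-1))
        rw [← map_mul, ← map_mul, show (2 : K) * 2 = 4 by norm_num,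
          show ((((1 : ℤˣ) : ℤ) : K) * x - 1) * ((((-1 : ℤˣ) : ℤ) : K) * x - 1) =
            -(((x ^ 2 : Kˣ) : K) - 1) by push_cast; ring, Valuation.map_neg] at h4
        exact h4.not_gt hx
      obtain ⟨e, he⟩ := h3
      obtain ⟨a, ha⟩ := v.exists_valuation_sub_lt_of_integer
        (x := (((e : ℤ) : K) * x - 1) / (2 * π)) (by
          rw [map_div₀, map_mul]
          refine div_le_one_of_le₀ ?_ zero_le
          change val v _ ≤ val v 2 * val v π
          rw [← lt_mul_exp_iff_le (mul_ne_zero (val_ne_zero v h2) (val_ne_zero v hπ0)), hπ1,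
            mul_assoc, ← exp_add]
          simpa using he)
        (Units.mk0 _ (val_ne_zero v h2))
      exact ⟨e, a, fun _ => ha⟩
    · exact ⟨1, 0, fun h => absurd h hx⟩
  choose e a ha using hex
  have : Finite (𝓞 K ⧸ v.asIdeal ^ (ord v (2 : K)).toNat) :=
    Ring.HasFiniteQuotients.finiteQuotient (pow_ne_zero _ v.ne_bot)
  have h3 := relIndex_ne_zero_of_fun (A := U4 v) (B := (U4 v).comap (pw Kˣ) ⊓ UU v)
    (fun x => (e x, Ideal.Quotient.mk (v.asIdeal ^ (ord v (2 : K)).toNat) (a x)))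
    fun x hx y hy h => by
      obtain ⟨h3, h4⟩ := Prod.ext_iff.1 h
      have h5 := (v.intValuation_le_pow_iff_mem _ _).2 (Ideal.Quotient.eq.1 h4)
      rw [← v.valuation_of_algebraMap (K := K), Int.toNat_of_nonneg (ord_nonneg (val_two_le v)),
        ← val_eq_exp v h2] at h5
      have h6 := Valuation.map_add_le _ (Valuation.map_sub_le _ h5 (ha x hx.1).le) (ha y hy.1).le
      have h7 : ((e y : ℤ) : K) ≠ 0 := by simp
      have h8 : ((x / y : Kˣ) : K) - 1 = (algebraMap (𝓞 K) K (a x - a y) -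
          ((a x : K) - (((e x : ℤ) : K) * x - 1) / (2 * π)) +
          ((a y : K) - (((e y : ℤ) : K) * y - 1) / (2 * π))) * (2 * π) / (((e y : ℤ) : K) * y) := by
        simp only at h3
        rw [h3, map_sub, Units.val_div_eq_div_val]
        field_simp
        ring
      have h9 : val v ((e y : ℤ) : K) = 1 := by
        rcases Int.units_eq_one_or (e y) with h | h <;> simp [h]
      rw [mem_U4, h8, map_div₀, map_mul, map_mul, map_mul, h9, mem_UU.1 hy.2, mul_one, div_one,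
        val_four, pow_two, ← mul_assoc]
      refine lt_of_le_of_lt (mul_le_mul_left (mul_le_mul_left h6 _) _) ?_
      refine mul_lt_of_lt_one_right (mul_pos (val_pos v h2) (val_pos v h2)) ?_
      rw [hπ1, ← exp_zero, exp_lt_exp]
      decide
  have h4 := (finite_pw (A := U4 v) (Ug_le_UU v _ _ _) (relIndex_Ug v _ _ _)).2.2
  rw [one_mul, Nat.cast_inj, hq, hq, map_one_eq_bot, bot_sup_eq,
    show (U4 v).comap (1 : Kˣ →* Kˣ) = ⊤ from eq_top_iff.2 fun _ _ => one_mem (U4 v), top_inf_eq] at h4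
  rw [← h4, Nat.card_prod, Nat.card_eq_fintype_card, Fintype.card_units_int,
    show Nat.card (𝓞 K ⧸ v.asIdeal ^ (ord v (2 : K)).toNat) = nP v ^ (ord v (2 : K)).toNat from
      map_pow Ideal.absNorm v.asIdeal _] at h3
  have h5 : (UU v).map (pw Kˣ) ⊔ U4 v ≤ SQ v := sup_le_sup_right (map_le_range _ _) _
  rw [relIndex_top_right, Nat.card_zmod] at h1
  rw [← relIndex_mul_index (le_sup_right : SQ v ≤ UU v ⊔ SQ v), relIndex_sup_right]
  refine ⟨mul_ne_zero (fun h => h3.1 (relIndex_eq_zero_of_le_left h5 h)) h1.1, ?_⟩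
  refine (Nat.mul_le_mul ((relIndex_le_of_le_left h5 h3.1).trans h3.2) h1.2).trans_eq (by ring)

lemma prod_nP_two [IsTotallyComplex K] {S : Finset (Pl K)} (hS : ∀ v ∉ S, val v (2 : K) = 1) :
    ∏ v ∈ S, nP v ^ (ord v (2 : K)).toNat = 4 ^ Fintype.card (InfinitePlace K) := by
  have h := absNorm_eq_prod (b := (2 : ℕ)) (S := S) (by simp) fun v hv =>
    (ord_eq_zero_iff v two_ne_zero).2 (hS v hv)
  rw [Algebra.norm_natCast, RingOfIntegers.rank, IsTotallyComplex.finrank] at h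
  rw [InfinitePlace.card_eq_nrRealPlaces_add_nrComplexPlaces, IsTotallyComplex.nrRealPlaces_eq_zero,
    zero_add]
  exact h.symm.trans (by simp [pow_mul])

end Pool.Agent.Lib.MP_580eba_nt
end

-- part Pool.Agent.Lib.MP_580eba_nt.Second
section

/-!
The second inequality and the norm theorem for tame quadratic extensions.
-/

namespace Pool.Agent.Lib.MP_580eba_nt

open NumberField Subgroup WithZero

universe u

variable {K M : Type u} [Field K] [Field M] [NumberField K] [NumberField M] [Algebra K M]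

lemma mem_SQ_iff_res {v : Pl K} (h : val v (2 : K) = 1) {x : Kˣ} (hx : x ∈ UU v) :
    x ∈ SQ v ↔ IsSquare (res v x) := by
  rw [mem_SQ, U4_eq_U1 h]
  constructor
  · rintro ⟨t, ht⟩
    have h1 : t ^ 2 ∈ UU v := by simpa using div_mem hx (U1_le_UU v ht)
    have h2 : val v (t : K) = 1 := val_eq_one_of_sq h1
    exact ⟨res v t, by rw [(div_mem_U1_iff_res hx h1).1 ht, ← res_mul h2.le h2.le, pow_two]; rfl⟩
  · rintro ⟨z, hz⟩
    obtain ⟨t, ht, rfl⟩ := exists_unit_res (z := z) (by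
      rintro rfl; exact res_ne_zero hx (by simpa using hz))
    exact ⟨t, (div_mem_U1_iff_res hx (pow_mem ht 2)).2 (by
      rw [hz, ← res_mul (mem_UU.1 ht).le (mem_UU.1 ht).le, pow_two]; rfl)⟩

lemma mul_mem_SQ {v : Pl K} (h : val v (2 : K) = 1) {x y : Kˣ} (hx : x ∈ UU v) (hy : y ∈ UU v)
    (hx' : x ∉ SQ v) (hy' : y ∉ SQ v) : x * y ∈ SQ v := by
  classical
  have := Fintype.ofFinite (RF v)
  rw [mem_SQ_iff_res h hx, ← quadraticChar_neg_one_iff_not_isSquare] at hx'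
  rw [mem_SQ_iff_res h hy, ← quadraticChar_neg_one_iff_not_isSquare] at hy'
  rw [mem_SQ_iff_res h (mul_mem hx hy), ← quadraticChar_one_iff_isSquare (res_ne_zero (mul_mem hx hy)),
    Units.val_mul, res_mul (mem_UU.1 hx).le (mem_UU.1 hy).le, map_mul, hx', hy']
  rfl

lemma mp_mem_SQ {u : Pl M} {x : Kˣ} (h : x ∈ SQ (und K u)) : mp K M x ∈ SQ u := by
  obtain ⟨t, ht⟩ := mem_SQ.1 h
  exact mem_SQ.2 ⟨mp K M t, by rw [← map_pow, ← map_div]; exact (val_map_four u).1.2 ht⟩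

lemma even_of_mem_SQ {v : Pl K} {x : Kˣ} (h : x ∈ SQ v) : Even (ord v (x : K)) :=
  let ⟨_, ht⟩ := mem_SQ.1 h
  even_of_div_sq (Ug_le_UU v _ _ _ ht)

omit [NumberField K] in
lemma exists_sq_eq {x : Kˣ} (h : IsSquare (x : K)) : ∃ t : Kˣ, t ^ 2 = x := by
  obtain ⟨t, ht⟩ := h
  exact ⟨Units.mk0 t (by rintro rfl; simp at ht), Units.ext (by simp [ht, pow_two])⟩

lemma even_of_isSquare (v : Pl K) {x : Kˣ} (h : IsSquare (x : K)) : Even (ord v (x : K)) := by
  obtain ⟨t, rfl⟩ := exists_sq_eq h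
  exact even_of_mem_SQ (sq_mem_SQ v t)

instance : Infinite (Pl K) := by
  choose w hw using fun p : Nat.Primes => exists_pl K p.2
  refine Infinite.of_injective w fun p q h => Subtype.ext ?_
  have := (val_int_lt_iff p.2 (hw p) (a := (q : ℕ))).1 (by rw [h]; exact_mod_cast hw q)
  exact (Nat.prime_dvd_prime_iff_eq p.2 q.2).1 (Int.natCast_dvd_natCast.1 this)

namespace QD

variable (Q : QD K M)

omit [NumberField K] in
lemma mp_a_mem (u : Pl M) : mp K M Q.a ∈ SQ u := by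
  rw [show mp K M Q.a = Units.mk0 Q.r Q.r0 ^ 2 from Units.ext Q.sq.symm]
  exact sq_mem_SQ _ _

omit [NumberField K] in
lemma isSquare_or {x : K} (h : IsSquare (algebraMap K M x)) : IsSquare x ∨ IsSquare (x * Q.a) := by
  obtain ⟨y, hy⟩ := h
  rcases smul_eq_or (g := Q.σ) (s := y) (by rw [pow_two, ← hy, smul_algebraMap]) with h | h
  · obtain ⟨s, rfl⟩ := Q.fixed h
    exact Or.inl ⟨s, (algebraMap K M).injective (by rw [hy, map_mul])⟩
  · obtain ⟨s, hs⟩ := Q.fixed (x := y * Q.r) (by rw [smul_mul', h, Q.σr, neg_mul_neg])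
    exact Or.inr ⟨s, (algebraMap K M).injective (by rw [map_mul, map_mul, hs, hy, ← Q.sq]; ring)⟩

lemma tame_of (h : ∀ v, val v (2 : K) < 1 → Q.a ∈ SQ v) : Q.Tame := fun _ hu =>
  val_two_eq_one fun h1 => Q.split (h _ ((val_two_map _).1 h1)) (smul_eq_of_mem_In hu)

lemma UU_le_Loc_odd {v : Pl K} (h : val v (2 : K) = 1) (h1 : Q.a ∈ UU v) : UU v ≤ Q.Loc v :=
  Q.UU_le_Loc (by rintro u rfl; exact Q.notMem_R_odd h (by rw [mem_UU'.1 h1]; exact Even.zero))

end QD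

theorem exists_inert [IsTotallyComplex K] {b : Kˣ} (hb : ¬ IsSquare (b : K)) {S : Set (Pl K)}
    (hS : S.Finite) : ∃ v ∉ S, b ∉ SQ v := by
  classical
  by_contra! h
  have h2 := finite_val (two_ne_zero' K)
  obtain ⟨v₀, hv₀⟩ := (hS.union h2).exists_notMem
  obtain ⟨π, hπ0, hπ⟩ := exists_ord_eq v₀ 1
  obtain ⟨q, hq⟩ := exists_approx_unit (insert v₀ h2.toFinset)
    (fun v => if v = v₀ then Units.mk0 π hπ0 else 1) (fun v => val v 4)
    fun v => val_ne_zero v (by norm_num)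
  have h3 : ord v₀ (q : K) = 1 := by
    have : q / Units.mk0 π hπ0 ∈ U4 v₀ := by simpa [mem_U4] using hq v₀ (Finset.mem_insert_self _ _)
    exact (div_mem_UU.1 (Ug_le_UU _ _ _ _ this)).trans hπ
  have h4 : ∀ v, val v (2 : K) < 1 → q ∈ U4 v := fun v hv => by
    have h5 : v ≠ v₀ := by rintro rfl; exact hv₀ (Or.inr hv.ne)
    simpa [mem_U4, h5] using hq v (Finset.mem_insert_of_mem (h2.mem_toFinset.2 hv.ne))
  have h5 := even_of_mem_SQ (h v₀ fun h5 => hv₀ (Or.inl h5))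
  obtain ⟨F, _, _, _, Q, hQ⟩ := exists_QD (b * q) fun h6 => by
    have := even_of_isSquare v₀ h6
    rw [Units.val_mul, ord_mul v₀ b.ne_zero q.ne_zero, h3, Int.even_add_one] at this
    exact this h5
  have := isTotallyComplex_of_algebra K F
  obtain ⟨E, _, _, _, Q', hQ'⟩ := exists_QD (mp K F q) fun h6 => by
    rcases Q.isSquare_or h6 with h7 | ⟨t, h7⟩
    · simpa [h3] using even_of_isSquare v₀ h7
    · refine hb ⟨t / q, ?_⟩
      rw [hQ, Units.val_mul] at h7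
      field_simp
      linear_combination h7
  refine Q'.first (Q'.tame_of fun v hv => ?_) fun j _ => ?_
  · rw [hQ']
    exact mp_mem_SQ (mem_sup_right (h4 _ ((val_two_map v).1 hv)))
  · obtain ⟨x, hx⟩ := exists_approx_unit (finite_und (L := F) hS).toFinset j (fun _ => 1)
      fun _ => one_ne_zero
    refine ⟨x, fun v => ?_⟩
    by_cases hv : und K v ∈ S
    · rw [← inv_mem_iff, inv_div]
      exact Q'.U1_le_Loc v (hx v ((finite_und hS).mem_toFinset.2 hv))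
    · refine Q'.mem_Loc_of_split ?_ _
      simpa [hQ, hQ'] using div_mem (Q.mp_a_mem v) (mp_mem_SQ (h _ hv))

lemma mem_map_pw {S : Finset (Pl K)} {x : Kˣ} (hx : x ∈ ES S) (h : IsSquare (x : K)) :
    x ∈ (ES S).map (pw Kˣ) := by
  obtain ⟨t, rfl⟩ := exists_sq_eq h
  exact ⟨t, mem_ES.2 fun v hv => val_eq_one_of_sq (mem_ES.1 hx v hv), rfl⟩

theorem QD.second [IsTotallyComplex K] (Q : QD K M) :
    Q.NL.relIndex (JJ K) ≠ 0 ∧ Q.NL.relIndex (JJ K) ≤ 2 := by
  classical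
  obtain ⟨T₀, -, hT₀⟩ := exists_gens (∅ : Finset (Pl K))
  set S := T₀ ∪ (finite_val (two_ne_zero' K)).toFinset ∪ (finite_val Q.a.ne_zero).toFinset with hS
  have hS1 : ∀ j ∈ JJ K, ∃ x : Kˣ, ∀ v ∉ S, j v / x ∈ UU v := fun j hj =>
    (hT₀ j hj).imp fun x hx v hv => hx v fun h => hv (by simp [hS, h])
  have hS2 : ∀ v ∉ S, val v (2 : K) = 1 := fun v hv => by
    by_contra h; exact hv (by simp [hS, h])
  have hS3 : ∀ v ∉ S, Q.a ∈ UU v := fun v hv => by
    by_contra h; exact hv (by simp [hS, show val v (Q.a : K) ≠ 1 from h])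
  clear_value S
  let Λ : Finset (Pl K) → Subgroup Kˣ := fun T => (⨅ v : T, SQ v.1) ⊓ ES S
  have hΛ : ∀ T, (ES S).map (pw Kˣ) ≤ Λ T := by
    rintro T _ ⟨t, ht, rfl⟩
    exact ⟨mem_iInf.2 fun v => sq_mem_SQ _ t, pow_mem ht 2⟩
  have h0 : ((ES S).map (pw Kˣ)).relIndex (ES S) ≠ 0 := by rw [index_ES]; positivity
  have h0' : ∀ T, (Λ T).relIndex (ES S) ≠ 0 := fun T h => h0 (relIndex_eq_zero_of_le_left (hΛ T) h)
  obtain ⟨T, ⟨hT1, hT2, hT3⟩, hT4⟩ := Set.Finite.exists_maximalFor'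
    (fun T => (Λ T).relIndex (ES S))
    {T : Finset (Pl K) | (∀ v ∈ T, v ∉ S) ∧ (∀ v ∈ T, Q.a ∈ SQ v) ∧
      ∀ e : Pl K → Kˣ, (∀ v ∈ T, e v ∈ UU v) → ∃ x ∈ ES S, ∀ v ∈ T, e v / x ∈ SQ v}
    ((Set.finite_Iic _).subset (by rintro _ ⟨T, -, rfl⟩; exact relIndex_le_of_le_left (hΛ T) h0))
    ⟨∅, by simp, by simp, fun _ _ => ⟨1, one_mem _, by simp⟩⟩
  have h1 : ∀ v ∉ S, Q.a ∈ SQ v → Λ T ≤ SQ v := fun v hv ha b hb => by
    by_contra h1
    have h2 : Λ (insert v T) ≤ Λ T := inf_le_inf_right _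
      (le_iInf fun w => iInf_le_of_le ⟨w.1, Finset.mem_insert_of_mem w.2⟩ le_rfl)
    have h3 := relIndex_mul_relIndex _ _ _ h2 (inf_le_right : Λ T ≤ ES S)
    have h4 := hT4 (j := insert v T) ⟨by simpa [hv] using hT1, by simpa [ha] using hT2, fun e he => by
      obtain ⟨x, hx, h4⟩ := hT3 e fun w hw => he w (Finset.mem_insert_of_mem hw)
      by_cases h5 : e v / x ∈ SQ v
      · exact ⟨x, hx, by simpa [h5] using h4⟩
      · refine ⟨x / b, div_mem hx hb.2, fun w hw => ?_⟩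
        rw [div_div_eq_mul_div, mul_div_right_comm]
        rcases Finset.mem_insert.1 hw with rfl | hw'
        · exact mul_mem_SQ (hS2 _ hv) (div_mem (he _ hw) (mem_ES.1 hx _ hv)) (mem_ES.1 hb.2 _ hv) h5 h1
        · exact mul_mem (h4 w hw') (mem_iInf.1 hb.1 ⟨w, hw'⟩)⟩
      (relIndex_le_of_le_left h2 (h0' _))
    have h5 : (Λ (insert v T)).relIndex (Λ T) = 1 := by
      simp only [← h3] at h4
      refine le_antisymm (Nat.le_of_mul_le_mul_right (by rwa [one_mul]) (Nat.pos_of_ne_zero (h0' T)))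
        (Nat.pos_of_ne_zero fun h => h0' (insert v T) (by rw [← h3, h, zero_mul]))
    exact h1 (mem_iInf.1 (relIndex_eq_one.1 h5 hb).1 ⟨v, Finset.mem_insert_self _ _⟩)
  have h2 : ∀ b ∈ Λ T, IsSquare (b : K) ∨ IsSquare ((b : K) * Q.a) := fun b hb => by
    refine Q.isSquare_or (by_contra fun h2 => ?_)
    have := isTotallyComplex_of_algebra K M
    obtain ⟨u, hu, h3⟩ := exists_inert (b := mp K M b) h2 (finite_und S.finite_toSet)
    have h4 : b ∉ SQ (und K u) := mt mp_mem_SQ h3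
    have h5 := mp_mem_SQ (mul_mem_SQ (hS2 _ hu) (mem_ES.1 hb.2 _ hu) (hS3 _ hu) h4
      fun h5 => h4 (h1 _ hu h5 hb))
    exact h3 (by simpa using div_mem h5 (Q.mp_a_mem u))
  have h3 : 2 ^ (S.card + Fintype.card (InfinitePlace K)) ≤ 2 * 2 ^ T.card := by
    rw [← index_ES, ← relIndex_mul_relIndex _ _ _ (hΛ T) inf_le_right]
    refine Nat.mul_le_mul ((relIndex_ne_zero_of_fun (B := Λ T) (fun x : Kˣ => IsSquare (x : K))
      fun x hx y hy h => mem_map_pw (div_mem hx.2 hy.2) ?_).2.trans_eq (by simp)) ?_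
    · rw [Units.val_div_eq_div_val]
      by_cases h3 : IsSquare (x : K)
      · exact h3.div (h ▸ h3)
      · rw [← mul_div_mul_right _ _ Q.a.ne_zero]
        exact ((h2 x hx).resolve_left h3).div ((h2 y hy).resolve_left (h ▸ h3))
    · rw [inf_relIndex_right]
      refine (relIndex_iInf_le _).trans ((Finset.prod_le_pow_card _ _ 2 fun v _ => ?_).trans_eq
        (by simp))
      refine (relIndex_ne_zero_of_fun (fun x => x ∈ SQ v.1) fun x hx y hy h => ?_).2.trans_eq (by simp)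
      by_cases h3 : x ∈ SQ v.1
      · exact div_mem h3 (h ▸ h3)
      · have h4 := hT1 _ v.2
        rw [div_eq_mul_inv]
        exact mul_mem_SQ (hS2 _ h4) (mem_ES.1 hx _ h4) (inv_mem (mem_ES.1 hy _ h4)) h3
          (by rw [inv_mem_iff]; exact h ▸ h3)
  set A := (cst (Pl K) Kˣ).range with hA
  let B : Subgroup (Pl K → Kˣ) := Subgroup.pi {v | v ∉ S ∪ T} UU
  let E := (⨅ v : S, (SQ v.1).comap (Pi.evalMonoidHom (fun _ => Kˣ) v.1)) ⊓ B
  have hB : B ≤ JJ K := fun j hj => (S ∪ T).finite_toSet.subset fun v hv => by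
    by_contra h; exact hv (hj v h)
  have h4 : JJ K = B ⊔ A := by
    refine le_antisymm (fun j hj => ?_) (sup_le hB (by rintro _ ⟨x, rfl⟩; exact cst_mem_JJ x))
    obtain ⟨x, hx⟩ := hS1 j hj
    exact mem_sup.2 ⟨j / cst _ _ x, fun v hv => hx v fun h => hv (Finset.mem_union_left _ h),
      _, ⟨x, rfl⟩, div_mul_cancel _ _⟩
  have h5 : ∀ v : S, ((SQ v.1).comap (Pi.evalMonoidHom (fun _ => Kˣ) v.1)).relIndex B ≠ 0 ∧
      ((SQ v.1).comap (Pi.evalMonoidHom (fun _ => Kˣ) v.1)).relIndex B ≤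
        4 * nP v.1 ^ (ord v.1 (2 : K)).toNat := fun v => by
    obtain ⟨h5, h6⟩ := index_SQ v.1
    rw [← relIndex_top_right] at h5 h6
    rw [relIndex_comap]
    exact ⟨fun h => h5 (relIndex_eq_zero_of_le_right le_top h),
      (relIndex_le_of_le_right le_top h5).trans h6⟩
  have h6 : E.relIndex B ≠ 0 ∧
      E.relIndex B ≤ 4 ^ (S.card + Fintype.card (InfinitePlace K)) := by
    rw [inf_relIndex_right]
    refine ⟨relIndex_iInf_ne_zero fun v => (h5 v).1, (relIndex_iInf_le _).trans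
      ((Finset.prod_le_prod' fun v _ => (h5 v).2).trans_eq ?_)⟩
    rw [Finset.prod_coe_sort S fun v => 4 * nP v ^ (ord v (2 : K)).toNat, Finset.prod_mul_distrib,
      prod_nP_two hS2, Finset.prod_const, pow_add]
  have h7 : E.comap (cst (Pl K) Kˣ) ⊓ ES (S ∪ T) = (ES (S ∪ T)).map (pw Kˣ) ⊓ ES (S ∪ T) := by
    refine le_antisymm (fun b hb => ?_) ?_
    · refine ⟨mem_map_pw hb.2 (by_contra fun h7 => ?_), hb.2⟩
      obtain ⟨F, _, _, _, Q', rfl⟩ := exists_QD b h7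
      have h8 : ∀ v ∈ S, Q'.a ∈ SQ v := fun v hv => mem_iInf.1 hb.1.1 ⟨v, hv⟩
      refine Q'.first (Q'.tame_of fun v hv => h8 v (by_contra fun h => hv.ne (hS2 v h)))
        fun j hj => ?_
      obtain ⟨x, hx⟩ := hS1 j hj
      obtain ⟨y, hy, h9⟩ := hT3 (fun v => j v / x) fun v hv => hx v (hT1 v hv)
      refine ⟨x * y, fun v => ?_⟩
      rw [← div_div]
      by_cases h10 : v ∈ S
      · exact Q'.mem_Loc_of_split (h8 v h10) _
      by_cases h11 : v ∈ T
      · exact Q'.SQ_le_Loc v (h9 v h11)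
      · exact Q'.UU_le_Loc_odd (hS2 v h10) (mem_ES.1 hb.2 v (by simp [h10, h11]))
          (div_mem (hx v h10) (mem_ES.1 hy v h10))
    · rintro _ ⟨⟨t, -, rfl⟩, ht⟩
      exact ⟨⟨mem_iInf.2 fun v => sq_mem_SQ _ t, fun v hv => mem_ES.1 ht v hv⟩, ht⟩
  have h8 : A ⊓ B = (ES (S ∪ T)).map (cst (Pl K) Kˣ) := by
    refine le_antisymm ?_ ?_
    · rintro _ ⟨⟨x, rfl⟩, hx⟩
      exact ⟨x, mem_ES.2 hx, rfl⟩
    · rintro _ ⟨x, hx, rfl⟩
      exact ⟨⟨x, rfl⟩, mem_ES.1 hx⟩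
  have h9 : 2 ^ ((S ∪ T).card + Fintype.card (InfinitePlace K)) * (E ⊔ A).relIndex (JJ K) =
      E.relIndex B := by
    rw [← index_ES, ← relIndex_congr_left h7, relIndex_comap, ← h8, h4,
      relIndex_sup_of_le le_sup_right, ← inf_relIndex_right (E ⊔ A),
      sup_inf_assoc_of_le _ (inf_le_right : E ≤ B), ← relIndex_sup_left (A ⊓ B) E,
      relIndex_mul_relIndex _ _ _ le_sup_left (sup_le inf_le_right inf_le_right)]
  have h10 : E ⊔ A ≤ Q.NL := by
    refine sup_le (fun j hj => mem_sup_right ⟨fun v _ => ?_, hB hj.2⟩) le_sup_left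
    by_cases h10 : v ∈ S
    · exact Q.SQ_le_Loc v (mem_iInf.1 hj.1 ⟨v, h10⟩)
    by_cases h11 : v ∈ T
    · exact Q.mem_Loc_of_split (hT2 v h11) _
    · exact Q.UU_le_Loc_odd (hS2 v h10) (hS3 v h10) (hj.2 v (by simp [h10, h11]))
  have h11 : (E ⊔ A).relIndex (JJ K) ≠ 0 := fun h => h6.1 (by rw [← h9, h, mul_zero])
  refine ⟨fun h => h11 (relIndex_eq_zero_of_le_left h10 h), (relIndex_le_of_le_left h10 h11).trans ?_⟩
  rw [← h9, Finset.card_union_of_disjoint (Finset.disjoint_right.2 hT1), add_right_comm, pow_add,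
    show (4 : ℕ) = 2 * 2 from rfl, mul_pow, mul_assoc] at h6
  have h12 := (Nat.le_of_mul_le_mul_left h6.2 (by positivity)).trans h3
  rw [mul_comm 2] at h12
  exact Nat.le_of_mul_le_mul_left h12 (by positivity)

theorem QD.hasse [IsTotallyComplex K] (Q : QD K M) (ht : Q.Tame) {b : Kˣ} (hb : ∀ v, b ∈ Q.Loc v) :
    ∃ y, Q.nm y = mp K M b := by
  obtain ⟨c, hc, h1, h2⟩ := Q.main ht
  have := (Nat.le_of_dvd (Nat.pos_of_ne_zero Q.second.1) h1).trans Q.second.2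
  exact h2 (by omega) b hb

end Pool.Agent.Lib.MP_580eba_nt
end

-- part Pool.Agent.Lib.MP_580eba_nt.Step
section

/-!
Extending crossed homomorphisms through steps of index two.
-/

namespace Pool.Agent.Lib.MP_580eba_nt

open Subgroup

lemma exists_sum_ne_zero {ι M F : Type*} [Fintype ι] [Monoid M] [Field F] (θ : ι → M →* F)
    (a : ι → F) (i₀ : ι) (h : ∀ i, θ i = θ i₀ → a i = 1) (h0 : (Nat.card {i // θ i = θ i₀} : F) ≠ 0) :
    ∃ x, ∑ i, a i * θ i x ≠ 0 := by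
  classical
  by_contra! h1
  have := linearIndependent_iff'.1 (linearIndependent_monoidHom M F) (Finset.univ.image θ)
    (fun φ => ∑ i with θ i = φ, a i) (by
      ext x
      rw [Finset.sum_apply, Pi.zero_apply, ← h1 x,
        ← Finset.sum_fiberwise_of_maps_to (g := θ) (t := Finset.univ.image θ)
          fun i hi => Finset.mem_image_of_mem θ hi]
      refine Finset.sum_congr rfl fun φ _ => ?_
      rw [Pi.smul_apply, smul_eq_mul, Finset.sum_mul]
      exact Finset.sum_congr rfl fun i hi => by rw [(Finset.mem_filter.1 hi).2])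
    (θ i₀) (Finset.mem_image_of_mem θ (Finset.mem_univ _))
  rw [Finset.sum_congr rfl fun i hi => h i (Finset.mem_filter.1 hi).2] at this
  exact h0 (by simpa [Fintype.card_subtype] using this)

variable {Γ : Type*} [Group Γ]

lemma natCast_card_ne_zero {F : Type*} [Field F] [Finite Γ] (hΓ : IsPGroup 2 Γ) (h2 : (2 : F) ≠ 0)
    (H : Subgroup Γ) : (Nat.card H : F) ≠ 0 := by
  have : Fact (Nat.Prime 2) := ⟨Nat.prime_two⟩
  obtain ⟨n, hn⟩ := IsPGroup.iff_card.1 (hΓ.to_subgroup H)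
  rw [hn]
  push_cast
  exact pow_ne_zero _ h2

/-- A subgroup of index two, with an element outside it. -/
structure Two (H' H : Subgroup Γ) (s : Γ) : Prop where
  le : H' ≤ H
  mem : s ∈ H
  notMem : s ∉ H'
  iff : ∀ {g h}, g ∈ H → h ∈ H → (g * h ∈ H' ↔ (g ∈ H' ↔ h ∈ H'))

namespace Two

variable {H' H : Subgroup Γ} {s : Γ} (T : Two H' H s)
include T

lemma mul_inv {g : Γ} (hg : g ∈ H) (hg' : g ∉ H') : g * s⁻¹ ∈ H' :=
  (T.iff hg (inv_mem T.mem)).2 (by simp [hg', T.notMem])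

lemma inv_mul {g : Γ} (hg : g ∈ H) (hg' : g ∉ H') : s⁻¹ * g ∈ H' :=
  (T.iff (inv_mem T.mem) hg).2 (by simp [hg', T.notMem])

lemma conj {g h : Γ} (hg : g ∈ H) (hh : h ∈ H') : g * h * g⁻¹ ∈ H' := by
  rw [T.iff (mul_mem hg (T.le hh)) (inv_mem hg), T.iff hg (T.le hh)]
  simp [hh]

lemma sq : s * s ∈ H' := (T.iff T.mem T.mem).2 Iff.rfl

lemma of_notMem {t : Γ} (ht : t ∈ H) (ht' : t ∉ H') : Two H' H t := ⟨T.le, ht, ht', T.iff⟩

lemma lt : H' < H := lt_of_le_of_ne T.le fun h => T.notMem (h ▸ T.mem)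

end Two

lemma exists_two [Finite Γ] (hΓ : IsPGroup 2 Γ) {R H : Subgroup Γ} (h : R ≤ H) (h' : ¬ H ≤ R) :
    ∃ H' s, R ≤ H' ∧ Two H' H s := by
  have : Fact (Nat.Prime 2) := ⟨Nat.prime_two⟩
  obtain ⟨m, hm⟩ := IsPGroup.iff_card.1 (hΓ.to_subgroup H)
  obtain ⟨n, hn⟩ := IsPGroup.iff_card.1 ((hΓ.to_subgroup H).to_subgroup (R.subgroupOf H))
  have h1 : n < m := by
    rw [← Nat.pow_lt_pow_iff_right one_lt_two, ← hm, ← hn]
    exact lt_of_le_of_ne (card_le_card_group _) fun h1 => h' (subgroupOf_eq_top.1 (eq_top_of_card_eq _ h1))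
  obtain ⟨m, rfl⟩ : ∃ k, m = k + 1 := ⟨m - 1, by omega⟩
  obtain ⟨K, hK, h2⟩ := Sylow.exists_subgroup_card_pow_prime_le 2 (m := m)
    (hm ▸ pow_dvd_pow 2 m.le_succ) _ hn (by omega)
  have h3 : K.index = 2 := by
    have := K.card_mul_index
    rw [hK, hm, pow_succ] at this
    exact Nat.eq_of_mul_eq_mul_left (by positivity) this
  obtain ⟨s, hs⟩ : ∃ s, s ∉ K := by
    by_contra! h4
    rw [(Subgroup.eq_top_iff' K).2 h4, index_top] at h3
    omega
  have h4 : ∀ g : H, (g : Γ) ∈ K.map H.subtype ↔ g ∈ K := fun g => mem_map_iff_mem H.subtype_injective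
  exact ⟨K.map H.subtype, s, fun r hr => (h4 ⟨r, h hr⟩).2 (h2 hr), map_subtype_le K, s.2,
    mt (h4 s).1 hs, fun {g k} hg hk => (h4 (⟨g, hg⟩ * ⟨k, hk⟩)).trans
      ((mul_mem_iff_of_index_two h3).trans (iff_congr (h4 ⟨g, hg⟩).symm (h4 ⟨k, hk⟩).symm))⟩

section cocycle

variable {A : Type*} [CommGroup A] (a : Γ →* Monoid.End A)

/-- Crossed homomorphisms on a subgroup. -/
def Coc (H : Subgroup Γ) (Y : Γ → A) : Prop :=
  ∀ g ∈ H, ∀ h ∈ H, Y (g * h) = Y g * a g (Y h)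

/-- Crossed homomorphisms up to a defect concentrated outside a subgroup of index two. -/
structure Df (H' H : Subgroup Γ) (Y : Γ → A) (b : A) : Prop where
  l : ∀ g ∈ H', ∀ h ∈ H, Y (g * h) = Y g * a g (Y h)
  r : ∀ g ∈ H, ∀ h ∈ H', Y (g * h) = Y g * a g (Y h)
  o : ∀ g ∈ H, g ∉ H' → ∀ h ∈ H, h ∉ H' → Y (g * h) * b = Y g * a g (Y h)
  fix : ∀ g ∈ H, a g b = b

variable {a} {H' H : Subgroup Γ} {s : Γ} {Y : Γ → A} {b : A}

lemma Coc.mono (h : Coc a H Y) (h' : H' ≤ H) : Coc a H' Y := fun g hg k hk => h g (h' hg) k (h' hk)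

lemma Coc.one (h : Coc a H Y) : Y 1 = 1 := by
  simpa using h 1 (one_mem _) 1 (one_mem _)

lemma Coc.div {Z : Γ → A} (h : Coc a H Y) (h' : Coc a H Z) : Coc a H fun g => Y g / Z g :=
  fun g hg k hk => by simp only [h g hg k hk, h' g hg k hk, map_div, mul_div_mul_comm]

lemma coc_bdry (t : A) : Coc a H fun g => a g t / t :=
  fun g _ k _ => by simp only [map_div, act_mul, mul_comm (a g t / t), div_mul_div_cancel]

lemma Df.coc (h : Df a H' H Y b) (h' : H' ≤ H) : Coc a H' Y := fun g hg k hk => h.l g hg k (h' hk)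

lemma Df.div {Z : Γ → A} (h : Df a H' H Y b) (h' : Coc a H Z) (hl : H' ≤ H) :
    Df a H' H (fun g => Y g / Z g) b where
  l g hg k hk := by simp only [h.l g hg k hk, h' g (hl hg) k hk, map_div, mul_div_mul_comm]
  r g hg k hk := by simp only [h.r g hg k hk, h' g hg k (hl hk), map_div, mul_div_mul_comm]
  o g hg hg' k hk hk' := by
    rw [div_mul_eq_mul_div, h.o g hg hg' k hk hk', h' g hg k hk, map_div, mul_div_mul_comm]
  fix := h.fix

lemma Df.comp {Δ A' : Type*} [Group Δ] [CommGroup A'] {a' : Δ →* Monoid.End A'} (h : Df a H' H Y b)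
    (φ : Δ →* Γ) (f : A →* A') (hf : ∀ g x, f (a (φ g) x) = a' g (f x)) :
    Df a' (H'.comap φ) (H.comap φ) (fun g => f (Y (φ g))) (f b) where
  l g hg k hk := by rw [map_mul, h.l _ hg _ hk, map_mul, hf]
  r g hg k hk := by rw [map_mul, h.r _ hg _ hk, map_mul, hf]
  o g hg hg' k hk hk' := by rw [map_mul, ← map_mul, h.o _ hg hg' _ hk hk', map_mul, hf]
  fix g hg := by rw [← hf, h.fix _ hg]

lemma Two.exists_df (T : Two H' H s) (l : ∀ g ∈ H', ∀ h ∈ H, Y (g * h) = Y g * a g (Y h))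
    (r : ∀ g ∈ H, ∀ h ∈ H', Y (g * h) = Y g * a g (Y h)) : ∃ b, Df a H' H Y b := by
  let D : Γ → Γ → A := fun g h => Y g * a g (Y h) / Y (g * h)
  have hD : ∀ g h k, D g h * D (g * h) k = a g (D h k) * D g (h * k) := fun g h k => by
    simp only [D, map_mul a, map_div, Monoid.End.coe_mul, Function.comp, map_mul (a g), mul_assoc]
    apply Additive.ofMul.injective
    simp only [ofMul_mul, ofMul_div]
    abel
  have l' : ∀ g ∈ H', ∀ h ∈ H, D g h = 1 := fun g hg h hh => div_eq_one.2 (l g hg h hh).symm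
  have r' : ∀ g ∈ H, ∀ h ∈ H', D g h = 1 := fun g hg h hh => div_eq_one.2 (r g hg h hh).symm
  have h1 : ∀ g ∈ H, ∀ h ∈ H, h ∉ H' → D g h = D g s := fun g hg h hh hh' => by
    have := hD g s (s⁻¹ * h)
    rwa [r' _ (mul_mem hg T.mem) _ (T.inv_mul hh hh'), r' _ T.mem _ (T.inv_mul hh hh'), map_one,
      mul_one, one_mul, mul_inv_cancel_left, eq_comm] at this
  have h2 : ∀ g ∈ H, g ∉ H' → D g s = D s s := fun g hg hg' => by
    have h3 := T.inv_mul hg hg'
    have := hD s (s⁻¹ * g) s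
    rwa [r' _ T.mem _ h3, l' _ h3 _ T.mem, map_one, one_mul, one_mul, mul_inv_cancel_left,
      h1 s T.mem _ (mul_mem (T.le h3) T.mem) fun h => T.notMem ((mul_mem_cancel_left h3).1 h)] at this
  have h3 : ∀ g ∈ H', a g (D s s) = D s s := fun g hg => by
    have := hD g s s
    rwa [l' _ hg _ T.mem, l' _ hg _ (T.le T.sq), one_mul, mul_one, h2 _ (mul_mem (T.le hg) T.mem)
      fun h => T.notMem ((mul_mem_cancel_left hg).1 h), eq_comm] at this
  refine ⟨D s s, l, r, fun g hg hg' h hh hh' => ?_, fun g hg => ?_⟩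
  · rw [← h2 g hg hg', ← h1 g hg h hh hh', mul_div_cancel]
  · by_cases hg' : g ∈ H'
    · exact h3 g hg'
    have := hD s s s
    rw [l' _ T.sq _ T.mem, r' _ T.mem _ T.sq, mul_one, mul_one] at this
    rw [← inv_mul_cancel_right g s, act_mul, ← this, h3 _ (T.mul_inv hg hg')]

lemma Two.conj' (T : Two H' H s) {g : Γ} (hg : g ∈ H') : s⁻¹ * g * s ∈ H' := by
  simpa using T.conj (inv_mem T.mem) hg

lemma Two.coc (T : Two H' H s) (hY : Coc a H' Y) :
    Coc a H' fun g => a s (Y (s⁻¹ * g * s)) / Y g := by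
  refine Coc.div (fun g hg h hh => ?_) hY
  rw [show s⁻¹ * (g * h) * s = s⁻¹ * g * s * (s⁻¹ * h * s) by group, hY _ (T.conj' hg) _ (T.conj' hh),
    map_mul, ← act_mul, ← act_mul, show s * (s⁻¹ * g * s) = g * s by group]

lemma Two.step (T : Two H' H s) (hY : Coc a H' Y) {t : A}
    (ht : ∀ g ∈ H', a g t = a s (Y (s⁻¹ * g * s)) / Y g * t) :
    ∃ Y' b, Df a H' H Y' b ∧ ∀ g ∈ H', Y' g = Y g := by
  classical
  let Y' : Γ → A := fun g => if g ∈ H' then Y g else Y (g * s⁻¹) * a (g * s⁻¹) t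
  have h1 : ∀ g ∈ H', Y' g = Y g := fun g hg => if_pos hg
  have h2 : ∀ g ∉ H', Y' g = Y (g * s⁻¹) * a (g * s⁻¹) t := fun g hg => if_neg hg
  have l : ∀ g ∈ H', ∀ h ∈ H, Y' (g * h) = Y' g * a g (Y' h) := fun g hg h hh => by
    by_cases hh' : h ∈ H'
    · rw [h1 _ hg, h1 _ hh', h1 _ (mul_mem hg hh'), hY _ hg _ hh']
    · rw [h1 _ hg, h2 _ hh', h2 _ (mt (mul_mem_cancel_left hg).1 hh'), mul_assoc g,
        hY _ hg _ (T.mul_inv hh hh'), map_mul (a g), act_mul a g, mul_assoc]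
  have h3 : ∀ h ∈ H', Y' (s * h) = Y' s * a s (Y' h) := fun h hh => by
    rw [h1 _ hh, h2 _ T.notMem, h2 _ (mt (mul_mem_cancel_right hh).1 T.notMem),
      ht _ (T.conj T.mem hh), mul_inv_cancel, hY.one, act_one, one_mul,
      show s⁻¹ * (s * h * s⁻¹) * s = h by group, ← mul_assoc, mul_div_cancel, mul_comm]
  obtain ⟨b, hb⟩ := T.exists_df l fun g hg h hh => by
    by_cases hg' : g ∈ H'
    · exact l g hg' h (T.le hh)
    · have h4 := T.mul_inv hg hg'
      rw [← inv_mul_cancel_right g s, mul_assoc _ s, l _ h4 _ (mul_mem T.mem (T.le hh)), h3 h hh,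
        l _ h4 _ T.mem, map_mul (a _), act_mul a _ s, mul_assoc (Y' _)]
  exact ⟨Y', b, hb, h1⟩

lemma Df.fix' (T : Two H' H s) (h : Df a H' H Y b) {x : A} (hx : ∀ g ∈ H', a g x = x)
    (hb : b = x * a s x) : ∃ Y', Coc a H Y' ∧ ∀ g ∈ H', Y' g = Y g := by
  classical
  refine ⟨fun g => if g ∈ H' then Y g else Y g / x, fun g hg k hk => ?_, fun g hg => if_pos hg⟩
  have h1 := T.iff hg hk
  by_cases hg' : g ∈ H' <;> by_cases hk' : k ∈ H' <;>
    simp only [hg', hk', iff_true, iff_false, not_true_eq_false] at h1 <;>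
    simp only [hg', hk', h1, if_true, if_false]
  · exact h.l g hg' k hk
  · rw [h.l g hg' k hk, map_div, hx g hg', mul_div_assoc]
  · rw [h.r g hg k hk', div_mul_eq_mul_div]
  · rw [map_div, div_mul_div_comm, ← h.o g hg hg' k hk hk', ← mul_inv_cancel_left s g, act_mul,
      hx _ (T.inv_mul hg hg'), ← hb, mul_div_cancel_right]

end cocycle

variable {N : Type*} [Field N] [MulSemiringAction Γ N] [Finite Γ]

theorem h90' (hΓ : IsPGroup 2 Γ) (h2 : (2 : N) ≠ 0) {H : Subgroup Γ} {f : Γ → Nˣ}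
    (hf : Coc (actU Γ N) H f) (h1 : ∀ g ∈ H, (∀ x : N, g • x = x) → f g = 1) :
    ∃ t : Nˣ, ∀ g ∈ H, actU Γ N g t = f g * t := by
  classical
  let _ : Fintype H := Fintype.ofFinite H
  let θ : H →* (RingAut N) := MulSemiringAction.toRingAut H N
  obtain ⟨x, hx⟩ := exists_sum_ne_zero (fun g : H => ((θ g : N →+* N) : N →* N)) (fun g => f g) 1
    (fun g hg => by rw [h1 g g.2 fun x => (DFunLike.congr_fun hg x).trans (one_smul H x)]; rfl) (by
      rw [Nat.card_congr (Equiv.subtypeEquivRight (q := (· ∈ θ.ker)) fun g => ?_)]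
      · exact natCast_card_ne_zero (hΓ.to_subgroup H) h2 θ.ker
      · rw [map_one]
        exact ⟨fun h => RingEquiv.ext fun x => DFunLike.congr_fun h x,
          fun h => by rw [MonoidHom.mem_ker.1 h]⟩)
  refine ⟨(Units.mk0 _ hx)⁻¹, fun g hg => ?_⟩
  rw [map_inv, eq_mul_inv_iff_mul_eq, inv_mul_eq_iff_eq_mul, eq_comm, mul_comm]
  refine Units.ext ?_
  rw [Units.val_mul, actU_val, Units.val_mk0, Finset.smul_sum, Finset.mul_sum]
  refine Fintype.sum_equiv (Equiv.mulLeft (⟨g, hg⟩ : H)) _ _ fun h => ?_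
  have := congrArg Units.val (hf g hg h h.2)
  rw [smul_mul', ← mul_assoc]
  exact congrArg₂ _ this.symm (mul_smul g (h : Γ) x).symm

theorem ind (hΓ : IsPGroup 2 Γ) (h2 : (2 : N) ≠ 0) {R H₀ : Subgroup Γ} {ψ : Γ → Nˣ}
    (hψ : Coc (actU Γ N) R ψ) (hk : ∀ g ∈ H₀, (∀ x : N, g • x = x) → g ∈ R ∧
      ∀ s ∈ H₀, actU Γ N s (ψ (s⁻¹ * g * s)) = ψ g)
    (orc : ∀ H' H s Y b, R ≤ H' → H ≤ H₀ → Two H' H s → Df (actU Γ N) H' H Y b →
      (∀ g ∈ R, Y g = ψ g) → ∃ x, (∀ g ∈ H', actU Γ N g x = x) ∧ b = x * actU Γ N s x)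
    (H : Subgroup Γ) (h : R ≤ H) (h' : H ≤ H₀) :
    ∃ Y, Coc (actU Γ N) H Y ∧ ∀ g ∈ R, Y g = ψ g := by
  induction H using WellFoundedLT.induction with | ind H ih =>
  by_cases h1 : H ≤ R
  · exact ⟨ψ, hψ.mono h1, fun _ _ => rfl⟩
  obtain ⟨H', s, h3, T⟩ := exists_two hΓ h h1
  obtain ⟨Y, hY, h4⟩ := ih H' T.lt h3 (T.le.trans h')
  obtain ⟨t, ht⟩ := h90' hΓ h2 (T.coc hY) fun g hg h5 => by
    obtain ⟨h6, h7⟩ := hk g (h' (T.le hg)) h5
    rw [h4 g h6, h4 _ (hk _ (h' (T.le (T.conj' hg))) fun x => by simp [mul_smul, h5]).1,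
      h7 s (h' T.mem), div_self']
  obtain ⟨Y', b, hD, h5⟩ := T.step hY ht
  have h6 : ∀ g ∈ R, Y' g = ψ g := fun g hg => (h5 g (h3 hg)).trans (h4 g hg)
  obtain ⟨x, hx, hb⟩ := orc H' H s Y' b h3 h' T hD h6
  obtain ⟨Y'', h7, h8⟩ := hD.fix' T hx hb
  exact ⟨Y'', h7, fun g hg => (h8 g (h3 hg)).trans (h6 g hg)⟩

theorem Two.exists_r (hΓ : IsPGroup 2 Γ) (h2 : (2 : N) ≠ 0) {H' H : Subgroup Γ} {s : Γ}
    (T : Two H' H s) (hk : ∀ g ∈ H, (∀ x : N, g • x = x) → g ∈ H') :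
    ∃ r : N, r ≠ 0 ∧ (∀ g ∈ H', g • r = r) ∧ s • r = -r := by
  classical
  obtain ⟨t, ht⟩ := h90' hΓ h2 (H := H) (f := fun g => if g ∈ H' then 1 else -1)
    (fun g hg k hk => by
      have h1 := T.iff hg hk
      have h3 : actU Γ N g (-1) = -1 := Units.ext (by simp [actU_val])
      by_cases hg' : g ∈ H' <;> by_cases hk' : k ∈ H' <;> simp [hg', hk', h1, h3])
    fun g hg h => if_pos (hk g hg h)
  refine ⟨t, t.ne_zero, fun g hg => ?_, ?_⟩
  · simpa [hg, actU_val] using congrArg Units.val (ht g (T.le hg))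
  · simpa [T.notMem, actU_val] using congrArg Units.val (ht s T.mem)

omit [Finite Γ] in
lemma Two.fixed {X : Type*} [MulAction Γ X] {H' H : Subgroup Γ} {s : Γ} (T : Two H' H s) {x : X}
    (h : ∀ g ∈ H', g • x = x) (h' : s • x = x) {g : Γ} (hg : g ∈ H) : g • x = x := by
  by_cases hg' : g ∈ H'
  · exact h g hg'
  · rw [← inv_mul_cancel_right g s, mul_smul, h', h _ (T.mul_inv hg hg')]

omit [Finite Γ] in
lemma Two.smul_fixed {X : Type*} [MulAction Γ X] {H' H : Subgroup Γ} {s : Γ} (T : Two H' H s)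
    {x : X} (h : ∀ g ∈ H', g • x = x) {g : Γ} (hg : g ∈ H') : g • s • x = s • x := by
  rw [← mul_smul, show g * s = s * (s⁻¹ * g * s) by group, mul_smul, h _ (T.conj' hg)]

end Pool.Agent.Lib.MP_580eba_nt
end
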