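import Mathlib

-- part Pool.Agent.Lib.MP_580eba_nt.LieI
section

/-!
Linear algebra of the graded object attached to the pentagon relations.
-/

namespace Pool.Agent.Lib.MP_580eba_nt

lemma sum_zmod_five {A : Type*} [AddCommMonoid A] (f : ZMod 5 → A) (k : ZMod 5) :
    ∑ i, f i = f k + f (k + 1) + f (k + 2) + f (k + 3) + f (k + 4) := by
  rw [← Equiv.sum_comp (Equiv.addLeft k)]
  have := Fin.sum_univ_five (M := A) (fun i : ZMod 5 => f (k + i))
  refine this.trans ?_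
  change f (k + 0) + _ + _ + _ + _ = _
  rw [add_zero]
  rfl

lemma zmod_five_cases (i j : ZMod 5) :
    j = i ∨ j = i + 1 ∨ j = i + 2 ∨ j = i + 3 ∨ j = i + 4 := by
  revert i j
  decide

theorem lie_five {A : ℕ → Type*} [∀ n, AddCommGroup (A n)]
    (D : ZMod 5 → ∀ n, A n →+ A (n + 1)) (P : ∀ n, A (n + 1) →+ A (n + 2)) (t : ZMod 5 → A 0)
    (h2 : ∀ n (a : A n), a + a = 0)
    (gen0 : AddSubgroup.closure (Set.range t) = ⊤)
    (genS : ∀ n (a : A (n + 1)), ∃ f : ZMod 5 → A n, a = ∑ i, D i n (f i))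
    (sym : ∀ i j, D i 0 (t j) = D j 0 (t i)) (alt : ∀ i, D i 0 (t i) = 0)
    (rel : ∀ i, D i 0 (t (i + 3)) = D i 0 (t (i + 4)))
    (jac : ∀ a b c, D a 1 (D b 0 (t c)) + D b 1 (D a 0 (t c)) = D c 1 (D a 0 (t b)))
    (relop : ∀ a b a' b', D a 0 (t b) = D a' 0 (t b') → ∀ x : A 1,
      D a 2 (D b 1 x) + D b 2 (D a 1 x) = D a' 2 (D b' 1 x) + D b' 2 (D a' 1 x))
    (DD : ∀ i n x, D i (n + 1) (D i n x) = P n (D i n x))
    (PD : ∀ i n x, P (n + 1) (D i (n + 1) x) = D i (n + 2) (P n x)) (n : ℕ) :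
    Function.Surjective (P (n + 1)) ∧ ∀ a, ∑ i, D i (n + 2) a = P (n + 1) a := by
  have h5 : (5 : ZMod 5) = 0 := rfl
  let x : ZMod 5 → A 1 := fun j => D j 0 (t (j + 1))
  have x1 : ∀ j, D (j + 1) 0 (t j) = x j := fun j => sym _ _
  have x2 : ∀ j, D j 0 (t (j + 2)) = x (j + 1) := fun j => by
    have := rel (j + 2)
    rw [show j + 2 + 3 = j by linear_combination h5, show j + 2 + 4 = j + 1 by linear_combination h5,
      sym (j + 2), sym (j + 2)] at this
    rw [this]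
    simp only [x]
    rw [show j + 1 + 1 = j + 2 by ring]
  have x3 : ∀ j, D j 0 (t (j + 3)) = x (j + 4) := fun j => by
    have := x2 (j + 3)
    rw [show j + 3 + 2 = j by linear_combination h5, show j + 3 + 1 = j + 4 by ring] at this
    rw [sym, this]
  have x4 : ∀ j, D j 0 (t (j + 4)) = x (j + 4) := fun j => by rw [← rel, x3]
  have e0 : ∀ j, D j 1 (x j) = P 0 (x j) := fun j => DD _ _ _
  have e1 : ∀ j, D (j + 1) 1 (x j) = P 0 (x j) := fun j => by rw [← x1, DD]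
  have e4 : ∀ j, D (j + 4) 1 (x j) = P 0 (x j) := fun j => by
    have := x2 (j + 4)
    rw [show j + 4 + 1 = j by linear_combination h5] at this
    rw [← this, DD]
  have e2 : ∀ j, D (j + 2) 1 (x j) = 0 := fun j => by
    have := jac j (j + 1) (j + 2)
    have h := e4 (j + 1)
    rw [show j + 1 + 4 = j by linear_combination h5] at h
    rw [x2, e0, show j + 2 = j + 1 + 1 by ring] at this
    change D j 1 (x (j + 1)) + _ = D (j + 1 + 1) 1 (x j) at this
    rw [h, h2, show j + 1 + 1 = j + 2 by ring] at this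
    exact this.symm
  have e3 : ∀ j, D (j + 2 + 3) 1 (x (j + 2)) = D (j + 3) 1 (x j) := fun j => by
    have := jac j (j + 1) (j + 3)
    have h := e2 (j + 4)
    have h' := x2 (j + 1)
    rw [show j + 4 + 2 = j + 1 by linear_combination h5] at h
    rw [show j + 1 + 2 = j + 3 by ring, show j + 1 + 1 = j + 2 by ring] at h'
    rw [x3, h, add_zero, h'] at this
    rw [show j + 2 + 3 = j by linear_combination h5]
    exact this
  let v : A 2 := D (0 + 3) 1 (x 0)
  have ev : ∀ j, D (j + 3) 1 (x j) = v := fun j => by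
    have a2 : D (2 + 3) 1 (x 2) = v := e3 0
    have a4 : D (4 + 3) 1 (x 4) = v := (e3 2).trans a2
    have a1 : D (1 + 3) 1 (x 1) = v := (e3 4).trans a4
    have a3 : D (3 + 3) 1 (x 3) = v := (e3 1).trans a1
    rcases zmod_five_cases 0 j with rfl | rfl | rfl | rfl | rfl
    exacts [rfl, a1, a2, a3, a4]
  have Dv : ∀ i, D i 2 v = P 1 v := fun i => by
    have := ev (i + 2)
    rw [show i + 2 + 3 = i by linear_combination h5] at this
    rw [← this, DD]
  have Pv : P 1 v = 0 := by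
    have := relop 1 3 2 3 (x2 1) (x 0)
    have a1 : D 1 1 (x 0) = P 0 (x 0) := e1 0
    have a2 : D 2 1 (x 0) = 0 := e2 0
    have a3 : D 3 1 (x 0) = v := rfl
    rw [a1, a2, a3, map_zero, add_zero, ← PD, a3, Dv, Dv, h2] at this
    exact this.symm
  let Q : AddSubgroup (A 2) :=
    { carrier := {a | ∑ i, D i 2 a = P 1 a ∧ ∀ i, D i 2 a ∈ (P 1).range}
      add_mem' := fun ha hb => ⟨by simp only [map_add, Finset.sum_add_distrib, ha.1, hb.1],
        fun i => by rw [map_add]; exact add_mem (ha.2 i) (hb.2 i)⟩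
      zero_mem' := ⟨by simp, fun i => by rw [map_zero]; exact zero_mem _⟩
      neg_mem' := fun ha => ⟨by simp only [map_neg, Finset.sum_neg_distrib, ha.1],
        fun i => by rw [map_neg]; exact neg_mem (ha.2 i)⟩ }
  have q1 : v ∈ Q := ⟨by simp [Dv, Pv], fun i => ⟨v, (Dv i).symm⟩⟩
  have q2 : ∀ k, P 0 (x k) ∈ Q := fun k => ⟨by
    simp only [← PD]
    rw [← map_sum, sum_zmod_five _ k, e0, e1, e2, ev, e4, h2, add_zero, map_add, map_add, Pv,
      map_zero, add_zero, zero_add (P _ _)], fun i => ⟨_, PD _ _ _⟩⟩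
  have q3 : ∀ i k, D i 1 (x k) ∈ Q := fun i k => by
    rcases zmod_five_cases k i with rfl | rfl | rfl | rfl | rfl
    · rw [e0]; exact q2 _
    · rw [e1]; exact q2 _
    · rw [e2]; exact zero_mem _
    · rw [ev]; exact q1
    · rw [e4]; exact q2 _
  have q4 : ∀ i i' c, D i 1 (D i' 0 c) ∈ Q := fun i i' c => by
    have : AddSubgroup.closure (Set.range t) ≤ Q.comap ((D i 1).comp (D i' 0)) := by
      rw [AddSubgroup.closure_le]
      rintro _ ⟨j, rfl⟩
      change D i 1 (D i' 0 (t j)) ∈ Q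
      rcases zmod_five_cases i' j with rfl | rfl | rfl | rfl | rfl
      · rw [alt, map_zero]; exact zero_mem _
      · exact q3 _ _
      · rw [x2]; exact q3 _ _
      · rw [x3]; exact q3 _ _
      · rw [x4]; exact q3 _ _
    exact this (gen0 ▸ AddSubgroup.mem_top c)
  have q5 : ∀ a, a ∈ Q := fun a => by
    obtain ⟨f, rfl⟩ := genS 1 a
    refine sum_mem fun i _ => ?_
    obtain ⟨g, hg⟩ := genS 0 (f i)
    rw [hg, map_sum]
    exact sum_mem fun i' _ => q4 _ _ _
  induction n with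
  | zero =>
    refine ⟨fun a => ?_, fun a => (q5 a).1⟩
    obtain ⟨f, rfl⟩ := genS 2 a
    exact (sum_mem fun i _ => (q5 (f i)).2 i : _ ∈ (P 1).range)
  | succ n ih =>
    refine ⟨fun a => ?_, fun a => ?_⟩
    · obtain ⟨f, rfl⟩ := genS (n + 3) a
      refine (sum_mem fun i _ => ?_ : _ ∈ (P (n + 2)).range)
      obtain ⟨b, hb⟩ := ih.1 (f i)
      exact ⟨_, (PD i (n + 1) b).trans (congrArg _ hb)⟩
    · obtain ⟨b, rfl⟩ := ih.1 a
      rw [← ih.2 b, map_sum (P (n + 1 + 1)), ih.2 b]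
      exact Finset.sum_congr rfl fun i _ => (PD i (n + 1) b).symm

end Pool.Agent.Lib.MP_580eba_nt
end

-- part Pool.Agent.Lib.MP_580eba_nt.Graded
section

/-!
The graded pieces of the lower central series.
-/

namespace Pool.Agent.Lib.MP_580eba_nt

open Subgroup
open scoped commutatorElement

variable {G : Type*} [Group G]

/-- The lower central series. -/
abbrev gam (G : Type*) [Group G] (n : ℕ) : Subgroup G := (⊤ : Subgroup G).lowerCentralSeries n

lemma gam_le {m n : ℕ} (h : m ≤ n) : gam G n ≤ gam G m := Subgroup.lowerCentralSeries_antitone ⊤ h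

lemma three_subgroups {H₁ H₂ H₃ N : Subgroup G} [N.Normal] (h1 : ⁅⁅H₂, H₃⁆, H₁⁆ ≤ N)
    (h2 : ⁅⁅H₃, H₁⁆, H₂⁆ ≤ N) : ⁅⁅H₁, H₂⁆, H₃⁆ ≤ N := by
  rw [← QuotientGroup.ker_mk' N, ← Subgroup.map_eq_bot_iff, map_commutator, map_commutator] at h1 h2 ⊢
  exact commutator_commutator_eq_bot_of_rotate h1 h2

lemma gam_comm (j : ℕ) : ∀ i, ⁅gam G i, gam G j⁆ ≤ gam G (i + j + 1) := by
  induction j with
  | zero => exact fun i => le_rfl
  | succ j ih =>
    intro i
    rw [commutator_comm]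
    refine three_subgroups ?_ ?_
    · rw [commutator_comm ⊤]
      exact (ih (i + 1)).trans (gam_le (by omega))
    · exact commutator_mono (ih i) le_rfl

lemma comm_mem {i j n : ℕ} {x y : G} (hx : x ∈ gam G i) (hy : y ∈ gam G j) (h : n ≤ i + j + 1) :
    ⁅x, y⁆ ∈ gam G n :=
  gam_le h (gam_comm j i (commutator_mem_commutator hx hy))

lemma comm_mem_succ {n : ℕ} (g : G) {x : G} (hx : x ∈ gam G n) : ⁅g, x⁆ ∈ gam G (n + 1) :=
  comm_mem (i := 0) (mem_top g) hx (by omega)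

/-- The graded pieces. -/
def Gr (G : Type*) [Group G] (n : ℕ) : Type _ :=
  Additive (gam G n ⧸ (gam G (n + 1)).subgroupOf (gam G n))

noncomputable instance (n : ℕ) : AddCommGroup (Gr G n) :=
  { (inferInstance : AddGroup (Additive (gam G n ⧸ (gam G (n + 1)).subgroupOf (gam G n)))) with
    add_comm := by
      rintro ⟨x⟩ ⟨y⟩
      refine QuotientGroup.eq.2 (mem_subgroupOf.2 ?_)
      have : ((x * y : gam G n) : G)⁻¹ * (y * x : gam G n) = ⁅(y : G)⁻¹, (x : G)⁻¹⁆ := by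
        simp only [commutatorElement_def, coe_mul]; group
      rw [coe_mul, coe_inv, this]
      exact comm_mem_succ _ (inv_mem x.2) }

lemma card_Gr (n : ℕ) : Nat.card (Gr G n) = (gam G (n + 1)).relIndex (gam G n) := rfl

instance [Finite G] (n : ℕ) : Finite (Gr G n) :=
  inferInstanceAs (Finite (gam G n ⧸ (gam G (n + 1)).subgroupOf (gam G n)))

open Classical in
/-- The class of an element in a graded piece. -/
noncomputable def cl (n : ℕ) (x : G) : Gr G n :=
  if h : x ∈ gam G n then Additive.ofMul (QuotientGroup.mk ⟨x, h⟩) else 0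

lemma cl_of_mem {n : ℕ} {x : G} (h : x ∈ gam G n) :
    cl n x = Additive.ofMul (QuotientGroup.mk (⟨x, h⟩ : gam G n)) := dif_pos h

lemma cl_mul {n : ℕ} {x y : G} (hx : x ∈ gam G n) (hy : y ∈ gam G n) :
    cl n (x * y) = cl n x + cl n y := by
  rw [cl_of_mem hx, cl_of_mem hy, cl_of_mem (mul_mem hx hy)]
  rfl

lemma cl_eq_zero {n : ℕ} {x : G} (hx : x ∈ gam G n) : cl n x = 0 ↔ x ∈ gam G (n + 1) := by
  rw [cl_of_mem hx]
  exact (QuotientGroup.eq_one_iff _).trans mem_subgroupOf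

lemma cl_zero {n : ℕ} {x : G} (hx : x ∈ gam G (n + 1)) : cl n x = 0 :=
  (cl_eq_zero (gam_le n.le_succ hx)).2 hx

lemma cl_inv {n : ℕ} {x : G} (hx : x ∈ gam G n) : cl n x⁻¹ = -cl n x := by
  rw [eq_neg_iff_add_eq_zero, ← cl_mul (inv_mem hx) hx, inv_mul_cancel]
  exact cl_zero (one_mem _)

lemma cl_conj {n : ℕ} (g : G) {x : G} (hx : x ∈ gam G n) : cl n (g * x * g⁻¹) = cl n x := by
  have : g * x * g⁻¹ = ⁅g, x⁆ * x := by simp only [commutatorElement_def]; group
  rw [this, cl_mul (gam_le n.le_succ (comm_mem_succ g hx)) hx, cl_zero (comm_mem_succ g hx), zero_add]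

lemma cl_surj {n : ℕ} (a : Gr G n) : ∃ x ∈ gam G n, cl n x = a := by
  obtain ⟨x⟩ := a
  exact ⟨x, x.2, cl_of_mem x.2⟩

/-- Maps between graded pieces. -/
noncomputable def liftH {n m : ℕ} (f : G → G)
    (hmul : ∀ x ∈ gam G n, ∀ y ∈ gam G n, cl m (f (x * y)) = cl m (f x) + cl m (f y))
    (h0 : ∀ x ∈ gam G (n + 1), cl m (f x) = 0) : Gr G n →+ Gr G m :=
  MonoidHom.toAdditiveLeft (QuotientGroup.lift ((gam G (n + 1)).subgroupOf (gam G n))
    (MonoidHom.mk' (fun x : gam G n => Multiplicative.ofAdd (cl m (f x)))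
      fun x y => hmul x x.2 y y.2) fun x hx => h0 x hx)

lemma liftH_cl {n m : ℕ} (f : G → G) (hmul) (h0) {x : G} (hx : x ∈ gam G n) :
    liftH (n := n) (m := m) f hmul h0 (cl n x) = cl m (f x) := by
  rw [cl_of_mem hx]
  rfl

/-- The bracket with a fixed element. -/
noncomputable def ad (g : G) (n : ℕ) : Gr G n →+ Gr G (n + 1) :=
  liftH (fun x => ⁅g, x⁆) (fun x hx y hy => by
      have : ⁅g, x * y⁆ = ⁅g, x⁆ * (x * ⁅g, y⁆ * x⁻¹) := by
        simp only [commutatorElement_def]; group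
      rw [this, cl_mul (comm_mem_succ g hx) (Normal.conj_mem inferInstance _ (comm_mem_succ g hy) x),
        cl_conj _ (comm_mem_succ g hy)])
    fun x hx => cl_zero (comm_mem_succ g hx)

lemma ad_cl (g : G) {n : ℕ} {x : G} (hx : x ∈ gam G n) : ad g n (cl n x) = cl (n + 1) ⁅g, x⁆ :=
  liftH_cl _ _ _ hx

lemma ad_mul (g h : G) (n : ℕ) (a : Gr G n) : ad (g * h) n a = ad g n a + ad h n a := by
  obtain ⟨x, hx, rfl⟩ := cl_surj a
  have : ⁅g * h, x⁆ = g * ⁅h, x⁆ * g⁻¹ * ⁅g, x⁆ := by simp only [commutatorElement_def]; group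
  rw [ad_cl _ hx, ad_cl _ hx, ad_cl _ hx, this,
    cl_mul (Normal.conj_mem inferInstance _ (comm_mem_succ h hx) g) (comm_mem_succ g hx),
    cl_conj _ (comm_mem_succ h hx), add_comm (cl _ _)]

lemma ad_one (n : ℕ) (a : Gr G n) : ad (1 : G) n a = 0 := by
  simpa using ad_mul (1 : G) 1 n a

lemma ad_inv (g : G) (n : ℕ) (a : Gr G n) : ad g⁻¹ n a = -ad g n a := by
  rw [eq_neg_iff_add_eq_zero, ← ad_mul, inv_mul_cancel, ad_one]

lemma ad_jacobi (a b : G) {n : ℕ} {x : G} (hx : x ∈ gam G n) :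
    ad a (n + 1) (ad b n (cl n x)) = ad b (n + 1) (ad a n (cl n x)) + cl (n + 2) ⁅⁅a, b⁆, x⁆ := by
  have hu := comm_mem_succ a hx
  have hv := comm_mem_succ b hx
  have hc : ⁅a, b⁆ ∈ gam G 1 := comm_mem_succ a (mem_top b)
  have h1 : ⁅⁅a, b⁆, ⁅b * a, x⁆⁆ ∈ gam G (n + 3) := comm_mem hc (comm_mem_succ _ hx) (by omega)
  have h2 : ⁅⁅a, b⁆, x⁆ ∈ gam G (n + 2) := comm_mem hc hx (by omega)
  have h3 : ⁅⁅a, x⁆, ⁅b, x⁆⁆ ∈ gam G (n + 3) := comm_mem hu hv (by omega)
  have h4 := comm_mem_succ b hu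
  have h5 := Normal.conj_mem inferInstance _ h2 (⁅a, x⁆ * ⁅b, x⁆)
  have : ⁅a, ⁅b, x⁆⁆ = ⁅⁅a, b⁆, ⁅b * a, x⁆⁆ * ⁅b, ⁅a, x⁆⁆ *
      ((⁅a, x⁆ * ⁅b, x⁆) * ⁅⁅a, b⁆, x⁆ * (⁅a, x⁆ * ⁅b, x⁆)⁻¹) * ⁅⁅a, x⁆, ⁅b, x⁆⁆ := by
    simp only [commutatorElement_def]; group
  rw [ad_cl _ hx, ad_cl _ hx, ad_cl _ hu, ad_cl _ hv, this,
    cl_mul (mul_mem (mul_mem (gam_le (by omega) h1) h4) h5) (gam_le (by omega) h3),
    cl_mul (mul_mem (gam_le (by omega) h1) h4) h5, cl_mul (gam_le (by omega) h1) h4, cl_zero h1,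
    cl_zero h3, cl_conj _ h2, zero_add, add_zero]

lemma cl_comm_congr {c c' x : G} (hc : c ∈ gam G 1) (hc' : c' ∈ gam G 1) (h : cl 1 c = cl 1 c')
    {n : ℕ} (hx : x ∈ gam G n) : cl (n + 2) ⁅c, x⁆ = cl (n + 2) ⁅c', x⁆ := by
  have h1 : c'⁻¹ * c ∈ gam G 2 := by
    rw [← cl_eq_zero (mul_mem (inv_mem hc') hc), cl_mul (inv_mem hc') hc, cl_inv hc', h, neg_add_cancel]
  have h2 : ⁅c'⁻¹ * c, x⁆ ∈ gam G (n + 3) := comm_mem h1 hx (by omega)
  have h3 := Normal.conj_mem inferInstance _ h2 c'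
  have : ⁅c, x⁆ = c' * ⁅c'⁻¹ * c, x⁆ * c'⁻¹ * ⁅c', x⁆ := by simp only [commutatorElement_def]; group
  rw [this, cl_mul (gam_le (by omega) h3) (comm_mem hc' hx (by omega)), cl_zero h3, zero_add]

lemma sq_mem (h2 : ∀ n (a : Gr G n), a + a = 0) {n : ℕ} {x : G} (hx : x ∈ gam G n) :
    x * x ∈ gam G (n + 1) := by
  rw [← cl_eq_zero (mul_mem hx hx), cl_mul hx hx, h2]

/-- The squaring map. -/
noncomputable def sq2 (h2 : ∀ n (a : Gr G n), a + a = 0) (n : ℕ) : Gr G (n + 1) →+ Gr G (n + 2) :=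
  liftH (fun x => x * x) (fun x hx y hy => by
      have h1 : ⁅y, x⁆ ∈ gam G (n + 3) := comm_mem hy hx (by omega)
      have h3 := Normal.conj_mem inferInstance _ h1 x
      have : x * y * (x * y) = x * ⁅y, x⁆ * x⁻¹ * (x * x * (y * y)) := by
        simp only [commutatorElement_def]; group
      rw [this, cl_mul (gam_le (by omega) h3) (mul_mem (sq_mem h2 hx) (sq_mem h2 hy)), cl_zero h3,
        zero_add, cl_mul (sq_mem h2 hx) (sq_mem h2 hy)])
    fun x hx => cl_zero (sq_mem h2 hx)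

lemma sq2_cl (h2 : ∀ n (a : Gr G n), a + a = 0) {n : ℕ} {x : G} (hx : x ∈ gam G (n + 1)) :
    sq2 h2 n (cl (n + 1) x) = cl (n + 2) (x * x) :=
  liftH_cl _ _ _ hx

lemma sq2_ad (h2 : ∀ n (a : Gr G n), a + a = 0) (g : G) (n : ℕ) (a : Gr G (n + 1)) :
    sq2 h2 (n + 1) (ad g (n + 1) a) = ad g (n + 2) (sq2 h2 n a) := by
  obtain ⟨x, hx, rfl⟩ := cl_surj a
  have h1 := comm_mem_succ g hx
  have h3 : ⁅x, ⁅g, x⁆⁆ ∈ gam G (n + 4) := comm_mem hx h1 (by omega)
  have h4 := Normal.conj_mem inferInstance _ h3 ⁅g, x⁆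
  have : ⁅g, x * x⁆ = ⁅g, x⁆ * ⁅x, ⁅g, x⁆⁆ * ⁅g, x⁆⁻¹ * (⁅g, x⁆ * ⁅g, x⁆) := by
    simp only [commutatorElement_def]; group
  rw [ad_cl _ hx, sq2_cl _ h1, sq2_cl _ hx, ad_cl _ (sq_mem h2 hx), this,
    cl_mul (gam_le (by omega) h4) (sq_mem h2 h1), cl_zero h4, zero_add]

lemma conj_comm_invol {g : G} (hg : g * g = 1) (x : G) : g * ⁅g, x⁆ * g⁻¹ = ⁅g, x⁆⁻¹ := by
  have : g⁻¹ = g := inv_eq_of_mul_eq_one_left hg
  calc g * ⁅g, x⁆ * g⁻¹ = (g * g) * x * g⁻¹ * x⁻¹ * g⁻¹ := by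
        simp only [commutatorElement_def]; group
    _ = x * g * x⁻¹ * g⁻¹ := by rw [hg, one_mul, this]
    _ = _ := by simp only [commutatorElement_def]; group

lemma ad_ad (h2 : ∀ n (a : Gr G n), a + a = 0) {g : G} (hg : g * g = 1) (n : ℕ) (a : Gr G n) :
    ad g (n + 1) (ad g n a) = sq2 h2 n (ad g n a) := by
  obtain ⟨x, hx, rfl⟩ := cl_surj a
  have h1 := comm_mem_succ g hx
  rw [ad_cl _ hx, ad_cl _ h1, sq2_cl _ h1, commutatorElement_def g, conj_comm_invol hg, ← mul_inv_rev,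
    cl_inv (sq_mem h2 h1), neg_eq_iff_add_eq_zero, h2]

lemma gen_succ {n : ℕ} (S : AddSubgroup (Gr G (n + 1))) (h : ∀ g a, ad g n a ∈ S)
    (a : Gr G (n + 1)) : a ∈ S := by
  obtain ⟨x, hx, rfl⟩ := cl_surj a
  induction hx using closure_induction with
  | mem x hx =>
    obtain ⟨p, hp, q, -, rfl⟩ := hx
    rw [← commutatorElement_inv, cl_inv (comm_mem_succ q hp), ← ad_cl _ hp]
    exact neg_mem (h _ _)
  | one => rw [cl_zero (one_mem _)]; exact zero_mem _
  | mul x y hx hy h1 h2 => rw [cl_mul hx hy]; exact add_mem h1 h2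
  | inv x hx h1 => rw [cl_inv hx]; exact neg_mem h1

end Pool.Agent.Lib.MP_580eba_nt
end

-- part Pool.Agent.Lib.MP_580eba_nt.GroupI
section

/-!
Groups generated by five involutions with pentagon relations.
-/

namespace Pool.Agent.Lib.MP_580eba_nt

open Subgroup
open scoped commutatorElement

/-- The group theoretic data coming from inertia, Frobenius elements and complex conjugation. -/
structure Pent (G : Type*) [Group G] where
  τ : ZMod 5 → G
  σ : ZMod 5 → G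
  χ : ZMod 5 → G →* ℤˣ
  c : G
  τ_sq : ∀ i, τ i * τ i = 1
  gen : normalClosure (Set.range τ) = ⊤
  χ_τ : ∀ i j, χ j (τ i) = 1 ↔ j ≠ i
  comm : ∀ i, Commute (σ i) (τ i)
  χ_σ : ∀ i, χ (i + 1) (σ i) = 1 ∧ χ (i + 2) (σ i) = 1 ∧ χ (i + 3) (σ i) ≠ 1 ∧ χ (i + 4) (σ i) ≠ 1
  c_sq : c * c = 1
  χ_c : ∀ j, χ j c ≠ 1

namespace Pent

variable {G : Type*} [Group G] (p : Pent G)

lemma eq_sum {A : Type*} [AddCommGroup A] (F : G → A) (hF : ∀ g h, F (g * h) = F g + F h) (g : G) :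
    F g = ∑ j, if p.χ j g = 1 then 0 else F (p.τ j) := by
  have h1 : F 1 = 0 := by simpa using hF 1 1
  let f : G →* Multiplicative A := MonoidHom.mk'
    (fun g => Multiplicative.ofAdd (F g - ∑ j, if p.χ j g = 1 then 0 else F (p.τ j))) fun g h => by
      rw [← ofAdd_add, hF, ← add_sub_add_comm, ← Finset.sum_add_distrib]
      congr 2
      refine Finset.sum_congr rfl fun j _ => ?_
      rw [map_mul]
      rcases Int.units_eq_one_or (p.χ j g) with h2 | h2 <;>
        rcases Int.units_eq_one_or (p.χ j h) with h3 | h3 <;> simp [h2, h3, ← hF, p.τ_sq, h1]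
  have h2 : normalClosure (Set.range p.τ) ≤ f.ker := by
    refine normalClosure_le_normal ?_
    rintro _ ⟨i, rfl⟩
    change Multiplicative.ofAdd (_ - _) = 1
    rw [Finset.sum_eq_single i (fun j _ hj => if_pos ((p.χ_τ i j).2 hj)) (by simp),
      if_neg (by simp [p.χ_τ]), sub_self, ofAdd_zero]
  exact sub_eq_zero.1 (h2 (p.gen ▸ mem_top g))

lemma cl_eq_sum (g : G) : cl 0 g = ∑ j, if p.χ j g = 1 then 0 else cl 0 (p.τ j) :=
  p.eq_sum _ (fun g h => cl_mul (n := 0) (mem_top g) (mem_top h)) g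

lemma ad_eq_sum (g : G) (n : ℕ) (a : Gr G n) :
    ad g n a = ∑ j, if p.χ j g = 1 then 0 else ad (p.τ j) n a :=
  p.eq_sum (fun g => ad g n a) (fun g h => ad_mul g h n a) g

include p in
lemma two (n : ℕ) : ∀ a : Gr G n, a + a = 0 := by
  induction n with
  | zero =>
    intro a
    obtain ⟨x, -, rfl⟩ := cl_surj a
    rw [p.cl_eq_sum, ← Finset.sum_add_distrib]
    refine Finset.sum_eq_zero fun j _ => ?_
    split_ifs
    · exact add_zero 0
    · rw [← cl_mul (mem_top _) (mem_top _), p.τ_sq, cl_zero (one_mem _)]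
  | succ n ih =>
    intro a
    have := gen_succ (nsmulAddMonoidHom 2).ker (fun g a => by
      change 2 • ad g n a = 0
      rw [two_nsmul, ← map_add, ih, map_zero]) a
    rw [← two_nsmul]
    exact this

lemma genS (n : ℕ) (a : Gr G (n + 1)) : ∃ f : ZMod 5 → Gr G n, a = ∑ i, ad (p.τ i) n (f i) := by
  let φ : (ZMod 5 → Gr G n) →+ Gr G (n + 1) :=
    AddMonoidHom.mk' (fun f => ∑ i, ad (p.τ i) n (f i)) fun f g => by
      simp [Finset.sum_add_distrib]
  obtain ⟨f, hf⟩ := gen_succ φ.range (fun g a => ⟨fun j => if p.χ j g = 1 then 0 else a, by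
    rw [p.ad_eq_sum]
    simp only [φ, AddMonoidHom.mk'_apply]
    refine Finset.sum_congr rfl fun j _ => ?_
    split_ifs <;> simp⟩) a
  exact ⟨f, hf.symm⟩

theorem main (n : ℕ) : Function.Surjective (sq2 p.two (n + 1)) ∧
    ∀ a, ad p.c (n + 2) a = sq2 p.two (n + 1) a := by
  have hsym : ∀ g h : G, ad g 0 (cl 0 h) = ad h 0 (cl 0 g) := fun g h => by
    rw [ad_cl _ (mem_top _), ad_cl _ (mem_top _), ← commutatorElement_inv,
      cl_inv (comm_mem_succ _ (mem_top _)), neg_eq_iff_add_eq_zero, p.two]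
  have halt : ∀ g : G, ad g 0 (cl 0 g) = 0 := fun g => by
    rw [ad_cl _ (mem_top _), commutatorElement_self, cl_zero (one_mem _)]
  have hj : ∀ (a b : G) {n : ℕ} {x : G}, x ∈ gam G n → ad a (n + 1) (ad b n (cl n x)) +
      ad b (n + 1) (ad a n (cl n x)) = cl (n + 2) ⁅⁅a, b⁆, x⁆ := fun a b n x hx => by
    rw [ad_jacobi a b hx, add_right_comm (ad _ _ _), p.two, zero_add (cl _ _)]
  obtain ⟨h1, h2⟩ := lie_five (fun i n => ad (p.τ i) n) (sq2 p.two) (fun i => cl 0 (p.τ i)) p.two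
    (by
      rw [eq_top_iff]
      rintro a -
      obtain ⟨x, -, rfl⟩ := cl_surj a
      rw [p.cl_eq_sum]
      refine sum_mem fun j _ => ?_
      split_ifs
      · exact zero_mem _
      · exact AddSubgroup.subset_closure ⟨j, rfl⟩)
    p.genS (fun i j => hsym _ _) (fun i => halt _)
    (fun i => by
      have h := p.ad_eq_sum (p.σ i) 0 (cl 0 (p.τ i))
      obtain ⟨a1, a2, a3, a4⟩ := p.χ_σ i
      rw [ad_cl _ (mem_top _), (p.comm i).commutator_eq, cl_zero (one_mem _), sum_zmod_five _ i,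
        if_pos a1, if_pos a2, if_neg a3, if_neg a4, halt, ite_self, add_zero, add_zero, zero_add (ad _ _ _),
        eq_comm, add_eq_zero_iff_eq_neg, neg_eq_iff_add_eq_zero.2 (p.two _ _)] at h
      rw [hsym, h, hsym])
    (fun a b c => by
      rw [hj _ _ (mem_top _), ad_cl _ (mem_top _), ad_cl _ (comm_mem_succ _ (mem_top _)),
        ← commutatorElement_inv, cl_inv (comm_mem_succ _ (comm_mem_succ _ (mem_top _))),
        neg_eq_iff_add_eq_zero, p.two])
    (fun a b a' b' h x => by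
      obtain ⟨x, hx, rfl⟩ := cl_surj x
      rw [ad_cl _ (mem_top _), ad_cl _ (mem_top _)] at h
      rw [hj _ _ hx, hj _ _ hx]
      exact cl_comm_congr (comm_mem_succ _ (mem_top _)) (comm_mem_succ _ (mem_top _)) h hx)
    (fun i n x => ad_ad _ (p.τ_sq i) n x) (fun i n x => sq2_ad _ _ n x) n
  refine ⟨h1, fun a => ?_⟩
  rw [← h2, p.ad_eq_sum]
  exact Finset.sum_congr rfl fun j _ => if_neg (p.χ_c j)

/-- A bound for the index of the terms of the lower central series. -/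
def bnd : ℕ → ℕ
  | 0 => 32
  | n + 1 => bnd n ^ 5

include p in
lemma card_le [Finite G] (n : ℕ) : Nat.card (Gr G n) ≤ bnd n := by
  induction n with
  | zero =>
    have : Function.Surjective fun f : ZMod 5 → Bool =>
        ∑ j, if f j then (0 : Gr G 0) else cl 0 (p.τ j) := by
      intro a
      obtain ⟨x, -, rfl⟩ := cl_surj a
      exact ⟨fun j => decide (p.χ j x = 1), by simpa using (p.cl_eq_sum x).symm⟩
    simpa [bnd] using Nat.card_le_card_of_surjective _ this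
  | succ n ih =>
    have : Function.Surjective fun f : ZMod 5 → Gr G n => ∑ i, ad (p.τ i) n (f i) := fun a =>
      let ⟨f, hf⟩ := p.genS n a; ⟨f, hf.symm⟩
    refine (Nat.card_le_card_of_surjective _ this).trans ?_
    rw [Nat.card_fun, Nat.card_zmod]
    exact Nat.pow_le_pow_left ih 5

include p in
lemma index_le [Finite G] (n : ℕ) : (gam G n).index ≤ ∏ i ∈ Finset.range n, bnd i := by
  induction n with
  | zero => simp
  | succ n ih =>
    rw [Finset.prod_range_succ, ← relIndex_mul_index (gam_le n.le_succ), mul_comm]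
    exact Nat.mul_le_mul ih (p.card_le n)

include p in
lemma card_succ_le [Finite G] (n : ℕ) : Nat.card (Gr G (n + 3)) ≤ Nat.card (Gr G (n + 2)) :=
  Nat.card_le_card_of_surjective _ (p.main n).1

include p in
theorem exists_char [Finite G] {a m : ℕ} (h1 : Nat.card (Gr G (a + 2)) ≠ 1)
    (h : ∀ n, a ≤ n → n ≤ a + m + 1 → Nat.card (Gr G (n + 3)) = Nat.card (Gr G (n + 2))) :
    ∃ φ : gam G (a + 3) →* ℂˣ, m < Nat.card φ.range := by
  have hi : ∀ n, a ≤ n → n ≤ a + m + 1 → ∀ x ∈ gam G (n + 2), x * x ∈ gam G (n + 4) →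
      x ∈ gam G (n + 3) := fun n h2 h3 x hx hx' => by
    have := ((p.main n).1.bijective_of_nat_card_le (h n h2 h3).ge).1
    rw [← cl_eq_zero hx]
    exact (injective_iff_map_eq_zero _).1 this _ (by rw [sq2_cl _ hx, cl_zero hx'])
  set B := gam G (a + m + 4)
  let S : Set G := {y | ∃ x ∈ gam G (a + 2), ⁅p.c, x⁆ = y}
  have hS : ∀ y ∈ S, y ∈ gam G (a + 3) := by
    rintro _ ⟨x, hx, rfl⟩
    exact comm_mem_succ _ hx
  have hc : ∀ y ∈ S, ∀ z ∈ S, ⁅y, z⁆ ∈ B := by
    intro y hy z hz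
    have h2 : ⁅p.c, ⁅y, z⁆⁆ = ⁅(z * y)⁻¹, ⁅y, z⁆⁆ := by
      obtain ⟨y', -, rfl⟩ := hy
      obtain ⟨z', -, rfl⟩ := hz
      rw [commutatorElement_def p.c, conjugate_commutatorElement, conj_comm_invol p.c_sq,
        conj_comm_invol p.c_sq]
      generalize ⁅p.c, y'⁆ = y
      generalize ⁅p.c, z'⁆ = z
      simp only [commutatorElement_def]; group
    have h3 : ∀ k, k ≤ m + 2 → ⁅y, z⁆ ∈ gam G (a + k + 2) := by
      intro k
      induction k with
      | zero => exact fun _ => comm_mem (hS y hy) (hS z hz) (by omega)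
      | succ k ih =>
        intro hk
        have h4 := ih (by omega)
        refine hi (a + k) (by omega) (by omega) _ h4 ?_
        rw [← cl_eq_zero (sq_mem p.two h4), ← sq2_cl p.two h4, ← (p.main _).2, ad_cl _ h4, h2]
        exact cl_zero (comm_mem (inv_mem (mul_mem (hS z hz) (hS y hy))) h4 (by omega))
    exact h3 (m + 2) le_rfl
  have hg : ∀ k, gam G (a + 3) ≤ closure S ⊔ gam G (a + k + 3) := by
    intro k
    induction k with
    | zero => exact le_sup_right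
    | succ k ih =>
      refine ih.trans (sup_le le_sup_left fun x hx => ?_)
      obtain ⟨b, hb⟩ := (p.main (a + k)).1 (cl _ x)
      obtain ⟨y, hy, rfl⟩ := cl_surj b
      rw [← (p.main _).2, ad_cl _ hy] at hb
      have h2 := comm_mem_succ p.c hy
      have h3 : ⁅p.c, y⁆⁻¹ * x ∈ gam G (a + k + 4) := by
        rw [← cl_eq_zero (mul_mem (inv_mem h2) hx), cl_mul (inv_mem h2) hx, cl_inv h2, hb,
          neg_add_cancel]
      rw [← mul_inv_cancel_left ⁅p.c, y⁆ x]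
      exact mul_mem (mem_sup_left (subset_closure ⟨y, gam_le (by omega) hy, rfl⟩)) (mem_sup_right h3)
  let π := QuotientGroup.mk' B
  have hA : (gam G (a + 3)).map π ≤ closure (π '' S) := by
    refine (map_mono (hg (m + 1))).trans ?_
    rw [Subgroup.map_sup, MonoidHom.map_closure, sup_le_iff]
    refine ⟨le_rfl, ?_⟩
    rintro _ ⟨x, hx, rfl⟩
    rw [show π x = 1 from (QuotientGroup.eq_one_iff x).2 hx]
    exact one_mem _
  have hcomm : IsMulCommutative (closure (π '' S)) := by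
    refine isMulCommutative_closure ?_
    rintro _ ⟨y, hy, rfl⟩ _ ⟨z, hz, rfl⟩
    rw [← commutatorElement_eq_one_iff_mul_comm, ← map_commutatorElement]
    exact (QuotientGroup.eq_one_iff _).2 (hc y hy z hz)
  let _ : CommGroup (closure (π '' S)) := { (inferInstance : Group _) with mul_comm := mul_comm' }
  obtain ⟨x, hx, hx'⟩ : ∃ x ∈ gam G (a + 3), x ∉ gam G (a + 4) := by
    by_contra! h2
    exact h1 ((h a le_rfl (by omega)).symm.trans (relIndex_eq_one.2 h2))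
  have h2 : ∀ k, k ≤ m → x ^ 2 ^ k ∈ gam G (a + k + 3) ∧ x ^ 2 ^ k ∉ gam G (a + k + 4) := by
    intro k
    induction k with
    | zero => exact fun _ => by simpa using ⟨hx, hx'⟩
    | succ k ih =>
      intro hk
      obtain ⟨h3, h4⟩ := ih (by omega)
      rw [pow_succ, pow_mul, sq]
      exact ⟨sq_mem p.two h3, fun h5 => h4 (hi (a + k + 1) (by omega) (by omega) _ h3 h5)⟩
  let ι : gam G (a + 3) →* closure (π '' S) :=
    (π.comp (gam G (a + 3)).subtype).codRestrict _ fun y => hA ⟨y, y.2, rfl⟩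
  have h3 : ι ⟨x, hx⟩ ^ 2 ^ m ≠ 1 := fun h4 => (h2 m le_rfl).2 ((QuotientGroup.eq_one_iff _).1
    (by rw [← map_pow] at h4; exact congrArg Subtype.val h4))
  have h4 : ι ⟨x, hx⟩ ^ 2 ^ (m + 1) = 1 := by
    have h5 := sq_mem p.two (h2 m le_rfl).1
    rw [← sq, ← pow_mul, ← pow_succ] at h5
    rw [← map_pow]
    exact Subtype.ext ((QuotientGroup.eq_one_iff _).2 h5)
  obtain ⟨ψ, hψ⟩ := CommGroup.exists_apply_ne_one_of_hasEnoughRootsOfUnity _ ℂ h3
  refine ⟨ψ.comp ι, ?_⟩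
  have h5 : orderOf (ψ (ι ⟨x, hx⟩)) = 2 ^ (m + 1) :=
    orderOf_eq_prime_pow (by rwa [← map_pow]) (by rw [← map_pow, h4, map_one])
  have : Finite (ψ.comp ι).range := Finite.of_surjective _ (ψ.comp ι).rangeRestrict_surjective
  have : Fintype (ψ.comp ι).range := Fintype.ofFinite _
  have h6 := orderOf_le_card_univ (x := (⟨ψ (ι ⟨x, hx⟩), ⟨_, rfl⟩⟩ : (ψ.comp ι).range))
  rw [← orderOf_coe, h5, ← Nat.card_eq_fintype_card] at h6
  exact lt_of_lt_of_le (lt_trans m.lt_succ_self Nat.lt_two_pow_self) h6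

end Pent

lemma gam_eq_bot {G : Type*} [Group G] [Group.IsNilpotent G] {n : ℕ} (h : Nat.card (Gr G n) = 1) :
    gam G n = ⊥ := by
  have h1 : ∀ k, gam G (n + k) = gam G n := by
    intro k
    induction k with
    | zero => rfl
    | succ k ih =>
      rw [← add_assoc, gam, Subgroup.lowerCentralSeries_succ, ← gam, ih]
      exact le_antisymm (gam_le n.le_succ) (relIndex_eq_one.1 h)
  rw [← h1 (Group.nilpotencyClass G)]
  exact Subgroup.lowerCentralSeries_eq_bot_iff_nilpotencyClass_le.2 (by omega)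

end Pool.Agent.Lib.MP_580eba_nt
end
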