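import Pool.Agent.Lib.MP_580eba_nt.Frob
import Pool.Agent.Lib.MP_580eba_nt.GroupI

-- part Pool.Agent.Lib.MP_580eba_nt.PentF
section

/-!
The pentagon structure on Galois groups.
-/

namespace Pool.Agent.Lib.MP_580eba_nt

open NumberField Subgroup

/-- Five primes whose mutual quadratic residue symbols form the regular tournament. -/
structure Pat (q : ZMod 5 → ℕ) : Prop where
  prime : ∀ i, (q i).Prime
  mod : ∀ i, q i % 4 = 3
  inj : Function.Injective q
  sq : ∀ i j, i ≠ j → (IsSquare (q j : ZMod (q i)) ↔ j = i + 3 ∨ j = i + 4)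

lemma conj_ne_of_sq {z : ℂ} {n : ℕ} (hn : n ≠ 0) (h : z ^ 2 = -n) : starRingEnd ℂ z ≠ z := by
  intro h1
  obtain ⟨r, rfl⟩ := Complex.conj_eq_iff_real.1 h1
  have h2 : r ^ 2 = -n := by exact_mod_cast h
  have h3 : (0 : ℝ) < n := Nat.cast_pos.2 (Nat.pos_of_ne_zero hn)
  nlinarith [sq_nonneg r]

lemma isTotallyComplex_of_sq {F : Type*} [Field F] {s : F} {n : ℕ} (hn : n ≠ 0) (h : s ^ 2 = -n) :
    IsTotallyComplex F := ⟨fun v => by
  rw [← InfinitePlace.not_isReal_iff_isComplex, InfinitePlace.isReal_iff,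
    ComplexEmbedding.isReal_iff]
  intro h1
  refine conj_ne_of_sq (z := v.embedding s) hn (by rw [← map_pow, h]; simp) ?_
  exact DFunLike.congr_fun h1 s⟩

variable {N : Type*} [Field N] [NumberField N] {G : Type*} [Group G] [MulSemiringAction G N]
  {q : ZMod 5 → ℕ} {s : ZMod 5 → N}

omit [NumberField N] in
lemma smul_sq_neg_nat {s : N} {n : ℕ} (h : s ^ 2 = -n) (g : G) : g • s ^ 2 = s ^ 2 := by
  rw [h, smul_neg]
  exact congrArg _ (map_natCast (MulSemiringAction.toRingHom G N g) n)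

lemma ne_zero_of_sq {s : N} {n : ℕ} (hn : n ≠ 0) (h : s ^ 2 = -n) : s ≠ 0 := by
  rintro rfl
  exact hn (by simpa using h)

lemma Pat.In_fix (hq : Pat q) (hs : ∀ i, s i ^ 2 = -q i) {w : Pl N} {g : G} (hg : g ∈ In G w)
    {j : ZMod 5} (hj : ¬ val w (q j : N) < 1) : g • s j = s j := by
  refine In_fix_of_sq hg (smul_sq_neg_nat (hs j) g) ?_ ?_
  · rw [hs, Valuation.map_neg]
    exact le_antisymm (val_natCast_le w _) (not_lt.1 hj)
  · have h1 : (q j : N) = 4 * (q j / 4 : ℕ) + 3 := by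
      conv_lhs => rw [← Nat.div_add_mod (q j) 4, hq.mod j]
      push_cast; ring
    rw [hs, h1, show -(4 * ((q j / 4 : ℕ) : N) + 3) - 1 = -(4 * ((q j / 4 + 1 : ℕ) : N)) by
      push_cast; ring, Valuation.map_neg, map_mul]
    exact mul_le_of_le_one_right' (val_natCast_le w _)

lemma Pat.eq_of_val (hq : Pat q) {w : Pl N} {i j : ZMod 5} (hi : val w (q i : N) < 1)
    (hj : val w (q j : N) < 1) : j = i := by
  have := (val_int_lt_iff (hq.prime i) hi (a := q j)).1 (by exact_mod_cast hj)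
  exact (hq.inj ((Nat.prime_dvd_prime_iff_eq (hq.prime i) (hq.prime j)).1
    (Int.natCast_dvd_natCast.1 this))).symm

lemma Pat.smul_prod (hq : Pat q) (hs : ∀ i, s i ^ 2 = -q i) {w : Pl N} {g : G} (hg : g ∈ In G w)
    {i : ZMod 5} (hi : val w (q i : N) < 1) : g • ∏ j, s j = ∏ j, s j ↔ g • s i = s i := by
  rw [← Finset.mul_prod_erase _ _ (Finset.mem_univ i), smul_mul', Finset.smul_prod',
    Finset.prod_congr rfl fun j hj => hq.In_fix hs hg fun h =>
      Finset.ne_of_mem_erase hj (hq.eq_of_val hi h),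
    mul_left_inj' (Finset.prod_ne_zero_iff.2 fun j _ => ne_zero_of_sq (hq.prime j).ne_zero (hs j))]

lemma Pat.In_fix_all (hq : Pat q) (hs : ∀ i, s i ^ 2 = -q i) {w : Pl N} {g : G} (hg : g ∈ In G w)
    (h : g • ∏ j, s j = ∏ j, s j) (i : ZMod 5) : g • s i = s i := by
  by_cases hi : val w (q i : N) < 1
  · exact (hq.smul_prod hs hg hi).1 h
  · exact hq.In_fix hs hg hi

theorem Pat.exists_pent [Finite G] [IsGaloisGroup G ℚ N] (hq : Pat q) (hs : ∀ i, s i ^ 2 = -q i)
    (hu : ∀ w : Pl N, ∀ g ∈ In G w, g • ∏ j, s j = ∏ j, s j → g = 1) : Nonempty (Pent G) := by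
  have h0 : ∀ i, s i ≠ 0 := fun i => ne_zero_of_sq (hq.prime i).ne_zero (hs i)
  let χ : ZMod 5 → G →* ℤˣ := fun j => sgn (h0 j) (smul_sq_neg_nat (hs j))
  have hχ : ∀ j g, χ j g = 1 ↔ g • s j = s j := fun j g => sgn_eq_one _ _
  choose w hw using fun i => exists_pl N (hq.prime i)
  have h1 : ∀ i, ∀ g ∈ In G (w i), χ i g = 1 → g = 1 := fun i g hg h =>
    hu _ g hg ((hq.smul_prod hs hg (hw i)).2 ((hχ i g).1 h))
  have h2 : ∀ i, ∃ g ∈ In G (w i), g ≠ 1 := fun i => by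
    by_contra! h
    have h3 := ord_prime (hq.prime i) (hw i)
    rw [← card_In G, (Subgroup.eq_bot_iff_forall _).2 h, card_bot, ← ord_neg, ← hs, ord_pow] at h3
    omega
  choose τ hτ hτ1 using h2
  have h3 : ∀ i, ∀ g ∈ In G (w i), g ≠ 1 → g = τ i := fun i g hg h => by
    refine (inv_mul_eq_one.1 (h1 i _ (mul_mem (inv_mem (hτ i)) hg) ?_)).symm
    rw [map_mul, map_inv, (Int.units_eq_one_or _).resolve_left (mt (h1 i g hg) h),
      (Int.units_eq_one_or _).resolve_left (mt (h1 i _ (hτ i)) (hτ1 i)), inv_mul_cancel]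
  choose σ hσ hσ' using fun i => exists_frob (K := ℚ) G (w i)
  have h4 : ∀ i j, i ≠ j → (χ j (σ i) = 1 ↔ ¬ (j = i + 3 ∨ j = i + 4)) := fun i j hij => by
    have := Fact.mk (hq.prime i)
    have h5 : q i ≠ 2 := fun h => by simpa [h] using hq.mod i
    have h6 : ¬ (q i : ℤ) ∣ q j := fun h => hij (hq.inj ((Nat.prime_dvd_prime_iff_eq (hq.prime i)
      (hq.prime j)).1 (Int.natCast_dvd_natCast.1 h)))
    have h7 := frob_legendre h5 (hw i) (σ := σ i)
      (by simpa only [nP_rat (hq.prime i) (val_und_rat.2 (hw i))] using hσ' i) (s := s j)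
      (a := -q j) (by simpa using hs j) (by simpa using h6)
    rw [hχ, h7, ← hq.sq i j hij, ← legendreSym.eq_neg_one_iff', legendreSym.at_neg h5,
      ZMod.χ₄_nat_three_mod_four (hq.mod i), mul_left_eq_self₀, or_iff_left (h0 j), neg_one_mul,
      Int.cast_eq_one, neg_eq_iff_eq_neg]
  obtain ⟨φ⟩ : Nonempty (N →+* ℂ) := inferInstance
  have := IsGaloisGroup.isGalois G ℚ N
  have := IsGaloisGroup.faithful (G := G) (B := N) ℚ
  obtain ⟨c', hc'⟩ := exists_res (k := ℚ) φ (starRingAut : RingAut ℂ) (by simp)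
  obtain ⟨c, rfl⟩ := (IsGaloisGroup.mulEquivAlgEquiv G ℚ N).surjective c'
  have hc : ∀ x, φ (c • x) = starRingEnd ℂ (φ x) := hc'
  refine ⟨⟨τ, σ, χ, c, fun i => h1 i _ (mul_mem (hτ i) (hτ i)) (by rw [map_mul, Int.units_mul_self]),
    eq_top_of_In_le (N := N) fun v g hg => ?_, fun i j => ⟨?_, fun h => ?_⟩, fun i => ?_,
    fun i => ?_, ?_, fun j h => ?_⟩⟩
  · by_cases h : g = 1
    · rw [h]; exact one_mem _
    obtain ⟨i, hi⟩ : ∃ i, val v (q i : N) < 1 := by
      by_contra! h5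
      refine h (hu v g hg ?_)
      rw [Finset.smul_prod']
      exact Finset.prod_congr rfl fun j _ => hq.In_fix hs hg (h5 j).not_gt
    obtain ⟨k, hk⟩ := exists_smul_eq G (und_rat_eq (hq.prime i) hi (hw i))
    have h5 := h3 i _ (hk ▸ conj_mem_In hg k) (by simpa using h)
    rw [show g = k⁻¹ * τ i * k⁻¹⁻¹ by rw [← h5]; group]
    exact normalClosure_normal.conj_mem _ (subset_normalClosure (Set.mem_range_self i)) _
  · rintro h rfl
    exact hτ1 _ (h1 _ _ (hτ _) h)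
  · exact (hχ _ _).2 (hq.In_fix hs (hτ i) fun h5 => h (hq.eq_of_val (hw i) h5))
  · have h5 := h3 i _ (hσ i ▸ conj_mem_In (hτ i) (σ i)) (by simpa using hτ1 i)
    exact mul_inv_eq_iff_eq_mul.1 h5
  · have h5 : ∀ i : ZMod 5, (i ≠ i + 1 ∧ ¬ (i + 1 = i + 3 ∨ i + 1 = i + 4)) ∧
      (i ≠ i + 2 ∧ ¬ (i + 2 = i + 3 ∨ i + 2 = i + 4)) ∧ i ≠ i + 3 ∧ i ≠ i + 4 := by decide
    obtain ⟨⟨a1, a2⟩, ⟨a3, a4⟩, a5, a6⟩ := h5 i
    exact ⟨(h4 _ _ a1).2 a2, (h4 _ _ a3).2 a4, fun h => (h4 _ _ a5).1 h (Or.inl rfl),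
      fun h => (h4 _ _ a6).1 h (Or.inr rfl)⟩
  · refine FaithfulSMul.eq_of_smul_eq_smul (α := N) fun x => φ.injective ?_
    rw [mul_smul, hc, hc, Complex.conj_conj, one_smul]
  · refine conj_ne_of_sq (z := φ (s j)) (hq.prime j).ne_zero (by rw [← map_pow, hs]; simp) ?_
    rw [← hc, (hχ j c).1 h]

lemma gam_fix {s : N} {n : ℕ} (hn : n ≠ 0) (hs : s ^ 2 = -n) {m : ℕ} {g : G}
    (hg : g ∈ gam G (m + 1)) : g • s = s :=
  (sgn_eq_one (ne_zero_of_sq hn hs) (smul_sq_neg_nat hs)).1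
    (Abelianization.commutator_subset_ker _ (gam_le (m := 1) (by omega) hg))

end Pool.Agent.Lib.MP_580eba_nt
end

-- part Pool.Agent.Lib.MP_580eba_nt.Tower
section

/-!
A directed family of Galois extensions with pentagon structure has bounded degree.
-/

namespace Pool.Agent.Lib.MP_580eba_nt

open NumberField Subgroup IntermediateField

variable {Q Ω : Type*} [Field Q] [Field Ω] [Algebra Q Ω]

/-- Restriction of automorphisms to a normal intermediate field. -/
noncomputable def resH {L N : IntermediateField Q Ω} [Normal Q L] (h : L ≤ N) :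
    (N ≃ₐ[Q] N) →* (L ≃ₐ[Q] L) :=
  letI := (inclusion h).toAlgebra
  haveI : IsScalarTower Q L N := IsScalarTower.of_algebraMap_eq fun _ => rfl
  AlgEquiv.restrictNormalHom L

lemma resH_spec {L N : IntermediateField Q Ω} [Normal Q L] (h : L ≤ N) (g : N ≃ₐ[Q] N) (x : L) :
    inclusion h (resH h g x) = g (inclusion h x) :=
  letI := (inclusion h).toAlgebra
  haveI : IsScalarTower Q L N := IsScalarTower.of_algebraMap_eq fun _ => rfl
  AlgEquiv.restrictNormal_commutes g L x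

lemma resH_surj {L N : IntermediateField Q Ω} [Normal Q L] [Normal Q N] (h : L ≤ N) :
    Function.Surjective (resH h) :=
  letI := (inclusion h).toAlgebra
  haveI : IsScalarTower Q L N := IsScalarTower.of_algebraMap_eq fun _ => rfl
  AlgEquiv.restrictNormalHom_surjective N

lemma map_gam {G G' : Type*} [Group G] [Group G'] {f : G →* G'} (hf : Function.Surjective f) (n : ℕ) :
    (gam G n).map f = gam G' n := by
  rw [map_lowerCentralSeries, ← MonoidHom.range_eq_map, MonoidHom.range_eq_top.2 hf]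

/-- The fixed field of a term of the lower central series. -/
def FF (n : ℕ) (L : IntermediateField Q Ω) : IntermediateField Q Ω :=
  lift (fixedField (gam (L ≃ₐ[Q] L) n))

lemma mem_FF {n : ℕ} {L : IntermediateField Q Ω} (x : L) :
    (x : Ω) ∈ FF n L ↔ ∀ g ∈ gam (L ≃ₐ[Q] L) n, g x = x := by
  rw [FF, mem_lift, mem_fixedField_iff]

lemma FF_le (n : ℕ) (L : IntermediateField Q Ω) : FF n L ≤ L := lift_le _

instance (n : ℕ) (L : IntermediateField Q Ω) [FiniteDimensional Q L] :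
    FiniteDimensional Q (FF n L) := (liftAlgEquiv _).toLinearEquiv.finiteDimensional

lemma finrank_FF (n : ℕ) (L : IntermediateField Q Ω) [FiniteDimensional Q L] [IsGalois Q L] :
    Module.finrank Q (FF n L) = (gam (L ≃ₐ[Q] L) n).index := by
  rw [FF, ← (liftAlgEquiv _).toLinearEquiv.finrank_eq, finrank_eq_fixingSubgroup_index,
    fixingSubgroup_fixedField]

lemma FF_mono (n : ℕ) {L N : IntermediateField Q Ω} [Normal Q L] [Normal Q N] (h : L ≤ N) :
    FF n L ≤ FF n N := fun x hx => by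
  refine (mem_FF (inclusion h ⟨x, FF_le n L hx⟩)).2 fun g hg => ?_
  rw [← resH_spec, (mem_FF ⟨x, FF_le n L hx⟩).1 hx _
    (map_gam (resH_surj h) n ▸ mem_map_of_mem _ hg)]

theorem tower_bound [NumberField Q] {ι : Type*} [Nonempty ι] (N : ι → IntermediateField Q Ω)
    (hd : ∀ i j, ∃ l, N i ≤ N l ∧ N j ≤ N l) [∀ i, FiniteDimensional Q (N i)]
    [∀ i, IsGalois Q (N i)] (hP : ∀ i, Nonempty (Pent (N i ≃ₐ[Q] N i)))
    (h2 : ∀ i, IsPGroup 2 (N i ≃ₐ[Q] N i))
    (hu : ∀ i (w : Pl (N i)), ∀ g ∈ In (N i ≃ₐ[Q] N i) w, g ∈ gam _ 1 → g = 1)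
    (hc : ∀ i, ∃ (s : N i) (n : ℕ), n ≠ 0 ∧ s ^ 2 = -n) :
    ∃ B, ∀ i, Module.finrank Q (N i) ≤ B := by
  let f : ℕ → ι → ℕ := fun n i => (gam (N i ≃ₐ[Q] N i) n).index
  have f0 : ∀ n i, f n i ≠ 0 := fun n i => index_ne_zero_of_finite
  have fm : ∀ n i j, N i ≤ N j → f n i ≤ f n j := fun n i j h => by
    simp only [f, ← finrank_FF]
    exact finrank_le_of_le_right (FF_mono n h)
  have h1 : ∀ n, ∃ i, ∀ j, f n j ≤ f n i := fun n => by
    have h3 : (Set.range (f n)).Finite := (Set.finite_Iic _).subset (by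
      rintro _ ⟨i, rfl⟩
      exact (hP i).some.index_le n)
    obtain ⟨_, ⟨i, rfl⟩, h4⟩ := Set.exists_max_image _ id h3 (Set.range_nonempty _)
    exact ⟨i, fun j => h4 _ ⟨j, rfl⟩⟩
  choose m hm using h1
  have h3 : ∀ b i, ∃ l, N i ≤ N l ∧ ∀ n ≤ b, f n l = f n (m n) := fun b i => by
    induction b with
    | zero =>
      obtain ⟨l, h4, h5⟩ := hd i (m 0)
      exact ⟨l, h4, fun n hn => by
        obtain rfl := Nat.le_zero.1 hn
        exact le_antisymm (hm _ _) (fm _ _ _ h5)⟩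
    | succ b ih =>
      obtain ⟨l, h4, h5⟩ := ih
      obtain ⟨l', h6, h7⟩ := hd l (m (b + 1))
      refine ⟨l', h4.trans h6, fun n hn => le_antisymm (hm _ _) ?_⟩
      rcases Nat.of_le_succ hn with h8 | rfl
      · exact h5 n h8 ▸ fm _ _ _ h6
      · exact fm _ _ _ h7
  let ρ : ℕ → ℕ := fun n => f (n + 1) (m (n + 1)) / f n (m n)
  have h4 : ∀ b l, (∀ n ≤ b, f n l = f n (m n)) → ∀ n, n + 1 ≤ b →
      Nat.card (Gr (N l ≃ₐ[Q] N l) n) = ρ n := fun b l h n hn => by
    simp only [ρ]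
    rw [← h _ hn, ← h n (by omega), card_Gr]
    exact (Nat.div_eq_of_eq_mul_left (Nat.pos_of_ne_zero (f0 n l))
      (relIndex_mul_index (gam_le n.le_succ)).symm).symm
  obtain ⟨i₀⟩ := ‹Nonempty ι›
  obtain ⟨a, ha⟩ := WellFoundedLT.antitone_chain_condition (f := fun n => ρ (n + 2))
    (antitone_nat_of_succ_le fun n => by
      obtain ⟨l, -, h5⟩ := h3 (n + 4) i₀
      rw [← h4 _ l h5 _ (by omega), ← h4 _ l h5 _ (by omega)]
      exact (hP l).some.card_succ_le n)
  by_cases h5 : ρ (a + 2) = 1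
  · refine ⟨f (a + 2) (m (a + 2)), fun i => ?_⟩
    obtain ⟨l, h6, h7⟩ := h3 (a + 3) i
    have : Fact (Nat.Prime 2) := ⟨Nat.prime_two⟩
    have := (h2 l).isNilpotent
    rw [← h7 _ (by omega)]
    simp only [f]
    rw [gam_eq_bot ((h4 _ l h7 _ le_rfl).trans h5), index_bot, IsGalois.card_aut_eq_finrank]
    exact finrank_le_of_le_right h6
  · exfalso
    let F := FF (a + 3) (N (m (a + 3)))
    obtain ⟨l, h6, h7⟩ := h3 (a + cls F + 5) (m (a + 3))
    have h8 : F = FF (a + 3) (N l) := eq_of_le_of_finrank_eq (FF_mono _ h6) (by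
      rw [finrank_FF, finrank_FF]; exact (h7 _ (by omega)).symm)
    obtain ⟨φ, hφ⟩ := (hP l).some.exists_char (a := a) (m := cls F)
      (by rwa [h4 _ l h7 _ (by omega)]) fun n h9 h10 => by
        rw [h4 _ l h7 _ (by omega), h4 _ l h7 _ (by omega)]
        exact (ha (n + 1) (by omega)).symm.trans (ha n h9)
    obtain ⟨s, n, hn, hs⟩ := hc (m (a + 3))
    have : IsTotallyComplex F := isTotallyComplex_of_sq
      (s := ⟨s, (mem_FF s).2 fun g hg => gam_fix hn hs hg⟩) hn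
      (Subtype.ext (by simpa using congrArg Subtype.val hs))
    have h9 : F ≤ N l := (FF_le _ _).trans h6
    refine hφ.not_ge (card_range_le_cls (inclusion h9 : F →+* N l) (fun x => ?_) (fun w => ?_) φ)
    · refine Iff.trans ?_ ((mem_FF x).trans ⟨fun h g => h g g.2, fun h g hg => h ⟨g, hg⟩⟩)
      rw [← h8]
      exact ⟨by rintro ⟨y, rfl⟩; exact y.2, fun h => ⟨⟨x, h⟩, rfl⟩⟩
    · exact (Subgroup.eq_bot_iff_forall _).2 fun g hg =>
        Subtype.ext (hu l w g hg (gam_le (by omega) g.2))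

end Pool.Agent.Lib.MP_580eba_nt
end

-- part Pool.Agent.Lib.MP_580eba_nt.PartI
section

/-!
Finiteness of the unramified 2-tower.
-/

namespace Pool.Agent.Lib.MP_580eba_nt

open NumberField Subgroup IntermediateField

lemma quad_ext {k N : Type*} [Field k] [NumberField k] [Field N] [CharZero N]
    (h2 : Module.finrank ℚ k = 2) {θ : k} {D : ℕ} (hD : D ≠ 0) (hθ : θ ^ 2 = -D)
    {φ ψ : k →+* N} (h : φ θ = ψ θ) : φ = ψ := by
  rcases (Subalgebra.isSimpleOrder_of_finrank h2).eq_bot_or_eq_top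
    (AlgHom.equalizer φ.toRatAlgHom ψ.toRatAlgHom) with h1 | h1
  · have h3 : θ ∈ (⊥ : Subalgebra ℚ k) := h1 ▸ h
    obtain ⟨r, rfl⟩ := Algebra.mem_bot.1 h3
    have h4 : r ^ 2 = -D := (algebraMap ℚ k).injective (by simpa using hθ)
    have h5 : (0 : ℚ) < D := Nat.cast_pos.2 (Nat.pos_of_ne_zero hD)
    nlinarith [sq_nonneg r]
  · exact RingHom.ext fun x => (h1 ▸ Algebra.mem_top : x ∈ AlgHom.equalizer φ.toRatAlgHom ψ.toRatAlgHom)

section

variable {Q k Ω : Type*} [Field Q] [Field k] [Field Ω] [Algebra Q k] [Algebra Q Ω] [Algebra k Ω]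
  [IsScalarTower Q k Ω]

variable (Q) in
/-- The Galois closure over the prime field, together with the genus field. -/
noncomputable def NN (s : ZMod 5 → Ω) (L : IntermediateField k Ω) : IntermediateField Q Ω :=
  normalClosure Q (L.restrictScalars Q) Ω ⊔ adjoin Q (Set.range s)

lemma NN_mono [Normal Q Ω] (s : ZMod 5 → Ω) {L L' : IntermediateField k Ω} (h : L ≤ L') :
    NN Q s L ≤ NN Q s L' :=
  sup_le_sup_right (IntermediateField.normalClosure_mono (L.restrictScalars Q) (L'.restrictScalars Q)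
    h) _

lemma mem_NN (s : ZMod 5 → Ω) (L : IntermediateField k Ω) (i : ZMod 5) : s i ∈ NN Q s L :=
  (le_sup_right : _ ≤ NN Q s L) (subset_adjoin _ _ ⟨i, rfl⟩)

lemma finite_res [FiniteDimensional Q k] (L : IntermediateField k Ω) [FiniteDimensional k L] :
    FiniteDimensional Q (L.restrictScalars Q) := (Module.Finite.trans k L : FiniteDimensional Q L)

lemma finite_NN [FiniteDimensional Q k] [Algebra.IsAlgebraic Q Ω] (s : ZMod 5 → Ω)
    (L : IntermediateField k Ω) [FiniteDimensional k L] : FiniteDimensional Q (NN Q s L) := by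
  have := finite_res (Q := Q) L
  have := finiteDimensional_adjoin (K := Q) (S := Set.range s) fun x _ =>
    Algebra.IsIntegral.isIntegral x
  exact finiteDimensional_sup _ _

lemma finrank_le_NN [FiniteDimensional Q k] [Algebra.IsAlgebraic Q Ω] (s : ZMod 5 → Ω)
    (L : IntermediateField k Ω) [FiniteDimensional k L] :
    Module.finrank k L ≤ Module.finrank Q (NN Q s L) := by
  have := finite_NN (Q := Q) s L
  refine le_trans ?_ (finrank_le_of_le_right (F := L.restrictScalars Q)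
    ((IntermediateField.le_normalClosure _).trans le_sup_left))
  exact (Nat.le_mul_of_pos_left _ Module.finrank_pos).trans_eq (Module.finrank_mul_finrank Q k L)

lemma normal_NN [Normal Q Ω] {s : ZMod 5 → Ω} {q : ZMod 5 → ℕ} (hs : ∀ i, s i ^ 2 = -q i)
    (L : IntermediateField k Ω) : Normal Q (NN Q s L) := by
  have : Normal Q (adjoin Q (Set.range s)) := normal_iff_forall_map_le'.2 fun σ => by
    rw [adjoin_map, adjoin_le_iff]
    rintro _ ⟨_, ⟨i, rfl⟩, rfl⟩
    have h1 : s i ∈ adjoin Q (Set.range s) := subset_adjoin _ _ ⟨i, rfl⟩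
    rcases smul_eq_or (smul_sq_neg_nat (hs i) σ) with h | h
    · exact Set.mem_of_eq_of_mem h h1
    · exact Set.mem_of_eq_of_mem h (neg_mem h1)
  exact normal_sup _ _ _ _

lemma NN_eq_one {s : ZMod 5 → Ω} {L : IntermediateField k Ω} {g : NN Q s L ≃ₐ[Q] NN Q s L}
    (h1 : ∀ i, g ⟨s i, mem_NN s L i⟩ = ⟨s i, mem_NN s L i⟩)
    (h2 : ∀ (f : L →+* NN Q s L) x, g (f x) = f x) : g = 1 := by
  refine eq_one_of_le_fixF (sup_le (normalClosure_le_iff.2 fun f => ?_) (adjoin_le_iff.2 ?_))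
  · rintro _ ⟨x, rfl⟩
    exact (mem_fixF _).2 (h2 ((f : L.restrictScalars Q →+* Ω).codRestrict (NN Q s L) fun y =>
      (le_sup_left : _ ≤ NN Q s L) (f.fieldRange_le_normalClosure ⟨y, rfl⟩)) x)
  · rintro _ ⟨i, rfl⟩
    exact (mem_fixF _).2 (h1 i)

end

theorem partI_aux {q : ZMod 5 → ℕ} (hq : Pat q) {k : Type*} [Field k] [NumberField k]
    (h2 : Module.finrank ℚ k = 2) {θ : k} (hθ : θ ^ 2 = -(∏ i, q i : ℕ)) (Q : Type*) [Field Q]
    [NumberField Q] [Algebra Q k]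
    (hP : ∀ (N : IntermediateField Q (AlgebraicClosure k)) [FiniteDimensional Q N] [IsGalois Q N]
      (s : ZMod 5 → N), (∀ i, s i ^ 2 = -q i) → (∀ w : Pl N, ∀ g ∈ In (N ≃ₐ[Q] N) w,
        g • ∏ j, s j = ∏ j, s j → g = 1) → Nonempty (Pent (N ≃ₐ[Q] N))) :
    FiniteDimensional k (maxTwoExt k ∅) := by
  let Ω := AlgebraicClosure k
  choose s hs using fun i => IsAlgClosed.exists_pow_nat_eq (-(q i : Ω)) two_pos
  have hD : ∏ i, q i ≠ 0 := Finset.prod_ne_zero_iff.2 fun i _ => (hq.prime i).ne_zero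
  let ι := {L // IsTwoExt k ∅ L}
  have : Nonempty ι := ⟨⟨⊥, isTwoExt_bot⟩⟩
  have := fun L : ι => L.2.1
  have := fun L : ι => L.2.2.1
  have := fun L : ι => finite_NN (Q := Q) s L.1
  have := fun L : ι => normal_NN (Q := Q) hs L.1
  have : ∀ L : ι, IsGalois Q (NN Q s L.1) := fun L => IsGalois.mk
  let t : ∀ L : ι, ZMod 5 → NN Q s L.1 := fun L i => ⟨s i, mem_NN s _ i⟩
  have ht : ∀ L i, t L i ^ 2 = -q i := fun L i => Subtype.ext (by simpa using hs i)
  have h3 : ∀ (L : ι) (g : NN Q s L.1 ≃ₐ[Q] NN Q s L.1), g • ∏ j, t L j = ∏ j, t L j →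
      ∀ f : L.1 →+* NN Q s L.1, ∃ g' : L.1 ≃ₐ[k] L.1, ∀ x, f (g' • x) = g • f x := by
    intro L g hg f
    have h4 : f (algebraMap k L.1 θ) ^ 2 = (∏ j, t L j) ^ 2 := by
      rw [← map_pow, ← map_pow, hθ, ← Finset.prod_pow]
      simp [ht, Finset.prod_neg]
      norm_num
    have h5 : g • f (algebraMap k L.1 θ) = f (algebraMap k L.1 θ) := by
      rcases sq_eq_sq_iff_eq_or_eq_neg.1 h4 with h | h <;> simp only [h, smul_neg, hg]
    exact exists_res f g (DFunLike.congr_fun (quad_ext h2 hD hθ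
      (φ := (MulSemiringAction.toRingHom _ _ g).comp (f.comp (algebraMap k L.1)))
      (ψ := f.comp (algebraMap k L.1)) h5))
  have h4 : ∀ (L : ι) (w : Pl (NN Q s L.1)), ∀ g ∈ In (NN Q s L.1 ≃ₐ[Q] NN Q s L.1) w,
      g • ∏ j, t L j = ∏ j, t L j → g = 1 := fun L w g hg h => by
    refine NN_eq_one (hq.In_fix_all (ht L) hg h) fun f x => ?_
    obtain ⟨g', h5⟩ := h3 L g h f
    have h6 := res_mem_In h5 hg
    rw [(isTwoExt_iff.1 L.2).2 _ (Set.notMem_empty _), Subgroup.mem_bot] at h6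
    have := h5 x
    rw [h6, one_smul] at this
    exact this.symm
  obtain ⟨B, hB⟩ := tower_bound (Q := Q) (fun L : ι => NN Q s L.1)
    (fun L L' => ⟨⟨_, L.2.sup L'.2⟩, NN_mono s le_sup_left, NN_mono s le_sup_right⟩)
    (fun L => hP _ _ (ht L) (h4 L))
    (fun L g => by
      obtain ⟨n, hn⟩ := L.2.2.2.1
      have h5 : ∀ i, g ^ 2 • t L i = t L i := fun i => by
        rcases smul_eq_or (smul_sq_neg_nat (ht L i) g) with h | h <;>
          simp only [sq, mul_smul, h, smul_neg, neg_neg]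
      refine ⟨n + 1, ?_⟩
      rw [pow_succ', pow_mul]
      refine NN_eq_one (fun i => (pow_mem (S := MulAction.stabilizer _ (t L i)) (h5 i) _ :))
        fun f x => ?_
      obtain ⟨g', h6⟩ := h3 L (g ^ 2) (by
        rw [Finset.smul_prod']; exact Finset.prod_congr rfl fun i _ => h5 i) f
      have := res_pow h6 (2 ^ n) x
      rw [← hn, ← IsGalois.card_aut_eq_finrank, pow_card_eq_one', one_smul,
        IsGalois.card_aut_eq_finrank, hn] at this
      exact this.symm)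
    (fun L w g hg h => h4 L w g hg (by
      rw [Finset.smul_prod']
      exact Finset.prod_congr rfl fun i _ => gam_fix (hq.prime i).ne_zero (ht L i) h))
    fun L => ⟨t L 0, q 0, (hq.prime 0).ne_zero, ht L 0⟩
  refine (isTwoExt_max_of_bdd (B := B) fun L hL => ?_).1
  have := hL.1
  exact (finrank_le_NN s L).trans (hB ⟨L, hL⟩)

theorem Pat.exists_pent' {N : Type*} [Field N] [NumberField N] {inst : Algebra ℚ N}
    {q : ZMod 5 → ℕ} {s : ZMod 5 → N} (hG : IsGalois ℚ N) (hq : Pat q) (hs : ∀ i, s i ^ 2 = -q i)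
    (hu : ∀ w : Pl N, ∀ g ∈ In (N ≃ₐ[ℚ] N) w, g • ∏ j, s j = ∏ j, s j → g = 1) :
    Nonempty (Pent (N ≃ₐ[ℚ] N)) := by
  obtain rfl : inst = DivisionRing.toRatAlgebra := Subsingleton.elim _ _
  exact hq.exists_pent hs hu

theorem partI {q : ZMod 5 → ℕ} (hq : Pat q) {k : Type*} [Field k] [NumberField k]
    (h2 : Module.finrank ℚ k = 2) {θ : k} (hθ : θ ^ 2 = -(∏ i, q i : ℕ)) :
    FiniteDimensional k (maxTwoExt k ∅) :=
  partI_aux hq h2 hθ ℚ fun _ _ hG _ hs hu => Pat.exists_pent' hG hq hs hu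

end Pool.Agent.Lib.MP_580eba_nt
end
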