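import Pool.Agent.Lib.MP_580eba_nt.Step
import Pool.Agent.Lib.MP_580eba_nt.PartI

-- part Pool.Agent.Lib.MP_580eba_nt.Local
section

/-!
Local analysis of crossed homomorphisms at tame primes.
-/

namespace Pool.Agent.Lib.MP_580eba_nt

open NumberField Subgroup MulAction

open Polynomial in
lemma exists_norm_fin {F : Type*} [Field F] [Finite F] (h2 : (2 : F) ≠ 0) {a : F} (ha : a ≠ 0) (b : F) :
    ∃ x y : F, x ^ 2 - a * y ^ 2 = b := by
  have := Fintype.ofFinite F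
  obtain ⟨x, y, h⟩ := FiniteField.exists_root_sum_quadratic (f := X ^ 2 - C b) (g := C (-a) * X ^ 2)
    (degree_X_pow_sub_C two_pos _) (degree_C_mul_X_pow 2 (neg_ne_zero.2 ha))
    (FiniteField.odd_card_of_char_ne_two fun h1 => h2
      (by exact_mod_cast (ringChar.spec F 2).2 (h1 ▸ dvd_rfl)))
  exact ⟨x, y, by simp at h; linear_combination h⟩

variable {Γ : Type*} [Group Γ] [Finite Γ]

theorem ext_fin {F : Type*} [Field F] [Finite F] [MulSemiringAction Γ F] (hΓ : IsPGroup 2 Γ)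
    (h2 : (2 : F) ≠ 0) {R H₀ : Subgroup Γ} {ψ : Γ → Fˣ} (hψ : Coc (actU Γ F) R ψ)
    (hk : ∀ g ∈ H₀, (∀ x : F, g • x = x) → g ∈ R ∧ ∀ s ∈ H₀, actU Γ F s (ψ (s⁻¹ * g * s)) = ψ g)
    (hR : R ≤ H₀) : ∃ Z, Coc (actU Γ F) H₀ Z ∧ ∀ g ∈ R, Z g = ψ g := by
  refine ind hΓ h2 hψ hk (fun H' H s Y b h h' T hD _ => ?_) H₀ hR le_rfl
  obtain ⟨r, h0, hr, hs⟩ := T.exists_r hΓ h2 fun g hg h1 => h (hk g (h' hg) h1).1
  obtain ⟨x, y, hxy⟩ := exists_norm_fin (F := FixedPoints.subfield H F)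
    (fun h1 => h2 (congrArg Subtype.val h1))
    (a := ⟨r ^ 2, fun g => T.fixed (fun g hg => by rw [smul_pow', hr g hg])
      (by rw [smul_pow', hs, neg_sq]) g.2⟩) (fun h1 => pow_ne_zero 2 h0 (congrArg Subtype.val h1))
    ⟨b, fun g => congrArg Units.val (hD.fix g g.2)⟩
  have h3 : (b : F) = (x + y * r) * s • ((x : F) + y * r) := by
    rw [smul_add, smul_mul', hs, show s • (x : F) = x from x.2 ⟨s, T.mem⟩,
      show s • (y : F) = y from y.2 ⟨s, T.mem⟩]
    have : (x : F) ^ 2 - r ^ 2 * y ^ 2 = b := congrArg Subtype.val hxy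
    linear_combination -this
  refine ⟨Units.mk0 _ (left_ne_zero_of_mul (h3 ▸ b.ne_zero)), fun g hg => Units.ext ?_, Units.ext h3⟩
  rw [actU_val, Units.val_mk0, smul_add, smul_mul', hr g hg,
    show g • (x : F) = x from x.2 ⟨g, T.le hg⟩, show g • (y : F) = y from y.2 ⟨g, T.le hg⟩]

lemma add_eq_zero_of_finite {H : Subgroup Γ} {n : Γ → ℤ}
    (h : ∀ g ∈ H, ∀ k ∈ H, n (g * k) = n g + n k) {g : Γ} (hg : g ∈ H) : n g = 0 := by
  let f : H →* Multiplicative ℤ := MonoidHom.mk' (fun g => Multiplicative.ofAdd (n g))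
    fun g k => h g g.2 k k.2
  exact (f.isOfFinOrder (isOfFinOrder_of_finite ⟨g, hg⟩)).eq_one'

omit [Finite Γ] in
lemma Two.comap {Δ : Type*} [Group Δ] {H' H : Subgroup Γ} (φ : Δ →* Γ) {s : Δ}
    (T : Two H' H (φ s)) : Two (H'.comap φ) (H.comap φ) s :=
  ⟨comap_mono T.le, T.mem, T.notMem, fun hg hh => by
    simp only [mem_comap, map_mul]; exact T.iff hg hh⟩

omit [Finite Γ] in
lemma Df.of_triv {A : Type*} [CommGroup A] {a : Γ →* Monoid.End A} {H' H : Subgroup Γ} {s : Γ}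
    {Y : Γ → A} {b : A} (h : Df a H' H Y b) (T : Two H' H s) (h1 : ∀ g ∈ H', Y g = 1) :
    (∀ g ∈ H', a g (Y s) = Y s) ∧ b = Y s * a s (Y s) := by
  refine ⟨fun g hg => ?_, by rw [← h.o s T.mem T.notMem s T.mem T.notMem, h1 _ T.sq, one_mul]⟩
  have h2 := h.r s T.mem _ (T.conj' hg)
  rwa [show s * (s⁻¹ * g * s) = g * s by group, h.l g hg s T.mem, h1 g hg, h1 _ (T.conj' hg),
    map_one, mul_one, one_mul] at h2

omit [Finite Γ] in
lemma Coc.comp {A A' : Type*} [CommGroup A] [CommGroup A'] {a : Γ →* Monoid.End A}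
    {a' : Γ →* Monoid.End A'} {H : Subgroup Γ} {Y : Γ → A} (h : Coc a H Y) (f : A →* A')
    (hf : ∀ g x, f (a g x) = a' g (f x)) : Coc a' H fun g => f (Y g) :=
  fun g hg k hk => by simp only [h g hg k hk, map_mul, hf]

variable {N : Type*} [Field N] [NumberField N] [MulSemiringAction Γ N] {w : Pl N}

omit [Finite Γ] in
lemma stab_mem_U1 (g : stabilizer Γ w) {x : Nˣ} (h : x ∈ U1 w) : actU Γ N g x ∈ U1 w := by
  rwa [← act_mem_U1 (g := (g : Γ)), g.2] at h

omit [Finite Γ] in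
lemma stab_mem_UU (g : stabilizer Γ w) {x : Nˣ} (h : x ∈ UU w) : actU Γ N g x ∈ UU w := by
  rwa [← act_mem_UU (g := (g : Γ)), g.2] at h

omit [Finite Γ] in
lemma stab_div_mem (g : stabilizer Γ w) (x : Nˣ) : actU Γ N g x / x ∈ UU w :=
  div_mem_UU.2 (ord_smul_of_eq g.2 _)

variable (w) in
/-- Reduction modulo principal units. -/
abbrev mq : Nˣ →* Nˣ ⧸ U1 w := QuotientGroup.mk' (U1 w)

lemma mq_eq {x y : Nˣ} : mq w x = mq w y ↔ x / y ∈ U1 w := QuotientGroup.eq_iff_div_mem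

variable (Γ w) in
/-- The action of the decomposition group modulo principal units. -/
def aq : stabilizer Γ w →* Monoid.End (Nˣ ⧸ U1 w) where
  toFun g := QuotientGroup.map _ _ (actU Γ N g) fun _ => stab_mem_U1 g
  map_one' := QuotientGroup.monoidHom_ext _ (MonoidHom.ext fun x => congrArg (mq w) (act_one _ x))
  map_mul' _ _ :=
    QuotientGroup.monoidHom_ext _ (MonoidHom.ext fun x => congrArg (mq w) (act_mul _ _ _ x))

omit [Finite Γ] in
lemma aq_mq (g : stabilizer Γ w) (x : Nˣ) : aq Γ w g (mq w x) = mq w (actU Γ N g x) := rfl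

variable (w) in
/-- Reduction of units. -/
noncomputable def ru : UU w →* (RF w)ˣ :=
  MonoidHom.mk' (fun x => Units.mk0 (res w (x : Nˣ)) (res_ne_zero x.2))
    fun x y => Units.ext (res_mul (le_of_eq x.2) (le_of_eq y.2))

lemma ru_eq {x y : UU w} : ru w x = ru w y ↔ mq w x = mq w y := by
  rw [mq_eq, div_mem_U1_iff_res x.2 y.2, Units.ext_iff]; rfl

lemma ru_surj (z : (RF w)ˣ) : ∃ x, ru w x = z :=
  let ⟨x, hx, h⟩ := exists_unit_res z.ne_zero
  ⟨⟨x, hx⟩, Units.ext h⟩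

omit [Finite Γ] in
lemma ru_smul (g : stabilizer Γ w) (x : UU w) :
    ru w ⟨_, stab_mem_UU g x.2⟩ = actU _ (RF w) g (ru w x) := Units.ext (res_smul g (le_of_eq x.2))

variable (w) in
/-- The units of the residue field inside the units modulo principal units. -/
noncomputable def io : (RF w)ˣ →* Nˣ ⧸ U1 w :=
  (ru w).liftOfSurjective ru_surj ⟨(mq w).comp (UU w).subtype, fun _ hx =>
    (ru_eq.1 (hx.trans (map_one _).symm)).trans (map_one _)⟩

lemma io_ru (x : UU w) : io w (ru w x) = mq w x := MonoidHom.liftOfRightInverse_comp_apply ..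

omit [Finite Γ] in
lemma io_smul (g : stabilizer Γ w) (z : (RF w)ˣ) : io w (actU _ (RF w) g z) = aq Γ w g (io w z) := by
  obtain ⟨x, rfl⟩ := ru_surj z
  rw [← ru_smul, io_ru, io_ru, aq_mq]

lemma io_neg_one : io w (-1) = mq w (-1) := by
  rw [← io_ru ⟨-1, by simp [mem_UU]⟩]
  exact congrArg _ (Units.ext (res_neg_one w).symm)

omit [MulSemiringAction Γ N] in
lemma val_card (hΓ : IsPGroup 2 Γ) (h2 : val w (2 : N) = 1) (H : Subgroup Γ) :
    val w (Nat.card H : N) = 1 := by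
  have h1 := natCast_card_ne_zero hΓ (two_ne_zero_RF h2) H
  rw [← res_natCast, Ne, res_eq_zero (val_natCast_le w _)] at h1
  exact le_antisymm (val_natCast_le w _) (not_lt.1 h1)

theorem fix_of_aq (hΓ : IsPGroup 2 Γ) (h2 : val w (2 : N) = 1) {g : stabilizer Γ w}
    (hg : aq Γ w g = 1) (x : N) : (g : Γ) • x = x := by
  classical
  by_contra h
  let P := (aq Γ w).ker
  have := Fintype.ofFinite P
  have h0 := sub_ne_zero.2 h
  have h1 : ∑ k : P, (k • ((g : Γ) • x - x) - ((g : Γ) • x - x)) = -(Nat.card P * ((g : Γ) • x - x)) := by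
    rw [Finset.sum_sub_distrib, Finset.sum_const, nsmul_eq_mul, Finset.card_univ,
      Nat.card_eq_fintype_card, sub_eq_neg_self]
    simp only [smul_sub, Finset.sum_sub_distrib]
    exact sub_eq_zero.2 (Fintype.sum_equiv (Equiv.mulRight (⟨g, hg⟩ : P)) _ _
      fun k => (mul_smul k (⟨g, hg⟩ : P) x).symm)
  have h3 := congrArg (val w) h1
  rw [Valuation.map_neg, map_mul, val_card (hΓ.to_subgroup _) h2, one_mul] at h3
  refine (Valuation.map_sum_lt _ (val_ne_zero w h0) fun k _ => ?_).ne h3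
  exact div_mem_U1.1 (mq_eq.1 (DFunLike.congr_fun k.2 (mq w (Units.mk0 _ h0))))

variable (w) in
/-- The tame symbol. -/
noncomputable def th (g : stabilizer Γ w) : Nˣ →* (RF w)ˣ :=
  (ru w).comp (MonoidHom.mk' (fun t => ⟨_, stab_div_mem g t⟩) fun s t => Subtype.ext (by
    simp only [map_mul, mul_div_mul_comm, coe_mul]))

omit [Finite Γ] in
lemma io_th (g : stabilizer Γ w) (t : Nˣ) : io w (th w g t) = aq Γ w g (mq w t) / mq w t := io_ru _

lemma io_inj : Function.Injective (io w) := fun x y h => by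
  obtain ⟨x, rfl⟩ := ru_surj x
  obtain ⟨y, rfl⟩ := ru_surj y
  rwa [io_ru, io_ru, ← ru_eq] at h

omit [Finite Γ] in
lemma th_eq_one {g : stabilizer Γ w} : th w g = 1 ↔ aq Γ w g = 1 := by
  rw [MonoidHom.ext_iff, ← (QuotientGroup.mk'_surjective (U1 w)).injective_comp_right.eq_iff.trans
    DFunLike.coe_fn_eq, funext_iff]
  refine forall_congr' fun t => ?_
  rw [← io_inj.eq_iff, io_th, MonoidHom.one_apply, map_one, div_eq_one]
  rfl

theorem h90_loc (hΓ : IsPGroup 2 Γ) (h2 : val w (2 : N) = 1) {H : Subgroup (stabilizer Γ w)}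
    {f : stabilizer Γ w → Nˣ ⧸ U1 w} (hf : Coc (aq Γ w) H f)
    (h1 : ∀ g ∈ H, (∀ x : N, (g : Γ) • x = x) → f g = 1) :
    ∃ t, ∀ g ∈ H, aq Γ w g t = f g * t := by
  classical
  have := Fintype.ofFinite H
  choose c hc using fun g => QuotientGroup.mk'_surjective (U1 w) (f g)
  have h3 : ∀ g ∈ H, ∀ k ∈ H, c (g * k) / (c g * actU Γ N g (c k)) ∈ U1 w := fun g hg k hk => by
    rw [← mq_eq, map_mul, ← aq_mq, hc, hc, hc, hf g hg k hk]
  have h4 : ∀ g ∈ H, val w (c g : N) = 1 := fun g hg => mem_UU'.2 (add_eq_zero_of_finite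
    (n := fun g => ord w (c g : N)) (fun g hg k hk => by
      rw [div_mem_UU.1 (U1_le_UU w (h3 g hg k hk)), Units.val_mul,
        ord_mul w (Units.ne_zero _) (Units.ne_zero _), actU_val, ord_smul_of_eq g.2]) hg)
  have h5 : ∀ g : H, (Units.coeHom _).comp (th w (g : stabilizer Γ w)) =
      (Units.coeHom _).comp (th w ((1 : H) : stabilizer Γ w)) ↔ g ∈ (aq Γ w).ker.subgroupOf H :=
    fun g => by
      rw [MonoidHom.cancel_left Units.val_injective, coe_one, th_eq_one.2 (map_one _), th_eq_one]; rfl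
  obtain ⟨x, hx⟩ := exists_sum_ne_zero (fun g : H => (Units.coeHom _).comp (th w (g : stabilizer Γ w)))
    (fun g => res w (c g)) 1
    (fun g hg => by
      have h6 := mq_eq.1 ((hc g).trans (h1 g g.2 (fix_of_aq hΓ h2 ((h5 g).1 hg))))
      rw [div_one] at h6
      exact (res_eq_one (h4 g g.2).le).2 h6)
    (by
      rw [Nat.card_congr (Equiv.subtypeEquivRight h5)]
      exact natCast_card_ne_zero ((hΓ.to_subgroup _).to_subgroup _) (two_ne_zero_RF h2) _)
  have h6 : ∀ g : H, val w (c g * ((actU Γ N g x / x : Nˣ) : N)) = 1 := fun g => by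
    rw [map_mul, h4 g g.2, stab_div_mem (g : stabilizer Γ w) x, one_mul]
  set y := ∑ g : H, c g * ((actU Γ N g x / x : Nˣ) : N) with hy
  have h7 : val w y ≤ 1 := Valuation.map_sum_le _ fun g _ => (h6 g).le
  have h8 : val w y = 1 := le_antisymm h7 (not_lt.1 fun h => hx (by
    rw [← res_eq_zero h7, hy, res_sum _ fun g => (h6 g).le] at h
    exact (Finset.sum_congr rfl fun (g : H) _ =>
      (res_mul (h4 g g.2).le (stab_div_mem (g : stabilizer Γ w) x).le).symm).trans h))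
  have h9 : y ≠ 0 := by rintro h; simp [h] at h8
  refine ⟨(mq w (Units.mk0 y h9 * x))⁻¹, fun g hg => ?_⟩
  rw [map_inv, eq_mul_inv_iff_mul_eq, inv_mul_eq_iff_eq_mul, mul_comm (aq Γ w g _), ← hc, aq_mq,
    ← map_mul, mq_eq, div_mem_U1]
  have h10 : y * x = ∑ k : H, (c k : N) * ((k : stabilizer Γ w) : Γ) • (x : N) := by
    rw [hy, Finset.sum_mul]
    exact Finset.sum_congr rfl fun k _ => by
      rw [Units.val_div_eq_div_val, mul_assoc, div_mul_cancel₀ _ x.ne_zero, actU_val]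
  simp only [Units.val_mul, actU_val, Units.val_mk0]
  rw [map_mul, val_smul_of_eq g.2, h4 g hg, map_mul, h8, one_mul, one_mul, h10, Finset.smul_sum,
    Finset.mul_sum, ← Equiv.sum_comp (Equiv.mulLeft (⟨g, hg⟩ : H)), ← Finset.sum_sub_distrib]
  refine Valuation.map_sum_lt _ (val_ne_zero w x.ne_zero) fun k _ => ?_
  have h11 := div_mem_U1.1 (h3 g hg k k.2)
  rw [Units.val_mul, map_mul, actU_val, val_smul_of_eq g.2, h4 g hg, h4 k k.2, one_mul] at h11
  rw [smul_mul', ← mul_smul, ← mul_assoc]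
  change val w (c (g * k) * ((g * k : stabilizer Γ w) : Γ) • (x : N) -
    _ * ((g * k : stabilizer Γ w) : Γ) • (x : N)) < _
  rw [← sub_mul, map_mul, val_smul_of_eq (g * k).2]
  exact mul_lt_of_lt_one_left (val_pos w x.ne_zero) h11

theorem exists_fixed (hΓ : IsPGroup 2 Γ) (h2 : val w (2 : N) = 1) {H : Subgroup Γ} {x : Nˣ}
    (hx : ∀ g : stabilizer Γ w, (g : Γ) ∈ H → aq Γ w g (mq w x) = mq w x) :
    ∃ y : Nˣ, (∀ g ∈ H, actU Γ N g y = y) ∧ mq w y = mq w x := by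
  classical
  have := Fintype.ofFinite H
  obtain ⟨z, hz⟩ := exists_approx (Finset.univ.image fun g : H => g⁻¹ • w)
    (fun v => if v = w then (x : N) else 0) (fun _ => val w (x : N)) fun _ => val_ne_zero w x.ne_zero
  have h0 := hz w (Finset.mem_image.2 ⟨1, Finset.mem_univ _, by simp⟩)
  rw [if_pos rfl] at h0
  have h1 : val w (∑ g : H, (g • z - if g ∈ stabilizer H w then (x : N) else 0)) < val w (x : N) := by
    refine Valuation.map_sum_lt _ (val_ne_zero w x.ne_zero) fun g _ => ?_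
    split_ifs with hg
    · rw [show g • z - x = g • (z - x) + (g • (x : N) - x) by rw [smul_sub]; ring]
      refine Valuation.map_add_lt _ (by rwa [val_smul_of_eq hg]) ?_
      exact div_mem_U1.1 (mq_eq.1 (hx ⟨g, hg⟩ g.2))
    · have h3 := hz _ (Finset.mem_image.2 ⟨g, Finset.mem_univ _, rfl⟩)
      rw [if_neg (show g⁻¹ • w ≠ w from fun h => hg (inv_mem_iff.1 h)), sub_zero] at h3
      rw [sub_zero]
      exact (val_smul' (g : Γ) w z).trans_lt h3
  have h3 := val_card (hΓ.to_subgroup H) h2 (stabilizer H w)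
  have h4 : (Nat.card (stabilizer H w) : N) ≠ 0 := fun h => by
    rw [h, map_zero] at h3; exact zero_ne_one h3
  rw [Finset.sum_sub_distrib, ← Finset.sum_filter, Finset.sum_const, nsmul_eq_mul,
    ← Fintype.card_subtype, ← Nat.card_eq_fintype_card] at h1
  have h5 : val w ((∑ g : H, g • z) / Nat.card (stabilizer H w) - x) < val w (x : N) := by
    rwa [div_sub' h4, map_div₀, h3, div_one]
  have h6 : (∑ g : H, g • z) / Nat.card (stabilizer H w) ≠ 0 := fun h => by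
    rw [h, zero_sub, Valuation.map_neg] at h5; exact lt_irrefl _ h5
  refine ⟨Units.mk0 _ h6, fun g hg => Units.ext ?_, mq_eq.2 (div_mem_U1.2 h5)⟩
  rw [actU_val, Units.val_mk0, smul_div₀', Finset.smul_sum]
  exact congrArg₂ _ (Fintype.sum_equiv (Equiv.mulLeft (⟨g, hg⟩ : H)) _ _
    fun k => (mul_smul (⟨g, hg⟩ : H) k z).symm) (map_natCast (MulSemiringAction.toRingHom Γ N g) _)

variable (w) in
/-- Local solvability of the embedding problem. -/
def LocT (ε : Γ) (H : Subgroup Γ) : Prop :=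
  ∃ Z, Coc (aq Γ w) (H.comap (stabilizer Γ w).subtype) Z ∧
    ∀ g : stabilizer Γ w, (g : Γ) = ε → Z g = mq w (-1)

omit [Finite Γ] in
lemma LocT.mono {ε : Γ} {H H' : Subgroup Γ} (h : LocT w ε H) (h' : H' ≤ H) : LocT w ε H' :=
  let ⟨Z, h1, h2⟩ := h
  ⟨Z, h1.mono (comap_mono h'), h2⟩

theorem loc_norm (hΓ : IsPGroup 2 Γ) (h2 : val w (2 : N) = 1) {ε s : Γ} {H' H : Subgroup Γ}
    (hk : ∀ g : Γ, (∀ x : N, g • x = x) → g = 1 ∨ g = ε) (T : Two H' H s) (hs : s • w = w)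
    {Y : Γ → Nˣ} {b : Nˣ} (hD : Df (actU Γ N) H' H Y b) (hε : Y ε = -1) (hL : LocT w ε H) :
    ∃ y : Nˣ, (∀ g ∈ H', actU Γ N g y = y) ∧ b / (y * actU Γ N s y) ∈ U1 w := by
  obtain ⟨Z, hZ, hZ'⟩ := hL
  have T' := Two.comap (stabilizer Γ w).subtype (s := ⟨s, hs⟩) T
  have h1 := (hD.comp (stabilizer Γ w).subtype (mq w) fun g x => (aq_mq g x).symm).div hZ T'.le
  obtain ⟨t, ht⟩ := h90_loc hΓ h2 (h1.coc T'.le) fun g hg h => by
    rcases hk g h with h3 | h3
    · rw [show g = 1 from Subtype.ext h3]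
      exact (h1.coc T'.le).one
    · rw [hZ' g h3, coe_subtype, h3, hε, div_self']
  obtain ⟨h3, h4⟩ := (h1.div (coc_bdry t) T'.le).of_triv T' fun g hg => by
    rw [ht g hg, mul_div_cancel_right, div_self']
  generalize _ / (_ / t) = x at h3 h4
  obtain ⟨x, rfl⟩ := QuotientGroup.mk'_surjective _ x
  obtain ⟨y, hy, h5⟩ := exists_fixed hΓ h2 h3
  exact ⟨y, hy, mq_eq.1 (by rw [h4, map_mul, ← h5]; rfl)⟩

theorem loc_even {s : Γ} {H' H : Subgroup Γ} (T : Two H' H s) (hs : s • w = w)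
    {Y : Γ → Nˣ} {b : Nˣ} (hD : Df (actU Γ N) H' H Y b) : Even (ord w (b : N)) := by
  classical
  have h0 : ∀ g k : Γ, g • w = w → ord w (Y g * actU Γ N g (Y k) : Nˣ) = ord w (Y g : N) + ord w (Y k : N) :=
    fun g k hg => by
      rw [Units.val_mul, ord_mul w (Units.ne_zero _) (Units.ne_zero _), actU_val, ord_smul_of_eq hg]
  have h1 := add_eq_zero_of_finite (H := H ⊓ stabilizer Γ w)
    (n := fun g => 2 * ord w (Y g : N) - if g ∈ H' then 0 else ord w (b : N)) (fun g hg k hk => by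
      have h1 := T.iff hg.1 hk.1
      have h2 := h0 g k hg.2
      by_cases hg' : g ∈ H' <;> by_cases hk' : k ∈ H' <;>
        simp only [hg', hk', iff_true, iff_false, not_true_eq_false] at h1 <;>
        simp only [hg', hk', h1, if_true, if_false]
      · rw [hD.l g hg' k hk.1, h2]; ring
      · rw [hD.l g hg' k hk.1, h2]; ring
      · rw [hD.r g hg.1 k hk', h2]; ring
      · rw [← hD.o g hg.1 hg' k hk.1 hk', Units.val_mul,
          ord_mul w (Units.ne_zero _) (Units.ne_zero _)] at h2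
        omega) (g := s) ⟨T.mem, hs⟩
  simp only [T.notMem, if_false] at h1
  exact ⟨ord w (Y s : N), by omega⟩

end Pool.Agent.Lib.MP_580eba_nt
end

-- part Pool.Agent.Lib.MP_580eba_nt.LT
section

/-!
Local solvability of central embedding problems with kernel of order two.
-/

namespace Pool.Agent.Lib.MP_580eba_nt

open NumberField Subgroup MulAction

section fin

variable {D F : Type*} [Group D] [Finite D] [Field F] [Finite F] [MulSemiringAction D F]

variable (D F) in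
lemma fin_frob : ∃ (φ : D) (n m : ℕ), (∀ z : F, φ • z = z ^ n) ∧ Nat.card F = n ^ m ∧
    ∀ h : D, ∃ i : ℕ, ∀ z : F, h • z = z ^ n ^ i := by
  have := Fintype.ofFinite (FixedPoints.subfield D F)
  obtain ⟨φ, hφ⟩ := FixedPoints.toAlgAut_surjective D F
    (FiniteField.frobeniusAlgEquivOfAlgebraic (FixedPoints.subfield D F) F)
  refine ⟨φ, _, _, DFunLike.congr_fun hφ, (Module.natCard_eq_pow_finrank
    (K := FixedPoints.subfield D F)).trans (by rw [Nat.card_eq_fintype_card]), fun h => ?_⟩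
  obtain ⟨i, hi⟩ := (FiniteField.bijective_frobeniusAlgEquivOfAlgebraic_pow
    (FixedPoints.subfield D F) F).2 (MulSemiringAction.toAlgAut D _ F h)
  refine ⟨i, fun z => (DFunLike.congr_fun hi z).symm.trans ?_⟩
  rw [AlgEquiv.coe_pow, FiniteField.coe_frobeniusAlgEquivOfAlgebraic_iterate]

omit [Finite D] in
lemma aut_pow {f : MulAut D} {x : D} {k : ℕ} (h : f x = x ^ k) (i : ℕ) : (f ^ i) x = x ^ k ^ i := by
  induction i with
  | zero => simp
  | succ i ih => rw [pow_succ', MulAut.mul_apply, ih, map_pow, h, ← pow_mul, pow_succ']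

omit [MulSemiringAction D F] in
lemma exists_char {B : Subgroup D} (hB : ∀ x ∈ B, ∀ y ∈ B, x * y = y * x)
    (h : ∀ x ∈ B, x ^ Nat.card F = x) {e : B} (he : e ≠ 1) : ∃ f : B →* Fˣ, f e ≠ 1 := by
  let _ : CommGroup B := { mul_comm := fun x y => Subtype.ext (hB x x.2 y y.2) }
  have h1 : 1 < Nat.card F := Finite.one_lt_card
  have : NeZero (Nat.card F - 1) := ⟨by omega⟩
  have : HasEnoughRootsOfUnity F (Nat.card F - 1) := .of_card_le (by
    rw [show rootsOfUnity (Nat.card F - 1) F = ⊤ from eq_top_iff.2 fun x _ => by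
      rw [mem_rootsOfUnity, ← Nat.card_units, pow_card_eq_one'], card_top, Nat.card_units])
  have : HasEnoughRootsOfUnity F (Monoid.exponent B) := .of_dvd F (n := Nat.card F - 1)
    (Monoid.exponent_dvd_of_forall_pow_eq_one fun x => Subtype.ext (mul_right_cancel (b := (x : D)) (by
      rw [coe_pow, ← pow_succ, Nat.sub_add_cancel h1.le, h x x.2, coe_one, one_mul])))
  exact CommGroup.exists_apply_ne_one_of_hasEnoughRootsOfUnity B F he

theorem exists_lam (h2 : (2 : F) ≠ 0) {θ : D → Fˣ} (hθ : Coc (actU D F) ⊤ θ) {e : D} (he : e ≠ 1)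
    {I : Subgroup D} (hI : ∀ g, g ∈ I ↔ ∀ z : F, g • z = z) (heI : e ∈ I)
    (hk : ∀ g ∈ I, θ g = 1 ↔ g = 1 ∨ g = e) {χ : D →* ℤˣ} (hχ : χ e = 1) (hχ' : χ ≠ 1) :
    ∃ ψ : D → Fˣ, Coc (actU D F) (I ⊓ χ.ker) ψ ∧ ψ e = -1 ∧
      ∀ g ∈ I ⊓ χ.ker, ∀ s ∈ χ.ker, actU D F s (ψ (s⁻¹ * g * s)) = ψ g := by
  classical
  have hN : I.Normal := ⟨fun x hx g => (hI _).2 fun z => by simp [mul_smul, (hI x).1 hx]⟩
  have ha : ∀ g ∈ I, ∀ z, actU D F g z = z := fun g hg z => Units.ext ((hI g).1 hg z)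
  let θ' : I →* Fˣ := MonoidHom.mk' (fun g => θ g) fun g h => by
    rw [coe_mul, hθ g trivial h trivial, ha g g.2]
  have h1 : ∀ x ∈ I, ∀ h, θ (h * x * h⁻¹) = actU D F h (θ x) := fun x hx h => by
    rw [mul_assoc, hθ h trivial _ trivial, hθ x trivial _ trivial, ha x hx, map_mul, mul_left_comm,
      ← hθ h trivial _ trivial, mul_inv_cancel, hθ.one, mul_one]
  have hc : ∀ h, h * e * h⁻¹ = e := fun h => ((hk _ (hN.conj_mem _ heI h)).1 (by
    rw [h1 e heI, (hk e heI).2 (Or.inr rfl), map_one])).resolve_left (by simpa using he)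
  have hc' : ∀ h, Commute h e := fun h => mul_inv_eq_iff_eq_mul.1 (hc h)
  have h3 : ∀ x y : I, θ' x = θ' y → (x : D) = y ∨ (x : D) = y * e := fun x y h => by
    rcases (hk _ (y⁻¹ * x).2).1 (show θ' (y⁻¹ * x) = 1 by rw [map_mul, map_inv, h, inv_mul_cancel])
      with h | h
    exacts [Or.inl (inv_mul_eq_one.1 h).symm, Or.inr (inv_mul_eq_iff_eq_mul.1 h)]
  have he2 : e * e = 1 := ((hk _ (mul_mem heI heI)).1 (by
    rw [hθ e trivial e trivial, (hk e heI).2 (Or.inr rfl), map_one, mul_one])).resolve_right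
      (by simpa using he)
  obtain ⟨⟨_, τ, rfl⟩, hτ⟩ := IsCyclic.exists_generator (α := θ'.range)
  have h4 : ∀ x ∈ I, ∃ j : ℕ, x = τ ^ j ∨ x = τ ^ j * e := fun x hx => by
    obtain ⟨j, hj⟩ := mem_powers_iff_mem_zpowers.2 (hτ ⟨_, ⟨x, hx⟩, rfl⟩)
    exact ⟨j, h3 ⟨x, hx⟩ (τ ^ j) (by rw [map_pow]; exact (congrArg Subtype.val hj).symm)⟩
  have h5 : ∀ x ∈ I, ∀ y ∈ I, Commute x y := fun x hx y hy => by
    obtain ⟨i, rfl | rfl⟩ := h4 x hx <;> obtain ⟨j, rfl | rfl⟩ := h4 y hy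
    exacts [Commute.pow_pow_self _ _ _, (Commute.pow_pow_self _ _ _).mul_right (hc' _),
      (Commute.pow_pow_self _ _ _).mul_left (hc' _).symm,
      ((Commute.pow_pow_self _ _ _).mul_left (hc' _).symm).mul_right (hc' _)]
  obtain ⟨φ, n, m, hφ, hm, hD⟩ := fin_frob D F
  have hn : Odd n := by
    have := Fintype.ofFinite F
    have h6 : Odd (n ^ m) := by
      rw [← hm, Nat.card_eq_fintype_card, Nat.odd_iff]
      exact FiniteField.odd_card_of_char_ne_two fun h1 => h2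
        (by exact_mod_cast (ringChar.spec F 2).2 (h1 ▸ dvd_rfl))
    refine (Nat.odd_pow_iff ?_).1 h6
    rintro rfl
    exact (Finite.one_lt_card (α := F)).ne' hm
  have h6 : ∀ k, Even k → e ^ k = 1 := by
    rintro _ ⟨k, rfl⟩
    rw [← two_mul, pow_mul, pow_two, he2, one_pow]
  have h7 : e ^ n = e := by
    obtain ⟨k, rfl⟩ := hn
    rw [pow_succ, h6 _ (even_two_mul k), one_mul]
  have h8 : ∀ x ∈ I, MulAut.conj φ x = x ^ n ∨ MulAut.conj φ x = x ^ n * e := fun x hx =>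
    h3 ⟨_, hN.conj_mem x hx φ⟩ ((⟨x, hx⟩ : I) ^ n) (by
      rw [map_pow]; exact (h1 x hx φ).trans (Units.ext (hφ _)))
  have h9 : ∀ (i : ℕ) h, (∀ z : F, h • z = z ^ n ^ i) → (φ ^ i)⁻¹ * h ∈ I := fun i h hh =>
    (hI _).2 fun z => by
      rw [mul_smul, inv_smul_eq_iff, hh]
      clear hh
      induction i with
      | zero => simp
      | succ i ih => rw [pow_succ' φ, mul_smul, ← ih, hφ, ← pow_mul, pow_succ]
  have h10 : ∀ k : ℕ, (-1 : ℤˣ) ^ k = 1 → Even k := fun k hk =>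
    (neg_one_pow_eq_one_iff_even (by decide)).1 hk
  have key : ∀ (i : ℕ) h, χ h = 1 → (∀ z : F, h • z = z ^ n ^ i) → ∀ x ∈ I, χ x = 1 →
      h * x * h⁻¹ = x ^ n ^ i := fun i h hh hh' x hx hx' => by
    have h11 : h * x * h⁻¹ = (MulAut.conj φ ^ i) x := by
      rw [← map_pow, MulAut.conj_apply, mul_inv_eq_iff_eq_mul, mul_assoc, mul_assoc,
        ← (h5 _ (h9 i h hh') x hx).eq, ← mul_assoc, mul_inv_cancel_left]
    rw [h11]
    refine (h8 x hx).elim (fun h12 => aut_pow h12 i) fun h12 => ?_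
    have h13 : χ τ = 1 := by
      refine (Int.units_eq_one_or _).resolve_right fun h13 => he ?_
      obtain ⟨j, hj⟩ := h4 x hx
      have h14 : Even j := h10 j (by rcases hj with rfl | rfl <;> simpa [h13, hχ] using hx')
      have h15 : MulAut.conj φ ((τ : D) ^ j) = (τ ^ j) ^ n := by
        rw [map_pow, ← pow_mul, mul_comm, pow_mul]
        rcases h8 τ τ.2 with h | h <;> rw [h]
        rw [(hc' _).mul_pow, h6 j h14, mul_one]
      rcases hj with rfl | rfl
      · rwa [h15, left_eq_mul] at h12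
      · rwa [map_mul, h15, MulAut.conj_apply, hc, (hc' _).mul_pow, h7, left_eq_mul] at h12
    have h14 : ∀ y ∈ I, χ y = 1 := fun y hy => by
      obtain ⟨j, rfl | rfl⟩ := h4 y hy <;> simp [h13, hχ]
    have h15 : ∀ (i : ℕ) h, (∀ z : F, h • z = z ^ n ^ i) → χ h = χ φ ^ i := fun i h hh => by
      have := h14 _ (h9 i h hh)
      rwa [map_mul, map_inv, inv_mul_eq_one, map_pow, eq_comm] at this
    have h16 : χ φ = -1 := (Int.units_eq_one_or _).resolve_left fun h16 => hχ' (MonoidHom.ext fun g => by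
      obtain ⟨i, hi⟩ := hD g
      rw [h15 i g hi, h16, one_pow, MonoidHom.one_apply])
    obtain ⟨l, rfl⟩ := h10 i (by rw [← h16, ← h15 i h hh', hh])
    rw [← two_mul, pow_mul, pow_mul n]
    refine aut_pow ?_ l
    rw [pow_two, MulAut.mul_apply, h12, map_mul, map_pow, h12, MulAut.conj_apply, hc,
      (hc' _).mul_pow, h7, mul_assoc, he2, mul_one, ← pow_mul, pow_two]
  obtain ⟨f, hf⟩ := exists_char (F := F) (B := I ⊓ χ.ker) (fun x hx y hy => h5 x hx.1 y hy.1)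
    (fun x hx => by
      have := Fintype.ofFinite F
      rw [hm, ← key m 1 (map_one _) (fun z => by
        rw [← hm, Nat.card_eq_fintype_card, FiniteField.pow_card, one_smul]) x hx.1 hx.2]
      simp)
    (e := ⟨e, heI, hχ⟩) fun h => he (congrArg Subtype.val h)
  have h11 : ∀ g (hg : g ∈ I ⊓ χ.ker),
    (if h : g ∈ I ⊓ χ.ker then f ⟨g, h⟩ else 1) = f ⟨g, hg⟩ := fun g hg => dif_pos hg
  refine ⟨fun g => if h : g ∈ I ⊓ χ.ker then f ⟨g, h⟩ else 1, fun g hg k hk => ?_, ?_,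
    fun g hg s hs => ?_⟩
  · simp only [h11 g hg, h11 k hk, h11 _ (mul_mem hg hk), ha g hg.1, ← map_mul]
    rfl
  · refine (h11 e ⟨heI, hχ⟩).trans ((Units.inv_eq_self_iff _).1 ?_ |>.resolve_left hf)
    rw [← map_inv]
    exact congrArg f (Subtype.ext (inv_eq_of_mul_eq_one_left he2))
  · have h12 : s⁻¹ * g * s ∈ I ⊓ χ.ker :=
      ⟨hN.conj_mem' g hg.1 s, (MonoidHom.normal_ker χ).conj_mem' g hg.2 s⟩
    obtain ⟨i, hi⟩ := hD s
    have h13 := key i s hs hi _ h12.1 h12.2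
    simp only [h11 g hg, h11 _ h12]
    refine (Units.ext (hi _) : _ = f ⟨_, h12⟩ ^ n ^ i).trans ?_
    rw [← map_pow]
    exact congrArg f (Subtype.ext (h13.symm.trans (by group)))

end fin

variable {Γ N : Type*} [Group Γ] [Field N] [MulSemiringAction Γ N] {ε : Γ}

variable (N ε) in
/-- The kernel of the action has order two. -/
structure Cen : Prop where
  ne : ε ≠ 1
  triv : ∀ x : N, ε • x = x
  ker : ∀ g : Γ, (∀ x : N, g • x = x) → g = 1 ∨ g = ε

lemma Cen.conj (C : Cen N ε) (g : Γ) : g * ε * g⁻¹ = ε :=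
  (C.ker _ fun x => by simp [mul_smul, C.triv]).resolve_left (by simpa using C.ne)

lemma Cen.comm (C : Cen N ε) (g : Γ) : g * ε = ε * g := mul_inv_eq_iff_eq_mul.1 (C.conj g)

lemma Cen.sq (C : Cen N ε) : ε * ε = 1 :=
  (C.ker _ fun x => by simp [mul_smul, C.triv]).resolve_right (by simpa using C.ne)

variable [NumberField N] {w : Pl N}

lemma Cen.mem (C : Cen N ε) (w : Pl N) : ε ∈ In Γ w := mem_In.2 fun x _ => by simp [C.triv]

variable [Finite Γ]

lemma locT_of (hΓ : IsPGroup 2 Γ) (h2 : val w (2 : N) = 1) {H : Subgroup Γ}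
    {R : Subgroup (stabilizer Γ w)} {ψ : stabilizer Γ w → (RF w)ˣ} (hψ : Coc (actU _ (RF w)) R ψ)
    (hk : ∀ g : stabilizer Γ w, (g : Γ) ∈ H → (g : Γ) ∈ In Γ w → g ∈ R ∧
      ∀ s : stabilizer Γ w, (s : Γ) ∈ H → actU _ (RF w) s (ψ (s⁻¹ * g * s)) = ψ g)
    (hR : ∀ g ∈ R, (g : Γ) ∈ H) (hε : ∀ g : stabilizer Γ w, (g : Γ) = ε → g ∈ R ∧ ψ g = -1) :
    LocT w ε H := by
  obtain ⟨Z, h1, h3⟩ := ext_fin (hΓ.to_subgroup _) (two_ne_zero_RF h2) hψ
    (H₀ := H.comap (stabilizer Γ w).subtype) (fun g hg h => hk g hg ((mem_In_iff_res g).2 h)) hR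
  exact ⟨_, h1.comp (io w) io_smul, fun g hg => by rw [h3 g (hε g hg).1, (hε g hg).2, io_neg_one]⟩

theorem locT_one (hΓ : IsPGroup 2 Γ) (h2 : val w (2 : N) = 1) (C : Cen N ε) {A : Subgroup Γ}
    [hN : A.Normal] (hA : ε ∉ A) (h : ∀ g ∈ In Γ w, g ∈ A ∨ g * ε ∈ A) : LocT w ε ⊤ := by
  classical
  have h3 : ∀ g : stabilizer Γ w, actU _ (RF w) g (-1) = -1 := fun g => Units.ext (by simp [actU_val])
  refine locT_of hΓ h2 (R := (In Γ w).comap (stabilizer Γ w).subtype)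
    (ψ := fun g => if (g : Γ) ∈ A then 1 else -1) (fun g hg k hk => ?_)
    (fun g _ hg => ⟨hg, fun s _ => ?_⟩) (fun _ _ => trivial) fun g hg =>
      ⟨show (g : Γ) ∈ _ from hg ▸ C.mem w, if_neg (hg ▸ hA)⟩
  · by_cases hg' : (g : Γ) ∈ A <;> by_cases hk' : (k : Γ) ∈ A
    · simp [hg', hk', mul_mem]
    · simp [hg', hk', h3, mul_mem_cancel_left]
    · simp [hg', hk', mul_mem_cancel_right]
    · have := mul_mem ((h g hg).resolve_left hg') ((h k hk).resolve_left hk')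
      rw [mul_assoc, ← mul_assoc ε, ← C.comm, mul_assoc, C.sq, mul_one] at this
      simp [hg', hk', h3, this]
  · have : (s : Γ)⁻¹ * g * s ∈ A ↔ (g : Γ) ∈ A := by
      rw [mul_assoc, hN.mem_comm_iff, mul_inv_cancel_right]
    by_cases hg' : (g : Γ) ∈ A <;> simp [hg', this, h3]

theorem locT_two (hΓ : IsPGroup 2 Γ) (h2 : val w (2 : N) = 1) (C : Cen N ε) {χ : Γ →* ℤˣ}
    (hχ : χ ε = 1) {g₀ : Γ} (hg₀ : g₀ • w = w) (hχ' : χ g₀ ≠ 1) : LocT w ε χ.ker := by
  obtain ⟨π, h0, hπ⟩ := exists_ord_eq w 1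
  obtain ⟨ψ, h1, h3, h4⟩ := exists_lam (D := stabilizer Γ w) (two_ne_zero_RF h2)
    (θ := fun g => th w g (Units.mk0 π h0))
    (fun g _ k _ => io_inj (by
      rw [map_mul, io_smul, io_th, io_th, io_th]
      exact coc_bdry (A := Nˣ ⧸ U1 w) (H := ⊤) _ g trivial k trivial))
    (e := ⟨ε, smul_eq_of_mem_In (C.mem w)⟩) (fun h => C.ne (congrArg Subtype.val h))
    (I := (In Γ w).comap (stabilizer Γ w).subtype) mem_In_iff_res (C.mem w)
    (fun g hg => ⟨fun h => (C.ker g (fix_of_aq hΓ h2 (th_eq_one.1 (MonoidHom.ext fun t => by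
      have h5 : t / Units.mk0 π h0 ^ ord w (t : N) ∈ UU w := div_mem_UU.2 (by
        rw [Units.val_zpow_eq_zpow_val, ord_zpow, Units.val_mk0, hπ, mul_one])
      rw [← div_mul_cancel t (Units.mk0 π h0 ^ ord w (t : N)), map_mul, map_zpow, h, one_zpow,
        mul_one, MonoidHom.one_apply, ← io_inj.eq_iff, io_th, map_one, div_eq_one,
        ← io_ru ⟨_, h5⟩, ← io_smul]
      exact congrArg _ (Units.ext ((mem_In_iff_res g).1 hg _)))))).imp Subtype.ext Subtype.ext,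
      fun h => io_inj (by
        rw [io_th, map_one, div_eq_one, aq_mq]
        refine congrArg _ (Units.ext ?_)
        rcases h with rfl | rfl
        exacts [one_smul Γ π, C.triv π])⟩)
    (χ := χ.comp (stabilizer Γ w).subtype) hχ fun h => hχ' (DFunLike.congr_fun h ⟨g₀, hg₀⟩)
  exact locT_of hΓ h2 h1 (fun g hg hg' => ⟨⟨hg', hg⟩, h4 g ⟨hg', hg⟩⟩) (fun g hg => hg.2)
    fun g hg => by
      obtain rfl : g = ⟨ε, smul_eq_of_mem_In (C.mem w)⟩ := Subtype.ext hg
      exact ⟨⟨C.mem w, hχ⟩, h3⟩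

end Pool.Agent.Lib.MP_580eba_nt
end

-- part Pool.Agent.Lib.MP_580eba_nt.Core2
section

/-!
The local-global principle for central embedding problems with kernel of order two.
-/

namespace Pool.Agent.Lib.MP_580eba_nt

open NumberField Subgroup MulAction
open scoped Pointwise

universe u

variable {Γ : Type*} [Group Γ] {K N : Type u} [Field K] [Field N] [NumberField K]
  [NumberField N] [Algebra K N] [MulSemiringAction Γ N]

variable (K N) in
/-- The fixed field of a subgroup. -/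
def FixBy (H : Subgroup Γ) : Prop := ∀ x : N, (∃ y, algebraMap K N y = x) ↔ ∀ g ∈ H, g • x = x

omit [NumberField K] [NumberField N] in
lemma FixBy.smul {H : Subgroup Γ} (h : FixBy K N H) {g : Γ} (hg : g ∈ H) (y : K) :
    g • algebraMap K N y = algebraMap K N y := (h _).1 ⟨y, rfl⟩ g hg

omit [NumberField K] [NumberField N] in
lemma FixBy.comm {H H' : Subgroup Γ} (h : FixBy K N H) (h' : H' ≤ H) : SMulCommClass H' K N :=
  ⟨fun g a b => by
    rw [Algebra.smul_def, Algebra.smul_def, smul_mul']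
    exact congrArg (· * _) (h.smul (h' g.2) a)⟩

omit [NumberField K] [NumberField N] in
lemma fixBy_fixed (H : Subgroup Γ) [SMulCommClass H K N] :
    FixBy (FixedPoints.intermediateField H : IntermediateField K N) N H := fun x =>
  ⟨by rintro ⟨y, rfl⟩ g hg; exact y.2 ⟨g, hg⟩, fun h => ⟨⟨x, fun g => h g g.2⟩, rfl⟩⟩

omit [NumberField K] [NumberField N] in
lemma FixBy.exists_mp {H : Subgroup Γ} (h : FixBy K N H) {x : Nˣ} (hx : ∀ g ∈ H, actU Γ N g x = x) :
    ∃ y, mp K N y = x := by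
  obtain ⟨y, hy⟩ := (h x).2 fun g hg => congrArg Units.val (hx g hg)
  exact ⟨Units.mk0 y (by rintro rfl; exact x.ne_zero (by rw [← hy, map_zero])), Units.ext hy⟩

variable [Finite Γ]

omit [NumberField N] in
lemma FixBy.exists_smul {H : Subgroup Γ} (h : FixBy K N H) {w w' : Pl N} (hw : und K w = und K w') :
    ∃ g ∈ H, g • w = w' := by
  have : SMulCommClass H (𝓞 K) (𝓞 N) := ⟨fun g a b => by
    rw [Algebra.smul_def, Algebra.smul_def, smul_mul']
    exact congrArg (· * _) (Subtype.ext (h.smul g.2 a))⟩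
  have : Algebra.IsInvariant (𝓞 K) (𝓞 N) H := ⟨fun b hb => by
    obtain ⟨y, hy⟩ := (h b).2 fun g hg => congrArg Subtype.val (hb ⟨g, hg⟩)
    exact ⟨⟨y, (isIntegral_algebraMap_iff (algebraMap K N).injective).1 (hy ▸ b.2)⟩,
      Subtype.ext hy⟩⟩
  have := w.isPrime
  have := w'.isPrime
  obtain ⟨g, hg⟩ := Algebra.IsInvariant.exists_smul_of_under_eq (𝓞 K) (𝓞 N) H w.asIdeal w'.asIdeal
    (congrArg (·.asIdeal) hw)
  exact ⟨g, g.2, IsDedekindDomain.HeightOneSpectrum.ext hg.symm⟩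

theorem hnt [IsTotallyComplex K] {H' H : Subgroup Γ} {s : Γ} (T : Two H' H s) (hK : FixBy K N H)
    {r : N} (h0 : r ≠ 0) (hr : ∀ g ∈ H', g • r = r) (hs : s • r = -r)
    (h2 : ∀ w : Pl N, val w (2 : N) < 1 → ee K w = 1) {b : Kˣ} {P : Set (Pl K)}
    (hrec : ∀ (M : Type u) [Field M] [NumberField M] [Algebra K M] (Q : QD K M),
      algebraMap K N Q.a = r ^ 2 → (∀ v ∉ P, b ∈ Q.Loc v) → ∀ v, b ∈ Q.Loc v)
    (hloc : ∀ w : Pl N, und K w ∉ P → ∀ t ∈ H, t ∉ H' → t • w = w →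
      (ee K w = 1 ∧ Even (ord w (mp K N b : N))) ∨
      ∃ y : Nˣ, (∀ g ∈ H', actU Γ N g y = y) ∧ mp K N b / (y * actU Γ N t y) ∈ U1 w) :
    ∃ x : Nˣ, (∀ g ∈ H', actU Γ N g x = x) ∧ mp K N b = x * actU Γ N s x := by
  have := hK.comm T.le
  let M : IntermediateField K N := FixedPoints.intermediateField H'
  have hM : FixBy M N H' := fixBy_fixed H'
  let φ : M →ₐ[K] M :=
    { ((MulSemiringAction.toRingHom Γ N s).comp (algebraMap M N)).codRestrict M fun x g =>
        T.smul_fixed (fun g hg => hM.smul hg x) g.2 with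
      commutes' := fun y => Subtype.ext (hK.smul T.mem y) }
  have hφ : φ.comp φ = AlgHom.id K M := AlgHom.ext fun x => Subtype.ext
    ((mul_smul s s (x : N)).symm.trans (hM.smul T.sq x))
  have h3 : ∀ {x : N}, (∀ g ∈ H', g • x = x) → s • x = x → ∃ y, algebraMap K N y = x :=
    fun h h' => (hK _).2 fun g => T.fixed h h'
  have h4 : ∀ g : Γ, g • (2 : N) = 2 := fun g => map_ofNat (MulSemiringAction.toRingHom Γ N g) 2
  obtain ⟨a, ha⟩ := h3 (x := r ^ 2) (fun g hg => by rw [smul_pow', hr g hg]) (by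
    rw [smul_pow', hs, neg_sq])
  let Q : QD K M :=
    { σ := AlgEquiv.ofAlgHom φ φ hφ hφ
      r := ⟨r, fun g => hr g g.2⟩
      a := Units.mk0 a (by rintro rfl; exact pow_ne_zero 2 h0 (by rw [← ha, map_zero]))
      σr := Subtype.ext hs
      sq := Subtype.ext ha.symm
      span := fun x => by
        have h5 : ∀ g ∈ H', g • (x : N) = x := fun g hg => hM.smul hg x
        have h6 : s • s • (x : N) = x := (mul_smul s s (x : N)).symm.trans (h5 _ T.sq)
        obtain ⟨y, hy⟩ := h3 (x := (x + s • (x : N)) / 2) (fun g hg => by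
          rw [smul_div₀', smul_add, h5 g hg, T.smul_fixed h5 hg, h4]) (by
          rw [smul_div₀', smul_add, h6, h4, add_comm])
        obtain ⟨z, hz⟩ := h3 (x := (x - s • (x : N)) / 2 / r) (fun g hg => by
          rw [smul_div₀', smul_div₀', smul_sub, h5 g hg, T.smul_fixed h5 hg, h4, hr g hg]) (by
          rw [smul_div₀', smul_div₀', smul_sub, h6, h4, hs]; ring)
        refine ⟨y, z, Subtype.ext ?_⟩
        change (x : N) = algebraMap K N y + algebraMap K N z * r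
        rw [hy, hz, div_mul_cancel₀ _ h0]
        ring }
  have hσ : ∀ x : M, algebraMap M N (Q.σ • x) = s • algebraMap M N x := fun _ => rfl
  have h5 : ∀ w : Pl N, ee K w = 1 → und M w ∉ Q.R := fun w hw h => by
    rw [ee_mul (L := M), Q.ee_eq_two h] at hw
    omega
  obtain ⟨y, hy⟩ := Q.hasse (fun u hu => by
    obtain ⟨w, rfl⟩ := exists_und N u
    exact val_two_eq_one fun h => h5 w (h2 w ((val_two_map w).2 h)) hu)
    (hrec M Q ha fun v hv => Q.mem_Loc.2 fun u hu hu' => by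
      obtain ⟨w, rfl⟩ := exists_und N u
      rw [und_und] at hu
      obtain ⟨g, hg, h6⟩ := hM.exists_smul (w := s • w) (w' := w) (pl_ext fun x => by
        rw [← val_map_lt_one, ← val_smul_of_eq hu' x, ← val_map_lt_one, hσ, ← val_smul s w,
          ← mul_smul, hM.smul T.sq])
      rcases hloc w (hu ▸ hv) (g * s) (mul_mem (T.le hg) T.mem)
        (mt (mul_mem_cancel_left hg).1 T.notMem) (by rwa [mul_smul]) with ⟨h7, h8⟩ | ⟨y, h7, h8⟩
      · rw [show (mp K N b : N) = algebraMap K N b from rfl, ord_map, h7, Nat.cast_one, one_mul] at h8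
        obtain ⟨t, ht⟩ := exists_div_sq h8
        refine ⟨mp K M t, ?_⟩
        rwa [WW_of_notMem (h5 w h7), Q.nm_mp, ← map_div, mp_mem_UU, und_und]
      · obtain ⟨y, rfl⟩ := hM.exists_mp h7
        refine ⟨y, U1_le_WW _ _ (mp_mem_U1.1 ?_)⟩
        rw [act_mul, show actU Γ N g (actU Γ N s (mp M N y)) = actU Γ N s (mp M N y) from
          Units.ext (T.smul_fixed (fun g hg => hM.smul hg (y : M)) hg)] at h8
        rw [map_div]
        exact h8)
  exact ⟨mp M N y, fun g hg => Units.ext (hM.smul hg (y : M)), (congrArg (mp M N) hy).symm⟩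

omit [NumberField K] in
theorem loc_all (hΓ : IsPGroup 2 Γ) {ε : Γ} (C : Cen N ε) {H' H : Subgroup Γ} {s : Γ} (T : Two H' H s)
    {Y : Γ → Nˣ} {b : Nˣ} (hD : Df (actU Γ N) H' H Y b) (hY : Y ε = -1) {w : Pl N}
    (h2 : val w (2 : N) < 1 → ee K w = 1) (h : val w (2 : N) = 1 → LocT w ε H) (t : Γ) (ht : t ∈ H)
    (ht' : t ∉ H') (hw : t • w = w) : (ee K w = 1 ∧ Even (ord w (b : N))) ∨
      ∃ y : Nˣ, (∀ g ∈ H', actU Γ N g y = y) ∧ b / (y * actU Γ N t y) ∈ U1 w := by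
  by_cases h1 : val w (2 : N) < 1
  · exact Or.inl ⟨h2 h1, loc_even (T.of_notMem ht ht') hw hD⟩
  · exact Or.inr (loc_norm hΓ (val_two_eq_one h1) C.ker (T.of_notMem ht ht') hw hD hY
      (h (val_two_eq_one h1)))

theorem core_abhn [IsTotallyComplex K] (hΓ : IsPGroup 2 Γ) {ε : Γ} (C : Cen N ε)
    (hK : FixBy K N (⊤ : Subgroup Γ)) {r : N} (h0 : r ≠ 0) {χ : Γ →* ℤˣ}
    (hχ : ∀ g, g • r = (χ g : ℤ) * r) {A : Subgroup Γ} [A.Normal] (hA : ε ∉ A) {p : Pl K}
    (h2 : ∀ w : Pl N, val w (2 : N) < 1 → ee K w = 1)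
    (hu : ∀ w : Pl N, und K w ≠ p → ∀ g ∈ In Γ w, g ∈ A ∨ g * ε ∈ A)
    (hns : ∀ w : Pl N, und K w = p → ∃ g, g • w = w ∧ χ g ≠ 1)
    (hrec : ∀ (M : Type u) [Field M] [NumberField M] [Algebra K M] (Q : QD K M),
      algebraMap K N Q.a = r ^ 2 → ∀ b, (∀ v ≠ p, b ∈ Q.Loc v) → b ∈ Q.Loc p) :
    ∃ Y, Coc (actU Γ N) ⊤ Y ∧ Y ε = -1 := by
  classical
  have h3 : ∀ g : Γ, actU Γ N g (-1) = -1 := fun g => Units.ext (by simp [actU_val])
  have h4 : ∀ g ∈ zpowers ε, g = 1 ∨ g = ε := fun g hg => C.ker g fun x =>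
    (zpowers_le_of_mem (H := stabilizer Γ x) (C.triv x) hg :)
  have h5 : χ ε = 1 := (Int.units_eq_one_or _).resolve_right fun h => h0 (by
    have := hχ ε
    rw [C.triv, h] at this
    simp only [Units.val_neg, Units.val_one, Int.cast_neg, Int.cast_one] at this
    linear_combination (1 / 2 : N) * this)
  have h6 : ∀ (R : Subgroup Γ) (Y : Γ → Nˣ), ε ∈ R → Y 1 = 1 → Y ε = -1 → ∀ g, (∀ x : N, g • x = x) →
      g ∈ R ∧ ∀ s, actU Γ N s (Y (s⁻¹ * g * s)) = Y g := fun R Y h h1 h' g hg => by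
    rcases C.ker g hg with rfl | rfl
    · exact ⟨one_mem _, fun s => by simp [h1]⟩
    · exact ⟨h, fun s => by rw [C.comm, inv_mul_cancel_right, h', h3]⟩
  obtain ⟨Y, hY, h7⟩ := ind hΓ (two_ne_zero' N) (R := zpowers ε) (H₀ := χ.ker)
    (ψ := fun g => if g = 1 then 1 else -1)
    (fun g hg k hk => by
      rcases h4 g hg with rfl | rfl <;> rcases h4 k hk with rfl | rfl <;> simp [C.ne, C.sq, h3])
    (fun g _ hg => (h6 _ (fun g => if g = 1 then 1 else -1) (mem_zpowers ε) (if_pos rfl)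
      (if_neg C.ne) g hg).imp_right fun h s _ => h s)
    (fun H' H s Y b h h' T hD hY => by
      have := hK.comm (le_top (a := H))
      let F : IntermediateField K N := FixedPoints.intermediateField H
      have hF : FixBy F N H := fixBy_fixed H
      have := isTotallyComplex_of_algebra K F
      obtain ⟨b, rfl⟩ := hF.exists_mp hD.fix
      obtain ⟨ρ, h8, h9, h10⟩ := T.exists_r hΓ (two_ne_zero' N) fun g _ hg => by
        rcases C.ker g hg with rfl | rfl
        exacts [one_mem _, h (mem_zpowers _)]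
      have h11 : ∀ w : Pl N, val w (2 : N) < 1 → ee F w = 1 := fun w hw =>
        Nat.eq_one_of_mul_eq_one_right ((ee_mul w).symm.trans (h2 w hw))
      refine hnt T hF h8 h9 h10 h11 (P := ∅) (fun _ _ _ _ _ _ h v => h v (Set.notMem_empty v))
        fun w _ => loc_all hΓ C T hD ((hY ε (mem_zpowers ε)).trans (if_neg C.ne)) (h11 w) fun hw => ?_
      by_cases h12 : und K w = p
      · obtain ⟨g, hg, hg'⟩ := hns w h12
        exact (locT_two hΓ hw C h5 hg hg').mono h'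
      · exact (locT_one hΓ hw C hA (hu w h12)).mono le_top)
    χ.ker (zpowers_le_of_mem h5) le_rfl
  have h8 : Y ε = -1 := (h7 ε (mem_zpowers ε)).trans (if_neg C.ne)
  obtain ⟨Z, hZ, h9⟩ := ind hΓ (two_ne_zero' N) (H₀ := ⊤) hY
    (fun g _ hg => (h6 _ _ h5 hY.one h8 g hg).imp_right fun h s _ => h s)
    (fun H' H s Z b h _ T hD hZ => by
      have h9 : χ s = -1 := (Int.units_eq_one_or _).resolve_left fun h9 => T.notMem (h h9)
      have h10 : ∀ g, χ g = 1 ∨ g * s ∈ H' := fun g => (Int.units_eq_one_or _).imp_right fun hg =>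
        h (show χ (g * s) = 1 by simp [hg, h9])
      obtain rfl : H = ⊤ := eq_top_iff.2 fun g _ => (h10 g).elim (fun hg => T.le (h hg))
        fun hg => (mul_mem_cancel_right T.mem).1 (T.le hg)
      obtain ⟨b, rfl⟩ := hK.exists_mp hD.fix
      refine hnt T hK h0 (fun g hg => ?_) (by simp [hχ, h9]) h2 (P := {p})
        (fun M _ _ _ Q h h' v => ?_) fun w hw => loc_all hΓ C T hD ((hZ ε h5).trans h8) (h2 w)
          fun hw' => locT_one hΓ hw' C hA (hu w hw)
      · simp [hχ, (h10 g).resolve_right fun h => T.notMem ((mul_mem_cancel_left hg).1 h)]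
      · by_cases hv : v = p
        exacts [hv ▸ hrec M Q h b h', h' v hv])
    ⊤ le_top le_rfl
  exact ⟨Z, hZ, (h9 ε h5).trans h8⟩

end Pool.Agent.Lib.MP_580eba_nt
end

-- part Pool.Agent.Lib.MP_580eba_nt.Recip
section

/-!
A reciprocity law over imaginary quadratic fields in which two is inert.
-/

namespace Pool.Agent.Lib.MP_580eba_nt

open NumberField Subgroup WithZero

universe u

lemma QD.finrank {K M : Type*} [Field K] [Field M] [NumberField K] [NumberField M] [Algebra K M]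
    (Q : QD K M) : Module.finrank K M = 2 := by
  have := Q.isGalois
  rw [← IsGalois.card_aut_eq_finrank, Nat.card_eq_fintype_card, Q.card]

section general

variable {K M : Type u} [Field K] [Field M] [NumberField K] [NumberField M] [Algebra K M]

lemma one_le_ord {v : Pl K} {x : K} (hx : x ≠ 0) (h : val v x < 1) : 1 ≤ ord v x := by
  rw [val_eq_exp v hx, ← exp_zero, exp_lt_exp] at h
  omega

lemma one_lt_nP (v : Pl K) : 1 < nP v := Finite.one_lt_card (α := RF v)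

lemma exists_nP_eq {v : Pl K} {l : ℕ} (hl : l.Prime) (h : val v (l : K) < 1) : ∃ n, nP v = l ^ n := by
  simpa only [nP_rat hl (val_und_rat.2 h)] using exists_nP_pow (K := ℚ) v

lemma mem_SQ_of_fixed {Γ : Type*} [Group Γ] [Finite Γ] [MulSemiringAction Γ M] (hΓ : IsPGroup 2 Γ)
    (hK : FixBy K M (⊤ : Subgroup Γ)) {w : Pl M} (h2 : val w (2 : M) = 1) {r : M} {a : Kˣ}
    (ha : algebraMap K M a = r ^ 2) (h : ∀ g : Γ, g • w = w → g • r = r) : a ∈ SQ (und K w) := by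
  have h0 : r ≠ 0 := by rintro rfl; simp at ha
  obtain ⟨y, hy, h1⟩ := exists_fixed hΓ h2 (H := ⊤) (x := Units.mk0 r h0) fun g _ =>
    congrArg (mq w) (Units.ext (h g g.2))
  obtain ⟨c, rfl⟩ := hK.exists_mp hy
  refine mem_SQ.2 ⟨c, ?_⟩
  rw [U4_eq_U1 (val_two_eq_one fun h => ((val_two_map w).2 h).ne h2), ← mp_mem_U1, map_div, ← mq_eq,
    map_pow, map_pow, h1, ← map_pow]
  exact congrArg _ (Units.ext ha)

lemma exists_denom {x : K} {q : 𝓞 K} (h0 : q ≠ 0) (h : ∀ v : Pl K, val v (q : K) < 1 → val v x ≤ 1) :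
    ∃ c z n : 𝓞 K, c + z * q = 1 ∧ x * c = n := by
  let I : Ideal (𝓞 K) := (1 : Submodule (𝓞 K) K).comap (LinearMap.toSpanSingleton (𝓞 K) K x)
  have hI : ∀ c, c ∈ I ↔ ∃ n : 𝓞 K, x * c = n := fun c => by
    simp [I, Algebra.smul_def, eq_comm, mul_comm]
  have h1 : I ⊔ Ideal.span {q} = ⊤ := by
    by_contra h1
    obtain ⟨P, hP, h2⟩ := Ideal.exists_le_maximal _ h1
    have h3 : q ∈ P := h2 (Ideal.mem_sup_right (Ideal.mem_span_singleton_self q))
    let v : Pl K := ⟨P, hP.isPrime, fun h => h0 (by simpa [h] using h3)⟩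
    obtain ⟨n, d, hd⟩ := v.exists_primeCompl_mul_eq_of_integer x (h v ((val_int_lt v q).2 h3))
    exact d.2 (h2 (Ideal.mem_sup_left ((hI d).2 ⟨n, hd⟩)))
  obtain ⟨c, hc, _, hz, h2⟩ := Submodule.mem_sup.1 ((Ideal.eq_top_iff_one _).1 h1)
  obtain ⟨z, rfl⟩ := Ideal.mem_span_singleton'.1 hz
  obtain ⟨n, hn⟩ := (hI c).1 hc
  exact ⟨c, z, n, h2, hn⟩

lemma exists_int_mul {q : ℕ} (hq : q.Prime) {b : Kˣ} (hb : ∀ v : Pl K, val v (q : K) < 1 → b ∈ UU v) :
    ∃ (β : 𝓞 K) (c : Kˣ), (β : K) = (b * c ^ 2 : Kˣ) ∧ ∀ v : Pl K, val v (q : K) < 1 → c ∈ U1 v := by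
  obtain ⟨c, z, n, h1, h2⟩ := exists_denom (x := (b : K)) (q := (q : 𝓞 K)) (by simpa using hq.ne_zero)
    fun v hv => (hb v (by simpa using hv)).le
  have h3 : ∀ v : Pl K, val v (q : K) < 1 → val v ((c : K) - 1) < 1 := fun v hv => by
    rw [show (c : K) - 1 = -(q * z) by
      have := congrArg (algebraMap (𝓞 K) K) h1
      simp only [map_add, map_mul, map_natCast, map_one] at this
      linear_combination this, Valuation.map_neg, map_mul]
    exact mul_lt_one_of_lt_of_le hv (val_int_le v z)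
  obtain ⟨v, hv⟩ := exists_pl K hq
  refine ⟨n * c, Units.mk0 c (fun h => by simpa [h] using h3 v hv), ?_, h3⟩
  simp only [map_mul, Units.val_mul, Units.val_pow_eq_pow_val, Units.val_mk0]
  linear_combination -c * h2

namespace QD

variable (Q : QD K M)

include Q in
lemma isPGroup : IsPGroup 2 (M ≃ₐ[K] M) :=
  IsPGroup.of_card (n := 1) (by rw [Nat.card_eq_fintype_card, Q.card, pow_one])

omit [NumberField K] in
include Q in
lemma fixBy : FixBy K M (⊤ : Subgroup (M ≃ₐ[K] M)) := fun _ =>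
  ⟨by rintro ⟨y, rfl⟩ g -; exact g.commutes y, fun h => Q.fixed (h _ trivial)⟩

lemma nonsplit {u : Pl M} (h2 : val u (2 : M) = 1) (h : Q.a ∉ SQ (und K u)) : Q.σ • u = u := by
  by_contra h1
  refine h (mem_SQ_of_fixed Q.isPGroup Q.fixBy h2 Q.sq.symm fun g hg => ?_)
  rw [(Q.cases g).resolve_right (by rintro rfl; exact h1 hg), one_smul]

lemma mem_R {u : Pl M} (h : ord (und K u) (Q.a : K) = 1) : u ∈ Q.R := by
  by_contra h1
  have h2 := ord_map u (Q.a : K)
  rw [← Q.sq, ord_pow, h, Q.ee_eq_one h1] at h2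
  omega

lemma mul_nm_mem {b n : Kˣ} {y : Mˣ} (h : mp K M n = Q.nm y) (c : Kˣ) (v : Pl K) :
    b / n * c ^ 2 ∈ Q.Loc v ↔ b ∈ Q.Loc v := by
  rw [mul_mem_cancel_right (Q.SQ_le_Loc v (sq_mem_SQ v c)), div_eq_mul_inv,
    mul_mem_cancel_right (inv_mem (Q.mem_Loc_of_nm h v))]

end QD

end general

/-- The signed prime that is congruent to one modulo four. -/
def qs (q : ℕ) : ℤ := if q % 4 = 1 then q else -q

lemma qs_mod {q : ℕ} (h : q % 2 = 1) : (4 : ℤ) ∣ qs q - 1 := by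
  unfold qs
  split_ifs <;> omega

lemma legendre_qs {l q : ℕ} [hl : Fact l.Prime] [hq : Fact q.Prime] (hl2 : l ≠ 2) (hq2 : q ≠ 2) :
    legendreSym l (qs q) = legendreSym q l := by
  have h1 := hl.out.eq_two_or_odd.resolve_left hl2
  have h2 := hq.out.eq_two_or_odd.resolve_left hq2
  unfold qs
  split_ifs with h
  · exact legendreSym.quadratic_reciprocity_one_mod_four h hl2
  · rw [legendreSym.at_neg hl2]
    rcases Nat.odd_mod_four_iff.1 h1 with h3 | h3
    · rw [ZMod.χ₄_nat_one_mod_four h3, one_mul, legendreSym.quadratic_reciprocity_one_mod_four h3 hq2]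
    · rw [ZMod.χ₄_nat_three_mod_four h3, neg_one_mul,
        legendreSym.quadratic_reciprocity_three_mod_four h3 (by omega)]

variable {k M : Type u} [Field k] [NumberField k] [Field M] [NumberField M] [Algebra k M]

lemma val_qs (v : Pl k) (q : ℕ) : val v (qs q : k) = val v (q : k) := by
  unfold qs
  split_ifs <;> simp

lemma inert (hk : Module.finrank ℚ k = 2) {l : ℕ} (hl : l.Prime) {v : Pl k} (hv : val v (l : k) < 1)
    (h : nP v ≠ l) : nP v = l ^ 2 ∧ ord v (l : k) = 1 ∧ ∀ v' : Pl k, val v' (l : k) < 1 → v' = v := by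
  classical
  have h0 : (l : k) ≠ 0 := by simpa using hl.ne_zero
  have h1 := absNorm_eq_prod (b := (l : 𝓞 k)) (S := (finite_ord (l : k)).toFinset)
    (by simpa using hl.ne_zero) fun v hv => by simpa using hv
  have h2 : ∀ v' : Pl k, val v' (l : k) < 1 → v' ∈ (finite_ord (l : k)).toFinset := fun v' h =>
    (Set.Finite.mem_toFinset _).2 (one_pos.trans_le (one_le_ord h0 h)).ne'
  rw [Algebra.norm_natCast, RingOfIntegers.rank, hk, ← Finset.mul_prod_erase _ _ (h2 v hv)] at h1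
  simp only [Int.natAbs_pow, Int.natAbs_natCast, map_natCast] at h1
  obtain ⟨n, hn⟩ := exists_nP_eq hl hv
  have h3 := one_le_ord h0 hv
  have h4 : n ≠ 0 := by rintro rfl; exact (one_lt_nP v).ne' hn
  have h5 : n ≠ 1 := by rintro rfl; exact h (hn.trans (pow_one l))
  have h6 := (Nat.pow_dvd_pow_iff_le_right hl.one_lt).1 (Dvd.intro _ (by rw [h1, hn, ← pow_mul]) :
    l ^ (n * (ord v (l : k)).toNat) ∣ l ^ 2)
  obtain ⟨e, he⟩ := Int.eq_ofNat_of_zero_le (zero_le_one.trans h3)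
  rw [he, Int.toNat_natCast] at h6 h1
  obtain rfl : n = 2 := by
    have : n * 1 ≤ n * e := Nat.mul_le_mul_left n (by omega)
    omega
  obtain rfl : e = 1 := by omega
  refine ⟨hn, he, fun v' hv' => by_contra fun h7 => ?_⟩
  rw [hn, pow_one, left_eq_mul₀ (pow_ne_zero 2 hl.ne_zero), Finset.prod_eq_one_iff] at h1
  have h8 := h1 v' (Finset.mem_erase.2 ⟨h7, h2 v' hv'⟩)
  rw [pow_eq_one_iff_right (one_lt_nP v').ne'] at h8
  have := one_le_ord h0 hv'
  omega

lemma QD.norm_eq (Q : QD ℚ k) (b : 𝓞 k) : ((Algebra.norm ℤ b : ℤ) : k) = b * Q.σ • (b : k) := by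
  classical
  have := Q.isGalois
  have h := Algebra.norm_eq_prod_automorphisms ℚ (b : k)
  rw [← Algebra.coe_norm_int, map_intCast, Q.univ_eq, Finset.prod_pair Q.σ_ne.symm] at h
  exact h

lemma QD.norm_nonneg (Q : QD ℚ k) (h : (Q.a : ℚ) < 0) (b : 𝓞 k) : 0 ≤ Algebra.norm ℤ b := by
  have h1 := Q.norm_eq b
  obtain ⟨s, t, h2⟩ := Q.span b
  rw [h2, smul_add, smul_mul', smul_algebraMap, smul_algebraMap, Q.σr] at h1
  have h3 : (Algebra.norm ℤ b : ℚ) = s ^ 2 - t ^ 2 * Q.a := (algebraMap ℚ k).injective (by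
    rw [map_intCast, h1, map_sub, map_mul, map_pow, map_pow, ← Q.sq]; ring)
  have h4 : (0 : ℚ) ≤ (Algebra.norm ℤ b : ℚ) := by rw [h3]; nlinarith [sq_nonneg s, sq_nonneg t]
  exact_mod_cast h4

variable (k) in
/-- Two does not have a prime of degree one above it. -/
def In2 : Prop := ∀ v : Pl k, val v (2 : k) < 1 → nP v ≠ 2

variable {q : ℕ} [hq : Fact q.Prime]

lemma notMem_SQ (hk : Module.finrank ℚ k = 2) (h4 : In2 k) (hq2 : q ≠ 2) {a : kˣ}
    (ha : (a : k) = qs q) {v : Pl k} (h : legendreSym q (nP v) = -1) :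
    val v (2 : k) = 1 ∧ a ∈ UU v ∧ a ∉ SQ v := by
  obtain ⟨l, hl, hv⟩ := exists_prime v
  have := Fact.mk hl
  have h1 : nP v = l := by
    by_contra h1
    rw [(inert hk hl hv h1).1, Nat.cast_pow, pow_two, legendreSym.mul] at h
    nlinarith [mul_self_nonneg (legendreSym q l)]
  have h2 : l ≠ 2 := by rintro rfl; exact h4 v (by simpa using hv) h1
  have h3 : val v (2 : k) = 1 := val_two_eq_one fun h => h2 (((Nat.prime_dvd_prime_iff_eq hl
    Nat.prime_two).1 (Int.natCast_dvd_natCast.1 ((val_int_lt_iff hl hv).1 (by simpa using h)))))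
  have h5 : a ∈ UU v := by
    rw [mem_UU, ha, val_qs]
    refine le_antisymm (val_natCast_le v q) (not_lt.1 fun h5 => ?_)
    obtain rfl := (Nat.prime_dvd_prime_iff_eq hl hq.out).1
      (Int.natCast_dvd_natCast.1 ((val_int_lt_iff hl hv).1 (by simpa using h5)))
    rw [h1, (legendreSym.eq_zero_iff _ _).2 (by simp)] at h
    omega
  refine ⟨h3, h5, fun h6 => ?_⟩
  have := Fintype.ofFinite (RF v)
  rw [mem_SQ_iff_res h3 h5, ha, res_intCast] at h6
  rw [h1, ← legendre_qs h2 hq2, legendreSym.eq_neg_one_iff] at h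
  exact h (map_intCast (ZMod.ringEquivOfPrime (RF v) hl
    (Nat.card_eq_fintype_card.symm.trans h1)).symm (qs q) ▸ h6.map _)

lemma prod_formula (Q₀ : QD ℚ k) (h0 : (Q₀.a : ℚ) < 0) (h4 : In2 k) (hq2 : q ≠ 2) (Q : QD k M)
    (ha : (Q.a : k) = qs q) {β : 𝓞 k} {b : kˣ} (hβ : (β : k) = b)
    (hb : ∀ v : Pl k, val v (q : k) < 1 → b ∈ UU v) {p : Pl k} (h : ∀ v ≠ p, b ∈ Q.Loc v) :
    legendreSym q (Algebra.norm ℤ β) = legendreSym q (nP p) ^ (ord p (b : k)).toNat := by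
  classical
  have h1 := absNorm_eq_prod (b := β) (S := insert p (finite_ord (b : k)).toFinset)
    (by rintro rfl; exact b.ne_zero (by simp [← hβ])) fun v hv => by
      rw [hβ]; simpa using fun h => hv (Finset.mem_insert_of_mem h)
  rw [← Int.natAbs_of_nonneg (Q₀.norm_nonneg h0 β), h1, hβ, Nat.cast_prod, ← legendreSym.hom_apply,
    map_prod, Finset.prod_eq_single_of_mem p (Finset.mem_insert_self _ _)]
  · rw [Nat.cast_pow, map_pow, legendreSym.hom_apply]
  intro v _ hv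
  rw [Nat.cast_pow, map_pow, legendreSym.hom_apply]
  by_cases h2 : val v (q : k) < 1
  · simp [mem_UU'.1 (hb v h2)]
  obtain ⟨l, hl, h3⟩ := exists_prime v
  obtain ⟨n, hn⟩ := exists_nP_eq hl h3
  rcases legendreSym.eq_one_or_neg_one q (a := nP v) (fun h5 => by
    rw [Int.cast_natCast, ZMod.natCast_eq_zero_iff, hn] at h5
    exact h2 ((Nat.prime_dvd_prime_iff_eq hq.out hl).1 (hq.out.dvd_of_dvd_pow h5) ▸ h3)) with h5 | h5
  · rw [h5, one_pow]
  obtain ⟨h6, h7, h8⟩ := notMem_SQ Q₀.finrank h4 hq2 ha h5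
  obtain ⟨u, rfl⟩ := exists_und M v
  obtain ⟨m, hm⟩ := Q.even_of_mem_Loc (Q.notMem_R_odd h6 (by rw [mem_UU'.1 h7]; exact Even.zero))
    (Q.nonsplit (val_two_eq_one fun h => ((val_two_map u).1 h).ne h6) h8) (h _ hv)
  rw [h5, Even.neg_one_pow ⟨m.toNat, by omega⟩]

theorem recip_one (Q₀ : QD ℚ k) (h0 : (Q₀.a : ℚ) < 0) (h4 : In2 k) (hq2 : q ≠ 2) {p : Pl k}
    (hp : legendreSym q (nP p) = -1) (hu : ∀ v : Pl k, val v (q : k) < 1 → ord v (q : k) = 1)
    (Q : QD k M) (ha : (Q.a : k) = qs q) {b : kˣ} (h : ∀ v ≠ p, b ∈ Q.Loc v) : b ∈ Q.Loc p := by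
  classical
  obtain ⟨h1, h2, -⟩ := notMem_SQ Q₀.finrank h4 hq2 ha hp
  have h3 : ∀ u : Pl M, val (und k u) (q : k) < 1 → u ∈ Q.R := fun u h3 =>
    Q.mem_R (by rw [← hu _ h3]; exact ord_congr (ha ▸ val_qs _ q))
  have h5 : ∀ u : Pl M, ∃ y, val (und k u) (q : k) < 1 → mp k M b / Q.nm y ∈ U1 u := fun u => by
    by_cases h5 : val (und k u) (q : k) < 1
    · obtain ⟨y, hy⟩ := Q.mem_Loc.1 (h _ (by
        rintro rfl; rw [← val_qs, ← ha] at h5; exact h5.ne h2)) u rfl (smul_eq_of_mem_In (h3 u h5))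
      exact ⟨y, fun _ => WW_of_mem (h3 u h5) ▸ hy⟩
    · exact ⟨1, fun h => absurd h h5⟩
  choose y hy using h5
  obtain ⟨z, hz⟩ := exists_approx_unit Q.finite_R.toFinset y 1 fun _ => one_ne_zero
  obtain ⟨n, hn⟩ := Q.exists_nm z
  have h6 : ∀ v : Pl k, val v (q : k) < 1 → b / n ∈ U1 v := fun v hv => by
    obtain ⟨u, rfl⟩ := exists_und M v
    have h6 : z / y u ∈ U1 u := hz u (Q.finite_R.mem_toFinset.2 (h3 u hv))
    have h7 := div_mem (hy u hv) (mul_mem h6
      (stab_mem_U1 (Γ := M ≃ₐ[k] M) ⟨Q.σ, smul_eq_of_mem_In (h3 u hv)⟩ h6))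
    rwa [← Q.nm_apply, map_div Q.nm, div_div_div_cancel_right, ← hn, ← map_div, mp_mem_U1] at h7
  obtain ⟨β, c, hβ, hc⟩ := exists_int_mul hq.out fun v hv => U1_le_UU v (h6 v hv)
  have h7 : ∀ v : Pl k, val v (q : k) < 1 → b / n * c ^ 2 ∈ U1 v := fun v hv =>
    mul_mem (h6 v hv) (pow_mem (hc v hv) 2)
  have h8 := prod_formula Q₀ h0 h4 hq2 Q ha hβ (fun v hv => U1_le_UU v (h7 v hv))
    fun v hv => (Q.mul_nm_mem hn c v).2 (h v hv)
  obtain ⟨v, hv⟩ := exists_pl k hq.out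
  have h9 : (q : ℤ) ∣ Algebra.norm ℤ β - 1 := by
    have h9 := mul_mem (h7 v hv) (smul_inv_smul Q₀.σ v ▸ act_mem_U1.2 (h7 (Q₀.σ⁻¹ • v) (by
      rwa [← val_smul', show Q₀.σ • (q : k) = q from map_natCast Q₀.σ q])))
    rw [← val_int_lt_iff hq.out hv, Int.cast_sub, Q₀.norm_eq, hβ, Int.cast_one]
    exact h9
  rw [legendreSym.mod, ← (Int.modEq_iff_dvd.2 h9).eq,
    ← legendreSym.mod, legendreSym.at_one, hp, eq_comm, neg_one_pow_eq_one_iff_even (by decide)] at h8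
  refine (Q.mul_nm_mem hn c p).1 (Q.mem_Loc_of_even (by
    rintro u rfl; exact Q.notMem_R_odd h1 (by rw [mem_UU'.1 h2]; exact Even.zero)) ?_)
  obtain ⟨m, hm⟩ := h8
  have := ord_nonneg (hβ ▸ val_int_le p β)
  exact ⟨m, by omega⟩

theorem recip_two (Q₀ : QD ℚ k) (h0 : (Q₀.a : ℚ) < 0) (h4 : In2 k) (hq2 : q ≠ 2) {p : Pl k}
    (hp : val p (q : k) < 1) (hp' : nP p ≠ q) (h2 : val p (2 : k) = 1)
    (Q : QD k M) (ha : (Q.a : k) = qs q) {b : kˣ} (h : ∀ v ≠ p, b ∈ Q.Loc v) : b ∈ Q.Loc p := by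
  classical
  obtain ⟨h1, h3, h5⟩ := inert Q₀.finrank hq.out hp hp'
  have hn : mp k M ((-Q.a) ^ ord p (b : k)) = Q.nm (Units.mk0 Q.r Q.r0 ^ ord p (b : k)) := by
    rw [map_zpow, map_zpow]
    refine congrArg (· ^ _) (Units.ext ?_)
    rw [Q.nm_val, Units.val_mk0, Q.σr, mul_neg, ← pow_two, Q.sq, ← map_neg]
    rfl
  have h6 : ∀ v : Pl k, val v (q : k) < 1 → b / (-Q.a) ^ ord p (b : k) ∈ UU v := fun v hv => by
    rw [h5 v hv, div_mem_UU, Units.val_zpow_eq_zpow_val, ord_zpow, Units.val_neg, ord_neg, ha,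
      ord_congr (val_qs p q), h3, mul_one]
  obtain ⟨β, c, hβ, hc⟩ := exists_int_mul hq.out h6
  have h7 : ∀ v : Pl k, val v (q : k) < 1 → b / (-Q.a) ^ ord p (b : k) * c ^ 2 ∈ UU v := fun v hv =>
    mul_mem (h6 v hv) (pow_mem (U1_le_UU v (hc v hv)) 2)
  have h8 := prod_formula Q₀ h0 h4 hq2 Q ha hβ h7 fun v hv => (Q.mul_nm_mem hn c v).2 (h v hv)
  rw [mem_UU'.1 (h7 p hp), Int.toNat_zero, pow_zero] at h8
  refine (Q.mul_nm_mem hn c p).1 (Q.SQ_le_Loc p ((mem_SQ_iff_res h2 (h7 p hp)).2 ?_))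
  have := Fintype.ofFinite (RF p)
  have h9 : Fintype.card (RF p) = q ^ 2 := Nat.card_eq_fintype_card.symm.trans h1
  have := Q₀.isGalois
  obtain ⟨τ, hτ, hτ'⟩ := exists_frob (K := ℚ) (k ≃ₐ[ℚ] k) p
  rw [nP_rat hq.out (val_und_rat.2 hp)] at hτ'
  have h10 : ∀ x : 𝓞 k, res p (τ • (x : k)) = res p x ^ q := fun x => by
    rw [← res_npow (val_int_le p x), res_eq_iff (by rw [val_smul_of_eq hτ]; exact val_int_le p x)
      (by rw [map_pow]; exact pow_le_one₀ zero_le (val_int_le p x))]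
    exact hτ' _ (val_int_le p x)
  have h11 := hq.out.two_le
  obtain rfl : τ = Q₀.σ := (Q₀.cases τ).resolve_left (by
    rintro rfl
    have h12 := Nat.le_of_dvd (by omega) ((FiniteField.forall_pow_eq_one_iff (RF p) (q - 1)).1 fun x => by
      obtain ⟨y, hy⟩ := res_surj (x : RF p)
      have h12 := h10 y
      rw [one_smul, hy, ← Nat.sub_add_cancel hq.out.one_le, pow_succ, eq_comm,
        mul_eq_right₀ x.ne_zero] at h12
      exact Units.ext (by simpa using h12))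
    rw [h9] at h12
    have : q * 2 ≤ q * q := Nat.mul_le_mul_left q h11
    rw [pow_two] at h12
    omega)
  have h12 : res p β ^ (q + 1) = (Algebra.norm ℤ β : ℤ) := by
    rw [← res_intCast, Q₀.norm_eq, res_mul (val_int_le p β)
      (by rw [val_smul_of_eq hτ]; exact val_int_le p β), h10, pow_succ']
  have h13 : val p ((Algebra.norm ℤ β ^ (q / 2) - 1 : ℤ) : k) < 1 := by
    rw [val_int_lt_iff hq.out hp, ← ZMod.intCast_zmod_eq_zero_iff_dvd]
    push_cast
    rw [← legendreSym.eq_pow, h8, Int.cast_one, sub_self]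
  rw [← res_eq_zero (val_intCast_le _ _), res_intCast] at h13
  push_cast at h13
  rw [FiniteField.isSquare_iff (fun h => two_ne_zero_RF h2 (by
    exact_mod_cast (ringChar.spec (RF p) 2).2 (h ▸ dvd_rfl))) (res_ne_zero (h7 p hp)), ← hβ, h9,
    ← sub_eq_zero, ← h13, ← h12, ← pow_mul]
  congr 2
  obtain ⟨m, rfl⟩ := hq.out.odd_of_ne_two hq2
  rw [show (2 * m + 1) ^ 2 = 2 * ((2 * m + 1 + 1) * m) + 1 by ring,
    show (2 * m + 1) / 2 = m by omega]
  omega

theorem recip (Q₀ : QD ℚ k) {D : ℕ} (hD : (Q₀.a : ℚ) = -D) (h4 : In2 k) {p : Pl k}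
    (h2 : val p (2 : k) = 1) : ∃ a : kˣ,
      (∀ v : Pl k, val v (2 : k) < 1 → val v (a : k) = 1 ∧ val v ((a : k) - 1) ≤ val v 4) ∧
      a ∉ SQ p ∧ ∀ (M : Type u) [Field M] [NumberField M] [Algebra k M] (Q : QD k M), Q.a = a →
        ∀ b, (∀ v ≠ p, b ∈ Q.Loc v) → b ∈ Q.Loc p := by
  have hD0 : D ≠ 0 := by rintro rfl; simp at hD
  have h0 : (Q₀.a : ℚ) < 0 := by rw [hD, neg_lt_zero]; positivity
  have key : ∀ q : ℕ, q.Prime → q ≠ 2 → ∃ a : kˣ, (a : k) = qs q ∧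
      ∀ v : Pl k, val v (2 : k) < 1 → val v (a : k) = 1 ∧ val v ((a : k) - 1) ≤ val v 4 := by
    intro q hq hq2
    obtain ⟨c, hc⟩ := qs_mod (hq.eq_two_or_odd.resolve_left hq2)
    have h1 : ∀ v : Pl k, val v ((qs q : k) - 1) ≤ val v 4 := fun v => by
      rw [← Int.cast_one, ← Int.cast_sub, hc, Int.cast_mul, map_mul, Int.cast_ofNat]
      exact mul_le_of_le_one_right' (val_intCast_le v c)
    refine ⟨Units.mk0 (qs q) (by rw [Int.cast_ne_zero]; omega), rfl, fun v hv =>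
      ⟨val_eq_one_of_sub ((h1 v).trans_lt ?_), h1 v⟩⟩
    rwa [val_four, pow_lt_one_iff two_ne_zero]
  obtain ⟨l, hl, hp⟩ := exists_prime p
  have := Fact.mk hl
  have hl2 : l ≠ 2 := by rintro rfl; exact hp.ne (by simpa using h2)
  by_cases h : nP p = l
  · obtain ⟨t, ht⟩ := FiniteField.exists_nonsquare (F := ZMod l) (by rwa [ZMod.ringChar_zmod_n])
    obtain ⟨t, rfl⟩ := ZMod.natCast_zmod_surjective t
    have h3 : Nat.Coprime 4 l := ((Nat.coprime_primes Nat.prime_two hl).2 hl2.symm).pow_left 2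
    obtain ⟨n, h5, h6⟩ := Nat.chineseRemainder h3 1 t
    obtain ⟨q, h7, hq, h8⟩ := Nat.forall_exists_prime_gt_and_modEq (D + 2) (q := 4 * l) (a := n)
      (by simpa using hl.ne_zero) (Nat.Coprime.mul_right (by simp [Nat.Coprime, h5.gcd_eq]) (by
        rw [Nat.Coprime, h6.gcd_eq, ← Nat.coprime_iff_gcd_eq_one, Nat.coprime_comm, hl.coprime_iff_not_dvd,
          ← ZMod.natCast_eq_zero_iff]
        exact fun h => ht (h ▸ IsSquare.zero)))
    have := Fact.mk hq
    have hq2 : q ≠ 2 := by omega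
    have h9 : legendreSym q (nP p) = -1 := by
      rw [h, ← legendreSym.quadratic_reciprocity_one_mod_four ((h8.of_mul_right l).trans h5) hl2,
        legendreSym.eq_neg_one_iff', (ZMod.natCast_eq_natCast_iff _ _ _).2 ((h8.of_mul_left 4).trans h6)]
      exact ht
    obtain ⟨a, ha, h10⟩ := key q hq hq2
    refine ⟨a, h10, (notMem_SQ Q₀.finrank h4 hq2 ha h9).2.2, fun M _ _ _ Q hQ b =>
      recip_one Q₀ h0 h4 hq2 h9 (fun v hv => ?_) Q (hQ ▸ ha)⟩
    have h11 : ∀ n : ℕ, n ≠ 0 → n < q → val (und ℚ v) (n : ℚ) = 1 := fun n h0 hn =>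
      le_antisymm (val_natCast_le _ n) (not_lt.1 fun h => Nat.not_dvd_of_pos_of_lt
        (Nat.pos_of_ne_zero h0) hn (Int.natCast_dvd_natCast.1
          ((val_int_lt_iff hq (val_und_rat.2 hv)).1 (by simpa using h))))
    rw [ord_prime hq hv, Q₀.ee_eq_one (Q₀.notMem_R_odd (by simpa using h11 2 two_ne_zero (by omega))
      (by rw [hD, ord_neg, (ord_eq_zero_iff _ (by simpa)).2 (h11 D hD0 (by omega))]; exact Even.zero)),
      Nat.cast_one]
  · obtain ⟨a, ha, h10⟩ := key l hl hl2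
    refine ⟨a, h10, fun h3 => ?_, fun M _ _ _ Q hQ b => recip_two Q₀ h0 h4 hl2 hp h h2 Q (hQ ▸ ha)⟩
    have h5 := even_of_mem_SQ h3
    rw [ha, ord_congr (val_qs p l), (inert Q₀.finrank hl hp h).2.1] at h5
    exact Int.not_even_one h5

end Pool.Agent.Lib.MP_580eba_nt
end

-- part Pool.Agent.Lib.MP_580eba_nt.ABHN
section

/-!
Vanishing of the Brauer class of a central extension of order two.
-/

namespace Pool.Agent.Lib.MP_580eba_nt

open NumberField Subgroup IntermediateField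

universe u

variable {k : Type u} [Field k] [NumberField k] {S : Set (Ideal (𝓞 k))}
  {L : IntermediateField k (AlgebraicClosure k)}

omit [NumberField k] in
lemma IsTwoExt.mono {S' : Set (Ideal (𝓞 k))} (h : IsTwoExt k S L) (h' : S ⊆ S') : IsTwoExt k S' L :=
  ⟨h.1, h.2.1, h.2.2.1, fun q h1 h2 h3 => h.2.2.2 q h1 h2 fun h => h3 (h' h)⟩

variable [FiniteDimensional k L] [IsGalois k L]

theorem IsTwoExt.adjoin_sqrt (hL : IsTwoExt k S L) {β : L}
    (hβ : ∀ g : L ≃ₐ[k] L, ∃ t : L, g • β = t ^ 2 * β)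
    (hloc : ∀ w : Pl L, (und k w).asIdeal ∉ S →
      ∃ t : L, val w (β / t ^ 2) = 1 ∧ val w (β / t ^ 2 - 1) ≤ val w 4) :
    ∃ (L' : IntermediateField k (AlgebraicClosure k)) (h : L ≤ L'), IsTwoExt k S L' ∧
      ∃ r : L', r ^ 2 = inclusion h β := by
  obtain ⟨ρ, hρ⟩ := IsAlgClosed.exists_pow_nat_eq (β : AlgebraicClosure k) two_pos
  let L' := L ⊔ adjoin k {ρ}
  have h : L ≤ L' := le_sup_left
  have hm : ρ ∈ L' := (le_sup_right : _ ≤ L') (mem_adjoin_simple_self k ρ)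
  have := adjoin.finiteDimensional (Algebra.IsIntegral.isIntegral (R := k) ρ)
  have : FiniteDimensional k L' := finiteDimensional_sup _ _
  have : Normal k L' := normal_iff_forall_map_le'.2 fun σ => by
    rw [IntermediateField.map_sup, adjoin_map, Set.image_singleton]
    refine sup_le ((normal_iff_forall_map_le'.1 inferInstance σ).trans h) (adjoin_simple_le_iff.2 ?_)
    obtain ⟨g, hg⟩ := exists_res (k := k) (L.val : L →+* AlgebraicClosure k) σ fun x => σ.commutes x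
    obtain ⟨t, ht⟩ := hβ g
    have h1 : σ ρ ^ 2 = (t * ρ) ^ 2 := by
      rw [← map_pow, hρ, mul_pow, hρ]
      exact (hg β).symm.trans (congrArg Subtype.val ht)
    rcases sq_eq_sq_iff_eq_or_eq_neg.1 h1 with h2 | h2
    · exact Set.mem_of_eq_of_mem h2 (mul_mem (h t.2) hm)
    · exact Set.mem_of_eq_of_mem h2 (neg_mem (mul_mem (h t.2) hm))
  have : IsGalois k L' := {}
  let r : L' := ⟨ρ, hm⟩
  have hr : r ^ 2 = inclusion h β := Subtype.ext hρ
  obtain ⟨h1, h2⟩ := isTwoExt_iff.1 hL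
  have h3 : ∀ g : L' ≃ₐ[k] L', resH h g = 1 → ∀ x, g • inclusion h x = inclusion h x := fun g hg x =>
    (resH_spec h g x).symm.trans (by rw [hg]; rfl)
  have h4 : ∀ g : L' ≃ₐ[k] L', resH h g = 1 → g • r = r → g = 1 := fun g hg hg' =>
    eq_one_of_le_fixF (sup_le (le_fixF h (h3 g hg)) (adjoin_simple_le_iff.2 ((mem_fixF r).2 hg')))
  refine ⟨L', h, isTwoExt_iff.2 ⟨fun g => ?_, fun w hw => (Subgroup.eq_bot_iff_forall _).2 fun g hg => ?_⟩,
    r, hr⟩
  · obtain ⟨n, hn⟩ := h1 (resH h g)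
    rw [← map_pow] at hn
    refine ⟨n + 1, h4 _ (by rw [pow_succ, pow_mul, map_pow, hn, one_pow]) ?_⟩
    rcases smul_eq_or (g := g ^ 2 ^ n) (s := r) (by rw [hr, h3 _ hn]) with h5 | h5 <;>
      simp only [pow_succ 2 n, pow_mul, pow_two (g ^ _), mul_smul, h5, smul_neg, neg_neg]
  · have h5 : und k (pull (inclusion h : L →+* L') w) = und k w := und_pull _ (by intro; rfl) w
    have h6 := res_mem_In (f := (inclusion h : L →+* L')) (g := g) (g' := resH h g)
      (resH_spec h g) hg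
    rw [h2 _ (h5 ▸ hw), Subgroup.mem_bot] at h6
    obtain ⟨t, h7, h8⟩ := hloc (pull (inclusion h : L →+* L') w) (h5 ▸ hw)
    let _ := (inclusion h).toAlgebra
    have h9 : (r / inclusion h t) ^ 2 = algebraMap L L' (β / t ^ 2) := by
      rw [div_pow, hr, ← map_pow, ← map_div₀]; rfl
    have h10 := In_fix_of_sq hg (s := r / inclusion h t) (by rw [h9]; exact h3 g h6 _)
      (by rw [h9]; exact (val_map_eq_one w).2 h7) (by rw [h9]; exact (val_map_four w).2.2 h8)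
    have h11 : t ≠ 0 := by rintro rfl; simp at h7
    rw [smul_div₀', h3 g h6, div_left_inj' (by simpa using h11)] at h10
    exact h4 g h6 h10

lemma fixBy_of_surj {Γ K N : Type*} [Group Γ] [Field K] [Field N] [Algebra K N] [FiniteDimensional K N]
    [IsGalois K N] {π : Γ →* (N ≃ₐ[K] N)} (h : Function.Surjective π) (x : N) :
    (∃ y, algebraMap K N y = x) ↔ ∀ g, π g • x = x :=
  ⟨by rintro ⟨y, rfl⟩ g; exact (π g).commutes y, fun h' => IntermediateField.mem_bot.1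
    ((IsGalois.mem_bot_iff_fixed x).2 (h.forall.2 h'))⟩

theorem abhn_aux (Q₀ : QD ℚ k) {D : ℕ} (hD : (Q₀.a : ℚ) = -D) (h4 : In2 k) {p : Pl k}
    (h2 : val p (2 : k) = 1) (hL : IsTwoExt k {p.asIdeal} L) {Γ : Type*} [Group Γ] [Finite Γ]
    (hΓ : IsPGroup 2 Γ) {π : Γ →* (L ≃ₐ[k] L)} (hπ : Function.Surjective π) {ε : Γ} (hε : ε ≠ 1)
    (hε' : ∀ g, π g = 1 ↔ g = 1 ∨ g = ε) :
    ∃ Y, Coc ((actU (L ≃ₐ[k] L) L).comp π) ⊤ Y ∧ Y ε = -1 := by
  have : IsTotallyComplex k := isTotallyComplex_of_sq (s := Q₀.r) (n := D)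
    (by rintro rfl; simp at hD) (by rw [Q₀.sq, hD]; simp)
  obtain ⟨a, ha, ha', hrec⟩ := recip Q₀ hD h4 h2
  have h1 : ∀ v : Pl k, v.asIdeal ∉ {I : Ideal (𝓞 k) | 2 ∉ I} ↔ val v (2 : k) < 1 := fun v =>
    not_not.trans (val_int_lt v 2).symm
  obtain ⟨N, h, hN, r, hr⟩ := (hL.mono (S' := {I | 2 ∉ I}) (by
    rintro _ rfl h; exact ((val_int_lt p 2).2 h).ne h2)).adjoin_sqrt (β := algebraMap k L a)
    (fun g => ⟨1, by rw [smul_algebraMap, one_pow, one_mul]⟩) fun w hw => ⟨1, by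
      rw [one_pow, div_one, val_map_eq_one, (val_map_four w).2]; exact ha _ ((h1 _).1 hw)⟩
  have := hN.1
  have := hN.2.1
  obtain ⟨h5, h6⟩ := isTwoExt_iff.1 hN
  let Δ : Subgroup (Γ × (N ≃ₐ[k] N)) :=
    (π.comp (MonoidHom.fst Γ (N ≃ₐ[k] N))).eqLocus ((resH h).comp (MonoidHom.snd Γ (N ≃ₐ[k] N)))
  let f : Δ →* Γ := (MonoidHom.fst _ _).comp Δ.subtype
  let ρ : Δ →* (N ≃ₐ[k] N) := (MonoidHom.snd _ _).comp Δ.subtype
  have hf : Function.Surjective f := fun g =>
    let ⟨g', hg⟩ := resH_surj h (π g); ⟨⟨(g, g'), hg.symm⟩, rfl⟩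
  have hρ : Function.Surjective ρ := fun g =>
    let ⟨g', hg⟩ := hπ (resH h g); ⟨⟨(g', g), hg⟩, rfl⟩
  have h7 : ∀ g : Δ, π (f g) = resH h (ρ g) := fun g => g.2
  let _ : MulSemiringAction Δ N := MulSemiringAction.compHom N ρ
  have hΔ : IsPGroup 2 Δ := IsPGroup.to_subgroup (fun g => by
    obtain ⟨m, hm⟩ := hΓ g.1
    obtain ⟨n, hn⟩ := h5 g.2
    exact ⟨m + n, Prod.ext (by rw [Prod.pow_fst, pow_add, pow_mul, hm, one_pow]; rfl)
      (by rw [Prod.pow_snd, pow_add, mul_comm, pow_mul, hn, one_pow]; rfl)⟩) _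
  let e : Δ := ⟨(ε, 1), ((hε' ε).2 (Or.inr rfl)).trans (map_one (resH h)).symm⟩
  have C : Cen N e := ⟨fun h => hε (congrArg f h), fun _ => rfl, fun g hg => by
    have h8 : ρ g = 1 := AlgEquiv.ext hg
    exact ((hε' _).1 ((h7 g).trans (by rw [h8, map_one]))).imp (fun h => Subtype.ext (Prod.ext h h8))
      fun h => Subtype.ext (Prod.ext h h8)⟩
  have hK : FixBy k N (⊤ : Subgroup Δ) := fun x => (fixBy_of_surj hρ x).trans (by simp; rfl)
  have hr' : algebraMap k N a = r ^ 2 := hr.symm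
  have h0 : r ≠ 0 := by rintro rfl; simp at hr'
  have h8 : ∀ g : Δ, g • r ^ 2 = r ^ 2 := fun g => hr' ▸ hK.smul trivial _
  have h9 : e ∉ f.ker := hε
  obtain ⟨Y, hY, hY'⟩ := core_abhn hΔ C hK h0 (smul_eq_sgn h0 h8) h9 (p := p)
    (fun w hw => by rw [← card_In (N ≃ₐ[k] N), h6 w ((h1 _).2 ((val_two_map w).1 hw)), card_bot])
    (fun w hw g hg => by
      have h10 := res_mem_In (f := (inclusion h : L →+* N)) (g := g) (g' := resH h (ρ g))
        (resH_spec h (ρ g)) hg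
      rw [(isTwoExt_iff.1 hL).2 _ (by
        rw [und_pull _ (by intro; rfl)]
        exact fun h => hw (IsDedekindDomain.HeightOneSpectrum.ext h)), Subgroup.mem_bot, ← h7] at h10
      refine ((hε' _).1 h10).imp id fun h => ?_
      rw [MonoidHom.mem_ker, map_mul, h]
      exact congrArg f C.sq)
    (fun w hw => by
      by_contra! h10
      exact ha' (hw ▸ mem_SQ_of_fixed hΔ hK (val_two_eq_one fun h => ((val_two_map w).1 h).ne (hw ▸ h2))
        hr' fun g hg => (sgn_eq_one h0 h8).1 (h10 g hg)))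
    fun M _ _ _ Q hQ => hrec M Q (Units.ext ((algebraMap k N).injective (hQ.trans hr'.symm)))
  obtain ⟨t, ht⟩ := h90' hΔ (two_ne_zero' N) (hY.mono (le_top (a := f.ker))) fun g hg h => by
    rw [(C.ker g h).resolve_right (by rintro rfl; exact h9 hg), hY.one]
  have hZ := hY.div (coc_bdry t)
  set Z := fun g => Y g / (actU Δ N g t / t) with hZ'
  have h10 : ∀ g ∈ f.ker, Z g = 1 := fun g hg => by
    simp only [hZ', ht g hg, mul_div_cancel_right, div_self']
  have h11 : ∀ g g', f g = f g' → Z g = Z g' := fun g g' h => by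
    rw [← mul_inv_cancel_left g g', hZ g trivial _ trivial, h10 (g⁻¹ * g') (by simp [h]), map_one,
      mul_one]
  let _ := (inclusion h).toAlgebra
  have h12 : FixBy L N f.ker := fun x => ⟨by
    rintro ⟨y, rfl⟩ g hg
    exact (resH_spec h (ρ g) y).symm.trans (by rw [← h7, MonoidHom.mem_ker.1 hg, map_one]; rfl),
    fun hx => by
      refine (IsGalois.fixedField_fixingSubgroup (restrict h)).le (x := x) fun g => ?_
      exact hx ⟨(1, g), (map_one π).trans (AlgEquiv.ext fun y => (inclusion h).injective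
        ((resH_spec h g y).trans (g.2 ⟨_, y, rfl⟩))).symm⟩ rfl⟩
  choose s hs using hf
  choose W hW using fun g => h12.exists_mp (x := Z (s g)) fun c hc => by
    rw [← one_mul (actU Δ N c _), ← h10 c hc, ← hZ c trivial _ trivial]
    exact h11 _ _ (by rw [map_mul, MonoidHom.mem_ker.1 hc, one_mul])
  have h13 : Function.Injective (mp L N) := Units.map_injective (algebraMap L N).injective
  refine ⟨W, fun g _ g' _ => h13 ?_, h13 ?_⟩
  · rw [map_mul, hW, hW, h11 _ (s g * s g') (by rw [map_mul, hs, hs, hs]), hZ _ trivial _ trivial, ← hW g']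
    refine congrArg _ (Units.ext ((resH_spec h (ρ (s g)) (W g')).symm.trans ?_))
    rw [← h7, hs]
    rfl
  · rw [hW, h11 _ e (hs ε)]
    simp only [hZ', hY', show actU Δ N e t = t from rfl, div_self', div_one]
    exact Units.ext (by simp)

theorem abhn (Q₀ : QD ℚ k) {D : ℕ} (hD : (Q₀.a : ℚ) = -D) (h4 : In2 k) {p : Pl k}
    (h2 : val p (2 : k) = 1) (hL : IsTwoExt k {p.asIdeal} L) {Γ : Type*} [Group Γ] [Finite Γ]
    (hΓ : IsPGroup 2 Γ) {π : Γ →* (L ≃ₐ[k] L)} (hπ : Function.Surjective π) {ψ : π.ker →* ℤˣ}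
    (hψ : ∀ g (r : π.ker), ψ ⟨g * r * g⁻¹, (MonoidHom.normal_ker π).conj_mem r r.2 g⟩ = ψ r) :
    ∃ Y, Coc ((actU (L ≃ₐ[k] L) L).comp π) ⊤ Y ∧ ∀ r : π.ker, (Y r : L) = (ψ r : ℤ) := by
  by_cases h : ∀ r, ψ r = 1
  · exact ⟨1, fun _ _ _ _ => by simp, fun r => by simp [h]⟩
  obtain ⟨r₀, h0⟩ := not_forall.1 h
  let B := ψ.ker.map π.ker.subtype
  have hB : ∀ r : π.ker, (r : Γ) ∈ B ↔ ψ r = 1 := fun r => mem_map_iff_mem π.ker.subtype_injective
  have : B.Normal := ⟨by rintro _ ⟨r, hr, rfl⟩ g; exact (hB ⟨_, _⟩).2 ((hψ g r).trans hr)⟩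
  have h1 : ∀ r : π.ker, ψ r ≠ 1 → ((r : Γ) : Γ ⧸ B) = (r₀ : Γ) := fun r hr =>
    QuotientGroup.eq.2 ((hB (r⁻¹ * r₀)).2 (by
      rw [map_mul, map_inv, (Int.units_eq_one_or _).resolve_left hr,
        (Int.units_eq_one_or _).resolve_left h0, inv_mul_cancel]))
  obtain ⟨Y, hY, hY'⟩ := abhn_aux Q₀ hD h4 h2 hL (hΓ.to_quotient B)
    (π := QuotientGroup.lift B π (map_subtype_le _))
    (QuotientGroup.lift_surjective_of_surjective _ _ hπ _) (ε := (r₀ : Γ))
    (fun h => h0 ((hB r₀).1 ((QuotientGroup.eq_one_iff _).1 h))) (by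
      rintro ⟨g⟩
      refine ⟨fun h => ?_, ?_⟩
      · by_cases h5 : ψ ⟨g, h⟩ = 1
        exacts [Or.inl ((QuotientGroup.eq_one_iff _).2 ((hB ⟨g, h⟩).2 h5)), Or.inr (h1 ⟨g, h⟩ h5)]
      · rintro (h | h) <;> rw [h]
        exacts [map_one _, r₀.2])
  refine ⟨fun g => Y g, fun g _ g' _ => hY g trivial g' trivial, fun r => ?_⟩
  by_cases h5 : ψ r = 1
  · simp [(QuotientGroup.eq_one_iff _).2 ((hB r).2 h5), hY.one, h5]
  · simp [h1 r h5, hY', (Int.units_eq_one_or _).resolve_left h5]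

end Pool.Agent.Lib.MP_580eba_nt
end
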