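import Pool.Agent.Lib.MP_580eba_nt.ABHN

/-!
The bound on the number of relations.
-/

namespace Pool.Agent.Lib.MP_580eba_nt

open NumberField Subgroup WithZero

universe u

lemma exists_char_of_sq {Γ F : Type*} [Group Γ] [Field F] [CharZero F] {a : Γ →* Monoid.End Fˣ}
    (ha : ∀ g, a g (-1) = -1) {c : Γ → Fˣ} (hc : Coc a ⊤ c) (h : ∀ g, c g ^ 2 = 1) :
    ∃ χ : Γ →* ℤˣ, ∀ g, χ g = 1 → c g = 1 := by
  classical
  have h1 : ∀ g, c g = 1 ∨ c g = -1 := fun g =>
    (sq_eq_one_iff.1 (congrArg Units.val (h g))).imp Units.ext Units.ext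
  have h2 : (-1 : Fˣ) ≠ 1 := fun h => by
    have := congrArg Units.val h
    norm_num at this
  refine ⟨MonoidHom.mk' (fun g => if c g = 1 then 1 else -1) fun g k => ?_, fun g hg => ?_⟩
  · rcases h1 g with h3 | h3 <;> rcases h1 k with h4 | h4 <;>
      simp [hc g trivial k trivial, h3, h4, ha, h2]
  · by_contra h3
    exact absurd ((if_neg h3).symm.trans hg) (by decide)

section inv

variable {K N : Type u} [Field K] [Field N] [NumberField K] [NumberField N] [Algebra K N]

variable (K N) in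
/-- Elements that are invariant modulo squares. -/
def Inv : Subgroup Nˣ where
  carrier := {β | ∀ g : N ≃ₐ[K] N, ∃ t : Nˣ, actU _ N g β = t ^ 2 * β}
  mul_mem' {a b} ha hb g := by
    obtain ⟨s, hs⟩ := ha g
    obtain ⟨t, ht⟩ := hb g
    exact ⟨s * t, by rw [map_mul, hs, ht, mul_pow, mul_mul_mul_comm]⟩
  one_mem' g := ⟨1, by simp⟩
  inv_mem' {a} ha g := by
    obtain ⟨s, hs⟩ := ha g
    exact ⟨s⁻¹, by rw [map_inv, hs, inv_pow, mul_inv]⟩

/-- Elements of even order outside a set of primes. -/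
def Ev (T : Finset (Pl K)) : Subgroup Nˣ where
  carrier := {β | ∀ w : Pl N, und K w ∉ T → Even (ord w (β : N))}
  mul_mem' {a b} ha hb w hw := by
    rw [Units.val_mul, ord_mul w a.ne_zero b.ne_zero]; exact (ha w hw).add (hb w hw)
  one_mem' w _ := by simp [ord_one]
  inv_mem' {a} ha w hw := by
    rw [Units.val_inv_eq_inv_val, ord_inv]; exact (ha w hw).neg

lemma le_val_two {w : Pl N} (h : ord w (2 : N) = 1) {x : N} (hx : val w x < 1) : val w x ≤ val w 2 := by
  rcases eq_or_ne x 0 with rfl | h0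
  · simp
  have := one_le_ord h0 hx
  rw [val_eq_exp w h0, val_eq_exp w two_ne_zero, exp_le_exp]
  omega

variable [IsGalois K N]

lemma Inv.ord_eq {β : Nˣ} (h : β ∈ Inv K N) {w w' : Pl N} (hw : und K w = und K w') :
    (ord w (β : N) : ZMod 2) = ord w' (β : N) := by
  obtain ⟨g, rfl⟩ := exists_smul_eq (N ≃ₐ[K] N) hw
  obtain ⟨t, ht⟩ := h g
  rw [← ord_smul g w, ← actU_val, ht, Units.val_mul, ord_mul _ (Units.ne_zero _) β.ne_zero,
    Units.val_pow_eq_pow_val, ord_pow]
  push_cast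
  rw [show (2 : ZMod 2) = 0 from rfl, zero_mul, zero_add]

lemma two_adic {w : Pl N} (h2 : ord w (2 : N) = 1) {β : Nˣ} (h : β ∈ Inv K N)
    (h' : Even (ord w (β : N))) : ∃ (t : Nˣ) (a : 𝓞 K),
      val w (((β / t ^ 2 : Nˣ) : N) - (1 + 2 * algebraMap K N a)) ≤ val w 4 := by
  have h0 : val w (2 : N) < 1 := by
    rw [val_eq_exp w two_ne_zero, h2, ← exp_zero, exp_lt_exp]; decide
  have h1 := val_pos w (two_ne_zero' N)
  have := Fintype.ofFinite (RF w)
  obtain ⟨t, ht⟩ := exists_div_sq h'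
  obtain ⟨z, hz⟩ := FiniteField.isSquare_of_char_two (F := RF w) (CharP.ringChar_of_prime_eq_zero
    Nat.prime_two (by rw [← res_natCast, res_eq_zero (val_natCast_le w 2)]; simpa using h0))
    (res w (β / t ^ 2 : Nˣ))
  obtain ⟨s, hs, rfl⟩ := exists_unit_res (z := z) (by rintro rfl; exact res_ne_zero ht (by simpa using hz))
  have h3 : β / (t * s) ^ 2 ∈ U1 w := by
    rw [mul_pow, ← div_div, div_mem_U1_iff_res ht (pow_mem hs 2), hz, ← res_mul hs.le hs.le, pow_two]
    rfl
  set γ := β / (t * s) ^ 2 with hγ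
  obtain ⟨a, ha⟩ := exists_base_of_fixed (K := K) (G := N ≃ₐ[K] N) (w := w) (x := ((γ : N) - 1) / 2)
    (by rw [map_div₀]; exact div_le_one_of_le₀ (le_val_two h2 h3) zero_le) fun g hg => by
      obtain ⟨c, hc⟩ := h g
      let y := c * (t * s) / actU _ N g (t * s)
      have h4 : y ^ 2 = actU _ N g γ / γ := by
        simp only [y, hγ, map_div, map_pow, hc]
        apply Additive.ofMul.injective
        simp only [ofMul_mul, ofMul_div, ofMul_pow]
        abel
      have h5 : y ^ 2 ∈ U1 w := h4 ▸ div_mem (stab_mem_U1 ⟨g, hg⟩ h3) h3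
      have h6 : ((y ^ 2 : Nˣ) : N) - 1 = (y - 1) * (y - 1 + 2) := by push_cast; ring
      have h7 : val w ((y : N) - 1) < 1 := by
        by_contra! h7
        refine (mem_U1.1 h5).not_ge ?_
        rw [h6, map_mul, Valuation.map_add_eq_of_lt_left _ (h0.trans_le h7)]
        exact one_le_mul h7 h7
      have h8 := mul_le_mul' (le_val_two h2 h7) (Valuation.map_add_le _ (le_val_two h2 h7) le_rfl)
      rw [← map_mul, ← h6, h4, Units.val_div_eq_div_val, div_sub_one γ.ne_zero, map_div₀,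
        U1_le_UU w h3, div_one] at h8
      rw [smul_div₀', smul_sub, smul_one, show g • (2 : N) = 2 from map_ofNat g 2, ← sub_div,
        sub_sub_sub_cancel_right, map_div₀, div_lt_iff₀ h1]
      exact h8.trans_lt (mul_lt_mul_of_pos_right h0 h1)
  refine ⟨t * s, a, ?_⟩
  rw [show (γ : N) - (1 + 2 * algebraMap K N a) = -(2 * (algebraMap K N a - (γ - 1) / 2)) by ring,
    Valuation.map_neg, map_mul, val_four, pow_two]
  exact mul_le_mul_right (le_val_two h2 ha) _

end inv

variable {k : Type u} [Field k] [NumberField k] {L : IntermediateField k (AlgebraicClosure k)}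
  [FiniteDimensional k L] [IsGalois k L] {p : Pl k}

lemma index_Ev (hk : Module.finrank ℚ k = 2) (h4 : In2 k) (h2 : val p (2 : k) = 1)
    (hL : IsTwoExt k {p.asIdeal} L) (hmax : ∀ L', IsTwoExt k {p.asIdeal} L' → L' ≤ L)
    {T : Finset (Pl k)} (hT : ∀ v ∈ T, val v (2 : k) = 1) [DecidableEq (Pl k)] :
    (pw Lˣ).range.relIndex (Inv k L ⊓ Ev (insert p T)) ≠ 0 ∧
      (pw Lˣ).range.relIndex (Inv k L ⊓ Ev (insert p T)) ≤ 2 ^ T.card * 4 := by
  obtain ⟨v, hv⟩ := exists_pl k Nat.prime_two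
  obtain ⟨h1, h3, h5⟩ := inert hk Nat.prime_two hv (h4 v hv)
  rw [Nat.cast_ofNat] at hv h3 h5
  choose W hW using exists_und (K := k) L
  have h6 : v ∉ insert p T := by
    rw [Finset.mem_insert, not_or]
    exact ⟨by rintro rfl; exact hv.ne h2, fun h => hv.ne (hT v h)⟩
  have h7 : ord (W v) (2 : L) = 1 := by
    rw [← map_ofNat (algebraMap k L) 2, ord_map, hW, ← card_In (L ≃ₐ[k] L), (isTwoExt_iff.1 hL).2 _ (by
      rw [hW]; exact fun h => h6 (IsDedekindDomain.HeightOneSpectrum.ext h ▸ Finset.mem_insert_self _ _)),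
      card_bot]
    simpa using h3
  have h8 : ∀ β : Lˣ, ∃ (t : Lˣ) (a : 𝓞 k), β ∈ Inv k L ⊓ Ev (insert p T) →
      val (W v) (((β / t ^ 2 : Lˣ) : L) - (1 + 2 * algebraMap k L a)) ≤ val (W v) 4 := fun β => by
    by_cases h : β ∈ Inv k L ⊓ Ev (insert p T)
    · obtain ⟨t, a, h8⟩ := two_adic h7 h.1 (h.2 _ (by rwa [hW]))
      exact ⟨t, a, fun _ => h8⟩
    · exact ⟨1, 0, fun h' => absurd h' h⟩
  choose t a ha using h8
  have h9 : val (W v) (2 : L) < 1 := (val_two_map _).2 (by rwa [hW])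
  have h10 := relIndex_ne_zero_of_fun (A := (pw Lˣ).range) (B := Inv k L ⊓ Ev (insert p T))
    (fun β => (fun u : T => (ord (W u) (β : L) : ZMod 2), mkR v (a β))) fun x hx y hy h => by
      obtain ⟨h10, h11⟩ := Prod.ext_iff.1 h
      have h12 := div_mem hx hy
      obtain ⟨L', h13, h14, r, hr⟩ := hL.adjoin_sqrt (β := (x / y : Lˣ))
        (fun g => let ⟨c, hc⟩ := h12.1 g; ⟨c, congrArg Units.val hc⟩) fun w hw => by
          by_cases h13 : val w (2 : L) < 1
          · obtain ⟨g, rfl⟩ := exists_smul_eq (L ≃ₐ[k] L)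
              ((hW v).trans (h5 _ ((val_two_map w).1 h13)).symm)
            obtain ⟨c, hc⟩ := h12.1 g
            have h14 : val (W v) ((y / t y ^ 2 : Lˣ) : L) = 1 := by
              refine val_eq_one_of_sub ?_
              rw [← sub_add_sub_cancel _ (1 + 2 * algebraMap k L (a y)), add_sub_cancel_left]
              refine Valuation.map_add_lt _ ((ha y hy).trans_lt ?_) ?_
              · rwa [val_four, pow_lt_one_iff two_ne_zero]
              · rw [map_mul]
                exact mul_lt_one_of_lt_of_le h9 ((val_map_le_one _).2 (val_int_le _ _))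
            have h15 : val (W v) ((x / t x ^ 2 / (y / t y ^ 2) : Lˣ) - 1 : L) ≤ val (W v) 4 := by
              rw [Units.val_div_eq_div_val, div_sub_one (Units.ne_zero _), map_div₀, h14, div_one,
                ← sub_add_sub_cancel _ (1 + 2 * algebraMap k L (a x)),
                ← sub_add_sub_cancel (1 + _) (1 + 2 * algebraMap k L (a y))]
              refine Valuation.map_add_le _ (ha x hx) (Valuation.map_add_le _ ?_
                ((Valuation.map_sub_swap _ _ _).trans_le (ha y hy)))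
              rw [add_sub_add_left_eq_sub, ← mul_sub, ← map_sub, map_mul, val_four, pow_two]
              exact mul_le_mul_right (le_val_two h7 ((val_map_lt_one _).2 (by
                rw [hW]; exact mkR_eq.1 h11))) _
            have h16 : x / y / (actU _ L g (t x / t y) / c) ^ 2 =
                actU _ L g (x / t x ^ 2 / (y / t y ^ 2)) := by
              rw [div_div_div_comm, ← div_pow, map_div _ (x / y), hc, map_pow, div_pow]
              apply Additive.ofMul.injective
              simp only [ofMul_mul, ofMul_div, ofMul_pow]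
              abel
            refine ⟨(actU _ L g (t x / t y) / c : Lˣ), ?_⟩
            rw [← Units.val_pow_eq_pow_val, ← Units.val_div_eq_div_val, h16, actU_val, val_smul,
              ← show g • (1 : L) = 1 from smul_one g, ← smul_sub, val_smul,
              ← show g • (4 : L) = 4 from map_ofNat g 4, val_smul]
            exact ⟨val_eq_one_of_sub (h15.trans_lt (by rwa [val_four, pow_lt_one_iff two_ne_zero])), h15⟩
          · obtain ⟨c, hc⟩ := exists_div_sq (v := w) (x := x / y) (by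
              by_cases h14 : und k w ∈ T
              · refine even_div ?_
                rw [Inv.ord_eq hx.1 (hW _).symm, Inv.ord_eq hy.1 (hW _).symm]
                exact congrFun h10 ⟨_, h14⟩
              · exact h12.2 w fun h => (Finset.mem_insert.1 h).elim (fun h => hw (by rw [h]; rfl)) h14)
            refine ⟨c, ?_⟩
            rw [← Units.val_pow_eq_pow_val, ← Units.val_div_eq_div_val, val_four, val_two_eq_one h13,
              one_pow]
            exact ⟨hc, Valuation.map_sub_le _ hc.le (by simp)⟩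
      exact exists_sq_eq ⟨⟨r, hmax L' h14 r.2⟩,
        Subtype.ext ((congrArg Subtype.val hr).symm.trans (pow_two _))⟩
  rwa [Nat.card_prod, Nat.card_fun, Nat.card_zmod, card_RF, h1, Nat.card_eq_fintype_card,
    Fintype.card_coe] at h10

lemma index_ES_le (T : Finset (Pl k)) : 2 ^ (T.card + Fintype.card (InfinitePlace k)) ≤
    Nat.card ((L ≃ₐ[k] L) →* ℤˣ) * (pw Lˣ).range.relIndex ((ES T).map (mp k L) ⊔ (pw Lˣ).range) := by
  have : Finite ((L ≃ₐ[k] L) →* ℤˣ) := .of_injective _ DFunLike.coe_injective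
  have h1 : ∀ x : kˣ, ∃ s : Lˣ, x ∈ (pw Lˣ).range.comap (mp k L) → s ^ 2 = mp k L x := fun x => by
    by_cases h : x ∈ (pw Lˣ).range.comap (mp k L)
    · obtain ⟨s, hs⟩ := h
      exact ⟨s, fun _ => hs⟩
    · exact ⟨1, fun h' => absurd h' h⟩
  choose s hs using h1
  have h2 : ∀ x ∈ (pw Lˣ).range.comap (mp k L), ∀ g : L ≃ₐ[k] L, g • (s x : L) ^ 2 = (s x : L) ^ 2 :=
    fun x hx g => by
      rw [← Units.val_pow_eq_pow_val, hs x hx]; exact g.commutes _
  classical
  have h3 := relIndex_ne_zero_of_fun (A := (ES T).map (pw kˣ))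
    (B := (pw Lˣ).range.comap (mp k L) ⊓ ES T)
    (fun x => if h : x ∈ (pw Lˣ).range.comap (mp k L) then sgn (s x).ne_zero (h2 x h) else 1)
    fun x hx y hy h => by
      rw [dif_pos (mem_inf.1 hx).1, dif_pos (mem_inf.1 hy).1] at h
      obtain ⟨z, hz⟩ := (fixBy_of_surj (K := k) (π := MonoidHom.id _) Function.surjective_id
        (s x / s y : L)).2 fun g => by
          rw [smul_div₀', smul_eq_sgn (s x).ne_zero (h2 x hx.1), smul_eq_sgn (s y).ne_zero (h2 y hy.1), h,
            mul_div_mul_left _ _ (by simp)]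
      refine mem_map_pw (div_mem hx.2 hy.2) ⟨z, (algebraMap k L).injective ?_⟩
      rw [map_mul, hz, ← pow_two, div_pow, ← Units.val_pow_eq_pow_val, ← Units.val_pow_eq_pow_val,
        hs x hx.1, hs y hy.1, ← Units.val_div_eq_div_val, ← map_div]
      rfl
  rw [relIndex_sup_right, ← relIndex_comap, ← index_ES, ← inf_relIndex_right ((pw Lˣ).range.comap _),
    ← relIndex_mul_relIndex _ ((pw Lˣ).range.comap (mp k L) ⊓ ES T) (ES T) (by
      rintro _ ⟨x, hx, rfl⟩
      exact ⟨⟨mp k L x, (map_pow _ x 2).symm⟩, pow_mem hx 2⟩) inf_le_right]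
  exact Nat.mul_le_mul_right _ h3.2

theorem count (Q₀ : QD ℚ k) {D : ℕ} (hD : (Q₀.a : ℚ) = -D) (h4 : In2 k) (h2 : val p (2 : k) = 1)
    (hL : IsTwoExt k {p.asIdeal} L) (hmax : ∀ L', IsTwoExt k {p.asIdeal} L' → L' ≤ L)
    {Γ : Type*} [Group Γ] [Finite Γ] (hΓ : IsPGroup 2 Γ) {π : Γ →* (L ≃ₐ[k] L)}
    (hπ : Function.Surjective π) (hχ : ∀ χ : Γ →* ℤˣ, π.ker ≤ χ.ker) :
    Nat.card {ψ : π.ker →* ℤˣ // ∀ g (r : π.ker),
      ψ ⟨g * r * g⁻¹, (MonoidHom.normal_ker π).conj_mem r r.2 g⟩ = ψ r} ≤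
      Nat.card ((L ≃ₐ[k] L) →* ℤˣ) := by
  classical
  have : IsTotallyComplex k := isTotallyComplex_of_sq (s := Q₀.r) (n := D)
    (by rintro rfl; simp at hD) (by rw [Q₀.sq, hD]; simp)
  obtain ⟨T, hT, hT'⟩ := exists_gens (insert p (finite_val (two_ne_zero' k)).toFinset)
  have h1 : p ∉ T := Finset.disjoint_right.1 hT (Finset.mem_insert_self _ _)
  obtain ⟨h3, h5⟩ := index_Ev Q₀.finrank h4 h2 hL hmax (T := T) fun v hv => by
    simpa using fun h => Finset.disjoint_left.1 hT hv (Finset.mem_insert_of_mem h)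
  have h6 := index_ES_le (L := L) (insert p T)
  have h7 : Fintype.card (InfinitePlace k) = 1 := by
    have h7 := IsTotallyComplex.finrank k
    rw [InfinitePlace.card_eq_nrRealPlaces_add_nrComplexPlaces, IsTotallyComplex.nrRealPlaces_eq_zero]
    rw [Q₀.finrank] at h7
    omega
  set A := Inv k L ⊓ Ev (insert p T)
  set B := (ES (insert p T)).map (mp k L) ⊔ (pw Lˣ).range
  have h8 : B ≤ A := sup_le (by
    rintro _ ⟨x, hx, rfl⟩
    exact ⟨fun g => ⟨1, by rw [act_mp, one_pow, one_mul]⟩, fun w hw => by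
      rw [mem_UU'.1 (mp_mem_UU.2 (mem_ES.1 hx _ hw))]; exact Even.zero⟩) (by
    rintro _ ⟨x, rfl⟩
    exact ⟨fun g => ⟨actU _ L g x / x, by simp [div_pow]⟩, fun w _ => even_of_mem_SQ (sq_mem_SQ w x)⟩)
  rw [← relIndex_mul_relIndex _ B A le_sup_right h8] at h3 h5
  rw [Finset.card_insert_of_notMem h1, h7] at h6
  have h9 : B.relIndex A ≤ Nat.card ((L ≃ₐ[k] L) →* ℤˣ) := by
    refine Nat.le_of_mul_le_mul_left ?_ (Nat.pos_of_ne_zero (left_ne_zero_of_mul h3))
    rw [mul_comm _ (Nat.card _)]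
    exact h5.trans (le_of_eq_of_le (by ring) h6)
  refine le_trans ?_ h9
  have : Finite (A ⧸ B.subgroupOf A) := index_ne_zero_iff_finite.1 (right_ne_zero_of_mul h3)
  let _ : MulSemiringAction Γ L := MulSemiringAction.compHom L π
  choose W hW using exists_und (K := k) L
  have h10 : ∀ ψ : {ψ : π.ker →* ℤˣ // ∀ g (r : π.ker),
      ψ ⟨g * r * g⁻¹, (MonoidHom.normal_ker π).conj_mem r r.2 g⟩ = ψ r}, ∃ (Y : Γ → Lˣ) (β : A),
      Coc (actU Γ L) ⊤ Y ∧ (∀ r : π.ker, (Y r : L) = (ψ.1 r : ℤ)) ∧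
        ∀ g, actU Γ L g β = Y g ^ 2 * β := fun ψ => by
    obtain ⟨Y, hY, hY'⟩ := abhn Q₀ hD h4 h2 hL hΓ hπ ψ.2
    obtain ⟨β, hβ⟩ := h90' hΓ (two_ne_zero' L) (H := ⊤) (f := fun g => Y g ^ 2)
      (fun g _ g' _ => by simp only [hY g trivial g' trivial, mul_pow, map_pow]; rfl)
      fun g _ hg => Units.ext (by
        rw [Units.val_pow_eq_pow_val, hY' ⟨g, AlgEquiv.ext hg⟩, ← Int.cast_pow,
          ← Units.val_pow_eq_pow_val, Int.units_sq, Units.val_one, Units.val_one, Int.cast_one])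
    have h10 : β ∈ Inv k L := hπ.forall.2 fun g => ⟨Y g, hβ g trivial⟩
    choose c hc hc' using fun v : Pl k => exists_ord_eq v (ord (W v) (β : L))
    obtain ⟨x, hx⟩ := hT' (fun v => Units.mk0 (c v) (hc v)) (((finite_ord (β : L)).image (und k)).subset
      fun v hv => ⟨W v, fun h => hv (mem_UU'.2 ((hc' v).trans h)), hW v⟩)
    have h11 : ∀ g, actU Γ L g (β / mp k L x) = Y g ^ 2 * (β / mp k L x) := fun g => by
      rw [map_div, hβ g trivial, mul_div_assoc]
      exact congrArg (fun z => Y g ^ 2 * (β / z)) (act_mp (π g) x)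
    refine ⟨Y, ⟨β / mp k L x, hπ.forall.2 fun g => ⟨Y g, h11 g⟩, fun w hw => even_div ?_⟩, hY, hY', h11⟩
    rw [Finset.mem_insert, not_or] at hw
    rw [Inv.ord_eq h10 (hW _).symm, ← hc', show ((mp k L x : Lˣ) : L) = algebraMap k L x from rfl,
      ord_map, ← card_In (L ≃ₐ[k] L), (isTwoExt_iff.1 hL).2 _
        fun h => hw.1 (IsDedekindDomain.HeightOneSpectrum.ext h), card_bot, Nat.cast_one, one_mul,
      ← div_mem_UU.1 (hx _ hw.2)]
    rfl
  choose Y β hY hY' hβ using h10
  refine Nat.card_le_card_of_injective (fun ψ => (β ψ : A ⧸ B.subgroupOf A)) fun ψ φ h => ?_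
  obtain ⟨_, ⟨e, -, rfl⟩, _, ⟨t, rfl⟩, h11⟩ := mem_sup.1 (mem_subgroupOf.1 (QuotientGroup.eq.1 h))
  obtain ⟨χ, h12⟩ := exists_char_of_sq (fun g => Units.ext (by simp [actU_val]))
    (((hY φ).div (hY ψ)).div (coc_bdry t)) fun g => by
      have h12 := congrArg (actU Γ L g) h11
      rw [Subgroup.coe_mul, Subgroup.coe_inv, map_mul, map_mul, map_inv, hβ, hβ,
        show actU Γ L g (mp k L e) = mp k L e from act_mp (π g) e, powMonoidHom_apply, map_pow] at h12
      rw [Subgroup.coe_mul, Subgroup.coe_inv, powMonoidHom_apply] at h11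
      have h13 := congrArg₂ (· / ·) h12 h11
      rw [mul_div_mul_left_eq_div] at h13
      rw [div_pow, div_eq_one, div_pow, div_pow]
      refine Eq.trans ?_ h13.symm
      apply Additive.ofMul.injective
      simp only [ofMul_mul, ofMul_div, ofMul_pow, ofMul_inv]
      abel
  refine Subtype.ext (MonoidHom.ext fun r => Units.ext (Int.cast_injective (α := L) ?_))
  have h13 := h12 r (hχ χ r.2)
  rw [show actU Γ L r t = t from Units.ext (DFunLike.congr_fun (MonoidHom.mem_ker.1 r.2) _),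
    div_self', div_one, div_eq_one] at h13
  rw [← hY', ← hY', h13]

end Pool.Agent.Lib.MP_580eba_nt
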