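import Mathlib

/-!
Maximal 2-extensions with restricted ramification.
-/

namespace Pool.Agent.Lib.MP_580eba_nt

open NumberField

/-- `L` is a finite Galois extension of `k` of 2-power degree in which every nonzero prime ideal of
the ring of integers of `k` outside `S` is unramified. Nothing is required at infinite places. -/
def IsTwoExt (k : Type*) [Field k] (S : Set (Ideal (𝓞 k)))
    (L : IntermediateField k (AlgebraicClosure k)) : Prop :=
  FiniteDimensional k L ∧ IsGalois k L ∧ (∃ n : ℕ, Module.finrank k L = 2 ^ n) ∧
    ∀ q : Ideal (𝓞 k), q.IsPrime → q ≠ ⊥ → q ∉ S → Algebra.IsUnramifiedIn (𝓞 L) q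

/-- The maximal 2-extension of `k` unramified at all finite primes outside `S`: the compositum of
all finite Galois 2-extensions of `k` unramified at all finite primes outside `S`. -/
noncomputable def maxTwoExt (k : Type*) [Field k] (S : Set (Ideal (𝓞 k))) :
    IntermediateField k (AlgebraicClosure k) :=
  sSup {L | IsTwoExt k S L}

end Pool.Agent.Lib.MP_580eba_nt
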