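import Pool.Agent.Lib.MP_580eba_nt.PartI

/-!
An example of five primes with the pentagon pattern.
-/

namespace Pool.Agent.Lib.MP_580eba_nt

/-- The primes 3, 71, 11, 7, 19. -/
def exq : ZMod 5 → ℕ := ![3, 71, 11, 7, 19]

lemma isSquare_iff {p : ℕ} [NeZero p] {a : ℕ} :
    IsSquare (a : ZMod p) ↔ ∃ x < p, (x * x) % p = a % p := by
  constructor
  · rintro ⟨r, hr⟩
    refine ⟨r.val, r.val_lt, ?_⟩
    rw [← ZMod.val_mul, ← hr, ZMod.val_natCast]
  · rintro ⟨x, -, h⟩
    exact ⟨x, by rw [← Nat.cast_mul]; exact (ZMod.natCast_eq_natCast_iff' _ _ _).2 h.symm⟩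

lemma pat_exq : Pat exq where
  prime i := by
    rcases zmod_five_cases 0 i with rfl | rfl | rfl | rfl | rfl
    exacts [(by norm_num : Nat.Prime 3), (by norm_num : Nat.Prime 71), (by norm_num : Nat.Prime 11),
      (by norm_num : Nat.Prime 7), (by norm_num : Nat.Prime 19)]
  mod := by decide
  inj := by decide
  sq i j h := by
    have : NeZero (exq i) := ⟨by clear h; revert i; decide⟩
    rw [isSquare_iff]
    clear this
    revert i j
    decide +kernel

end Pool.Agent.Lib.MP_580eba_nt
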