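import Pool.Agent.Lib.MP_580eba_nt.Gal
import Pool.Agent.Lib.MP_580eba_nt.Defs

-- part Pool.Agent.Lib.MP_580eba_nt.Core
section

/-!
The Herbrand quotient of a finite model of the idele class group of a cyclic extension.
-/

namespace Pool.Agent.Lib.MP_580eba_nt

open NumberField Subgroup

section W

variable {L : Type*} [Field L] [NumberField L]

open Classical in
/-- Principal units at the primes in `R`, units elsewhere. -/
noncomputable def WW (R : Set (Pl L)) (w : Pl L) : Subgroup Lˣ := if w ∈ R then U1 w else UU w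

/-- The product of the groups `WW R w`. -/
noncomputable def WWW (R : Set (Pl L)) : Subgroup (Pl L → Lˣ) := Subgroup.pi Set.univ (WW R)

lemma mem_WWW {R : Set (Pl L)} {j : Pl L → Lˣ} : j ∈ WWW R ↔ ∀ w, j w ∈ WW R w :=
  ⟨fun h w => h w trivial, fun h w _ => h w⟩

lemma mem_UUU {j : Pl L → Lˣ} : j ∈ UUU L ↔ ∀ w, j w ∈ UU w :=
  ⟨fun h w => h w trivial, fun h w _ => h w⟩

lemma WW_of_mem {R : Set (Pl L)} {w : Pl L} (h : w ∈ R) : WW R w = U1 w := if_pos h

lemma WW_of_notMem {R : Set (Pl L)} {w : Pl L} (h : w ∉ R) : WW R w = UU w := if_neg h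

lemma WW_le (R : Set (Pl L)) (w : Pl L) : WW R w ≤ UU w := by
  by_cases h : w ∈ R
  · rw [WW_of_mem h]; exact U1_le_UU w
  · rw [WW_of_notMem h]

lemma U1_le_WW (R : Set (Pl L)) (w : Pl L) : U1 w ≤ WW R w := by
  by_cases h : w ∈ R
  · rw [WW_of_mem h]
  · rw [WW_of_notMem h]; exact U1_le_UU w

lemma UUU_le_JJ : UUU L ≤ JJ L := fun _ hj =>
  Set.Finite.subset Set.finite_empty fun w hw => hw (mem_UUU.1 hj w)

lemma WWW_le_UUU (R : Set (Pl L)) : WWW R ≤ UUU L := fun _ hj =>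
  mem_UUU.2 fun w => WW_le R w (mem_WWW.1 hj w)

lemma relIndex_WWW {R : Set (Pl L)} (hR : R.Finite) : (WWW R).relIndex (UUU L) ≠ 0 := by
  have := hR.to_subtype
  have h1 : (⨅ w : R, (U1 (w : Pl L)).comap (Pi.evalMonoidHom (fun _ => Lˣ) (w : Pl L))).relIndex
      (UUU L) ≠ 0 := by
    refine relIndex_iInf_ne_zero fun w => ?_
    rw [relIndex_comap]
    refine fun h => relIndex_Ug (w : Pl L) 1 one_ne_zero le_rfl (relIndex_eq_zero_of_le_right ?_ h)
    rintro _ ⟨j, hj, rfl⟩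
    exact mem_UUU.1 hj w
  refine fun h => h1 ?_
  rw [← inf_relIndex_right]
  refine relIndex_eq_zero_of_le_left (fun j hj => mem_WWW.2 fun w => ?_) h
  by_cases hw : w ∈ R
  · rw [WW_of_mem hw]; exact mem_iInf.1 hj.1 ⟨w, hw⟩
  · rw [WW_of_notMem hw]; exact mem_UUU.1 hj.2 w

lemma relIndex_ray {R : Set (Pl L)} (hR : R.Finite) :
    ((cst (Pl L) Lˣ).range ⊔ WWW R).relIndex (JJ L) ≠ 0 := by
  refine relIndex_ne_zero_trans ?_ (relIndex_class L)
  rw [sup_comm _ (UUU L), relIndex_sup_of_le le_sup_left]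
  exact fun h => relIndex_WWW hR (relIndex_eq_zero_of_le_left le_sup_right h)

variable {G : Type*} [Group G] [MulSemiringAction G L]

lemma act_mem_WW {R : Set (Pl L)} (hR : ∀ (g : G) (w : Pl L), w ∈ R → g • w ∈ R) {g : G} {w : Pl L}
    {x : Lˣ} (hx : x ∈ WW R w) : actU G L g x ∈ WW R (g • w) := by
  by_cases h : w ∈ R
  · rw [WW_of_mem h] at hx
    rw [WW_of_mem (hR g w h)]
    exact act_mem_U1.2 hx
  · rw [WW_of_notMem h] at hx
    rw [WW_of_notMem fun h' => h (by simpa using hR g⁻¹ _ h')]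
    exact act_mem_UU.2 hx

lemma gst_WWW {R : Set (Pl L)} (hR : ∀ (g : G) (w : Pl L), w ∈ R → g • w ∈ R) :
    GSt (tw (Pl L) (actU G L)) (WWW R) := fun g j hj => mem_WWW.2 fun w => by
  have := act_mem_WW hR (g := g) (mem_WWW.1 hj (g⁻¹ • w))
  rwa [smul_inv_smul] at this

lemma gst_JJ : GSt (tw (Pl L) (actU G L)) (JJ L) := fun g j hj =>
  (hj.image (g • ·)).subset fun w hw => ⟨g⁻¹ • w, fun h => hw (by
    have := (act_mem_UU (g := g)).2 h
    rwa [smul_inv_smul] at this), smul_inv_smul g w⟩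

end W

lemma tw_cst {G M X : Type*} [Group G] [CommGroup M] [MulAction G X] (a : G →* Monoid.End M)
    (g : G) (m : M) : tw X a g (cst X M m) = cst X M (a g m) := rfl

lemma phi_comm {G M M' : Type*} [Group G] [CommGroup M] [CommGroup M'] {a : G →* Monoid.End M}
    {a' : G →* Monoid.End M'} {f : M →* M'} (h : ∀ g x, f (a g x) = a' g (f x)) (σ : G) (x : M) :
    f (phi a σ x) = phi a' σ (f x) := by
  rw [phi_apply, phi_apply, map_div, h]

lemma nrm_comm {G M M' : Type*} [Group G] [Fintype G] [CommGroup M] [CommGroup M']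
    {a : G →* Monoid.End M} {a' : G →* Monoid.End M'} {f : M →* M'}
    (h : ∀ g x, f (a g x) = a' g (f x)) (x : M) : f (nrm a x) = nrm a' (f x) := by
  simp only [nrm_apply, map_prod, h]

lemma GSt.map {G M M' : Type*} [Group G] [CommGroup M] [CommGroup M']
    {a : G →* Monoid.End M} {a' : G →* Monoid.End M'} {f : M →* M'}
    (h : ∀ g x, f (a g x) = a' g (f x)) {A : Subgroup M} (hA : GSt a A) : GSt a' (A.map f) := by
  rintro g _ ⟨x, hx, rfl⟩
  exact ⟨a g x, hA g x hx, h g x⟩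

lemma GSt.comap {G M M' : Type*} [Group G] [CommGroup M] [CommGroup M']
    {a : G →* Monoid.End M} {a' : G →* Monoid.End M'} {f : M →* M'}
    (h : ∀ g x, f (a g x) = a' g (f x)) {A : Subgroup M'} (hA : GSt a' A) : GSt a (A.comap f) :=
  fun g x hx => mem_comap.2 (h g x ▸ hA g _ hx)

variable {K L : Type*} [Field K] [Field L] [NumberField K] [NumberField L] [Algebra K L]

lemma HQ_units [IsTotallyComplex K] {σ : L ≃ₐ[K] L} (hσ : ∀ g, g ∈ zpowers σ) {R : Set (Pl L)}
    (hR : R.Finite) (hR' : ∀ (g : L ≃ₐ[K] L) (w : Pl L), w ∈ R → g • w ∈ R) :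
    HQ (phi (actU (L ≃ₐ[K] L) L) σ) (nrm (actU (L ≃ₐ[K] L) L)) ⊥ ((WWW R).comap (cst (Pl L) Lˣ))
      (1 / Fintype.card (L ≃ₐ[K] L)) := by
  set a := actU (L ≃ₐ[K] L) L
  let f : (𝓞 L)ˣ →* Lˣ := Units.map (algebraMap (𝓞 L) L : 𝓞 L →* L)
  have hf : ∀ g x, f (actU (L ≃ₐ[K] L) (𝓞 L) g x) = a g (f x) := fun g x => rfl
  have h1 : (⊥ : Subgroup Lˣ).comap f ⊓ ⊤ = ⊥ := by
    rw [inf_top_eq, MonoidHom.comap_bot, MonoidHom.ker_eq_bot_iff]
    exact Units.map_injective (IsFractionRing.injective (𝓞 L) L)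
  have h2 : (⊤ : Subgroup _).map f ⊔ ⊥ = (UUU L).comap (cst (Pl L) Lˣ) := by
    rw [sup_bot_eq]
    ext x
    constructor
    · rintro ⟨u, -, rfl⟩
      exact mem_UUU.2 fun w => val_unit w u
    · intro hx
      obtain ⟨u, hu⟩ := exists_unit_of_val (mem_UUU.1 hx)
      exact ⟨u, mem_top _, Units.ext hu⟩
  have H := HQ_units_int hσ
  rw [← h1, HQ.transfer f (phi_comm hf σ) (nrm_comm hf) (stab_bot _ _) (stab_top _ _), h2] at H
  have g1 : GSt a ((WWW R).comap (cst (Pl L) Lˣ)) :=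
    GSt.comap (fun g x => (tw_cst a g x).symm) (gst_WWW hR')
  have g2 : GSt a ((UUU L).comap (cst (Pl L) Lˣ)) := by
    rw [← h2]
    exact ((gst_top _).map hf).sup (gst_bot _)
  have h3 := comap_mono (f := cst (Pl L) Lˣ) (WWW_le_UUU R)
  simpa using HQ.left (phi_nrm a σ) (nrm_phi a σ) bot_le h3 (stab_bot _ _) (g1.stab σ) (g2.stab σ)
    (HQ.of_finite (phi_nrm a σ) (nrm_phi a σ) h3 (g1.stab σ) (g2.stab σ)
      (relIndex_comap_ne_zero _ (relIndex_WWW hR))) H

lemma h90_cyclic {G L : Type*} [Group G] [Fintype G] [Field L] [MulSemiringAction G L]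
    (hG : ∀ g : G, (∀ x : L, g • x = x) → g = 1) {σ : G} (hσ : ∀ g, g ∈ zpowers σ) {y : Lˣ}
    (hy : nrm (actU G L) y = 1) : ∃ x, phi (actU G L) σ x = y := by
  obtain ⟨-, t2⟩ := tw_free (X := G) (fun g x h => by simpa using h) (actU G L) hσ
  obtain ⟨t, ht⟩ := t2 (cst G Lˣ y) (by
    rw [← nrm_comm (fun g x => (tw_cst (actU G L) g x).symm), hy, map_one])
  have h1 : ∀ g, ∃ x, cst G Lˣ x = tw G (actU G L) g t / t := fun g =>
    GSt.act_div_mem (A := (cst G Lˣ).range) (by rintro g _ ⟨x, rfl⟩; exact ⟨actU G L g x, rfl⟩) hσ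
      ⟨y, ht.symm⟩ g
  choose f hf using h1
  have h2 : ∀ g h, f (g * h) = f g * actU G L g (f h) := by
    intro g h
    have h3 : cst G Lˣ (f (g * h)) = cst G Lˣ (f g * actU G L g (f h)) := by
      rw [map_mul, ← tw_cst, hf, hf, hf, map_div, act_mul, mul_comm, div_mul_div_cancel]
    exact congrFun h3 1
  obtain ⟨x, hx, h⟩ := h90 (⊤ : Subgroup G) (fun g _ => hG g) (fun g => (f g : L))
    (fun g _ => (f g).ne_zero) fun g _ h _ => congrArg Units.val (h2 g h)
  have h4 : f σ = y := congrFun ((hf σ).trans ht) 1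
  refine ⟨(Units.mk0 x hx)⁻¹, ?_⟩
  rw [map_inv, inv_eq_iff_mul_eq_one, phi_apply, div_mul_eq_mul_div, div_eq_one, mul_comm, ← h4]
  exact Units.ext (h σ (mem_top _))

theorem core_aux {G : Type*} [Group G] [Fintype G] [MulSemiringAction G L]
    (hG : ∀ g : G, (∀ x : L, g • x = x) → g = 1) {σ : G} (hσ : ∀ g, g ∈ zpowers σ) {R : Set (Pl L)}
    (hR : R.Finite) (hR' : ∀ (g : G) (w : Pl L), w ∈ R → g • w ∈ R)
    (H1 : HQ (phi (actU G L) σ) (nrm (actU G L)) ⊥ ((WWW R).comap (cst (Pl L) Lˣ))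
      (1 / Fintype.card G)) :
    ∃ c : ℕ, c ≠ 0 ∧ Fintype.card G * c ∣
      ((JJ L).map (nrm (tw (Pl L) (actU G L))) ⊔ WWW R ⊔
        (phi (actU G L) σ).ker.map (cst (Pl L) Lˣ)).relIndex
        ((WWW R).comap (phi (tw (Pl L) (actU G L)) σ) ⊓ JJ L) ∧
      (c = 1 → ∀ b : Lˣ, phi (actU G L) σ b = 1 →
        cst (Pl L) Lˣ b ∈ (JJ L).map (nrm (tw (Pl L) (actU G L))) ⊔ WWW R →
        ∃ y, nrm (actU G L) y = b) := by
  set a := actU G L
  let X := Pl L ⊕ G
  let f1 : (Pl L → Lˣ) →* (X → Lˣ) :=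
    { toFun := fun j => Sum.elim j 1
      map_one' := by ext x; cases x <;> rfl
      map_mul' := fun j k => by funext x; cases x <;> simp }
  let f2 : (G → Lˣ) →* (X → Lˣ) :=
    { toFun := fun j => Sum.elim 1 j
      map_one' := by ext x; cases x <;> rfl
      map_mul' := fun j k => by funext x; cases x <;> simp }
  let r1 : (X → Lˣ) →* (Pl L → Lˣ) :=
    { toFun := fun j w => j (Sum.inl w)
      map_one' := rfl
      map_mul' := fun j k => rfl }
  let r2 : (X → Lˣ) →* (G → Lˣ) :=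
    { toFun := fun j w => j (Sum.inr w)
      map_one' := rfl
      map_mul' := fun j k => rfl }
  have e1 : ∀ g j, f1 (tw _ a g j) = tw X a g (f1 j) := fun g j => by
    funext x; cases x
    · rfl
    · exact (map_one (a g)).symm
  have e2 : ∀ g j, f2 (tw _ a g j) = tw X a g (f2 j) := fun g j => by
    funext x; cases x
    · exact (map_one (a g)).symm
    · rfl
  have e3 : ∀ g j, r1 (tw X a g j) = tw _ a g (r1 j) := fun g j => rfl
  have e4 : ∀ g j, r2 (tw X a g j) = tw _ a g (r2 j) := fun g j => rfl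
  have e5 : ∀ j, f1 (r1 j) * f2 (r2 j) = j := fun j => by
    funext x; cases x
    · exact mul_one _
    · exact one_mul _
  have c1 : ∀ g x, cst (Pl L) Lˣ (a g x) = tw _ a g (cst _ Lˣ x) := fun _ _ => rfl
  have c2 : ∀ g x, cst G Lˣ (a g x) = tw _ a g (cst _ Lˣ x) := fun _ _ => rfl
  let A : Subgroup (X → Lˣ) := (⊤ : Subgroup Lˣ).map (cst X Lˣ) ⊔ (WWW R).map f1
  let C : Subgroup (X → Lˣ) := (JJ L).comap r1
  have gA : GSt (tw X a) A := ((gst_top a).map fun _ _ => rfl).sup ((gst_WWW hR').map e1)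
  have gB : GSt (tw X a) ((⊤ : Subgroup _).map f2 ⊔ A) := ((gst_top _).map e2).sup gA
  have gC : GSt (tw X a) C := gst_JJ.comap e3
  have hA : ∀ j, j ∈ A ↔ ∃ x, r1 j / cst _ _ x ∈ WWW R ∧ r2 j = cst _ _ x := by
    intro j
    constructor
    · intro hj
      obtain ⟨_, ⟨x, -, rfl⟩, _, ⟨u, hu, rfl⟩, rfl⟩ := mem_sup.1 hj
      refine ⟨x, ?_, funext fun g => mul_one _⟩
      rwa [show r1 (cst X Lˣ x * f1 u) = cst _ _ x * u from rfl, mul_div_cancel_left]
    · rintro ⟨x, h1, h2⟩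
      refine mem_sup.2 ⟨_, ⟨x, mem_top _, rfl⟩, _, ⟨_, h1, rfl⟩, ?_⟩
      funext y; cases y with
      | inl w => exact mul_div_cancel _ _
      | inr g => exact (mul_one _).trans (congrFun h2 g).symm
  have hB : (⊤ : Subgroup _).map f2 ⊔ A = ((cst (Pl L) Lˣ).range ⊔ WWW R).comap r1 := by
    refine le_antisymm (sup_le ?_ fun j hj => ?_) fun j hj => ?_
    · rintro _ ⟨t, -, rfl⟩
      exact one_mem ((cst (Pl L) Lˣ).range ⊔ WWW R)
    · obtain ⟨x, h1, -⟩ := (hA j).1 hj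
      exact mem_sup.2 ⟨_, ⟨x, rfl⟩, _, h1, mul_div_cancel _ _⟩
    · obtain ⟨_, ⟨x, rfl⟩, u, hu, h⟩ := mem_sup.1 (mem_comap.1 hj)
      refine mem_sup.2 ⟨_, ⟨r2 j / cst _ _ x, mem_top _, rfl⟩, j / f2 (r2 j / cst _ _ x),
        (hA _).2 ⟨x, ?_, ?_⟩, mul_div_cancel _ _⟩
      · rwa [map_div r1, show r1 (f2 _) = 1 from rfl, div_one, ← h, mul_div_cancel_left]
      · rw [map_div r2, show r2 (f2 (r2 j / cst _ _ x)) = r2 j / cst _ _ x from rfl,
          div_div_cancel]
  have hBC : (⊤ : Subgroup _).map f2 ⊔ A ≤ C := by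
    rw [hB]
    refine comap_mono (sup_le ?_ ((WWW_le_UUU R).trans UUU_le_JJ))
    rintro _ ⟨x, rfl⟩
    exact cst_mem_JJ x
  obtain ⟨t1, t2⟩ := tw_free (X := G) (fun g x h => by simpa using h) a hσ
  have g1 : GSt a ((WWW R).comap (cst (Pl L) Lˣ)) := (gst_WWW hR').comap fun _ _ => rfl
  have h1 : (⊥ : Subgroup _).comap (cst G Lˣ) ⊓ (WWW R).comap (cst (Pl L) Lˣ) = ⊥ :=
    eq_bot_iff.2 fun x hx => mem_bot.2 (congrFun (mem_bot.1 (mem_comap.1 hx.1)) 1)
  have h2 : ((WWW R).comap (cst (Pl L) Lˣ)).map (cst G Lˣ) ⊔ ⊥ = A.comap f2 ⊓ ⊤ := by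
    rw [sup_bot_eq, inf_top_eq]
    ext t
    rw [mem_comap, hA]
    constructor
    · rintro ⟨x, hx, rfl⟩
      refine ⟨x, ?_, rfl⟩
      rw [show r1 (f2 _) = 1 from rfl, one_div]
      exact inv_mem hx
    · rintro ⟨x, hx, h⟩
      rw [show r1 (f2 _) = 1 from rfl, one_div] at hx
      exact ⟨x, inv_mem_iff.1 hx, h.symm⟩
  rw [← h1, HQ.transfer (φ' := phi (tw G a) σ) (ψ' := nrm (tw G a)) (cst G Lˣ)
    (phi_comm c2 σ) (nrm_comm c2) (stab_bot _ _) (g1.stab σ), h2] at H1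
  have H2 := HQ.right (phi_nrm _ σ) (nrm_phi _ σ) bot_le le_top (stab_bot _ _)
    (GSt.stab (A := A.comap f2 ⊓ ⊤) (fun g x hx => ⟨gA.comap e2 g x hx.1, mem_top _⟩) σ) (stab_top _ _) H1
    (HQ.of_trivial t1 t2)
  rw [HQ.transfer f2 (phi_comm e2 σ) (nrm_comm e2) (gA.stab σ) (stab_top _ _)] at H2
  have H3 := HQ.mid (phi_nrm _ σ) (nrm_phi _ σ) le_sup_right hBC (gA.stab σ) (gB.stab σ)
    (gC.stab σ) H2 (HQ.of_finite (phi_nrm _ σ) (nrm_phi _ σ) hBC (gB.stab σ) (gC.stab σ)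
      (by rw [hB]; exact relIndex_comap_ne_zero _ (relIndex_ray hR)))
  refine ⟨_, H3.2.1, ?_, fun hc b hb hb' => ?_⟩
  · have h3 := H3.2.2
    rw [one_div_one_div, mul_one, ← Nat.cast_mul, Nat.cast_inj] at h3
    rw [← h3, hq]
    have hN : ∀ t, phi (tw G a) σ t = 1 → f2 t ∈ C.map (nrm (tw X a)) := by
      intro t ht
      obtain ⟨y, rfl⟩ := t1 t ht
      exact ⟨f2 y, one_mem (JJ L), (nrm_comm e2 y).symm⟩
    have h4 : A.comap (phi (tw X a) σ) ⊓ C =
        ((WWW R).comap (phi (tw (Pl L) a) σ) ⊓ JJ L).map f1 ⊔ (C.map (nrm (tw X a)) ⊔ A) := by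
      refine le_antisymm (fun j hj => ?_) (sup_le ?_ (sup_le (le_inf ?_ (gC.stab σ).r)
        (le_inf (map_le_iff_le_comap.1 (gA.stab σ).l) (le_sup_right.trans hBC))))
      · obtain ⟨x, h5, h6⟩ := (hA _).1 hj.1
        rw [phi_comm e3] at h5
        rw [phi_comm e4] at h6
        have h7 : nrm a x = 1 := by
          have := nrm_comm (f := cst G Lˣ) (a' := tw G a) (fun _ _ => rfl) x
          rw [← h6, nrm_phi] at this
          exact congrFun this 1
        obtain ⟨y, rfl⟩ := h90_cyclic hG hσ h7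
        have h8 : j = f1 (r1 j / cst _ _ y) * (f2 (r2 j / cst _ _ y) * cst X Lˣ y) := by
          rw [map_div, map_div, ← mul_assoc, div_mul_div_comm, e5,
            show f1 (cst _ _ y) * f2 (cst _ _ y) = cst X Lˣ y from e5 (cst X Lˣ y), div_mul_cancel]
        rw [h8]
        refine mul_mem (mem_sup_left ⟨_, ⟨?_, (JJ L).div_mem hj.2 (cst_mem_JJ y)⟩, rfl⟩)
          (mem_sup_right (mul_mem (mem_sup_left (hN _ ?_))
            (mem_sup_right (mem_sup_left ⟨y, mem_top _, rfl⟩))))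
        · change phi _ σ _ ∈ WWW R
          rwa [map_div, ← phi_comm c1]
        · rw [map_div, ← phi_comm c2, h6, div_self']
      · rintro _ ⟨j, hj, rfl⟩
        refine ⟨mem_comap.2 ?_, hj.2⟩
        rw [← phi_comm e1]
        exact mem_sup_right ⟨_, hj.1, rfl⟩
      · rintro _ ⟨j, -, rfl⟩
        rw [mem_comap, phi_nrm]
        exact one_mem _
    rw [h4, relIndex_sup_right, ← relIndex_comap]
    refine relIndex_dvd_of_le_left _ (sup_le (sup_le ?_ ?_) ?_)
    · rintro _ ⟨j, hj, rfl⟩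
      exact mem_comap.2 (mem_sup_left ⟨f1 j, hj, (nrm_comm e1 j).symm⟩)
    · exact fun j hj => mem_comap.2 (mem_sup_right (mem_sup_right ⟨j, hj, rfl⟩))
    · rintro _ ⟨x, hx, rfl⟩
      have h5 : f1 (cst _ _ x) = cst X Lˣ x / f2 (cst _ _ x) :=
        eq_div_of_mul_eq' (e5 (cst X Lˣ x))
      rw [mem_comap, h5]
      refine div_mem (mem_sup_right (mem_sup_left ⟨x, mem_top _, rfl⟩)) (mem_sup_left (hN _ ?_))
      rw [← phi_comm c2, show phi a σ x = 1 from hx, map_one]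
  · obtain ⟨_, ⟨j, hj, rfl⟩, u, hu, h⟩ := mem_sup.1 hb'
    obtain ⟨t, ht⟩ := t1 (cst G Lˣ b) (by rw [← phi_comm c2, hb, map_one])
    have h3 : f1 j * f2 t ∈ A.comap (nrm (tw X a)) ⊓ C := by
      refine ⟨mem_comap.2 ((hA _).2 ⟨b, ?_, ?_⟩), ?_⟩
      · rw [nrm_comm e3, show r1 (f1 j * f2 t) = j from mul_one j, ← h, div_mul_cancel_left]
        exact inv_mem hu
      · rw [nrm_comm e4, show r2 (f1 j * f2 t) = t from one_mul t, ht]
      · exact mem_comap.2 (by rwa [show r1 (f1 j * f2 t) = j from mul_one j])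
    obtain ⟨_, ⟨i, -, rfl⟩, m, hm, h4⟩ := mem_sup.1 (relIndex_eq_one.1 hc h3)
    obtain ⟨y, -, hy⟩ := (hA m).1 hm
    refine ⟨y, ?_⟩
    have h5 := congrArg (fun j => nrm (tw G a) (r2 j)) h4
    simp only [map_mul] at h5
    rw [phi_comm e4, nrm_phi, one_mul, hy, ← nrm_comm c2,
      show r2 (f1 j) = 1 from rfl, map_one, one_mul, show r2 (f2 t) = t from rfl, ht] at h5
    exact congrFun h5 1

theorem core [IsTotallyComplex K] {σ : L ≃ₐ[K] L} (hσ : ∀ g, g ∈ zpowers σ) {R : Set (Pl L)}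
    (hR : R.Finite) (hR' : ∀ (g : L ≃ₐ[K] L) (w : Pl L), w ∈ R → g • w ∈ R) :
    ∃ c : ℕ, c ≠ 0 ∧ Fintype.card (L ≃ₐ[K] L) * c ∣
      ((JJ L).map (nrm (tw (Pl L) (actU (L ≃ₐ[K] L) L))) ⊔ WWW R ⊔
        (phi (actU (L ≃ₐ[K] L) L) σ).ker.map (cst (Pl L) Lˣ)).relIndex
        ((WWW R).comap (phi (tw (Pl L) (actU (L ≃ₐ[K] L) L)) σ) ⊓ JJ L) ∧
      (c = 1 → ∀ b : Lˣ, phi (actU (L ≃ₐ[K] L) L) σ b = 1 →
        cst (Pl L) Lˣ b ∈ (JJ L).map (nrm (tw (Pl L) (actU (L ≃ₐ[K] L) L))) ⊔ WWW R →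
        ∃ y, nrm (actU (L ≃ₐ[K] L) L) y = b) :=
  core_aux (fun _ h => AlgEquiv.ext h) hσ hR hR' (HQ_units hσ hR hR')

end Pool.Agent.Lib.MP_580eba_nt
end

-- part Pool.Agent.Lib.MP_580eba_nt.Side
section

/-!
Consequences of the Herbrand quotient computation, read in the base field.
-/

namespace Pool.Agent.Lib.MP_580eba_nt

open NumberField Subgroup

variable {K L : Type*} [Field K] [Field L] [NumberField K] [NumberField L] [Algebra K L]

/-- The inclusion of unit groups. -/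
abbrev mp (K L : Type*) [Field K] [Field L] [Algebra K L] : Kˣ →* Lˣ :=
  Units.map (algebraMap K L : K →* L)

/-- Lifting families of local elements. -/
def lft (K L : Type*) [Field K] [Field L] [NumberField K] [Algebra K L] :
    (Pl K → Kˣ) →* (Pl L → Lˣ) where
  toFun i w := mp K L (i (und K w))
  map_one' := by ext; simp
  map_mul' i j := by ext; simp

omit [NumberField K] [NumberField L] in
lemma act_mp (g : L ≃ₐ[K] L) (x : Kˣ) : actU (L ≃ₐ[K] L) L g (mp K L x) = mp K L x :=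
  Units.ext (g.commutes x)

lemma mp_mem_UU {w : Pl L} {x : Kˣ} : mp K L x ∈ UU w ↔ x ∈ UU (und K w) := val_map_eq_one w

lemma mp_mem_U1 {w : Pl L} {x : Kˣ} : mp K L x ∈ U1 w ↔ x ∈ U1 (und K w) := by
  rw [mem_U1, mem_U1, ← val_map_lt_one w, map_sub (algebraMap K L), map_one (algebraMap K L)]
  rfl

lemma lft_mem_JJ {i : Pl K → Kˣ} (hi : i ∈ JJ K) : lft K L i ∈ JJ L :=
  (finite_und hi).subset fun _ hw h => hw (mp_mem_UU.2 h)

lemma tw_lft (g : L ≃ₐ[K] L) (i : Pl K → Kˣ) :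
    tw (Pl L) (actU (L ≃ₐ[K] L) L) g (lft K L i) = lft K L i := by
  funext w
  change actU _ L g (mp K L (i (und K (g⁻¹ • w)))) = mp K L (i (und K w))
  rw [act_mp, und_smul]

theorem side [IsGalois K L] [IsTotallyComplex K] {σ : L ≃ₐ[K] L} (hσ : ∀ g, g ∈ zpowers σ)
    {R : Set (Pl L)} (hR : R.Finite) (hR' : ∀ (g : L ≃ₐ[K] L) (w : Pl L), w ∈ R → g • w ∈ R)
    (hloc : ∀ (w : Pl L) (x : Lˣ), (∀ g : L ≃ₐ[K] L, g • w = w → actU _ L g x / x ∈ WW R w) →
      ∃ y : Kˣ, x / mp K L y ∈ WW R w) :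
    ∃ c : ℕ, c ≠ 0 ∧ Fintype.card (L ≃ₐ[K] L) * c ∣
      ((cst (Pl K) Kˣ).range ⊔ ((JJ L).map (nrm (tw (Pl L) (actU (L ≃ₐ[K] L) L))) ⊔ WWW R).comap
        (lft K L)).relIndex (JJ K) ∧
      (c = 1 → ∀ b : Kˣ,
        cst (Pl L) Lˣ (mp K L b) ∈ (JJ L).map (nrm (tw (Pl L) (actU (L ≃ₐ[K] L) L))) ⊔ WWW R →
        ∃ y, nrm (actU (L ≃ₐ[K] L) L) y = mp K L b) := by
  obtain ⟨c, hc, h1, h2⟩ := core hσ hR hR'
  refine ⟨c, hc, h1.trans ?_, fun hc b => h2 hc _ (by rw [phi_apply, act_mp, div_self'])⟩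
  set N := (JJ L).map (nrm (tw (Pl L) (actU (L ≃ₐ[K] L) L))) ⊔ WWW R
  have h3 : (WWW R).comap (phi (tw (Pl L) (actU (L ≃ₐ[K] L) L)) σ) ⊓ JJ L =
      (JJ K).map (lft K L) ⊔ WWW R := by
    refine le_antisymm (fun j hj => ?_) (sup_le ?_ (le_inf
      (map_le_iff_le_comap.1 ((gst_WWW hR').stab σ).l) ((WWW_le_UUU R).trans UUU_le_JJ)))
    · have h4 := fun g => mem_WWW.1 ((gst_WWW hR').act_div_mem hσ hj.1 g)
      choose w hw using exists_und (K := K) L
      have h5 : ∀ v, ∃ y : Kˣ, j (w v) / mp K L y ∈ WW R (w v) := fun v => hloc _ _ fun g hg => by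
        have := h4 g (w v)
        rwa [Pi.div_apply, tw_apply, inv_smul_eq_iff.2 hg.symm] at this
      choose i hi using h5
      refine mem_sup.2 ⟨_, ⟨i, ?_, rfl⟩, j / lft K L i, mem_WWW.2 fun u => ?_, mul_div_cancel _ _⟩
      · refine (hj.2.image (und K)).subset fun v hv => ⟨w v, fun h => hv ?_, hw v⟩
        rw [← hw v, ← mp_mem_UU, hw]
        simpa using div_mem h (WW_le _ _ (hi v))
      · obtain ⟨g, hg⟩ := exists_smul_eq (L ≃ₐ[K] L) (hw (und K u))
        have h6 := act_mem_WW hR' (g := g) (hi (und K u))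
        have h7 := h4 g u
        rw [hg, map_div, act_mp] at h6
        rw [Pi.div_apply, tw_apply, inv_smul_eq_iff.2 hg.symm] at h7
        have h8 := div_mem h6 h7
        rwa [div_div_div_cancel_left] at h8
    · rintro _ ⟨i, hi, rfl⟩
      refine ⟨mem_comap.2 ?_, lft_mem_JJ hi⟩
      rw [phi_apply, tw_lft, div_self']
      exact one_mem _
  rw [h3, relIndex_sup_of_le (le_sup_right.trans le_sup_left), ← relIndex_comap]
  refine relIndex_dvd_of_le_left _ (sup_le ?_ (comap_mono le_sup_left))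
  rintro _ ⟨x, rfl⟩
  exact mem_sup_right ⟨mp K L x, MonoidHom.mem_ker.2 (by rw [phi_apply, act_mp, div_self']), rfl⟩

/-- The index that bounds unramified cyclic extensions. -/
noncomputable def cls (K : Type*) [Field K] [NumberField K] : ℕ :=
  ((cst (Pl K) Kˣ).range ⊔ UUU K).relIndex (JJ K)

lemma exists_div_mp_mem_UU {w : Pl L} (h : ee K w = 1) (x : Lˣ) :
    ∃ y : Kˣ, x / mp K L y ∈ UU w := by
  obtain ⟨y, hy, h1⟩ := exists_ord_eq (und K w) (ord w x)
  refine ⟨Units.mk0 y hy, div_mem_UU.2 ?_⟩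
  change _ = ord w (algebraMap K L y)
  rw [ord_map, h, h1, Nat.cast_one, one_mul]

theorem card_le_cls [IsGalois K L] [IsTotallyComplex K] [IsCyclic (L ≃ₐ[K] L)]
    (h : ∀ w : Pl L, ee K w = 1) : Nat.card (L ≃ₐ[K] L) ≤ cls K := by
  obtain ⟨σ, hσ⟩ := IsCyclic.exists_generator (α := L ≃ₐ[K] L)
  obtain ⟨c, hc, h1, -⟩ := side hσ Set.finite_empty (fun _ _ h => h) fun w x _ => by
    rw [WW_of_notMem (Set.notMem_empty w)]
    exact exists_div_mp_mem_UU (h w) x
  rw [Nat.card_eq_fintype_card]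
  refine Nat.le_of_dvd (Nat.pos_of_ne_zero (relIndex_class K)) ((dvd_mul_right _ c).trans
    (h1.trans (relIndex_dvd_of_le_left _ (sup_le_sup_left (fun i hi => ?_) _))))
  refine mem_sup_right (mem_WWW.2 fun w => ?_)
  rw [WW_of_notMem (Set.notMem_empty w)]
  exact mp_mem_UU.2 (mem_UUU.1 hi _)

end Pool.Agent.Lib.MP_580eba_nt
end

-- part Pool.Agent.Lib.MP_580eba_nt.Res
section

/-!
Restriction of automorphisms and of primes.
-/

namespace Pool.Agent.Lib.MP_580eba_nt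

open NumberField Subgroup

lemma exists_res {k L N G : Type*} [Field k] [Field L] [Field N] [Algebra k L] [Normal k L] [Group G]
    [MulSemiringAction G N] (f : L →+* N) (g : G)
    (hg : ∀ x : k, g • f (algebraMap k L x) = f (algebraMap k L x)) :
    ∃ g' : L ≃ₐ[k] L, ∀ x, f (g' x) = g • f x := by
  let _ := f.toAlgebra
  let _ := (f.comp (algebraMap k L)).toAlgebra
  have : IsScalarTower k L N := IsScalarTower.of_algebraMap_eq fun _ => rfl
  let e : N ≃ₐ[k] N := AlgEquiv.ofRingEquiv (f := MulSemiringAction.toRingEquiv G N g) hg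
  exact ⟨e.restrictNormal L, fun x => e.restrictNormal_commutes L x⟩

lemma res_pow {L N G G' : Type*} [Field L] [Field N] [Group G] [Group G'] [MulSemiringAction G N]
    [MulSemiringAction G' L] {f : L →+* N} {g : G} {g' : G'} (h : ∀ x, f (g' • x) = g • f x) (n : ℕ)
    (x : L) : f (g' ^ n • x) = g ^ n • f x := by
  induction n with
  | zero => simp
  | succ n ih => rw [pow_succ', pow_succ', mul_smul, mul_smul, h, ih]

section pull

variable {K L N : Type*} [Field K] [Field L] [Field N] [NumberField K] [NumberField L] [NumberField N]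

/-- The prime below along an embedding. -/
noncomputable def pull (f : L →+* N) (w : Pl N) : Pl L :=
  letI := f.toAlgebra
  und L w

lemma val_pull_lt (f : L →+* N) (w : Pl N) (x : L) : val (pull f w) x < 1 ↔ val w (f x) < 1 :=
  letI := f.toAlgebra
  (val_map_lt_one w).symm

lemma val_pull_le (f : L →+* N) (w : Pl N) (x : L) : val (pull f w) x ≤ 1 ↔ val w (f x) ≤ 1 :=
  letI := f.toAlgebra
  (val_map_le_one w).symm

lemma pl_ext {v v' : Pl L} (h : ∀ x : L, val v x < 1 ↔ val v' x < 1) : v = v' :=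
  IsDedekindDomain.HeightOneSpectrum.ext (Ideal.ext fun x => by rw [← val_int_lt, ← val_int_lt, h])

lemma und_pull [Algebra K L] [Algebra K N] (f : L →+* N)
    (hf : ∀ x, f (algebraMap K L x) = algebraMap K N x) (w : Pl N) : und K (pull f w) = und K w :=
  pl_ext fun x => by rw [← val_map_lt_one, val_pull_lt, hf, val_map_lt_one]

lemma res_mem_In {G G' : Type*} [Group G] [Group G'] [MulSemiringAction G N]
    [MulSemiringAction G' L] {f : L →+* N} {g : G} {g' : G'} (h : ∀ x, f (g' • x) = g • f x)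
    {w : Pl N} (hg : g ∈ In G w) : g' ∈ In G' (pull f w) :=
  mem_In.2 fun x hx => by
    rw [val_pull_lt, map_sub, h]
    exact mem_In.1 hg _ ((val_pull_le f w x).1 hx)

lemma ee_mul [Algebra K L] [Algebra L N] [Algebra K N] [IsScalarTower K L N] (w : Pl N) :
    ee K w = ee L w * ee K (und L w) := by
  obtain ⟨x, -, h1⟩ := exists_ord_eq (und K w) 1
  have h2 := ord_map w x
  rw [IsScalarTower.algebraMap_apply K L N, ord_map, ord_map, und_und, h1, mul_one, mul_one] at h2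
  exact_mod_cast h2.symm

lemma ee_eq_one_iff [Algebra K L] (w : Pl L) :
    ee K w = 1 ↔ haveI := w.isPrime; Algebra.IsUnramifiedAt (𝓞 K) w.asIdeal := by
  have := w.isPrime
  have := (und K w).isMaximal
  exact Ideal.ramificationIdx_eq_one_iff

theorem card_range_le_cls [IsTotallyComplex K] {G : Type*} [Group G] [Finite G]
    [MulSemiringAction G N] [FaithfulSMul G N] (f : K →+* N)
    (hf : ∀ x, x ∈ f.range ↔ ∀ g : G, g • x = x) (h : ∀ w : Pl N, In G w = ⊥) (φ : G →* ℂˣ) :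
    Nat.card φ.range ≤ cls K := by
  let _ := f.toAlgebra
  have : IsGaloisGroup G K N :=
    { faithful := inferInstance
      commutes := ⟨fun g a b => by
        rw [Algebra.smul_def, Algebra.smul_def, smul_mul', (hf (algebraMap K N a)).1 ⟨a, rfl⟩]⟩
      isInvariant := ⟨fun x hx => (hf x).2 hx⟩ }
  let M : IntermediateField K N := FixedPoints.intermediateField φ.ker
  have := IsGaloisGroup.isGalois (G ⧸ φ.ker) K M
  have e := (QuotientGroup.quotientKerEquivRange φ).symm.trans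
    (IsGaloisGroup.mulEquivAlgEquiv (G ⧸ φ.ker) K M)
  have : Finite φ.range := Finite.of_surjective _ φ.rangeRestrict_surjective
  have : IsCyclic (M ≃ₐ[K] M) := isCyclic_of_surjective e e.surjective
  rw [Nat.card_congr e.toEquiv]
  refine card_le_cls fun v => ?_
  obtain ⟨w, rfl⟩ := exists_und N v
  have h1 := ee_mul (K := K) (L := M) w
  rw [← card_In G, h, card_bot] at h1
  exact Nat.eq_one_of_mul_eq_one_left h1.symm

theorem eq_top_of_In_le {G : Type*} [Group G] [Finite G] [MulSemiringAction G N]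
    [IsGaloisGroup G ℚ N] {H : Subgroup G} (h : ∀ w : Pl N, In G w ≤ H) : H = ⊤ := by
  let M : IntermediateField ℚ N := FixedPoints.intermediateField H
  have h1 : Module.finrank ℚ M = 1 := by
    by_contra h1
    obtain ⟨P, hP, h2⟩ := NumberField.exists_not_isUnramifiedAt_int (𝒪 := 𝓞 M) h1
    obtain ⟨w, hw⟩ := exists_und N
      (⟨P, hP.isPrime, Ideal.IsMaximal.ne_bot_of_isIntegral_int P⟩ : Pl M)
    have h3 := ee_mul (K := ℚ) (L := M) w
    rw [← card_In G, ← card_In H, show In H w = (In G w).subgroupOf H from rfl,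
      Nat.card_congr (subgroupOfEquivOfLe (h w)).toEquiv, hw, left_eq_mul₀ Nat.card_pos.ne',
      ee_eq_one_iff] at h3
    have : Algebra.FormallyUnramified ℤ (𝓞 ℚ) := .of_surjective (Algebra.ofId ℤ _) fun x =>
      ⟨Rat.ringOfIntegersEquiv x, by
        rw [← Rat.ringOfIntegersEquiv.symm_apply_apply x, RingEquiv.apply_symm_apply]; simp⟩
    have : Algebra.IsUnramifiedAt (𝓞 ℚ) P := h3
    exact h2 (Algebra.FormallyUnramified.comp ℤ (𝓞 ℚ) _)
  have h2 := Module.finrank_mul_finrank ℚ M N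
  rw [h1, one_mul, ← IsGaloisGroup.card_eq_finrank H, ← IsGaloisGroup.card_eq_finrank G] at h2
  exact eq_top_of_card_eq H h2

end pull

section fix

variable {K Ω : Type*} [Field K] [Field Ω] [Algebra K Ω]

/-- The fixed field of an automorphism of an intermediate field. -/
def fixF {N : IntermediateField K Ω} (g : N ≃ₐ[K] N) : IntermediateField K Ω :=
  IntermediateField.lift (IntermediateField.fixedField (zpowers g))

lemma mem_fixF {N : IntermediateField K Ω} {g : N ≃ₐ[K] N} (x : N) : (x : Ω) ∈ fixF g ↔ g x = x := by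
  rw [fixF, IntermediateField.mem_lift, IntermediateField.mem_fixedField_iff]
  exact ⟨fun h => h g (mem_zpowers g), fun h k hk =>
    (zpowers_le_of_mem (H := MulAction.stabilizer _ x) h hk :)⟩

lemma eq_one_of_le_fixF {N : IntermediateField K Ω} {g : N ≃ₐ[K] N} (h : N ≤ fixF g) : g = 1 :=
  AlgEquiv.ext fun x => (mem_fixF x).1 (h x.2)

lemma le_fixF {L N : IntermediateField K Ω} (h : L ≤ N) {g : N ≃ₐ[K] N}
    (hg : ∀ x, g (IntermediateField.inclusion h x) = IntermediateField.inclusion h x) :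
    L ≤ fixF g := fun x hx => (mem_fixF _).2 (hg ⟨x, hx⟩)

lemma exists_res' {L N : IntermediateField K Ω} [Normal K L] (h : L ≤ N) (g : N ≃ₐ[K] N) :
    ∃ g' : L ≃ₐ[K] L, ∀ x, (IntermediateField.inclusion h : L →+* N) (g' • x) =
      g • (IntermediateField.inclusion h : L →+* N) x :=
  exists_res (IntermediateField.inclusion h : L →+* N) g fun x => g.commutes x

end fix

instance numberField_of_finite {k Ω : Type*} [Field k] [NumberField k] [Field Ω] [Algebra k Ω]
    (L : IntermediateField k Ω) [FiniteDimensional k L] : NumberField L :=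
  NumberField.of_module_finite k L

section two

variable {k : Type*} [Field k] [NumberField k] {S : Set (Ideal (𝓞 k))}

lemma isTwoExt_iff {L : IntermediateField k (AlgebraicClosure k)} [FiniteDimensional k L]
    [IsGalois k L] : IsTwoExt k S L ↔ IsPGroup 2 (L ≃ₐ[k] L) ∧
      ∀ w : Pl L, (und k w).asIdeal ∉ S → In (L ≃ₐ[k] L) w = ⊥ := by
  have : Fact (Nat.Prime 2) := ⟨Nat.prime_two⟩
  rw [IsTwoExt, IsPGroup.iff_card, IsGalois.card_aut_eq_finrank]
  refine ⟨fun h => ⟨h.2.2.1, fun w hw => (In_eq_bot_iff (K := k) _ w).2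
    (h.2.2.2 _ (und k w).isPrime (und k w).ne_bot hw _ _ inferInstance)⟩,
    fun h => ⟨inferInstance, inferInstance, h.1, fun q hq h0 hS P hP hPq => ?_⟩⟩
  have h1 : P.under (𝓞 k) = q := (Ideal.over_def P q).symm
  exact (In_eq_bot_iff (K := k) _ (⟨P, hP, Ideal.ne_bot_of_liesOver_of_ne_bot h0 P⟩ : Pl L)).1
    (h.2 _ (h1 ▸ hS :))

lemma IsTwoExt.sup {L L' : IntermediateField k (AlgebraicClosure k)} (h : IsTwoExt k S L)
    (h' : IsTwoExt k S L') : IsTwoExt k S (L ⊔ L') := by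
  have := h.1
  have := h.2.1
  have := h'.1
  have := h'.2.1
  have : IsGalois k (L ⊔ L' : IntermediateField k _) := {}
  obtain ⟨h1, h2⟩ := isTwoExt_iff.1 h
  obtain ⟨h1', h2'⟩ := isTwoExt_iff.1 h'
  refine isTwoExt_iff.2 ⟨fun g => ?_, fun w hw => (Subgroup.eq_bot_iff_forall _).2 fun g hg => ?_⟩
  · obtain ⟨a, ha⟩ := exists_res' (le_sup_left : L ≤ L ⊔ L') g
    obtain ⟨b, hb⟩ := exists_res' (le_sup_right : L' ≤ L ⊔ L') g
    obtain ⟨m, hm⟩ := h1 a
    obtain ⟨n, hn⟩ := h1' b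
    refine ⟨m + n, eq_one_of_le_fixF (sup_le (le_fixF le_sup_left fun x => ?_)
      (le_fixF le_sup_right fun x => ?_))⟩
    · have := res_pow ha (2 ^ (m + n)) x
      rw [pow_add, pow_mul, hm, one_pow, one_smul, ← pow_add] at this
      exact this.symm
    · have := res_pow hb (2 ^ (m + n)) x
      rw [add_comm, pow_add, pow_mul, hn, one_pow, one_smul, ← pow_add, add_comm] at this
      exact this.symm
  · obtain ⟨a, ha⟩ := exists_res' (le_sup_left : L ≤ L ⊔ L') g
    obtain ⟨b, hb⟩ := exists_res' (le_sup_right : L' ≤ L ⊔ L') g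
    have h3 := res_mem_In ha hg
    have h4 := res_mem_In hb hg
    rw [h2 _ (by rwa [und_pull _ (by intro; rfl)]), mem_bot] at h3
    rw [h2' _ (by rwa [und_pull _ (by intro; rfl)]), mem_bot] at h4
    refine eq_one_of_le_fixF (sup_le (le_fixF le_sup_left fun x => ?_)
      (le_fixF le_sup_right fun x => ?_))
    · have := ha x
      rw [h3, one_smul] at this
      exact this.symm
    · have := hb x
      rw [h4, one_smul] at this
      exact this.symm

lemma isTwoExt_bot : IsTwoExt k S ⊥ := by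
  have : Subsingleton ((⊥ : IntermediateField k (AlgebraicClosure k)) ≃ₐ[k]
      (⊥ : IntermediateField k (AlgebraicClosure k))) := by
    rw [← Finite.card_le_one_iff_subsingleton, IsGalois.card_aut_eq_finrank,
      IntermediateField.finrank_bot]
  exact isTwoExt_iff.2 ⟨fun g => ⟨0, Subsingleton.elim _ _⟩, fun w _ => Subsingleton.elim _ _⟩

theorem isTwoExt_max_of_bdd {B : ℕ} (h : ∀ L, IsTwoExt k S L → Module.finrank k L ≤ B) :
    IsTwoExt k S (maxTwoExt k S) := by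
  obtain ⟨L, hL, h1⟩ := Set.Finite.exists_maximalFor' (fun L : IntermediateField k
    (AlgebraicClosure k) => Module.finrank k L) {L | IsTwoExt k S L}
    ((Set.finite_Iic B).subset (by rintro _ ⟨L, hL, rfl⟩; exact h L hL)) ⟨⊥, isTwoExt_bot⟩
  have h2 : maxTwoExt k S = L := by
    refine le_antisymm (sSup_le fun L' hL' => ?_) (le_sSup hL)
    have h3 := IsTwoExt.sup hL hL'
    have := h3.1
    have h4 := IntermediateField.eq_of_le_of_finrank_le (le_sup_left : L ≤ L ⊔ L')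
      (h1 h3 (IntermediateField.finrank_le_of_le_right le_sup_left))
    rw [h4]
    exact le_sup_right
  rwa [h2]

theorem isTwoExt_max [h : FiniteDimensional k (maxTwoExt k S)] : IsTwoExt k S (maxTwoExt k S) :=
  isTwoExt_max_of_bdd fun _ hL => IntermediateField.finrank_le_of_le_right (E := maxTwoExt k S) (le_sSup hL)

end two

end Pool.Agent.Lib.MP_580eba_nt
end

-- part Pool.Agent.Lib.MP_580eba_nt.Frob
section

/-!
Sign characters, Frobenius elements, rational primes.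
-/

namespace Pool.Agent.Lib.MP_580eba_nt

open NumberField Subgroup WithZero

section sgn

variable {G N : Type*} [Group G] [Field N] [CharZero N] [MulSemiringAction G N]

omit [CharZero N] in
lemma smul_eq_or {g : G} {s : N} (h : g • s ^ 2 = s ^ 2) : g • s = s ∨ g • s = -s :=
  sq_eq_sq_iff_eq_or_eq_neg.1 (by rw [← smul_pow', h])

open Classical in
/-- The sign character attached to a square root of a fixed element. -/
noncomputable def sgn {s : N} (hs : s ≠ 0) (h : ∀ g : G, g • s ^ 2 = s ^ 2) : G →* ℤˣ :=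
  MonoidHom.mk' (fun g => if g • s = s then 1 else -1) fun g k => by
    have h1 : -s ≠ s := fun h => hs (by linear_combination (-1 / 2 : N) * h)
    rcases smul_eq_or (h g) with h2 | h2 <;> rcases smul_eq_or (h k) with h3 | h3 <;>
      simp [mul_smul, h1, h2, h3]

lemma sgn_eq_one {s : N} (hs : s ≠ 0) (h : ∀ g : G, g • s ^ 2 = s ^ 2) {g : G} :
    sgn hs h g = 1 ↔ g • s = s := by
  classical
  change ite _ _ _ = _ ↔ _
  split_ifs with h1 <;> simp [h1]

lemma smul_eq_sgn {s : N} (hs : s ≠ 0) (h : ∀ g : G, g • s ^ 2 = s ^ 2) (g : G) :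
    g • s = ((sgn hs h g : ℤˣ) : ℤ) * s := by
  rcases Int.units_eq_one_or (sgn hs h g) with h1 | h1
  · rw [h1, (sgn_eq_one hs h).1 h1]; simp
  · rw [h1, (smul_eq_or (h g)).resolve_left fun h2 => by simp [(sgn_eq_one hs h).2 h2] at h1]; simp

end sgn

variable {K N : Type*} [Field K] [Field N] [NumberField K] [NumberField N]

lemma val_le_one_of_sq_sub {w : Pl N} {x : N} (h : val w (x ^ 2 - x) ≤ 1) : val w x ≤ 1 := by
  by_contra! h1
  have h2 : val w x < val w (x ^ 2) := by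
    rw [map_pow, sq]
    exact lt_mul_of_one_lt_left (zero_lt_one.trans h1) h1
  rw [Valuation.map_sub_eq_of_lt_left _ h2] at h
  exact absurd (h1.trans h2) (not_lt.2 h)

lemma val_eq_one_of_sq {w : Pl N} {x : N} (h : val w (x ^ 2) = 1) : val w x = 1 := by
  rwa [map_pow, pow_eq_one_iff_left two_ne_zero] at h

lemma In_fix_of_sq {G : Type*} [Group G] [MulSemiringAction G N] {w : Pl N} {g : G} (hg : g ∈ In G w)
    {s : N} (h : g • s ^ 2 = s ^ 2) (h1 : val w (s ^ 2) = 1) (h2 : val w (s ^ 2 - 1) ≤ val w 4) :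
    g • s = s := by
  refine (smul_eq_or h).resolve_right fun h3 => ?_
  have h4 : val w ((1 + s) / 2) ≤ 1 := by
    refine val_le_one_of_sq_sub ?_
    rw [show ((1 + s) / 2) ^ 2 - (1 + s) / 2 = (s ^ 2 - 1) / 4 by ring, map_div₀]
    exact div_le_one_of_le₀ h2 zero_le
  have h5 := mem_In.1 hg _ h4
  rw [smul_div₀', smul_add, smul_one, h3, show g • (2 : N) = 2 from map_ofNat
    (MulSemiringAction.toRingHom G N g) 2, show (1 + -s) / 2 - (1 + s) / 2 = -s by ring,
    Valuation.map_neg, val_eq_one_of_sq h1] at h5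
  exact lt_irrefl _ h5

/-- The norm of a prime. -/
noncomputable def nP (v : Pl K) : ℕ := Nat.card (𝓞 K ⧸ v.asIdeal)

lemma val_pow_sub_pow_lt {w : Pl N} {x y : N} (hx : val w x ≤ 1) (hy : val w y ≤ 1)
    (h : val w (x - y) < 1) (n : ℕ) : val w (x ^ n - y ^ n) < 1 := by
  induction n with
  | zero => simp
  | succ n ih =>
    rw [show x ^ (n + 1) - y ^ (n + 1) = (x ^ n - y ^ n) * x + (x - y) * y ^ n by ring]
    refine Valuation.map_add_lt _ ?_ ?_
    · rw [map_mul]; exact mul_lt_one_of_lt_of_le ih hx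
    · rw [map_mul, map_pow]; exact mul_lt_one_of_lt_of_le h (pow_le_one₀ zero_le hy)

lemma exists_frob [Algebra K N] (G : Type*) [Group G] [Finite G] [MulSemiringAction G N]
    [IsGaloisGroup G K N] (w : Pl N) : ∃ σ : G, σ • w = w ∧
      ∀ x : N, val w x ≤ 1 → val w (σ • x - x ^ nP (und K w)) < 1 := by
  have := w.isPrime
  have : Finite (𝓞 N ⧸ w.asIdeal) := Ring.HasFiniteQuotients.finiteQuotient w.ne_bot
  obtain ⟨σ, hσ⟩ := IsArithFrobAt.exists_of_isInvariant (𝓞 K) G w.asIdeal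
  have h1 : σ • w = w := IsDedekindDomain.HeightOneSpectrum.ext hσ.mem_stabilizer
  refine ⟨σ, h1, fun x hx => ?_⟩
  obtain ⟨a, ha⟩ := w.exists_valuation_sub_lt_of_integer hx 1
  have h2 : σ • x - x ^ nP (und K w) = ((σ • a - a ^ nP (und K w) : 𝓞 N) : N) - σ • ((a : N) - x) +
      ((a : N) ^ nP (und K w) - x ^ nP (und K w)) := by
    rw [show ((σ • a - a ^ nP (und K w) : 𝓞 N) : N) = σ • (a : N) - (a : N) ^ nP (und K w) from rfl,
      smul_sub]
    ring
  rw [h2]
  refine Valuation.map_add_lt _ (Valuation.map_sub_lt _ ((val_int_lt w _).2 (hσ a)) ?_)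
    (val_pow_sub_pow_lt (val_int_le w a) hx ha _)
  rw [val_smul_of_eq h1]
  exact ha

lemma val_eq_one_of_coprime {w : Pl N} {a b : ℤ} (h : IsCoprime a b) (ha : val w (a : N) < 1) :
    val w (b : N) = 1 := by
  obtain ⟨u, v, h⟩ := h
  refine le_antisymm (val_intCast_le w b) (not_lt.1 fun hb => ?_)
  have h1 : val w ((u * a + v * b : ℤ) : N) < 1 := by
    push_cast
    refine Valuation.map_add_lt _ ?_ ?_ <;> rw [map_mul, mul_comm]
    · exact mul_lt_one_of_lt_of_le ha (val_intCast_le w u)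
    · exact mul_lt_one_of_lt_of_le hb (val_intCast_le w v)
  simp [h] at h1

lemma val_int_lt_iff {w : Pl N} {p : ℕ} (hp : p.Prime) (h : val w (p : N) < 1) {a : ℤ} :
    val w (a : N) < 1 ↔ (p : ℤ) ∣ a := by
  refine ⟨fun ha => ?_, ?_⟩
  · by_contra h1
    exact ha.ne (val_eq_one_of_coprime ((Nat.prime_iff_prime_int.1 hp).irreducible.coprime_iff_not_dvd.2 h1)
      (by exact_mod_cast h))
  · rintro ⟨b, rfl⟩
    push_cast
    rw [map_mul]
    exact mul_lt_one_of_lt_of_le h (val_intCast_le w b)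

lemma prime_rat {p : ℕ} (hp : p.Prime) : Prime (p : 𝓞 ℚ) := by
  have := (MulEquiv.prime_iff Rat.ringOfIntegersEquiv.symm).2 (Nat.prime_iff_prime_int.1 hp)
  simpa using this

lemma asIdeal_rat {p : ℕ} (hp : p.Prime) {v : Pl ℚ} (h : val v (p : ℚ) < 1) :
    v.asIdeal = Ideal.span {(p : 𝓞 ℚ)} := by
  have h1 : (Ideal.span {(p : 𝓞 ℚ)}).IsMaximal :=
    ((Ideal.span_singleton_prime (prime_rat hp).ne_zero).2 (prime_rat hp)).isMaximal
      (by simpa using hp.ne_zero)
  refine (h1.eq_of_le v.isPrime.ne_top ?_).symm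
  rw [Ideal.span_singleton_le_iff_mem, ← val_int_lt]
  simpa using h

lemma ord_rat {p : ℕ} (hp : p.Prime) {v : Pl ℚ} (h : val v (p : ℚ) < 1) : ord v (p : ℚ) = 1 := by
  refine ord_eq_of_val ?_
  rw [← v.intValuation_singleton (prime_rat hp).ne_zero (asIdeal_rat hp h),
    ← v.valuation_of_algebraMap (K := ℚ)]
  simp

lemma nP_rat {p : ℕ} (hp : p.Prime) {v : Pl ℚ} (h : val v (p : ℚ) < 1) : nP v = p := by
  rw [nP, asIdeal_rat hp h, Nat.card_congr (Ideal.quotientEquiv _ (Ideal.span {(p : ℤ)})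
    Rat.ringOfIntegersEquiv (by simp [Ideal.map_span])).toEquiv,
    Nat.card_congr (Int.quotientSpanNatEquivZMod p).toEquiv, Nat.card_zmod]

lemma val_und_rat {w : Pl N} {p : ℕ} : val (und ℚ w) (p : ℚ) < 1 ↔ val w (p : N) < 1 := by
  rw [← val_map_lt_one, map_natCast]

lemma und_rat_eq {p : ℕ} (hp : p.Prime) {w w' : Pl N} (h : val w (p : N) < 1)
    (h' : val w' (p : N) < 1) : und ℚ w = und ℚ w' :=
  IsDedekindDomain.HeightOneSpectrum.ext ((asIdeal_rat hp (val_und_rat.2 h)).trans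
    (asIdeal_rat hp (val_und_rat.2 h')).symm)

lemma ord_prime {p : ℕ} (hp : p.Prime) {w : Pl N} (h : val w (p : N) < 1) :
    ord w (p : N) = ee ℚ w := by
  have := ord_map w (p : ℚ)
  rwa [map_natCast, ord_rat hp (val_und_rat.2 h), mul_one] at this

variable (N) in
lemma exists_pl {p : ℕ} (hp : p.Prime) : ∃ w : Pl N, val w (p : N) < 1 := by
  obtain ⟨w, hw⟩ := exists_und N (⟨Ideal.span {(p : 𝓞 ℚ)},
    (Ideal.span_singleton_prime (prime_rat hp).ne_zero).2 (prime_rat hp),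
    by simpa using hp.ne_zero⟩ : Pl ℚ)
  refine ⟨w, val_und_rat.1 ?_⟩
  rw [hw]
  simpa using (val_int_lt _ (p : 𝓞 ℚ)).2 (Ideal.mem_span_singleton_self _)

lemma exists_prime (w : Pl N) : ∃ p : ℕ, p.Prime ∧ val w (p : N) < 1 := by
  refine ⟨_, Rat.HeightOneSpectrum.prime_natGenerator (und ℚ w), val_und_rat.1 ?_⟩
  have := (Rat.HeightOneSpectrum.natGenerator_dvd_iff (und ℚ w)).1 dvd_rfl
  obtain ⟨x, hx, h⟩ := (Ideal.mem_map_iff_of_surjective _
    (Rat.IsIntegralClosure.intEquiv (𝓞 ℚ)).surjective).1 this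
  have h1 : x = (Rat.HeightOneSpectrum.natGenerator (und ℚ w) : 𝓞 ℚ) :=
    (Rat.IsIntegralClosure.intEquiv (𝓞 ℚ)).injective (by rw [h, map_natCast])
  simpa [h1] using (val_int_lt _ x).2 hx

lemma frob_legendre {G : Type*} [Group G] [MulSemiringAction G N] {p : ℕ} [hp : Fact p.Prime]
    (h2 : p ≠ 2) {w : Pl N} (h : val w (p : N) < 1) {σ : G}
    (hσ : ∀ x : N, val w x ≤ 1 → val w (σ • x - x ^ p) < 1) {s : N} {a : ℤ} (hs : s ^ 2 = a)
    (ha : ¬ (p : ℤ) ∣ a) : σ • s = legendreSym p a * s := by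
  have h1 : val w (a : N) = 1 :=
    le_antisymm (val_intCast_le w a) (not_lt.1 fun h1 => ha ((val_int_lt_iff hp.out h).1 h1))
  have h3 : val w s = 1 := val_eq_one_of_sq (hs ▸ h1)
  have h4 := hσ s h3.le
  have h5 : s ^ p = ((a ^ (p / 2) : ℤ) : N) * s := by
    conv_lhs => rw [← Nat.div_add_mod p 2, hp.out.eq_two_or_odd.resolve_left h2]
    rw [pow_succ, pow_mul, hs, Int.cast_pow]
  have h6 : val w ((a ^ (p / 2) - legendreSym p a : ℤ) : N) < 1 := by
    rw [val_int_lt_iff hp.out h, ← ZMod.intCast_zmod_eq_zero_iff_dvd]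
    push_cast
    rw [legendreSym.eq_pow, sub_self]
  have h7 : val w (σ • s - legendreSym p a * s) < 1 := by
    rw [show σ • s - legendreSym p a * s = (σ • s - s ^ p) +
      ((a ^ (p / 2) - legendreSym p a : ℤ) : N) * s by rw [h5]; push_cast; ring]
    refine Valuation.map_add_lt _ h4 ?_
    rwa [map_mul, h3, mul_one]
  have h8 : val w (2 : N) = 1 := by
    simpa using val_eq_one_of_coprime (w := w) (a := p) (b := 2)
      (Nat.isCoprime_iff_coprime.2 ((Nat.coprime_primes hp.out Nat.prime_two).2 h2))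
      (by exact_mod_cast h)
  have h9 : σ • s ^ 2 = s ^ 2 := by
    rw [hs]; exact map_intCast (MulSemiringAction.toRingHom G N σ) a
  have h10 := legendreSym.eq_one_or_neg_one p
    (mt (ZMod.intCast_zmod_eq_zero_iff_dvd a p).1 ha)
  rcases smul_eq_or h9 with h11 | h11 <;> rcases h10 with h12 | h12 <;> rw [h11, h12] at h7 ⊢
  · simp
  · rw [show s - ((-1 : ℤ) : N) * s = 2 * s by push_cast; ring, map_mul, h8, h3, mul_one] at h7
    exact absurd h7 (lt_irrefl _)
  · rw [show -s - ((1 : ℤ) : N) * s = -(2 * s) by push_cast; ring, Valuation.map_neg, map_mul, h8, h3,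
      mul_one] at h7
    exact absurd h7 (lt_irrefl _)
  · simp

end Pool.Agent.Lib.MP_580eba_nt
end
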