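import Pool.Agent.Lib.MP_580eba_nt.Step

/-!
The Golod-Shafarevich inequality in the form needed here.
-/

namespace Pool.Agent.Lib.MP_580eba_nt

section ring

open Submodule

variable {A M M' : Type*} [Ring A] [AddCommGroup M] [Module A M] [AddCommGroup M'] [Module A M']
  {I : Ideal A} {n : ℕ} {N P : Submodule A M}

variable (I n N) in
/-- Iterated products with an ideal. -/
def Jn : Submodule A M := (I • ·)^[n] N

lemma Jn_succ' : Jn I (n + 1) N = I • Jn I n N := Function.iterate_succ_apply' _ _ _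

lemma Jn_mono (h : N ≤ P) : Jn I n N ≤ Jn I n P :=
  Monotone.iterate (fun _ _ => smul_mono le_rfl) n h

lemma Jn_le : Jn I n N ≤ N := by
  induction n with
  | zero => exact le_rfl
  | succ n ih => rw [Jn_succ']; exact smul_le_right.trans ih

lemma Jn_map (f : M →ₗ[A] M') : (Jn I n N).map f = Jn I n (N.map f) := by
  induction n with
  | zero => rfl
  | succ n ih => rw [Jn_succ', Jn_succ', map_smul'', ih]

lemma Jn_sup : Jn I n (N ⊔ P) = Jn I n N ⊔ Jn I n P := by
  induction n with
  | zero => rfl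
  | succ n ih => rw [Jn_succ', Jn_succ', Jn_succ', ih, smul_sup]

lemma map_mem_Jn (f : M →ₗ[A] M') {x : M} (h : x ∈ Jn I n ⊤) : f x ∈ Jn I n ⊤ :=
  Jn_mono le_top (Jn_map f ▸ mem_map_of_mem h)

lemma mem_Jn_pi {ι : Type*} [Fintype ι] {x : ι → M} : x ∈ Jn I n ⊤ ↔ ∀ i, x i ∈ Jn I n ⊤ := by
  classical
  refine ⟨fun h i => map_mem_Jn (LinearMap.proj i) h, fun h => ?_⟩
  rw [← Finset.univ_sum_single x]
  exact sum_mem fun i _ => map_mem_Jn (LinearMap.single A (fun _ => M) i) (h i)

lemma index_Jn_pi (ι : Type*) [Fintype ι] : (Jn I n (⊤ : Submodule A (ι → M))).toAddSubgroup.index =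
    (Jn I n (⊤ : Submodule A M)).toAddSubgroup.index ^ Fintype.card ι := by
  rw [← Finset.card_univ, ← Finset.prod_const, ← AddSubgroup.index_pi]
  exact congrArg _ (AddSubgroup.ext fun x => mem_Jn_pi.trans ⟨fun h i _ => h i, fun h i => h i trivial⟩)

theorem gs_ring [Finite A] (hI : I • (⊤ : Submodule A A) ≠ ⊤) {ι κ : Type*} [Fintype ι] [Fintype κ]
    {π : (ι → A) →ₗ[A] A} {ρ : (κ → A) →ₗ[A] (ι → A)} (h1 : I • ⊤ ≤ LinearMap.range π)
    (h2 : LinearMap.ker π ≤ I • ⊤) (h3 : LinearMap.range ρ ≤ LinearMap.ker π)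
    (h4 : LinearMap.ker π ≤ LinearMap.range ρ ⊔ I • LinearMap.ker π)
    (h5 : Fintype.card κ ≤ Fintype.card ι) : Fintype.card ι < 4 := by
  by_contra! h6
  let C : ℕ → ℕ := fun n => (Jn I n (⊤ : Submodule A A)).toAddSubgroup.index
  have h0 : ∀ n, 0 < C n := fun n => Nat.pos_of_ne_zero AddSubgroup.index_ne_zero_of_finite
  have h7 : ∀ n, LinearMap.ker π ≤ LinearMap.range ρ ⊔ Jn I n (LinearMap.ker π) := fun n => by
    induction n with
    | zero => exact le_sup_right
    | succ n ih =>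
      refine ih.trans (sup_le le_sup_left ((Jn_mono h4).trans ?_))
      rw [Jn_sup]
      exact sup_le_sup_right Jn_le _
  have h8 : ∀ n, C (n + 1) ^ Fintype.card ι ≤ C n ^ Fintype.card κ * C (n + 2) := fun n => by
    rw [← index_Jn_pi, ← index_Jn_pi, ← AddSubgroup.relIndex_mul_index (toAddSubgroup_mono
      (le_sup_right (a := LinearMap.range ρ))), sup_toAddSubgroup, AddSubgroup.relIndex_sup_right]
    refine Nat.mul_le_mul ((AddSubgroup.index_comap _ ρ.toAddMonoidHom).symm.trans_le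
      (AddSubgroup.index_antitone fun x hx => ?_)) (le_trans (AddSubgroup.index_antitone fun x hx => ?_)
      ((AddSubgroup.index_comap _ π.toAddMonoidHom).trans_le ((AddSubgroup.relIndex_le_of_le_right le_top
        (by rw [AddSubgroup.relIndex_top_right]; exact (h0 (n + 2)).ne')).trans_eq
        (AddSubgroup.relIndex_top_right _))))
    · exact Jn_mono ((map_top ρ).trans_le (h3.trans h2)) (Jn_map ρ ▸ mem_map_of_mem hx)
    · have h8 : x ∈ comap π (map π (Jn I (n + 1) ⊤)) := by
        rw [Jn_map]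
        exact Jn_mono (h1.trans_eq (map_top π).symm) hx
      rw [comap_map_eq] at h8
      rw [← sup_toAddSubgroup]
      exact sup_le le_sup_right ((h7 n).trans (sup_le_sup_left (Jn_mono h2) _)) h8
  have h9 : ∀ n, C n ^ 2 ≤ C (n + 1) ∧ n + 2 ≤ C (n + 1) := fun n => by
    induction n with
    | zero =>
      have : C 1 ≠ 1 := fun h => hI (toAddSubgroup_injective (AddSubgroup.index_eq_one.1 h))
      have h9 : C 0 = 1 := AddSubgroup.index_top
      have := h0 1
      simp only [h9, zero_add]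
      omega
    | succ n ih =>
      have h9 : C (n + 1) ^ Fintype.card ι * C (n + 1) ^ 4 ≤
          C (n + 1) ^ Fintype.card ι * C (n + 2) ^ 2 :=
        calc _ ≤ (C (n + 1) ^ Fintype.card ι) ^ 2 := by
              rw [pow_two]; exact Nat.mul_le_mul_left _ (Nat.pow_le_pow_right (h0 _) h6)
          _ ≤ (C n ^ 2) ^ Fintype.card κ * C (n + 2) ^ 2 :=
              (Nat.pow_le_pow_left (h8 n) 2).trans_eq (by ring)
          _ ≤ _ := Nat.mul_le_mul_right _ ((Nat.pow_le_pow_left ih.1 _).trans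
              (Nat.pow_le_pow_right (h0 _) h5))
      have h10 : C (n + 1) ^ 2 ≤ C (n + 2) := (Nat.pow_le_pow_iff_left two_ne_zero).1
        (le_of_eq_of_le (by ring) (Nat.le_of_mul_le_mul_left h9 (pow_pos (h0 _) _)))
      exact ⟨h10, by nlinarith [ih.2]⟩
  have h10 := (h9 (Nat.card A)).2.trans (Nat.le_of_dvd Nat.card_pos (AddSubgroup.index_dvd_card _))
  omega

end ring

open Subgroup MonoidAlgebra

lemma exists_dual {P : Type*} [Group P] [Finite P] (hP : IsPGroup 2 P) (N : Subgroup P) :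
    ∃ s : Finset P, N ⊔ closure s = ⊤ ∧
      ∀ a : s → ℤˣ, ∃ χ : P →* ℤˣ, N ≤ χ.ker ∧ ∀ i : s, χ i = a i := by
  classical
  have := Fintype.ofFinite P
  obtain ⟨s, hs, h1⟩ := exists_minimal_of_wellFoundedLT (fun s : Finset P => N ⊔ closure s = ⊤)
    ⟨Finset.univ, by simp⟩
  have h2 : ∀ i : s, ∃ χ : P →* ℤˣ, N ≤ χ.ker ∧ χ i = -1 ∧ ∀ j : s, j ≠ i → χ j = 1 := fun i => by
    obtain ⟨H, t, h2, T⟩ := exists_two hP (le_top (a := N ⊔ closure (s.erase (i : P) : Finset P))) fun h =>
      Finset.notMem_erase _ _ (h1 (top_le_iff.1 h) (s.erase_subset (i : P)) i.2)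
    have h3 : ∀ j : s, j ≠ i → (j : P) ∈ H := fun j hj => h2 (mem_sup_right (subset_closure
      (Finset.mem_erase.2 ⟨fun h => hj (Subtype.ext h), j.2⟩)))
    refine ⟨MonoidHom.mk' (fun g => if g ∈ H then 1 else -1) fun g k => ?_,
      fun g hg => if_pos (h2 (mem_sup_left hg)), if_neg fun h => T.notMem ?_, fun j hj => if_pos (h3 j hj)⟩
    · have h4 := T.iff (mem_top g) (mem_top k)
      by_cases hg : g ∈ H <;> by_cases hk : k ∈ H <;> simp [hg, hk, h4]
    · refine (hs.ge.trans (sup_le (le_sup_left.trans h2) ((closure_le _).2 fun j hj => ?_))) (mem_top t)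
      by_cases h4 : (⟨j, hj⟩ : s) = i
      exacts [Set.mem_of_eq_of_mem (congrArg Subtype.val h4) h, h3 _ h4]
  choose χ h2 h3 h4 using h2
  refine ⟨s, hs, fun a => ⟨∏ i, if a i = 1 then 1 else χ i, fun g hg => ?_, fun j => ?_⟩⟩
  · rw [MonoidHom.mem_ker, MonoidHom.finsetProd_apply]
    exact Finset.prod_eq_one fun i _ => by split_ifs; exacts [rfl, h2 i hg]
  · rw [MonoidHom.finsetProd_apply, Finset.prod_eq_single_of_mem j (Finset.mem_univ _) fun i _ hi => by
      split_ifs; exacts [rfl, h4 i j hi.symm]]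
    split_ifs with h
    exacts [h.symm, (h3 j).trans ((Int.units_eq_one_or _).resolve_left h).symm]

variable {G : Type*} [Group G] (s : Finset G)

/-- The boundary map of the Cayley graph. -/
noncomputable def bd : (s → MonoidAlgebra (ZMod 2) G) →ₗ[MonoidAlgebra (ZMod 2) G]
    MonoidAlgebra (ZMod 2) G :=
  Fintype.linearCombination _ fun i => of (ZMod 2) G i - 1

/-- The extension of a group by the cycles of its Cayley graph. -/
@[ext] structure Cay where
  x : s → MonoidAlgebra (ZMod 2) G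
  g : G
  h : bd s x = of (ZMod 2) G g - 1

variable {s}

noncomputable instance : Mul (Cay s) := ⟨fun a b => ⟨a.x + of (ZMod 2) G a.g • b.x, a.g * b.g, by
  rw [map_add, map_smul, a.h, b.h, map_mul, smul_eq_mul, mul_sub, mul_one, sub_add_sub_cancel']⟩⟩

noncomputable instance : One (Cay s) := ⟨⟨0, 1, by rw [map_zero, map_one, sub_self]⟩⟩

noncomputable instance : Inv (Cay s) := ⟨fun a => ⟨-(of (ZMod 2) G a.g⁻¹ • a.x), a.g⁻¹, by
  rw [map_neg, map_smul, a.h, smul_eq_mul, mul_sub, ← map_mul, inv_mul_cancel, map_one, mul_one,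
    neg_sub]⟩⟩

lemma Cay.mul_x (a b : Cay s) : (a * b).x = a.x + of (ZMod 2) G a.g • b.x := rfl

noncomputable instance : Group (Cay s) := Group.ofLeftAxioms
  (fun a b c => Cay.ext (by
    simp only [Cay.mul_x, show (a * b).g = a.g * b.g from rfl, map_mul, mul_smul, smul_add, add_assoc])
    (mul_assoc _ _ _))
  (fun a => Cay.ext ((zero_add _).trans (one_smul _ _)) (one_mul _))
  fun a => Cay.ext (neg_add_cancel _) (inv_mul_cancel _)

variable (s) in
/-- The projection. -/
noncomputable def pr : Cay s →* G := MonoidHom.mk' Cay.g fun _ _ => rfl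

lemma ker_mul {a : Cay s} (h : a ∈ (pr s).ker) (b : Cay s) : (a * b).x = a.x + b.x := by
  rw [Cay.mul_x, show a.g = 1 from h, map_one, one_smul]

lemma conj_x {a : Cay s} (h : a ∈ (pr s).ker) (b : Cay s) :
    (b * a * b⁻¹).x = of (ZMod 2) G b.g • a.x := by
  have h1 := ker_mul ((MonoidHom.normal_ker _).conj_mem a h b) b
  rw [inv_mul_cancel_right, Cay.mul_x, add_comm] at h1
  exact (add_right_cancel h1).symm

/-- The generators. -/
noncomputable def gen [DecidableEq G] (i : s) : Cay s :=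
  ⟨Pi.single i 1, i, by simp [bd]⟩

lemma zmod_cases : ∀ r : ZMod 2, r = 0 ∨ r = 1 := by decide

lemma eq_top_of_gen [DecidableEq G] (hs : closure (s : Set G) = ⊤) {H : Subgroup (Cay s)}
    (h : ∀ i, gen i ∈ H) : (∀ g, ∃ y ∈ H, pr s y = g) ∧ (pr s).ker ≤ H := by
  have h1 : ∀ g, ∃ y ∈ H, pr s y = g := fun g =>
    (hs.ge.trans ((closure_le (H.map (pr s))).2 fun i hi => ⟨gen ⟨i, hi⟩, h _, rfl⟩)) (mem_top g)
  refine ⟨h1, fun r hr => ?_⟩
  choose y hy hy' using h1
  let R : Submodule (ZMod 2) (s → MonoidAlgebra (ZMod 2) G) :=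
    { carrier := {v | ∃ a ∈ H ⊓ (pr s).ker, a.x = v}
      add_mem' := by
        rintro _ _ ⟨a, ha, rfl⟩ ⟨b, hb, rfl⟩
        exact ⟨a * b, mul_mem ha hb, ker_mul ha.2 b⟩
      zero_mem' := ⟨1, one_mem _, rfl⟩
      smul_mem' := fun c v hv => by
        rcases zmod_cases c with rfl | rfl
        exacts [⟨1, one_mem _, (zero_smul _ _).symm⟩, (one_smul (ZMod 2) v).symm ▸ hv] }
  let σ := (MonoidAlgebra.basis G (ZMod 2)).constr (ZMod 2) fun g => (y g).x
  have hσ : ∀ g, σ (of (ZMod 2) G g) = (y g).x := fun g => Module.Basis.constr_basis _ _ _ g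
  have h2 : ∀ v, v - σ (bd s v) ∈ R := fun v => by
    rw [← Finset.univ_sum_single v, map_sum, map_sum, ← Finset.sum_sub_distrib]
    refine sum_mem fun i _ => ?_
    induction v i using MonoidAlgebra.induction_on with
    | of g =>
      have h2 : y g * gen i * (y (g * i))⁻¹ ∈ (pr s).ker := by
        rw [MonoidHom.mem_ker, map_mul, map_mul, map_inv, hy', hy', mul_inv_eq_one]; rfl
      refine ⟨_, mem_inf.2 ⟨mul_mem (mul_mem (hy g) (h i)) (inv_mem (hy _)), h2⟩, ?_⟩
      have h3 := ker_mul h2 (y (g * i))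
      rw [inv_mul_cancel_right, Cay.mul_x, show (y g).g = g from hy' g] at h3
      rw [bd, Fintype.linearCombination_apply_single, smul_eq_mul, mul_sub, ← map_mul, mul_one, map_sub,
        hσ, hσ, ← sub_eq_iff_eq_add.2 h3, gen, ← Pi.single_smul, smul_eq_mul, mul_one]
      abel
    | add a b ha hb =>
      rw [Pi.single_add, map_add, map_add, add_sub_add_comm]
      exact add_mem ha hb
    | smul c a ha =>
      rw [Pi.single_smul, LinearMap.map_smul_of_tower, map_smul, ← smul_sub]
      exact R.smul_mem c ha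
  obtain ⟨a, ha, h3⟩ := h2 r.x
  rw [r.h, show r.g = 1 from hr, map_one, sub_self, map_zero, sub_zero] at h3
  exact (Cay.ext h3 (ha.2.trans hr.symm) : a = r) ▸ ha.1

theorem gs {G : Type} [Group G] [Finite G] (hG : IsPGroup 2 G)
    (h : ∀ (Γ : Type) [Group Γ] [Finite Γ], IsPGroup 2 Γ → ∀ π : Γ →* G, Function.Surjective π →
      (∀ χ : Γ →* ℤˣ, π.ker ≤ χ.ker) → Nat.card {ψ : π.ker →* ℤˣ // ∀ g (r : π.ker),
        ψ ⟨g * r * g⁻¹, (MonoidHom.normal_ker π).conj_mem r r.2 g⟩ = ψ r} ≤ Nat.card (G →* ℤˣ)) :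
    Nat.card (G →* ℤˣ) < 16 := by
  classical
  obtain ⟨s, hs, h1⟩ := exists_dual hG ⊥
  rw [bot_sup_eq] at hs
  let A := MonoidAlgebra (ZMod 2) G
  have : Finite A := Module.finite_of_finite (ZMod 2)
  have : Finite (Cay s) := .of_injective (fun a => (a.x, a.g)) fun a b h =>
    Cay.ext (congrArg Prod.fst h) (congrArg Prod.snd h)
  have h2 : IsPGroup 2 (Cay s) := fun a => by
    obtain ⟨n, hn⟩ := hG (pr s a)
    rw [← map_pow] at hn
    refine ⟨n + 1, Cay.ext ?_ (show pr s _ = 1 by rw [pow_succ, pow_mul, map_pow, hn, one_pow])⟩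
    rw [pow_succ, pow_mul, pow_two, ker_mul hn, ← two_smul (ZMod 2), show (2 : ZMod 2) = 0 from rfl,
      zero_smul]
    rfl
  have h3 : Nat.card (G →* ℤˣ) ≤ 2 ^ Fintype.card s :=
    (Nat.card_le_card_of_injective (fun (χ : G →* ℤˣ) (i : s) => χ i) fun _ _ h =>
      MonoidHom.eq_of_eqOn_dense hs fun i hi => congrFun h ⟨i, hi⟩).trans_eq (by simp)
  let I : Ideal A := RingHom.ker (lift (ZMod 2) (ZMod 2) G 1)
  have hI : ∀ g, of (ZMod 2) G g - 1 ∈ I := fun g => by simp [I, RingHom.mem_ker]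
  have hI' : ∀ a, a ∈ I • (⊤ : Submodule A A) ↔ a ∈ I := fun a =>
    ⟨fun h => Submodule.smul_le.2 (fun a ha b _ => I.mul_mem_right b ha) h,
      fun h => mul_one a ▸ Submodule.smul_mem_smul h Submodule.mem_top⟩
  let f : (pr s).ker →* Multiplicative (s → A) :=
    MonoidHom.mk' (fun a => Multiplicative.ofAdd a.1.x) fun a b => ker_mul a.2 b
  obtain ⟨t, ht, h4⟩ := exists_dual (h2.to_subgroup (pr s).ker)
    ((I • LinearMap.ker (bd s)).toAddSubgroup.toSubgroup.comap f)
  have h5 : ∀ a : (pr s).ker, a.1.x ∈ LinearMap.ker (bd s) := fun a => by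
    rw [LinearMap.mem_ker, a.1.h, show a.1.g = 1 from a.2, map_one, sub_self]
  choose χ hχ hχ' using h4
  have h6 := (Nat.card_le_card_of_injective (fun a : t → ℤˣ => (⟨χ a, fun g r => ?_⟩ :
    {ψ : (pr s).ker →* ℤˣ // ∀ g (r : (pr s).ker),
      ψ ⟨g * r * g⁻¹, (MonoidHom.normal_ker (pr s)).conj_mem r r.2 g⟩ = ψ r}))
    fun a b h => funext fun i => by
      rw [← hχ' a, ← hχ' b, show χ a = χ b from congrArg Subtype.val h]).trans
    ((h (Cay s) h2 (pr s) (fun g => ((eq_top_of_gen hs fun _ => mem_top _).1 g).imp fun _ h => h.2)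
      fun c => ?_).trans h3)
  · rw [Nat.card_fun, Nat.card_eq_fintype_card, Fintype.card_units_int, Nat.card_eq_fintype_card,
      Nat.pow_le_pow_iff_right one_lt_two] at h6
    refine h3.trans_lt ((Nat.pow_lt_pow_iff_right one_lt_two).2 (gs_ring (I := I) (π := bd s)
      (ρ := Fintype.linearCombination A fun j : t => j.1.1.x)
      (fun h => by simpa [I] using (hI' 1).1 (h.ge Submodule.mem_top)) (fun a ha => ?_)
      (fun v hv => ?_) ?_ (fun v hv => ?_) h6))
    · have h7 : a - lift (ZMod 2) (ZMod 2) G 1 a • 1 ∈ LinearMap.range (bd s) := by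
        clear ha
        induction a using MonoidAlgebra.induction_on with
        | of g =>
          obtain ⟨y, -, rfl⟩ := (eq_top_of_gen hs fun _ => mem_top _).1 g
          exact ⟨y.x, y.h.trans (by simp [pr])⟩
        | add a b ha hb =>
          rw [map_add, add_smul, add_sub_add_comm]
          exact add_mem ha hb
        | smul c a ha =>
          rw [map_smul, smul_eq_mul, mul_smul, ← smul_sub]
          exact Submodule.smul_of_tower_mem _ c ha
      rwa [RingHom.mem_ker.1 ((hI' a).1 ha), zero_smul, sub_zero] at h7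
    · refine (mem_Jn_pi (n := 1)).2 fun j => (hI' _).2 ?_
      obtain ⟨c, -, hc⟩ := h1 fun i => if i = j then -1 else 1
      let C := (MonoidAlgebra.basis G (ZMod 2)).constr (ZMod 2) fun g => if c g = 1 then (0 : ZMod 2) else 1
      have hC : ∀ g, C (of (ZMod 2) G g) = if c g = 1 then 0 else 1 :=
        fun g => Module.Basis.constr_basis _ _ _ g
      have h7 : ∀ (i : s) (a : A), C (a • (of (ZMod 2) G i - 1)) =
          if i = j then lift (ZMod 2) (ZMod 2) G 1 a else 0 := fun i a => by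
        induction a using MonoidAlgebra.induction_on with
        | of g =>
          rw [smul_eq_mul, mul_sub, ← map_mul, mul_one, map_sub, hC, hC, map_mul, hc, lift_of]
          rcases Int.units_eq_one_or (c g) with h | h <;> by_cases h' : i = j <;> simp [h, h']
        | add a b ha hb => rw [add_smul, map_add, ha, hb, map_add]; split_ifs <;> simp
        | smul r a ha => rw [smul_assoc, map_smul, ha, map_smul]; split_ifs <;> simp
      have h8 := congrArg C hv
      rwa [bd, Fintype.linearCombination_apply, map_sum, map_zero, Finset.sum_congr rfl fun i _ => h7 i _,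
        Finset.sum_ite_eq', if_pos (Finset.mem_univ _)] at h8
    · rw [Fintype.range_linearCombination, Submodule.span_le]
      rintro _ ⟨j, rfl⟩
      exact h5 j
    · refine (ht.ge.trans (sup_le (comap_mono ?_) ((closure_le (AddSubgroup.toSubgroup
        (Submodule.toAddSubgroup (LinearMap.range (Fintype.linearCombination A fun j : t => j.1.1.x) ⊔
          I • LinearMap.ker (bd s))) |>.comap f)).2 fun j hj => ?_))) (mem_top
        ⟨⟨v, 1, by rw [hv, map_one, sub_self]⟩, rfl⟩)
      · exact fun x h => Submodule.mem_sup_right (R := A) (x := x.toAdd) h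
      · exact Submodule.mem_sup_left (R := A) ⟨Pi.single ⟨j, hj⟩ 1, by simp [f]⟩
  · rw [← mul_inv_eq_one, ← map_inv, ← map_mul]
    refine hχ a ?_
    change Multiplicative.toAdd (f _) ∈ I • LinearMap.ker (bd s)
    rw [map_mul, map_inv, toAdd_mul, toAdd_inv, ← sub_eq_add_neg]
    change (g * r * g⁻¹).x - r.1.x ∈ _
    rw [conj_x r.2, ← one_smul A r.1.x, smul_smul, mul_one, ← sub_smul]
    exact Submodule.smul_mem_smul (hI _) (h5 r)
  · obtain ⟨c', -, hc⟩ := h1 fun i => c (gen i)
    intro r hr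
    have h7 := (eq_top_of_gen hs (H := (c / c'.comp (pr s)).ker) fun i => div_eq_one.2 (hc i).symm).2 hr
    rwa [MonoidHom.mem_ker, MonoidHom.div_apply, MonoidHom.comp_apply, hr, map_one, div_one] at h7

end Pool.Agent.Lib.MP_580eba_nt
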