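import Mathlib

-- part Pool.Agent.Lib.MP_580eba_nt.Hex
section

/-!
Herbrand quotients of subquotients of an abelian group.
-/

namespace Pool.Agent.Lib.MP_580eba_nt

open Subgroup

variable {M M' : Type*} [CommGroup M] [CommGroup M']

/-- The order of `ker φ / range ψ` on the subquotient `B / A`. -/
noncomputable def hq (φ ψ : M →* M) (A B : Subgroup M) : ℕ :=
  (B.map ψ ⊔ A).relIndex (A.comap φ ⊓ B)

/-- Stability under both maps. -/
structure Stab (φ ψ : M →* M) (A : Subgroup M) : Prop where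
  l : A.map φ ≤ A
  r : A.map ψ ≤ A

lemma Stab.symm {φ ψ : M →* M} {A : Subgroup M} (h : Stab φ ψ A) : Stab ψ φ A := ⟨h.r, h.l⟩

lemma stab_top (φ ψ : M →* M) : Stab φ ψ ⊤ := ⟨le_top, le_top⟩

lemma stab_bot (φ ψ : M →* M) : Stab φ ψ ⊥ := ⟨by simp, by simp⟩

lemma Stab.sup {φ ψ : M →* M} {A B : Subgroup M} (hA : Stab φ ψ A) (hB : Stab φ ψ B) :
    Stab φ ψ (A ⊔ B) :=
  ⟨by rw [Subgroup.map_sup]; exact sup_le_sup hA.l hB.l,
    by rw [Subgroup.map_sup]; exact sup_le_sup hA.r hB.r⟩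

lemma relIndex_sup_of_le {A X K : Subgroup M} (h : A ≤ X) :
    X.relIndex (K ⊔ A) = X.relIndex K := by
  rw [← relIndex_sup_right K X, ← relIndex_sup_right (K ⊔ A) X, sup_assoc, sup_eq_right.2 h]

lemma relIndex_congr_left {X Y K : Subgroup M} (h : X ⊓ K = Y ⊓ K) :
    X.relIndex K = Y.relIndex K := by
  rw [← inf_relIndex_right, h, inf_relIndex_right]

lemma comap_map_sup (f : M →* M') (S : Subgroup M) (A : Subgroup M') :
    (S.map f ⊔ A).comap f = S ⊔ A.comap f := by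
  refine le_antisymm (fun x hx => ?_) (sup_le (fun x hx => ?_) (comap_mono le_sup_right))
  · obtain ⟨_, ⟨s, hs, rfl⟩, a, ha, h⟩ := mem_sup.1 hx
    refine mem_sup.2 ⟨s, hs, s⁻¹ * x, ?_, by simp⟩
    rw [mem_comap, map_mul, map_inv, ← h]
    simpa using ha
  · exact mem_comap.2 (mem_sup_left (mem_map_of_mem f hx))

lemma hex_half {φ ψ : M →* M} (h0 : ∀ x, φ (ψ x) = 1) {A B C : Subgroup M} (hAB : A ≤ B)
    (hBC : B ≤ C) (hA : Stab φ ψ A) (hB : Stab φ ψ B) (hC : Stab φ ψ C) :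
    ∃ β γ : ℕ, hq φ ψ B C = (B.map φ ⊔ A).relIndex (C.map φ ⊓ B) * β ∧ hq φ ψ A C = β * γ ∧
      hq φ ψ A B = γ * (B.map ψ ⊔ A).relIndex (C.map ψ ⊓ B) := by
  have hAφ : A ≤ A.comap φ := map_le_iff_le_comap.1 hA.l
  have hBφ : B ≤ B.comap φ := map_le_iff_le_comap.1 hB.l
  have hψ : ∀ D E : Subgroup M, D.map ψ ≤ E.comap φ := by
    rintro D E _ ⟨x, -, rfl⟩
    rw [mem_comap, h0]
    exact one_mem _
  set K := A.comap φ ⊓ C with hK
  set R := C.map ψ ⊔ A with hR
  set X := C.map ψ ⊔ B with hX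
  have hRK : R ≤ K := sup_le (le_inf (hψ _ _) hC.r) (le_inf hAφ (hAB.trans hBC))
  refine ⟨X.relIndex K, R.relIndex (B ⊓ K), ?_, ?_, ?_⟩
  · have h1 : X ≤ K ⊔ B := sup_le_sup_right (le_sup_left.trans hRK) _
    have h2 : K ⊔ B ≤ B.comap φ ⊓ C :=
      sup_le (inf_le_inf_right _ (comap_mono hAB)) (le_inf hBφ hBC)
    rw [hq, ← relIndex_mul_relIndex _ _ _ h1 h2, relIndex_sup_of_le le_sup_right, mul_comm]
    congr 1
    have h3 : (K ⊔ B) ⊓ (B.comap φ ⊓ C) = (B.map φ ⊔ A).comap φ ⊓ (B.comap φ ⊓ C) := by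
      rw [comap_map_sup, inf_eq_left.2 h2, inf_comm (B.comap φ), ← inf_assoc, sup_inf_assoc_of_le _ hBC,
        ← hK, sup_comm B K]
      exact (inf_eq_left.2 (h2.trans inf_le_left)).symm
    rw [relIndex_congr_left h3, relIndex_comap]
    congr 1
    refine le_antisymm (le_inf (map_mono inf_le_right) ?_) ?_
    · rintro _ ⟨x, hx, rfl⟩
      exact hx.1
    · rintro _ ⟨⟨x, hx, rfl⟩, hx'⟩
      exact ⟨x, ⟨hx', hx⟩, rfl⟩
  · have h1 : X ⊓ K = R ⊔ (B ⊓ K) := by
      rw [← sup_inf_assoc_of_le _ hRK, hR, sup_assoc, sup_eq_right.2 hAB]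
    rw [hq, ← hK, ← hR, ← relIndex_mul_relIndex R (X ⊓ K) K (by rw [h1]; exact le_sup_left)
      inf_le_right, inf_relIndex_right, h1, relIndex_sup_left, mul_comm]
  · have h1 : A.comap φ ⊓ B = B ⊓ K := by
      rw [hK, inf_comm _ C, ← inf_assoc, inf_eq_left.2 hBC, inf_comm]
    have h2 : B.map ψ ⊔ A ≤ R ⊓ B :=
      le_inf (sup_le_sup_right (map_mono hBC) _) (sup_le hB.r hAB)
    rw [hq, h1, ← relIndex_mul_relIndex _ (R ⊓ B) (B ⊓ K) h2
      (le_inf inf_le_right (inf_le_left.trans hRK)), mul_comm]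
    congr 1
    · exact relIndex_congr_left (by rw [inf_assoc, ← inf_assoc B, inf_idem])
    · rw [hR, sup_comm (C.map ψ), sup_inf_assoc_of_le _ hAB, sup_comm A, relIndex_sup_of_le le_sup_right]

/-- The Herbrand quotient of `B / A` is defined and equals `r`. -/
def HQ (φ ψ : M →* M) (A B : Subgroup M) (r : ℚ) : Prop :=
  hq φ ψ A B ≠ 0 ∧ hq ψ φ A B ≠ 0 ∧ (hq φ ψ A B : ℚ) = r * hq ψ φ A B

lemma HQ.ne_zero {φ ψ : M →* M} {A B : Subgroup M} {r : ℚ} (h : HQ φ ψ A B r) : r ≠ 0 := by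
  rintro rfl
  exact h.1 (by simpa using h.2.2)

section three

variable {φ ψ : M →* M} (h0 : ∀ x, φ (ψ x) = 1) (h1 : ∀ x, ψ (φ x) = 1) {A B C : Subgroup M}
  (hAB : A ≤ B) (hBC : B ≤ C) (hA : Stab φ ψ A) (hB : Stab φ ψ B) (hC : Stab φ ψ C)

include h0 h1 hAB hBC hA hB hC

lemma HQ.mid {r s : ℚ} (hr : HQ φ ψ A B r) (hs : HQ φ ψ B C s) : HQ φ ψ A C (r * s) := by
  obtain ⟨β, γ, e1, e2, e3⟩ := hex_half h0 hAB hBC hA hB hC
  obtain ⟨β', γ', f1, f2, f3⟩ := hex_half h1 hAB hBC hA.symm hB.symm hC.symm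
  simp only [HQ, e1, e2, e3, f1, f2, f3, ne_eq, mul_eq_zero, not_or, Nat.cast_mul] at hr hs ⊢
  obtain ⟨⟨a1, a2⟩, ⟨a3, a4⟩, a5⟩ := hr
  obtain ⟨⟨b1, b2⟩, ⟨b3, b4⟩, b5⟩ := hs
  refine ⟨⟨b2, a1⟩, ⟨b4, a3⟩, ?_⟩
  have c1 := (Nat.cast_ne_zero (R := ℚ)).2 a2
  have c2 := (Nat.cast_ne_zero (R := ℚ)).2 a4
  refine mul_left_cancel₀ (mul_ne_zero c1 c2) ?_
  linear_combination (((B.map φ ⊔ A).relIndex (C.map φ ⊓ B) : ℚ) * β) * a5 +
    (r * γ' * ((B.map φ ⊔ A).relIndex (C.map φ ⊓ B) : ℚ)) * b5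

lemma HQ.right {r t : ℚ} (hr : HQ φ ψ A B r) (ht : HQ φ ψ A C t) : HQ φ ψ B C (t / r) := by
  have hr0 := hr.ne_zero
  obtain ⟨β, γ, e1, e2, e3⟩ := hex_half h0 hAB hBC hA hB hC
  obtain ⟨β', γ', f1, f2, f3⟩ := hex_half h1 hAB hBC hA.symm hB.symm hC.symm
  simp only [HQ, e1, e2, e3, f1, f2, f3, ne_eq, mul_eq_zero, not_or, Nat.cast_mul] at hr ht ⊢
  obtain ⟨⟨a1, a2⟩, ⟨a3, a4⟩, a5⟩ := hr
  obtain ⟨⟨b1, b2⟩, ⟨b3, b4⟩, b5⟩ := ht
  refine ⟨⟨a4, b1⟩, ⟨a2, b3⟩, ?_⟩
  have c1 := (Nat.cast_ne_zero (R := ℚ)).2 a3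
  rw [div_mul_eq_mul_div, eq_div_iff hr0]
  refine mul_left_cancel₀ c1 ?_
  linear_combination (((B.map ψ ⊔ A).relIndex (C.map ψ ⊓ B) : ℚ)) * b5 - β * a5

lemma HQ.left {s t : ℚ} (hs : HQ φ ψ B C s) (ht : HQ φ ψ A C t) : HQ φ ψ A B (t / s) := by
  have hs0 := hs.ne_zero
  obtain ⟨β, γ, e1, e2, e3⟩ := hex_half h0 hAB hBC hA hB hC
  obtain ⟨β', γ', f1, f2, f3⟩ := hex_half h1 hAB hBC hA.symm hB.symm hC.symm
  simp only [HQ, e1, e2, e3, f1, f2, f3, ne_eq, mul_eq_zero, not_or, Nat.cast_mul] at hs ht ⊢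
  obtain ⟨⟨a1, a2⟩, ⟨a3, a4⟩, a5⟩ := hs
  obtain ⟨⟨b1, b2⟩, ⟨b3, b4⟩, b5⟩ := ht
  refine ⟨⟨b2, a3⟩, ⟨b4, a1⟩, ?_⟩
  have c1 := (Nat.cast_ne_zero (R := ℚ)).2 a4
  rw [div_mul_eq_mul_div, eq_div_iff hs0]
  refine mul_left_cancel₀ c1 ?_
  linear_combination (((B.map φ ⊔ A).relIndex (C.map φ ⊓ B) : ℚ)) * b5 - γ * a5

end three

lemma HQ.of_finite {φ ψ : M →* M} (h0 : ∀ x, φ (ψ x) = 1) (h1 : ∀ x, ψ (φ x) = 1)
    {A B : Subgroup M} (hAB : A ≤ B) (hA : Stab φ ψ A) (hB : Stab φ ψ B)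
    (h : A.relIndex B ≠ 0) : HQ φ ψ A B 1 := by
  have key : ∀ φ ψ : M →* M, (∀ x, φ (ψ x) = 1) → Stab φ ψ A → Stab φ ψ B →
      A.relIndex (B.map ψ) * hq φ ψ A B * A.relIndex (B.map φ) = A.relIndex B := by
    intro φ ψ h0 hA hB
    have h2 : B.map ψ ⊔ A ≤ A.comap φ ⊓ B := by
      refine le_inf (sup_le ?_ (map_le_iff_le_comap.1 hA.l)) (sup_le hB.r hAB)
      rintro _ ⟨x, -, rfl⟩
      rw [mem_comap, h0]
      exact one_mem _
    rw [← relIndex_comap A φ, ← inf_relIndex_right (A.comap φ), ← relIndex_sup_right (B.map ψ) A, hq,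
      relIndex_mul_relIndex _ _ _ le_sup_right h2,
      relIndex_mul_relIndex _ _ _ (le_sup_right.trans h2) inf_le_right]
  have k1 := key φ ψ h0 hA hB
  have k2 := key ψ φ h1 hA.symm hB.symm
  have k3 := h
  rw [← k1] at k3
  simp only [ne_eq, mul_eq_zero, not_or] at k3
  have k4 : hq φ ψ A B = hq ψ φ A B := by
    refine mul_left_cancel₀ (mul_ne_zero k3.1.1 k3.2) ?_
    linear_combination k1 - k2
  exact ⟨k3.1.2, k4 ▸ k3.1.2, by simp [k4]⟩

lemma hq_transfer {φ ψ : M →* M} {φ' ψ' : M' →* M'} (f : M →* M') (hφ : ∀ x, f (φ x) = φ' (f x))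
    (hψ : ∀ x, f (ψ x) = ψ' (f x)) {A' : Subgroup M'} {B : Subgroup M} (hA : Stab φ' ψ' A')
    (hB : Stab φ ψ B) :
    hq φ ψ (A'.comap f ⊓ B) B = hq φ' ψ' A' (B.map f ⊔ A') := by
  have hAφ : A' ≤ A'.comap φ' := map_le_iff_le_comap.1 hA.l
  have h1 : (B.map f ⊔ A').map ψ' ⊔ A' = (B.map ψ).map f ⊔ A' := by
    rw [Subgroup.map_sup, sup_assoc, sup_eq_right.2 hA.r, map_map, map_map]
    congr 2
    ext x
    exact (hψ x).symm
  have h2 : A'.comap φ' ⊓ (B.map f ⊔ A') = ((A'.comap f ⊓ B).comap φ ⊓ B).map f ⊔ A' := by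
    rw [inf_comm, sup_comm, sup_inf_assoc_of_le _ hAφ, sup_comm]
    congr 1
    refine le_antisymm ?_ ?_
    · rintro _ ⟨⟨x, hx, rfl⟩, hx'⟩
      refine ⟨x, ⟨⟨?_, hB.l ⟨x, hx, rfl⟩⟩, hx⟩, rfl⟩
      change f (φ x) ∈ A'
      rw [hφ]
      exact hx'
    · rintro _ ⟨x, ⟨hx, hx'⟩, rfl⟩
      refine ⟨⟨x, hx', rfl⟩, ?_⟩
      change φ' (f x) ∈ A'
      rw [← hφ]
      exact hx.1
  rw [hq, hq, h1, h2, relIndex_sup_of_le le_sup_right, ← relIndex_comap, comap_map_sup]
  refine relIndex_congr_left ?_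
  rw [← sup_inf_assoc_of_le _ hB.r, inf_assoc, inf_eq_right.2 (inf_le_right (b := B))]

lemma HQ.transfer {φ ψ : M →* M} {φ' ψ' : M' →* M'} (f : M →* M') (hφ : ∀ x, f (φ x) = φ' (f x))
    (hψ : ∀ x, f (ψ x) = ψ' (f x)) {A' : Subgroup M'} {B : Subgroup M} (hA : Stab φ' ψ' A')
    (hB : Stab φ ψ B) {r : ℚ} :
    HQ φ ψ (A'.comap f ⊓ B) B r ↔ HQ φ' ψ' A' (B.map f ⊔ A') r := by
  rw [HQ, HQ, hq_transfer f hφ hψ hA hB, hq_transfer f hψ hφ hA.symm hB.symm]

end Pool.Agent.Lib.MP_580eba_nt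
end

-- part Pool.Agent.Lib.MP_580eba_nt.Cyc
section

/-!
Modules over a finite cyclic group.
-/

namespace Pool.Agent.Lib.MP_580eba_nt

open Subgroup

variable {G : Type*} [Group G] {M : Type*} [CommGroup M]

/-- The map `x ↦ σ x / x`. -/
def phi (a : G →* Monoid.End M) (σ : G) : M →* M where
  toFun x := a σ x / x
  map_one' := by simp
  map_mul' x y := by rw [map_mul, mul_div_mul_comm]

/-- The norm map. -/
noncomputable def nrm [Fintype G] (a : G →* Monoid.End M) : M →* M where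
  toFun x := ∏ g, a g x
  map_one' := by simp
  map_mul' x y := by simp [Finset.prod_mul_distrib]

lemma phi_apply (a : G →* Monoid.End M) (σ : G) (x : M) : phi a σ x = a σ x / x := rfl

lemma nrm_apply [Fintype G] (a : G →* Monoid.End M) (x : M) : nrm a x = ∏ g, a g x := rfl

lemma act_mul (a : G →* Monoid.End M) (g h : G) (x : M) : a (g * h) x = a g (a h x) := by
  rw [map_mul]; rfl

lemma act_one (a : G →* Monoid.End M) (x : M) : a 1 x = x := by
  rw [map_one]; rfl

lemma nrm_act [Fintype G] (a : G →* Monoid.End M) (g : G) (x : M) : nrm a (a g x) = nrm a x := by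
  rw [nrm_apply, nrm_apply]
  exact Fintype.prod_equiv (Equiv.mulRight g) _ _ fun h => (act_mul a h g x).symm

lemma act_nrm [Fintype G] (a : G →* Monoid.End M) (g : G) (x : M) : a g (nrm a x) = nrm a x := by
  rw [nrm_apply, map_prod]
  exact Fintype.prod_equiv (Equiv.mulLeft g) _ _ fun h => (act_mul a g h x).symm

lemma phi_nrm [Fintype G] (a : G →* Monoid.End M) (σ : G) (x : M) : phi a σ (nrm a x) = 1 := by
  rw [phi_apply, act_nrm, div_self']

lemma nrm_phi [Fintype G] (a : G →* Monoid.End M) (σ : G) (x : M) : nrm a (phi a σ x) = 1 := by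
  rw [phi_apply, map_div, nrm_act, div_self']

/-- A subgroup stable under the action. -/
def GSt (a : G →* Monoid.End M) (A : Subgroup M) : Prop := ∀ g, ∀ x ∈ A, a g x ∈ A

lemma GSt.stab [Fintype G] {a : G →* Monoid.End M} {A : Subgroup M} (h : GSt a A) (σ : G) :
    Stab (phi a σ) (nrm a) A := by
  constructor
  · rintro _ ⟨x, hx, rfl⟩
    exact div_mem (h _ _ hx) hx
  · rintro _ ⟨x, hx, rfl⟩
    exact prod_mem fun g _ => h _ _ hx

lemma GSt.sup {a : G →* Monoid.End M} {A B : Subgroup M} (hA : GSt a A) (hB : GSt a B) :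
    GSt a (A ⊔ B) := by
  intro g x hx
  obtain ⟨y, hy, z, hz, rfl⟩ := mem_sup.1 hx
  rw [map_mul]
  exact mul_mem (mem_sup_left (hA _ _ hy)) (mem_sup_right (hB _ _ hz))

lemma gst_top (a : G →* Monoid.End M) : GSt a ⊤ := fun _ _ _ => mem_top _

lemma gst_bot (a : G →* Monoid.End M) : GSt a ⊥ := fun g x hx => by
  rw [mem_bot.1 hx, map_one]; exact one_mem _

lemma GSt.act_div_mem [Finite G] {a : G →* Monoid.End M} {A : Subgroup M} (h : GSt a A) {σ : G}
    (hσ : ∀ g, g ∈ zpowers σ) {x : M} (hx : phi a σ x ∈ A) (g : G) : a g x / x ∈ A := by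
  obtain ⟨n, rfl⟩ := (mem_powers_iff_mem_zpowers).2 (hσ g)
  induction n with
  | zero => simp [one_mem]
  | succ n ih =>
    have : a (σ ^ (n + 1)) x / x = a (σ ^ n) (phi a σ x) * (a (σ ^ n) x / x) := by
      rw [pow_succ, act_mul, phi_apply, map_div, div_mul_div_cancel]
    simp only at ih ⊢
    rw [this]
    exact mul_mem (h _ _ hx) ih

lemma gst_range_phi (a : G →* Monoid.End M) {σ : G} (hσ : ∀ g, g ∈ zpowers σ) :
    GSt a (phi a σ).range := by
  rintro g _ ⟨x, rfl⟩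
  refine ⟨a g x, ?_⟩
  obtain ⟨n, rfl⟩ := hσ g
  simp only
  rw [phi_apply, phi_apply, map_div, ← act_mul, ← act_mul, (Commute.self_zpow σ n).eq]

lemma higman [Fintype G] (a : G →* Monoid.End M) {σ : G} (hσ : ∀ g, g ∈ zpowers σ) (ρ : M →* M)
    (hρ : ∀ m, ∏ g, a g (ρ (a g⁻¹ m)) = m) :
    (∀ m, phi a σ m = 1 → ∃ y, nrm a y = m) ∧ (∀ m, nrm a m = 1 → ∃ y, phi a σ y = m) := by
  refine ⟨fun m hm => ⟨ρ m, ?_⟩, fun m hm => ?_⟩
  · conv_rhs => rw [← hρ m]
    refine Finset.prod_congr rfl fun g _ => ?_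
    rw [div_eq_one.1 (mem_bot.1 ((gst_bot a).act_div_mem hσ (mem_bot.2 hm) g⁻¹))]
  · have h1 : ∏ g, ρ (a g⁻¹ m) = 1 := by
      rw [← map_prod, ← map_one ρ, ← hm, nrm_apply]
      congr 1
      exact Fintype.prod_equiv (Equiv.inv G) _ _ fun g => rfl
    have h2 : m = ∏ g, (a g (ρ (a g⁻¹ m)) / ρ (a g⁻¹ m)) := by
      rw [Finset.prod_div_distrib, h1, div_one, hρ]
    have h3 : m ∈ (phi a σ).range := by
      rw [h2]
      exact prod_mem fun g _ => (gst_range_phi a hσ).act_div_mem hσ ⟨_, rfl⟩ g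
    exact h3

lemma HQ.of_trivial {φ ψ : M →* M} (h0 : ∀ m, φ m = 1 → ∃ y, ψ y = m)
    (h1 : ∀ m, ψ m = 1 → ∃ y, φ y = m) : HQ φ ψ ⊥ ⊤ 1 := by
  have key : ∀ φ ψ : M →* M, (∀ m, φ m = 1 → ∃ y, ψ y = m) → hq φ ψ ⊥ ⊤ = 1 := by
    intro φ ψ h
    rw [hq, relIndex_eq_one]
    rintro m ⟨hm, -⟩
    obtain ⟨y, rfl⟩ := h m hm
    exact mem_sup_left ⟨y, mem_top _, rfl⟩
  simp [HQ, key _ _ h0, key _ _ h1]

/-- The twisted action on functions. -/
def tw (X : Type*) [MulAction G X] (a : G →* Monoid.End M) : G →* Monoid.End (X → M) where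
  toFun g :=
    { toFun := fun j x => a g (j (g⁻¹ • x))
      map_one' := by ext x; simp
      map_mul' := fun j k => by ext x; simp }
  map_one' := by
    ext j x
    change a 1 (j (1⁻¹ • x)) = j x
    rw [act_one, inv_one, one_smul]
  map_mul' g h := by
    ext j x
    change a (g * h) (j ((g * h)⁻¹ • x)) = a g (a h (j (h⁻¹ • g⁻¹ • x)))
    rw [act_mul, mul_inv_rev, mul_smul]

lemma tw_apply {X : Type*} [MulAction G X] (a : G →* Monoid.End M) (g : G) (j : X → M) (x : X) :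
    tw X a g j x = a g (j (g⁻¹ • x)) := rfl

lemma tw_free [Fintype G] {X : Type*} [MulAction G X] (hX : ∀ (g : G) (x : X), g • x = x → g = 1)
    (a : G →* Monoid.End M) {σ : G} (hσ : ∀ g, g ∈ zpowers σ) :
    (∀ m, phi (tw X a) σ m = 1 → ∃ y, nrm (tw X a) y = m) ∧
      (∀ m, nrm (tw X a) m = 1 → ∃ y, phi (tw X a) σ y = m) := by
  classical
  let r : X → X := fun x => (Quotient.mk (MulAction.orbitRel G X) x).out
  let ρ : (X → M) →* (X → M) :=
    { toFun := fun j x => if r x = x then j x else 1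
      map_one' := by ext x; simp
      map_mul' := fun j k => by ext x; simp only [Pi.mul_apply]; split_ifs <;> simp }
  refine higman _ hσ ρ fun m => ?_
  ext x
  have hr : ∀ (g : G), r (g • x) = r x := fun g =>
    congrArg Quotient.out (Quotient.sound (MulAction.mem_orbit x g))
  obtain ⟨g₀, hg₀⟩ : ∃ g : G, g • x = r x :=
    (Quotient.exact (Quotient.out_eq (Quotient.mk (MulAction.orbitRel G X) x)) :
      r x ∈ MulAction.orbit G x)
  rw [Finset.prod_apply, Finset.prod_eq_single g₀⁻¹]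
  · change a g₀⁻¹ (if r (g₀⁻¹⁻¹ • x) = g₀⁻¹⁻¹ • x then a g₀⁻¹⁻¹ (m (g₀⁻¹⁻¹⁻¹ • g₀⁻¹⁻¹ • x)) else 1) = _
    rw [hr, inv_inv, if_pos hg₀.symm, ← act_mul, inv_mul_cancel, act_one, inv_smul_smul]
  · intro g _ hg
    change a g (if r (g⁻¹ • x) = g⁻¹ • x then _ else 1) = _
    rw [hr, if_neg, map_one]
    intro h
    apply hg
    have := hX (g * g₀) x (by rw [mul_smul, hg₀, h, smul_inv_smul])
    exact eq_inv_of_mul_eq_one_left this
  · simp

/-- Hilbert 90 for a finite group acting faithfully on a field. -/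
lemma h90 {L : Type*} [Field L] [Finite G] [MulSemiringAction G L] (N : Subgroup G)
    (hN : ∀ g ∈ N, (∀ x : L, g • x = x) → g = 1) (f : G → L) (hf0 : ∀ g ∈ N, f g ≠ 0)
    (hf : ∀ g ∈ N, ∀ h ∈ N, f (g * h) = f g * g • f h) :
    ∃ y : L, y ≠ 0 ∧ ∀ g ∈ N, f g * g • y = y := by
  classical
  let _ : Fintype N := Fintype.ofFinite N
  have hli : LinearIndependent L fun g : N => ((MulSemiringAction.toRingHom G L g : L →* L) : L → L) := by
    refine (linearIndependent_monoidHom L L).comp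
      (fun g : N => (MulSemiringAction.toRingHom G L g : L →* L)) fun g h hgh => ?_
    have := hN ((h : G)⁻¹ * g) (mul_mem (inv_mem h.2) g.2) fun x => by
      rw [mul_smul, inv_smul_eq_iff]
      exact DFunLike.congr_fun hgh x
    exact Subtype.ext (inv_mul_eq_one.1 this).symm
  obtain ⟨x, hx⟩ : ∃ x : L, ∑ g : N, f g * (g : G) • x ≠ 0 := by
    by_contra! h
    have := Fintype.linearIndependent_iff.1 hli (fun g => f g) (by ext x; simpa using h x) 1
    exact hf0 1 (one_mem _) this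
  refine ⟨_, hx, fun g hg => ?_⟩
  rw [Finset.smul_sum, Finset.mul_sum]
  refine Fintype.sum_equiv (Equiv.mulLeft ⟨g, hg⟩) _ _ fun h => ?_
  simp only [Equiv.coe_mulLeft, Subgroup.coe_mul]
  rw [hf _ hg _ h.2, smul_mul', mul_smul, mul_assoc]

end Pool.Agent.Lib.MP_580eba_nt
end

-- part Pool.Agent.Lib.MP_580eba_nt.Val
section

/-!
Valuations of number fields.
-/

namespace Pool.Agent.Lib.MP_580eba_nt

open NumberField IsDedekindDomain WithZero
open scoped nonZeroDivisors Pointwise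

/-- Finite primes. -/
abbrev Pl (K : Type*) [Field K] := HeightOneSpectrum (𝓞 K)

variable {K : Type*} [Field K] [NumberField K]

/-- The valuation at a finite prime. -/
noncomputable abbrev val (v : Pl K) : Valuation K ℤᵐ⁰ := v.valuation K

/-- The additive valuation. -/
noncomputable def ord (v : Pl K) (x : K) : ℤ := -log (val v x)

lemma val_ne_zero (v : Pl K) {x : K} (hx : x ≠ 0) : val v x ≠ 0 := (Valuation.ne_zero_iff _).2 hx

lemma val_pos (v : Pl K) {x : K} (hx : x ≠ 0) : 0 < val v x := zero_lt_iff.2 (val_ne_zero v hx)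

lemma val_eq_exp (v : Pl K) {x : K} (hx : x ≠ 0) : val v x = exp (-ord v x) := by
  rw [ord, neg_neg, exp_log (val_ne_zero v hx)]

lemma ord_eq_of_val {v : Pl K} {x : K} {n : ℤ} (h : val v x = exp (-n)) : ord v x = n := by
  rw [ord, h, log_exp, neg_neg]

lemma ord_mul (v : Pl K) {x y : K} (hx : x ≠ 0) (hy : y ≠ 0) :
    ord v (x * y) = ord v x + ord v y := by
  rw [ord, map_mul, log_mul (val_ne_zero v hx) (val_ne_zero v hy), neg_add, ord, ord]

lemma ord_one (v : Pl K) : ord v 1 = 0 := by simp [ord]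

lemma ord_inv (v : Pl K) (x : K) : ord v x⁻¹ = -ord v x := by simp [ord]

lemma ord_neg (v : Pl K) (x : K) : ord v (-x) = ord v x := by simp [ord]

lemma ord_div (v : Pl K) {x y : K} (hx : x ≠ 0) (hy : y ≠ 0) :
    ord v (x / y) = ord v x - ord v y := by
  rw [div_eq_mul_inv, ord_mul v hx (inv_ne_zero hy), ord_inv, sub_eq_add_neg]

lemma ord_zpow (v : Pl K) (x : K) (n : ℤ) : ord v (x ^ n) = n * ord v x := by
  simp [ord]

lemma ord_pow (v : Pl K) (x : K) (n : ℕ) : ord v (x ^ n) = n * ord v x := by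
  simp [ord]

lemma ord_eq_zero_iff (v : Pl K) {x : K} (hx : x ≠ 0) : ord v x = 0 ↔ val v x = 1 := by
  rw [val_eq_exp v hx, ← exp_zero, exp_inj, neg_eq_zero]

lemma ord_eq_iff (v : Pl K) {x y : K} (hx : x ≠ 0) (hy : y ≠ 0) :
    ord v x = ord v y ↔ val v x = val v y := by
  rw [val_eq_exp v hx, val_eq_exp v hy, exp_inj, neg_inj]

lemma ord_congr {v : Pl K} {x y : K} (h : val v x = val v y) : ord v x = ord v y := by
  rw [ord, ord, h]

lemma exists_ord_eq (v : Pl K) (n : ℤ) : ∃ x : K, x ≠ 0 ∧ ord v x = n := by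
  obtain ⟨π, hπ⟩ := v.valuation_exists_uniformizer K
  have h0 : π ≠ 0 := by rintro rfl; simp only [map_zero] at hπ; exact exp_ne_zero hπ.symm
  exact ⟨π ^ n, zpow_ne_zero _ h0, by rw [ord_zpow, ord_eq_of_val (n := 1) hπ, mul_one]⟩

lemma val_int_le (v : Pl K) (x : 𝓞 K) : val v x ≤ 1 := v.valuation_le_one x

lemma val_int_lt (v : Pl K) (x : 𝓞 K) : val v x < 1 ↔ x ∈ v.asIdeal := v.valuation_lt_one_iff_mem x

lemma val_natCast_le (v : Pl K) (n : ℕ) : val v (n : K) ≤ 1 := by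
  simpa using val_int_le v (n : 𝓞 K)

lemma val_intCast_le (v : Pl K) (n : ℤ) : val v (n : K) ≤ 1 := by
  simpa using val_int_le v (n : 𝓞 K)

lemma count_eq_ord (v : Pl K) {x : K} (hx : x ≠ 0) :
    FractionalIdeal.count K v (FractionalIdeal.spanSingleton (𝓞 K)⁰ x) = ord v x := by
  have key : ∀ a : 𝓞 K, a ≠ 0 →
      FractionalIdeal.count K v (FractionalIdeal.spanSingleton (𝓞 K)⁰ (a : K)) = ord v a := by
    intro a ha
    have h1 : FractionalIdeal.spanSingleton (𝓞 K)⁰ (a : K) = (Ideal.span {a} : Ideal (𝓞 K)) :=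
      (FractionalIdeal.coeIdeal_span_singleton a).symm
    rw [h1, FractionalIdeal.count_coe K v (by simpa using ha)]
    refine (ord_eq_of_val ?_).symm
    exact (v.valuation_of_algebraMap a).trans (v.intValuation_if_neg ha)
  obtain ⟨a, b, hb, rfl⟩ := IsFractionRing.div_surjective (A := 𝓞 K) x
  have hb0 : b ≠ 0 := nonZeroDivisors.ne_zero hb
  have ha0 : a ≠ 0 := by rintro rfl; simp at hx
  have hb1 : (b : K) ≠ 0 := by simpa using hb0
  have ha1 : (a : K) ≠ 0 := by simpa using ha0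
  change FractionalIdeal.count K v (FractionalIdeal.spanSingleton (𝓞 K)⁰ ((a : K) / b)) =
    ord v ((a : K) / b)
  rw [ord_div v ha1 hb1, ← key a ha0, ← key b hb0, div_eq_mul_inv,
    ← FractionalIdeal.spanSingleton_mul_spanSingleton,
    FractionalIdeal.count_mul K v (FractionalIdeal.spanSingleton_ne_zero_iff.2 ha1)
      (FractionalIdeal.spanSingleton_ne_zero_iff.2 (inv_ne_zero hb1)),
    ← FractionalIdeal.spanSingleton_inv, FractionalIdeal.count_inv, sub_eq_add_neg]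

lemma finite_ord (x : K) : {v : Pl K | ord v x ≠ 0}.Finite := by
  rcases eq_or_ne x 0 with rfl | hx
  · simp [ord]
  · have := FractionalIdeal.finite_factors (K := K) (FractionalIdeal.spanSingleton (𝓞 K)⁰ x)
    simpa only [count_eq_ord _ hx, Filter.eventually_cofinite] using this

lemma finite_val {x : K} (hx : x ≠ 0) : {v : Pl K | val v x ≠ 1}.Finite := by
  simpa only [ne_eq, ord_eq_zero_iff _ hx] using finite_ord x

lemma exists_approx (S : Finset (Pl K)) (x : Pl K → K) (γ : Pl K → ℤᵐ⁰) (hγ : ∀ v, γ v ≠ 0) :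
    ∃ y : K, ∀ v ∈ S, val v (y - x v) < γ v := by
  classical
  obtain ⟨⟨d, hd⟩, h⟩ := IsLocalization.exist_integer_multiples (𝓞 K)⁰ S x
  have hd0 : (d : K) ≠ 0 := by simpa using nonZeroDivisors.ne_zero hd
  choose z hz using h
  obtain ⟨y, hy⟩ := IsDedekindDomain.exists_forall_sub_mem_ideal (s := S) (fun v => v.asIdeal)
    (fun v => (ord v d - log (γ v) + 1).toNat) (fun v _ => v.prime)
    (fun v _ w _ h h' => h (HeightOneSpectrum.ext h')) (fun v => z v v.2)
  refine ⟨y / d, fun v hv => ?_⟩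
  have h1 := (v.intValuation_le_pow_iff_mem _ _).2 (hy v hv)
  rw [← v.valuation_of_algebraMap (K := K)] at h1
  have h2 : (y : K) / d - x v = ((y - z v hv : 𝓞 K) : K) / d := by
    have := hz v hv
    simp only [Algebra.smul_def] at this
    change (z v hv : K) = (d : K) * x v at this
    rw [show ((y - z v hv : 𝓞 K) : K) = y - z v hv from map_sub _ _ _, this]
    field_simp
  rw [h2, map_div₀, div_lt_iff₀ (val_pos v hd0), val_eq_exp v hd0, ← exp_log (hγ v), ← exp_add]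
  refine lt_of_le_of_lt h1 (exp_lt_exp.2 ?_)
  omega

lemma exists_approx_unit (S : Finset (Pl K)) (x : Pl K → Kˣ) (γ : Pl K → ℤᵐ⁰) (hγ : ∀ v, γ v ≠ 0) :
    ∃ y : Kˣ, ∀ v ∈ S, val v (((y / x v : Kˣ) : K) - 1) < γ v := by
  rcases S.eq_empty_or_nonempty with rfl | ⟨v₀, hv₀⟩
  · exact ⟨1, by simp⟩
  obtain ⟨y, hy⟩ := exists_approx S (fun v => x v) (fun v => min 1 (γ v) * val v (x v : K))
    fun v => mul_ne_zero (by rcases min_choice 1 (γ v) with h | h <;> simp [h, hγ])
      (val_ne_zero v (x v).ne_zero)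
  have hy0 : y ≠ 0 := by
    rintro rfl
    have := hy v₀ hv₀
    rw [zero_sub, Valuation.map_neg] at this
    exact absurd (lt_of_lt_of_le this (mul_le_of_le_one_left' (min_le_left _ _))) (lt_irrefl _)
  refine ⟨Units.mk0 y hy0, fun v hv => ?_⟩
  have h1 : ((Units.mk0 y hy0 / x v : Kˣ) : K) - 1 = (y - x v) / x v := by
    rw [Units.val_div_eq_div_val, Units.val_mk0, sub_div, div_self (x v).ne_zero]
  rw [h1, map_div₀, div_lt_iff₀ (val_pos v (x v).ne_zero)]
  exact lt_of_lt_of_le (hy v hv) (mul_le_mul_left (min_le_right _ _) _)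

lemma val_eq_one_of_sub {v : Pl K} {x : K} (h : val v (x - 1) < 1) : val v x = 1 := by
  have := Valuation.map_one_add_of_lt (val v) h
  rwa [add_sub_cancel] at this

/-- Local units. -/
def UU (v : Pl K) : Subgroup Kˣ where
  carrier := {x | val v (x : K) = 1}
  mul_mem' {a b} ha hb := by
    simp only [Set.mem_ofPred_eq] at *
    rw [Units.val_mul, map_mul, ha, hb, one_mul]
  one_mem' := by simp
  inv_mem' {a} ha := by
    simp only [Set.mem_ofPred_eq] at *
    rw [Units.val_inv_eq_inv_val, map_inv₀, ha, inv_one]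

lemma mem_UU {v : Pl K} {x : Kˣ} : x ∈ UU v ↔ val v (x : K) = 1 := Iff.rfl

lemma mem_UU' {v : Pl K} {x : Kˣ} : x ∈ UU v ↔ ord v (x : K) = 0 :=
  (ord_eq_zero_iff v x.ne_zero).symm

lemma div_mem_UU {v : Pl K} {x y : Kˣ} : x / y ∈ UU v ↔ ord v (x : K) = ord v (y : K) := by
  rw [mem_UU', Units.val_div_eq_div_val, ord_div v x.ne_zero y.ne_zero, sub_eq_zero]

/-- Higher unit groups. -/
def Ug (v : Pl K) (γ : ℤᵐ⁰) (h0 : γ ≠ 0) (h1 : γ ≤ 1) : Subgroup Kˣ where
  carrier := {x | val v ((x : K) - 1) < γ}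
  mul_mem' {a b} ha hb := by
    simp only [Set.mem_ofPred_eq] at *
    have : ((a * b : Kˣ) : K) - 1 = a * (b - 1) + (a - 1) := by rw [Units.val_mul]; ring
    rw [this]
    refine Valuation.map_add_lt _ ?_ ha
    rwa [map_mul, val_eq_one_of_sub (ha.trans_le h1), one_mul]
  one_mem' := by simpa using zero_lt_iff.2 h0
  inv_mem' {a} ha := by
    simp only [Set.mem_ofPred_eq] at *
    have : ((a⁻¹ : Kˣ) : K) - 1 = -(a - 1) / a := by
      rw [Units.val_inv_eq_inv_val]; field_simp; ring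
    rwa [this, map_div₀, val_eq_one_of_sub (ha.trans_le h1), div_one, Valuation.map_neg]

lemma Ug_le_UU (v : Pl K) (γ : ℤᵐ⁰) (h0 : γ ≠ 0) (h1 : γ ≤ 1) : Ug v γ h0 h1 ≤ UU v :=
  fun _ hx => val_eq_one_of_sub (lt_of_lt_of_le hx h1)

/-- Principal units. -/
def U1 (v : Pl K) : Subgroup Kˣ := Ug v 1 one_ne_zero le_rfl

lemma mem_U1 {v : Pl K} {x : Kˣ} : x ∈ U1 v ↔ val v ((x : K) - 1) < 1 := Iff.rfl

lemma U1_le_UU (v : Pl K) : U1 v ≤ UU v := Ug_le_UU _ _ _ _

lemma relIndex_ne_zero_of_fun {M β : Type*} [CommGroup M] [Finite β] {A B : Subgroup M} (F : M → β)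
    (h : ∀ x ∈ B, ∀ y ∈ B, F x = F y → x / y ∈ A) :
    A.relIndex B ≠ 0 ∧ A.relIndex B ≤ Nat.card β := by
  have hi : Function.Injective fun q : B ⧸ A.subgroupOf B => F (q.out : B) := by
    intro q r hqr
    rw [← q.out_eq, ← r.out_eq]
    refine QuotientGroup.eq.2 (Subgroup.mem_subgroupOf.2 ?_)
    have := h _ (r.out).2 _ (q.out).2 hqr.symm
    rwa [div_eq_inv_mul] at this
  have := Finite.of_injective _ hi
  exact ⟨Subgroup.index_ne_zero_of_finite, Nat.card_le_card_of_injective _ hi⟩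

lemma relIndex_Ug (v : Pl K) (γ : ℤᵐ⁰) (h0 : γ ≠ 0) (h1 : γ ≤ 1) :
    (Ug v γ h0 h1).relIndex (UU v) ≠ 0 := by
  classical
  have : Finite (𝓞 K ⧸ v.asIdeal ^ (1 - log γ).toNat) :=
    Ring.HasFiniteQuotients.finiteQuotient (pow_ne_zero _ v.ne_bot)
  have hex : ∀ x : Kˣ, ∃ a : 𝓞 K, x ∈ UU v → val v ((a : K) - x) < γ := fun x => by
    by_cases hx : x ∈ UU v
    · obtain ⟨a, ha⟩ := v.exists_valuation_sub_lt_of_integer (mem_UU.1 hx).le (Units.mk0 γ h0)
      exact ⟨a, fun _ => ha⟩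
    · exact ⟨0, fun h => absurd h hx⟩
  choose a ha using hex
  refine (relIndex_ne_zero_of_fun (fun x => Ideal.Quotient.mk (v.asIdeal ^ (1 - log γ).toNat) (a x))
    fun x hx y hy h => ?_).1
  have h2 := (v.intValuation_le_pow_iff_mem _ _).2 (Ideal.Quotient.eq.1 h)
  rw [← v.valuation_of_algebraMap (K := K)] at h2
  have h3 : val v ((a x : K) - a y) < γ := by
    refine lt_of_le_of_lt (le_of_eq_of_le (by simp) h2) ?_
    rw [← exp_log h0, exp_lt_exp, log_exp]
    omega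
  change val v (((x / y : Kˣ) : K) - 1) < γ
  have h4 : ((x / y : Kˣ) : K) - 1 = (((a x : K) - a y) - (a x - x) + (a y - y)) / y := by
    rw [Units.val_div_eq_div_val]; field_simp; ring
  rw [h4, map_div₀, mem_UU.1 hy, div_one]
  exact Valuation.map_add_lt _ (Valuation.map_sub_lt _ h3 (ha x hx)) (ha y hy)

lemma exists_unit_of_val {x : K} (h : ∀ v : Pl K, val v x = 1) : ∃ u : (𝓞 K)ˣ, (u : K) = x := by
  have hx : x ≠ 0 := by
    rintro rfl
    obtain ⟨P, hP⟩ := Ideal.exists_maximal (𝓞 K)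
    simpa using h ⟨P, hP.isPrime, Ring.ne_bot_of_isMaximal_of_not_isField hP (RingOfIntegers.not_isField K)⟩
  obtain ⟨a, ha⟩ := HeightOneSpectrum.mem_integers_of_valuation_le_one K x fun v => (h v).le
  obtain ⟨b, hb⟩ := HeightOneSpectrum.mem_integers_of_valuation_le_one K x⁻¹ fun v => by
    rw [map_inv₀, h v, inv_one]
  have hab : a * b = 1 := by
    apply IsFractionRing.injective (𝓞 K) K
    rw [map_mul, ha, hb, mul_inv_cancel₀ hx, map_one]
  exact ⟨⟨a, b, hab, by rw [mul_comm, hab]⟩, ha⟩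

lemma val_unit (v : Pl K) (u : (𝓞 K)ˣ) : val v (u : K) = 1 := by
  refine le_antisymm (val_int_le v u) ?_
  have h1 : val v (u : K) * val v ((u⁻¹ : (𝓞 K)ˣ) : K) = 1 := by
    rw [← map_mul, ← NumberField.Units.coe_mul, mul_inv_cancel, NumberField.Units.coe_one, map_one]
  calc 1 = _ := h1.symm
    _ ≤ val v (u : K) * 1 := mul_le_mul_right (val_int_le v _) _
    _ = _ := mul_one _

/-- Families that are local units at almost all primes. -/
def JJ (K : Type*) [Field K] [NumberField K] : Subgroup (Pl K → Kˣ) where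
  carrier := {j | {v | j v ∉ UU v}.Finite}
  mul_mem' {a b} ha hb := (ha.union hb).subset fun v hv => by
    by_contra h
    simp only [Set.mem_union, Set.mem_ofPred_eq, not_or, not_not] at h
    exact hv (mul_mem h.1 h.2)
  one_mem' := by simp
  inv_mem' {a} ha := by simpa using ha

/-- Families that are local units everywhere. -/
def UUU (K : Type*) [Field K] [NumberField K] : Subgroup (Pl K → Kˣ) := Subgroup.pi Set.univ UU

/-- Constant families. -/
def cst (X : Type*) (M : Type*) [CommGroup M] : M →* (X → M) := Pi.constMonoidHom X M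

lemma cst_apply {X M : Type*} [CommGroup M] (m : M) (x : X) : cst X M m x = m := rfl

lemma cst_mem_JJ (x : Kˣ) : cst (Pl K) Kˣ x ∈ JJ K := finite_val x.ne_zero

lemma relIndex_class (K : Type*) [Field K] [NumberField K] :
    ((cst (Pl K) Kˣ).range ⊔ UUU K).relIndex (JJ K) ≠ 0 := by
  classical
  have : Finite ((FractionalIdeal (𝓞 K)⁰ K)ˣ ⧸ (toPrincipalIdeal (𝓞 K) K).range) :=
    Finite.of_equiv _ (ClassGroup.equiv K).toEquiv
  have hex : ∀ j : Pl K → Kˣ, ∃ I : (FractionalIdeal (𝓞 K)⁰ K)ˣ, j ∈ JJ K →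
      ∀ v, FractionalIdeal.count K v (I : FractionalIdeal (𝓞 K)⁰ K) = ord v (j v) := fun j => by
    by_cases hj : j ∈ JJ K
    · have h1 : ∀ᶠ v : Pl K in Filter.cofinite, ord v (j v) = 0 := by
        simp only [Filter.eventually_cofinite, ← mem_UU']
        exact hj
      refine ⟨Units.mk0 (∏ᶠ v : Pl K, (v.asIdeal : FractionalIdeal (𝓞 K)⁰ K) ^ ord v (j v)) ?_,
        fun _ v => FractionalIdeal.count_finprod K v _ h1⟩
      exact finprod_ne_zero fun v => zpow_ne_zero _ (FractionalIdeal.coeIdeal_ne_zero.2 v.ne_bot)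
    · exact ⟨1, fun h => absurd h hj⟩
  choose I hI using hex
  refine (relIndex_ne_zero_of_fun
    (fun j => (QuotientGroup.mk (I j) : _ ⧸ (toPrincipalIdeal (𝓞 K) K).range))
    fun x hx y hy h => ?_).1
  obtain ⟨c, hc⟩ := QuotientGroup.eq.1 h.symm
  refine Subgroup.mem_sup.2 ⟨_, ⟨c, rfl⟩, x / y / cst _ _ c, fun v _ => ?_, by simp⟩
  have h1 := congrArg (fun J : (FractionalIdeal (𝓞 K)⁰ K)ˣ => FractionalIdeal.count K v J.1) hc
  simp only [coe_toPrincipalIdeal, Units.val_mul, Units.val_inv_eq_inv_val] at h1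
  rw [count_eq_ord v c.ne_zero, FractionalIdeal.count_mul K v (inv_ne_zero (I y).ne_zero)
    (I x).ne_zero, FractionalIdeal.count_inv, hI x hx, hI y hy] at h1
  change x v / y v / c ∈ UU v
  rw [div_mem_UU, h1, Units.val_div_eq_div_val,
    ord_div v (x v).ne_zero (y v).ne_zero]
  ring

end Pool.Agent.Lib.MP_580eba_nt
end

-- part Pool.Agent.Lib.MP_580eba_nt.UnitH
section

/-!
The Herbrand quotient of the unit group.
-/

namespace Pool.Agent.Lib.MP_580eba_nt

open NumberField Subgroup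

lemma HQ_pow_free (A : Type*) [AddCommGroup A] [Module.Free ℤ A] [Module.Finite ℤ A] {n : ℕ}
    (hn : n ≠ 0) :
    HQ (1 : Multiplicative A →* Multiplicative A) (powMonoidHom n) ⊥ ⊤
      ((n : ℚ) ^ Module.finrank ℤ A) := by
  have h1 : hq (1 : Multiplicative A →* Multiplicative A) (powMonoidHom n) ⊥ ⊤ =
      n ^ Module.finrank ℤ A := by
    rw [← AddSubgroup.index_range_nsmul A n, ← AddSubgroup.index_toSubgroup, hq, sup_bot_eq,
      inf_top_eq, MonoidHom.comap_bot, MonoidHom.ker_one, relIndex_top_right]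
    congr 1
    ext x
    simp only [mem_map, mem_top, true_and]
    rfl
  have h2 : hq (powMonoidHom n) (1 : Multiplicative A →* Multiplicative A) ⊥ ⊤ = 1 := by
    rw [hq, relIndex_eq_one]
    rintro x ⟨hx, -⟩
    have h3 : (n : ℤ) • x.toAdd = 0 := by rw [natCast_zsmul]; exact hx
    have h4 : x = 1 := (smul_eq_zero.1 h3).resolve_left (Nat.cast_ne_zero.2 hn)
    rw [h4]
    exact one_mem _
  rw [HQ, h1, h2]
  exact ⟨pow_ne_zero _ hn, one_ne_zero, by simp⟩

lemma minkowski_sign {X : Type*} [Fintype X] (A : X → X → ℝ) (hA : ∀ w w', w' ≠ w → A w w' < 0)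
    (hs : ∀ w, ∑ w', A w w' = 0) (c : X → ℝ) (hc : ∀ w', ∑ w, c w * A w w' = 0) {w₀ : X}
    (h0 : 0 < c w₀) (w₁ : X) : 0 < c w₁ := by
  classical
  by_contra h1
  have h2 : ∑ w, c w * ∑ w' with 0 < c w', A w w' = 0 := by
    simp_rw [Finset.mul_sum]
    rw [Finset.sum_comm]
    exact Finset.sum_eq_zero fun w' _ => hc w'
  have h3 : ∀ w, 0 < c w → 0 < ∑ w' with 0 < c w', A w w' := by
    intro w hw
    have h4 := Finset.sum_filter_add_sum_filter_not Finset.univ (fun w' => 0 < c w') (A w)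
    have h5 : ∑ w' with ¬ 0 < c w', A w w' < 0 := by
      refine Finset.sum_neg (fun w' hw' => hA _ _ ?_) ⟨w₁, by simpa using h1⟩
      rintro rfl
      exact (Finset.mem_filter.1 hw').2 hw
    linarith [hs w]
  refine absurd h2 (Finset.sum_pos' (fun w _ => ?_) ⟨w₀, Finset.mem_univ _, mul_pos h0 (h3 _ h0)⟩).ne'
  by_cases hw : 0 < c w
  · exact (mul_pos hw (h3 _ hw)).le
  · refine mul_nonneg_of_nonpos_of_nonpos (not_lt.1 hw) (Finset.sum_nonpos fun w' hw' => (hA _ _ ?_).le)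
    rintro rfl
    exact hw (Finset.mem_filter.1 hw').2

/-- The action on the units of a ring. -/
def actU (G : Type*) [Group G] (R : Type*) [CommRing R] [MulSemiringAction G R] :
    G →* Monoid.End Rˣ where
  toFun g := Units.map (MulSemiringAction.toRingHom G R g : R →* R)
  map_one' := by ext x; exact one_smul G (x : R)
  map_mul' g h := by ext x; exact mul_smul g h (x : R)

lemma actU_val {G : Type*} [Group G] {R : Type*} [CommRing R] [MulSemiringAction G R] (g : G)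
    (x : Rˣ) : ((actU G R g x : Rˣ) : R) = g • (x : R) := rfl

variable {K L : Type*} [Field K] [Field L] [NumberField K] [NumberField L] [Algebra K L]

omit [NumberField K] [NumberField L] in
lemma free_infinitePlace [IsTotallyComplex K] (g : L ≃ₐ[K] L) (w : InfinitePlace L)
    (h : g • w = w) : g = 1 := by
  have h1 : w.IsUnramified K := InfinitePlace.isUnramified_iff.2
    (Or.inr (IsTotallyComplex.isComplex _))
  have h2 : g ∈ MulAction.stabilizer (L ≃ₐ[K] L) w := h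
  rwa [h1.stabilizer_eq_bot, mem_bot] at h2

theorem HQ_units_int [IsTotallyComplex K] {σ : L ≃ₐ[K] L} (hσ : ∀ g, g ∈ zpowers σ) :
    HQ (phi (actU (L ≃ₐ[K] L) (𝓞 L)) σ) (nrm (actU (L ≃ₐ[K] L) (𝓞 L))) ⊥ ⊤
      (1 / Fintype.card (L ≃ₐ[K] L)) := by
  classical
  set a := actU (L ≃ₐ[K] L) (𝓞 L) with ha
  choose u hu using Units.dirichletUnitTheorem.exists_unit L
  let ε : InfinitePlace L → (𝓞 L)ˣ := fun w => ∏ g : L ≃ₐ[K] L, a g (u (g⁻¹ • w))
  have hε : ∀ g w, a g (ε w) = ε (g • w) := by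
    intro g w
    simp only [ε, map_prod]
    refine Fintype.prod_equiv (Equiv.mulLeft g) _ _ fun h => ?_
    simp [mul_smul]
  let lg : InfinitePlace L → (𝓞 L)ˣ →* Multiplicative ℝ := fun w =>
    { toFun := fun x => Multiplicative.ofAdd (w.mult * Real.log (w x))
      map_one' := by simp
      map_mul' := fun x y => by
        rw [← ofAdd_add, ← mul_add, ← Real.log_mul (Units.pos_at_place x w).ne'
          (Units.pos_at_place y w).ne', Units.coe_mul, map_mul w] }
  have hneg : ∀ w w', w' ≠ w → (lg w' (ε w)).toAdd < 0 := by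
    intro w w' hw
    simp only [ε, map_prod, toAdd_prod]
    refine Finset.sum_neg (fun g _ => ?_) Finset.univ_nonempty
    exact mul_neg_of_pos_of_neg (Nat.cast_pos.2 InfinitePlace.mult_pos)
      (hu (g⁻¹ • w) (g⁻¹ • w') fun h => hw (MulAction.injective _ h))
  have hsum : ∀ w, ∑ w', (lg w' (ε w)).toAdd = 0 := fun w => Units.sum_mult_mul_log (ε w)
  let l : (InfinitePlace L → ℤ) →ₗ[ℤ] Additive (𝓞 L)ˣ :=
    Fintype.linearCombination ℤ fun w => Additive.ofMul (ε w)
  have hl : ∀ c, (l c).toMul = ∏ w, ε w ^ c w := fun c => by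
    simp [l, Fintype.linearCombination_apply, toMul_sum]
  have hpos : ∀ c, l c = 0 → ∀ w₀, 0 < c w₀ → ∀ w₁, 0 < c w₁ := by
    intro c hc w₀ h0 w₁
    refine Int.cast_pos.1 (minkowski_sign (fun w w' => (lg w' (ε w)).toAdd) hneg hsum
      (fun w => c w) (fun w' => ?_) (Int.cast_pos.2 h0) w₁)
    have := congrArg (fun x : Additive (𝓞 L)ˣ => (lg w' x.toMul).toAdd) hc
    simpa [hl, toAdd_prod] using this
  have hz : ∀ c, l c = 0 → ∀ w₀, c w₀ = 0 → c = 0 := by
    intro c hc w₀ h0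
    ext w
    rcases lt_trichotomy (c w) 0 with h | h | h
    · exact absurd (hpos (-c) (by rw [map_neg, hc, neg_zero]) w (by simpa using h) w₀) (by simp [h0])
    · exact h
    · exact absurd (hpos c hc w h w₀) (by simp [h0])
  have hz' : ∀ c, l c = 0 → ∑ w, c w = 0 → c = 0 := by
    intro c hc h0
    ext w
    rcases lt_trichotomy (c w) 0 with h | h | h
    · have := Finset.sum_pos (s := Finset.univ) (fun w' _ =>
        hpos (-c) (by rw [map_neg, hc, neg_zero]) w (by simpa using h) w') Finset.univ_nonempty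
      simp [h0] at this
    · exact h
    · exact absurd h0 (Finset.sum_pos (fun w' _ => hpos c hc w h w') Finset.univ_nonempty).ne'
  obtain ⟨w₀⟩ : Nonempty (InfinitePlace L) := inferInstance
  have hk1 : Module.finrank ℤ (LinearMap.ker l) ≤ 1 := by
    have := LinearMap.finrank_le_finrank_of_injective
      (f := (LinearMap.proj w₀ : (InfinitePlace L → ℤ) →ₗ[ℤ] ℤ) ∘ₗ (LinearMap.ker l).subtype)
      ((injective_iff_map_eq_zero _).2 fun c hc => Subtype.ext (hz c c.2 w₀ hc))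
    simpa using this
  have hr1 := (LinearMap.range l).finrank_le
  have hrk := (LinearMap.ker l).finrank_quotient_add_finrank
  rw [l.quotKerEquivRange.finrank_eq] at hrk
  have hc : 0 < Fintype.card (InfinitePlace L) := Fintype.card_pos
  rw [Units.finrank_eq, Units.rank] at hr1
  rw [Module.finrank_fintype_fun_eq_card] at hrk
  have hk2 : Module.finrank ℤ (LinearMap.ker l) = 1 := by omega
  have hfin : Finite (Additive (𝓞 L)ˣ ⧸ LinearMap.range l) := by
    refine Module.finite_of_fg_torsion _ (Module.finrank_eq_zero_iff_isTorsion.1 ?_)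
    have := (LinearMap.range l).finrank_quotient_add_finrank
    rw [Units.finrank_eq, Units.rank] at this
    omega
  let b := tw (InfinitePlace L) (1 : (L ≃ₐ[K] L) →* Monoid.End (Multiplicative ℤ))
  let e : (InfinitePlace L → Multiplicative ℤ) →* (𝓞 L)ˣ :=
    { toFun := fun c => (l fun w => (c w).toAdd).toMul
      map_one' := congrArg Additive.toMul (map_zero l)
      map_mul' := fun c d => congrArg Additive.toMul
        (map_add l (fun w => (c w).toAdd) fun w => (d w).toAdd) }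
  have he : ∀ g c, e (b g c) = a g (e c) := by
    intro g c
    change (l _).toMul = a g (l _).toMul
    rw [hl, hl, map_prod]
    refine (Fintype.prod_equiv (MulAction.toPerm g) _ _ fun w => ?_).symm
    rw [map_zpow, hε]
    change _ = ε (g • w) ^ (c (g⁻¹ • g • w)).toAdd
    rw [inv_smul_smul]
  let f : Multiplicative (LinearMap.ker l) →* (InfinitePlace L → Multiplicative ℤ) :=
    { toFun := fun c w => Multiplicative.ofAdd (c.toAdd.1 w)
      map_one' := rfl
      map_mul' := fun _ _ => rfl }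
  have hf : ∀ g c, b g (f c) = f c := by
    intro g c
    have h1 : l (fun w => c.toAdd.1 (g⁻¹ • w)) = 0 := by
      have h2 : e (f c) = 1 := congrArg Additive.toMul c.toAdd.2
      have h3 := he g (f c)
      rw [h2, map_one] at h3
      exact h3
    have h4 := hz' ((fun w => c.toAdd.1 (g⁻¹ • w)) - c.toAdd.1)
      (by rw [map_sub, h1, c.toAdd.2, sub_zero]) (by
        simp only [Pi.sub_apply, Finset.sum_sub_distrib, sub_eq_zero]
        exact Fintype.sum_equiv (MulAction.toPerm g⁻¹) _ _ fun w => rfl)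
    funext w
    exact congrArg Multiplicative.ofAdd (congrFun (sub_eq_zero.1 h4) w)
  have H1 := HQ_pow_free (LinearMap.ker l) (Fintype.card_ne_zero (α := L ≃ₐ[K] L))
  have hfi : (⊥ : Subgroup _).comap f ⊓ ⊤ = ⊥ := by
    rw [inf_top_eq, MonoidHom.comap_bot, MonoidHom.ker_eq_bot_iff]
    intro c d h
    exact Subtype.ext (funext fun w => congrFun h w)
  have hfr : (⊤ : Subgroup _).map f ⊔ ⊥ = (⊥ : Subgroup _).comap e ⊓ ⊤ := by
    rw [sup_bot_eq, inf_top_eq]
    ext c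
    constructor
    · rintro ⟨d, -, rfl⟩
      exact congrArg Additive.toMul d.toAdd.2
    · intro hc
      exact ⟨Multiplicative.ofAdd ⟨fun w => (c w).toAdd, hc⟩, mem_top _, rfl⟩
  rw [hk2, pow_one, ← hfi, HQ.transfer (φ' := phi b σ) (ψ' := nrm b) f
    (fun c => by rw [phi_apply, hf, div_self']; exact map_one f)
    (fun c => by simp [nrm_apply, hf]) (stab_bot _ _) (stab_top _ _), hfr] at H1
  obtain ⟨t1, t2⟩ := tw_free free_infinitePlace
    (1 : (L ≃ₐ[K] L) →* Monoid.End (Multiplicative ℤ)) hσ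
  have hge : GSt b ((⊥ : Subgroup _).comap e ⊓ ⊤) := fun g c hc =>
    ⟨by
      change e (b g c) = 1
      rw [he, show e c = 1 from hc.1, map_one], mem_top _⟩
  have H2 := HQ.right (phi_nrm b σ) (nrm_phi b σ) bot_le le_top (stab_bot _ _) (hge.stab σ)
    (stab_top _ _) H1 (HQ.of_trivial t1 t2)
  rw [HQ.transfer (φ' := phi a σ) (ψ' := nrm a) e
    (fun c => by rw [phi_apply, phi_apply, map_div, he])
    (fun c => by simp [nrm_apply, he]) (stab_bot _ _) (stab_top _ _), sup_bot_eq] at H2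
  have hgr : GSt a ((⊤ : Subgroup _).map e) := by
    rintro g _ ⟨c, -, rfl⟩
    exact ⟨b g c, mem_top _, he g c⟩
  have H3 := HQ.of_finite (phi_nrm a σ) (nrm_phi a σ) le_top (hgr.stab σ) (stab_top _ _)
    (relIndex_ne_zero_of_fun (fun x => (LinearMap.range l).mkQ (Additive.ofMul x))
      fun x _ y _ h => by
        obtain ⟨c, hc⟩ := (Submodule.Quotient.eq _).1 h
        exact ⟨fun w => Multiplicative.ofAdd (c w), mem_top _, congrArg Additive.toMul hc⟩).1
  simpa using HQ.mid (phi_nrm a σ) (nrm_phi a σ) bot_le le_top (stab_bot _ _) (hgr.stab σ)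
    (stab_top _ _) H2 H3

end Pool.Agent.Lib.MP_580eba_nt
end

-- part Pool.Agent.Lib.MP_580eba_nt.Gal
section

/-!
Galois action on primes.
-/

namespace Pool.Agent.Lib.MP_580eba_nt

open NumberField IsDedekindDomain WithZero
open scoped nonZeroDivisors Pointwise

section action

variable {L : Type*} [Field L] {G : Type*} [Group G] [MulSemiringAction G L]

/-- The action on primes. -/
instance plAction : MulAction G (Pl L) where
  smul g w := ⟨g • w.asIdeal, w.isPrime.smul g, fun h => w.ne_bot (by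
    rw [← inv_smul_smul g w.asIdeal, h, Ideal.smul_bot])⟩
  one_smul w := HeightOneSpectrum.ext (one_smul G w.asIdeal)
  mul_smul g h w := HeightOneSpectrum.ext (mul_smul g h w.asIdeal)

lemma smul_asIdeal (g : G) (w : Pl L) : (g • w).asIdeal = g • w.asIdeal := rfl

lemma coe_smul_int (g : G) (x : 𝓞 L) : ((g • x : 𝓞 L) : L) = g • (x : L) := rfl

variable [NumberField L]

lemma val_smul (g : G) (w : Pl L) (x : L) : val (g • w) (g • x) = val w x := by
  have key : ∀ a : 𝓞 L, val (g • w) (g • (a : L)) = val w a := by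
    intro a
    rcases eq_or_ne a 0 with rfl | ha
    · simp
    have h1 : ∀ n : ℕ, val (g • w) (g • (a : L)) ≤ exp (-(n : ℤ)) ↔ val w a ≤ exp (-(n : ℤ)) := by
      intro n
      rw [← coe_smul_int]
      refine ((congrArg (· ≤ _) ((g • w).valuation_of_algebraMap (K := L) (g • a))).to_iff.trans
        ((g • w).intValuation_le_pow_iff_mem _ n)).trans (Iff.trans ?_ ((congrArg (· ≤ _)
          (w.valuation_of_algebraMap (K := L) a)).to_iff.trans
          (w.intValuation_le_pow_iff_mem _ n)).symm)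
      rw [smul_asIdeal, ← smul_pow', Ideal.smul_mem_pointwise_smul_iff]
    have ha1 : (a : L) ≠ 0 := by simpa using ha
    have ha2 : g • (a : L) ≠ 0 := (smul_ne_zero_iff_ne g).2 ha1
    have h2 := val_int_le w a
    have h3 := val_int_le (g • w) (g • a)
    rw [coe_smul_int] at h3
    rw [val_eq_exp _ ha1, val_eq_exp _ ha2] at *
    rw [← exp_zero, exp_le_exp] at h2 h3
    have h4 := h1 (ord w a).toNat
    have h5 := h1 (ord (g • w) (g • (a : L))).toNat
    simp only [exp_le_exp] at h4 h5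
    congr 1
    omega
  obtain ⟨a, b, hb, rfl⟩ := IsFractionRing.div_surjective (A := 𝓞 L) x
  rw [smul_div₀', map_div₀, map_div₀]
  exact congrArg₂ _ (key a) (key b)

lemma val_smul' (g : G) (w : Pl L) (x : L) : val w (g • x) = val (g⁻¹ • w) x := by
  rw [← val_smul g (g⁻¹ • w), smul_inv_smul]

lemma ord_smul (g : G) (w : Pl L) (x : L) : ord (g • w) (g • x) = ord w x := by
  rw [ord, ord, val_smul]

lemma val_smul_of_eq {g : G} {w : Pl L} (h : g • w = w) (x : L) : val w (g • x) = val w x := by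
  conv_lhs => rw [← h, val_smul]

lemma ord_smul_of_eq {g : G} {w : Pl L} (h : g • w = w) (x : L) : ord w (g • x) = ord w x := by
  rw [ord, ord, val_smul_of_eq h]

lemma act_mem_UU {g : G} {w : Pl L} {x : Lˣ} : actU G L g x ∈ UU (g • w) ↔ x ∈ UU w := by
  rw [mem_UU, mem_UU, actU_val, val_smul]

lemma act_mem_U1 {g : G} {w : Pl L} {x : Lˣ} : actU G L g x ∈ U1 (g • w) ↔ x ∈ U1 w := by
  rw [mem_U1, mem_U1, actU_val, ← val_smul g w, smul_sub, smul_one]

/-- The inertia group. -/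
abbrev In (G : Type*) [Group G] [MulSemiringAction G L] (w : Pl L) : Subgroup G :=
  w.asIdeal.inertia G

omit [NumberField L] in
lemma smul_eq_of_mem_In {g : G} {w : Pl L} (h : g ∈ In G w) : g • w = w :=
  HeightOneSpectrum.ext (Ideal.inertia_le_stabilizer w.asIdeal h)

lemma mem_In {g : G} {w : Pl L} : g ∈ In G w ↔ ∀ x : L, val w x ≤ 1 → val w (g • x - x) < 1 := by
  refine ⟨fun h x hx => ?_, fun h x => (val_int_lt w _).1 (h x (val_int_le w x))⟩
  obtain ⟨a, ha⟩ := w.exists_valuation_sub_lt_of_integer hx 1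
  have h1 : g • x - x = ((g • a - a : 𝓞 L) : L) - g • ((a : L) - x) + (a - x) := by
    rw [show ((g • a - a : 𝓞 L) : L) = g • (a : L) - a from rfl, smul_sub]
    ring
  rw [h1]
  refine Valuation.map_add_lt _ (Valuation.map_sub_lt _ ((val_int_lt w _).2 (h a)) ?_) ha
  rw [val_smul_of_eq (smul_eq_of_mem_In h)]
  exact ha

omit [NumberField L] in
lemma conj_mem_In {g : G} {w : Pl L} (h : g ∈ In G w) (k : G) : k * g * k⁻¹ ∈ In G (k • w) := by
  intro x
  have := Ideal.smul_mem_pointwise_smul k _ _ (h (k⁻¹ • x))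
  rw [smul_sub, smul_inv_smul, ← mul_smul, ← mul_smul] at this
  exact this

end action

section relative

variable {K L : Type*} [Field K] [Field L] [NumberField K] [NumberField L] [Algebra K L]

/-- The prime below. -/
abbrev und (K : Type*) [Field K] [NumberField K] [Algebra K L] (w : Pl L) : Pl K := w.under (𝓞 K)

/-- The ramification index. -/
noncomputable abbrev ee (K : Type*) [Field K] [Algebra K L] (w : Pl L) : ℕ :=
  w.asIdeal.ramificationIdx (𝓞 K)

lemma ee_pos (w : Pl L) : 0 < ee K w := w.asIdeal.ramificationIdx_pos (𝓞 K)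

instance (w : Pl L) : w.asIdeal.LiesOver (und K w).asIdeal := ⟨rfl⟩

lemma val_map (w : Pl L) (x : K) : val w (algebraMap K L x) = val (und K w) x ^ ee K w := by
  rw [ee, ← Ideal.ramificationIdx'_eq_ramificationIdx (und K w).asIdeal w.asIdeal (und K w).ne_bot]
  exact (HeightOneSpectrum.valuation_liesOver L (und K w) w x).symm

lemma ord_map (w : Pl L) (x : K) : ord w (algebraMap K L x) = ee K w * ord (und K w) x := by
  rw [ord, val_map, log_pow, ord]
  simp

lemma val_map_lt_iff (w : Pl L) {x y : K} :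
    val w (algebraMap K L x) < val w (algebraMap K L y) ↔ val (und K w) x < val (und K w) y := by
  rw [val_map, val_map, pow_lt_pow_iff_left₀ zero_le zero_le (ee_pos w).ne']

lemma val_map_lt_one (w : Pl L) {x : K} : val w (algebraMap K L x) < 1 ↔ val (und K w) x < 1 := by
  simpa using val_map_lt_iff w (x := x) (y := 1)

lemma val_map_eq_one (w : Pl L) {x : K} : val w (algebraMap K L x) = 1 ↔ val (und K w) x = 1 := by
  rw [val_map, pow_eq_one_iff_left (ee_pos w).ne']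

lemma val_map_le_one (w : Pl L) {x : K} : val w (algebraMap K L x) ≤ 1 ↔ val (und K w) x ≤ 1 := by
  rw [le_iff_lt_or_eq, le_iff_lt_or_eq, val_map_lt_one, val_map_eq_one]

lemma exists_und (L : Type*) [Field L] [NumberField L] [Algebra K L] (v : Pl K) :
    ∃ w : Pl L, und K w = v := by
  have := v.isPrime
  obtain ⟨⟨P, hP, h⟩⟩ := (inferInstance : Nonempty (v.asIdeal.primesOver (𝓞 L)))
  exact ⟨⟨P, hP, Ideal.ne_bot_of_liesOver_of_ne_bot v.ne_bot P⟩,
    HeightOneSpectrum.ext (Ideal.over_def P v.asIdeal).symm⟩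

lemma finite_und {S : Set (Pl K)} (hS : S.Finite) : {w : Pl L | und K w ∈ S}.Finite := by
  refine (hS.biUnion (t := fun v => {w : Pl L | und K w = v}) fun v _ => ?_).subset
    fun w hw => Set.mem_biUnion hw rfl
  obtain ⟨x, hx, h1⟩ := exists_ord_eq v 1
  refine (finite_ord (algebraMap K L x)).subset fun w hw => ?_
  rw [Set.mem_ofPred_eq] at hw ⊢
  rw [ord_map, hw, h1, mul_one]
  exact Nat.cast_ne_zero.2 (ee_pos w).ne'

omit [NumberField L] in
lemma und_und {M : Type*} [Field M] [NumberField M] [Algebra K M] [Algebra M L]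
    [IsScalarTower K M L] (w : Pl L) : und K (und M w) = und K w :=
  HeightOneSpectrum.ext (Ideal.under_under w.asIdeal)

variable {G : Type*} [Group G] [MulSemiringAction G L]

lemma und_smul [SMulCommClass G K L] (g : G) (w : Pl L) : und K (g • w) = und K w := by
  refine HeightOneSpectrum.ext (Ideal.ext fun x => ?_)
  rw [← val_int_lt, ← val_int_lt, ← val_map_lt_one, ← val_map_lt_one, ← val_smul g w,
    smul_algebraMap]

variable (G) [Finite G] [IsGaloisGroup G K L]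

lemma exists_smul_eq {w w' : Pl L} (h : und K w = und K w') : ∃ g : G, g • w = w' := by
  have := w.isPrime
  have := w'.isPrime
  have : w'.asIdeal.LiesOver (und K w).asIdeal := h ▸ inferInstance
  obtain ⟨g, hg⟩ := Ideal.exists_smul_eq_of_isGaloisGroup (und K w).asIdeal w.asIdeal w'.asIdeal G
  exact ⟨g, HeightOneSpectrum.ext hg⟩

lemma card_In (w : Pl L) : Nat.card (In G w) = ee K w := by
  have := w.isPrime
  have := (und K w).isPrime
  have := (und K w).isMaximal
  rw [Ideal.card_inertia_eq_ramificationIdxIn (und K w).asIdeal w.asIdeal,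
    Ideal.ramificationIdxIn_eq_ramificationIdx (und K w).asIdeal w.asIdeal G]

lemma In_eq_bot_iff (w : Pl L) :
    In G w = ⊥ ↔ haveI := w.isPrime; Algebra.IsUnramifiedAt (𝓞 K) w.asIdeal := by
  have := w.isPrime
  have := (und K w).isMaximal
  rw [← Subgroup.card_eq_one, card_In (K := K), Ideal.ramificationIdx_eq_one_iff]

variable {G} (K) in
include K in
lemma exists_fixed_ord (H : Subgroup G) (w : Pl L) :
    ∃ x : L, x ≠ 0 ∧ (∀ g ∈ H, g • x = x) ∧ ord w x = Nat.card (In G w ⊓ H : Subgroup G) := by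
  let F : IntermediateField K L := FixedPoints.intermediateField H
  obtain ⟨x, hx, h1⟩ := exists_ord_eq (und F w) 1
  refine ⟨x, by simpa using hx, fun g hg => x.2 ⟨g, hg⟩, ?_⟩
  have h2 := ord_map w x
  rw [h1, mul_one, ← card_In H] at h2
  refine h2.trans (congrArg _ ?_)
  rw [show In H w = (In G w).subgroupOf H from rfl, ← Subgroup.inf_subgroupOf_right]
  exact Nat.card_congr (Subgroup.subgroupOfEquivOfLe inf_le_right).toEquiv

end relative

end Pool.Agent.Lib.MP_580eba_nt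
end
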