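import Pool.Agent.Lib.MP_580eba_nt.Count
import Pool.Agent.Lib.MP_580eba_nt.GS
import Pool.Agent.Lib.MP_580eba_nt.Example

/-!
Infinitude of the 2-towers ramified at one odd prime.
-/

namespace Pool.Agent.Lib.MP_580eba_nt

open NumberField Subgroup

lemma ord_prod {K ι : Type*} [Field K] [NumberField K] (v : Pl K) (s : Finset ι) {f : ι → K}
    (h : ∀ i, f i ≠ 0) : ord v (∏ i ∈ s, f i) = ∑ i ∈ s, ord v (f i) := by
  classical
  induction s using Finset.induction_on with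
  | empty => simp [ord_one]
  | insert i s hi ih =>
    rw [Finset.prod_insert hi, Finset.sum_insert hi,
      ord_mul v (h i) (Finset.prod_ne_zero_iff.2 fun j _ => h j), ih]

lemma in2_of_sq {k : Type} [Field k] [NumberField k] {θ : k} {D : ℕ} (h : θ ^ 2 = -D) (h8 : D % 8 = 3) :
    In2 k := fun v hv h2 => by
  have h1 : ((1 + θ) / 2) ^ 2 - (1 + θ) / 2 = ((-(2 * (D / 8 : ℕ) + 1) : ℤ) : k) := by
    have h1 : (D : k) = 8 * (D / 8 : ℕ) + 3 := by
      conv_lhs => rw [← Nat.div_add_mod D 8, h8]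
      push_cast; ring
    generalize D / 8 = m at h1
    push_cast
    linear_combination (1 / 4 : k) * h - (1 / 4 : k) * h1
  have h3 : val v ((1 + θ) / 2) ≤ 1 := val_le_one_of_sq_sub (h1 ▸ val_intCast_le v _)
  have := Fintype.ofFinite (RF v)
  have h4 := FiniteField.pow_card (res v ((1 + θ) / 2))
  rw [← Nat.card_eq_fintype_card, card_RF, h2, ← res_npow h3, res_eq_iff (by
    rw [map_pow]; exact pow_le_one₀ zero_le h3) h3, h1,
    val_int_lt_iff Nat.prime_two (by simpa using hv)] at h4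
  omega

variable {q : ZMod 5 → ℕ}

lemma Pat.ord_eq (hq : Pat q) {K : Type*} [Field K] [NumberField K] {w : Pl K} {i j : ZMod 5}
    (hi : val w (q i : K) < 1) (h : j ≠ i) : val w (q j : K) = 1 :=
  le_antisymm (val_natCast_le w _) (not_lt.1 fun hj => h (hq.eq_of_val hi hj))

variable {k : Type} [Field k] [NumberField k] {L : IntermediateField k (AlgebraicClosure k)}
  [FiniteDimensional k L] [IsGalois k L] {S : Set (Ideal (𝓞 k))}

lemma Pat.exists_sqrt (hq : Pat q) {θ : k} (hθ : θ ^ 2 = -(∏ i, q i : ℕ)) (hL : IsTwoExt k S L)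
    (hmax : ∀ L', IsTwoExt k S L' → L' ≤ L) (i : ZMod 5) : ∃ s : L, s ^ 2 = -q i := by
  obtain ⟨L', h, h1, r, hr⟩ := hL.adjoin_sqrt (β := -q i)
    (fun g => ⟨1, by rw [one_pow, one_mul, smul_neg]; exact congrArg _ (map_natCast g _)⟩) fun w _ => by
      by_cases h : val w (q i : L) < 1
      · have h0 : (q i : L) ≠ 0 := Nat.cast_ne_zero.2 (hq.prime i).ne_zero
        have h1 : val w (-q i / algebraMap k L θ ^ 2) = 1 := by
          rw [← map_pow, hθ, map_neg, map_natCast, neg_div_neg_eq, Nat.cast_prod,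
            ← Finset.mul_prod_erase _ _ (Finset.mem_univ i), div_mul_cancel_left₀ h0, map_inv₀, map_prod,
            Finset.prod_eq_one fun j hj => hq.ord_eq h (Finset.ne_of_mem_erase hj), inv_one]
        refine ⟨_, h1, ?_⟩
        rw [val_four, val_two_eq_one fun h2 => ?_, one_pow]
        · exact Valuation.map_sub_le _ h1.le (by simp)
        · have h3 := (val_int_lt_iff Nat.prime_two (by simpa using h2) (a := q i)).1 (by simpa using h)
          have := hq.mod i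
          omega
      · refine ⟨1, ?_⟩
        have h1 : (q i : L) = 4 * (q i / 4 : ℕ) + 3 := by
          conv_lhs => rw [← Nat.div_add_mod (q i) 4, hq.mod i]
          push_cast; ring
        rw [one_pow, div_one, Valuation.map_neg]
        refine ⟨le_antisymm (val_natCast_le w _) (not_lt.1 h), ?_⟩
        rw [h1, show -(4 * ((q i / 4 : ℕ) : L) + 3) - 1 = -(4 * ((q i / 4 + 1 : ℕ) : L)) by
          push_cast; ring, Valuation.map_neg, map_mul]
        exact mul_le_of_le_one_right' (val_natCast_le w _)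
  exact ⟨⟨r, hmax L' h1 r.2⟩, Subtype.ext (congrArg Subtype.val hr :)⟩

lemma Pat.le_card (hq : Pat q) (Q₀ : QD ℚ k) (hD : (Q₀.a : ℚ) = -(∏ i, q i : ℕ)) {s : ZMod 5 → L}
    (hs : ∀ i, s i ^ 2 = -q i) : 16 ≤ Nat.card ((L ≃ₐ[k] L) →* ℤˣ) := by
  have : Finite ((L ≃ₐ[k] L) →* ℤˣ) := .of_injective _ DFunLike.coe_injective
  have h0 : ∀ e : ZMod 5 → Fin 2, ∏ i, s i ^ (e i : ℕ) ≠ 0 := fun e =>
    Finset.prod_ne_zero_iff.2 fun i _ => pow_ne_zero _ (ne_zero_of_sq (hq.prime i).ne_zero (hs i))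
  have h1 : ∀ (e : ZMod 5 → Fin 2) (g : L ≃ₐ[k] L),
      g • (∏ i, s i ^ (e i : ℕ)) ^ 2 = (∏ i, s i ^ (e i : ℕ)) ^ 2 := fun e g => by
    simp only [← Finset.prod_pow, pow_right_comm _ _ 2, Finset.smul_prod', smul_pow' g (_ ^ 2),
      smul_sq_neg_nat (hs _)]
  have h2 := Nat.card_le_card_of_injective (fun e => (sgn (h0 e) (h1 e), e 0)) fun e e' h => by
    obtain ⟨h2, h3⟩ := Prod.ext_iff.1 h
    obtain ⟨x, hx⟩ := (fixBy_of_surj (K := k) (π := MonoidHom.id _) Function.surjective_id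
      ((∏ i, s i ^ (e i : ℕ)) * ∏ i, s i ^ (e' i : ℕ))).2 fun g => by
        rw [smul_mul', smul_eq_sgn (h0 e) (h1 e), smul_eq_sgn (h0 e') (h1 e'), show sgn _ _ = _ from h2,
          mul_mul_mul_comm, ← Int.cast_mul, ← Units.val_mul, Int.units_mul_self]
        simp
    have h4 : ∀ i, (q i : ℚ) ≠ 0 := fun i => Nat.cast_ne_zero.2 (hq.prime i).ne_zero
    have h5 : ∀ i, (-q i : ℚ) ^ (e i + e' i : ℕ) ≠ 0 := fun i => pow_ne_zero _ (neg_ne_zero.2 (h4 i))
    have h6 : ∏ i, (-q i : ℚ) ^ (e i + e' i : ℕ) ≠ 0 := Finset.prod_ne_zero_iff.2 fun i _ => h5 i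
    choose v hv using fun i => exists_pl ℚ (hq.prime i)
    have h7 : ∀ i j, ord (v i) (q j : ℚ) = if j = i then 1 else 0 := fun i j => by
      split_ifs with h
      · rw [h, ord_rat (hq.prime i) (hv i)]
      · exact (ord_eq_zero_iff _ (h4 j)).2 (hq.ord_eq (hv i) h)
    have h8 : ∀ j, ord (v j) (∏ i, (-q i : ℚ) ^ (e i + e' i : ℕ)) = (e j + e' j : ℕ) := fun j => by
      simp [ord_prod _ _ h5, ord_pow, ord_neg, h7]
    rcases Q₀.isSquare_or (x := ∏ i, (-q i : ℚ) ^ (e i + e' i : ℕ)) ⟨x, (algebraMap k L).injective (by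
      rw [map_mul, hx, ← Finset.prod_mul_distrib, ← Finset.prod_mul_distrib]
      simp only [map_prod, map_pow, map_neg, map_natCast, ← hs]
      exact Finset.prod_congr rfl fun i _ => by ring)⟩ with h9 | h9
    · funext j
      have h10 := even_of_isSquare (v j) (x := Units.mk0 _ h6) h9
      rw [Units.val_mk0, h8, Int.even_coe_nat, Nat.even_iff] at h10
      omega
    · have h10 := even_of_isSquare (v 0) (x := Units.mk0 _ h6 * Q₀.a) h9
      rw [Units.val_mul, ord_mul _ (Units.ne_zero _) (Units.ne_zero _), Units.val_mk0, h8, hD, ord_neg,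
        Nat.cast_prod, ord_prod _ _ h4, show e 0 = e' 0 from h3, Int.even_iff] at h10
      simp only [h7, Finset.sum_ite_eq', Finset.mem_univ, if_true] at h10
      omega
  rw [Nat.card_prod, Nat.card_fun, Nat.card_zmod, Nat.card_eq_fintype_card, Fintype.card_fin] at h2
  omega

theorem partII (hq : Pat q) (h8 : (∏ i, q i) % 8 = 3) (Q₀ : QD ℚ k)
    (hD : (Q₀.a : ℚ) = -(∏ i, q i : ℕ)) {P : Ideal (𝓞 k)} (hP : P.IsPrime) (h0 : P ≠ ⊥)
    (h2 : (2 : 𝓞 k) ∉ P) : ¬ FiniteDimensional k (maxTwoExt k {P}) := fun h => by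
  have hL : IsTwoExt k {P} (maxTwoExt k {P}) := isTwoExt_max
  have := hL.2.1
  have hmax : ∀ L', IsTwoExt k {P} L' → L' ≤ maxTwoExt k {P} := fun L' h => le_sSup h
  have hθ : Q₀.r ^ 2 = -(∏ i, q i : ℕ) := by rw [Q₀.sq, hD, map_neg, map_natCast]
  choose s hs using hq.exists_sqrt hθ hL hmax
  exact (hq.le_card Q₀ hD hs).not_gt (gs (isTwoExt_iff.1 hL).1 fun Γ _ _ hΓ π =>
    count (p := ⟨P, hP, h0⟩) Q₀ hD (in2_of_sq hθ h8)
      (val_two_eq_one fun h => h2 ((val_int_lt _ 2).1 h)) hL hmax hΓ)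

theorem counterexample : ∃ (k : Type) (_ : Field k) (_ : NumberField k),
    (∀ p : Ideal (𝓞 k), p.IsPrime → p ≠ ⊥ → (2 : 𝓞 k) ∉ p →
      ¬ FiniteDimensional k (maxTwoExt k {p})) ∧ FiniteDimensional k (maxTwoExt k ∅) := by
  obtain ⟨k, _, _, inst, Q₀, h⟩ := exists_QD (K := ℚ) (Units.mk0 (-(∏ i, exq i : ℕ)) (by decide +kernel))
    (by rintro ⟨r, hr⟩; exact absurd (hr ▸ mul_self_nonneg r) (by decide +kernel))
  obtain rfl : inst = DivisionRing.toRatAlgebra := Subsingleton.elim _ _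
  have hD : (Q₀.a : ℚ) = -(∏ i, exq i : ℕ) := congrArg Units.val h
  exact ⟨k, inferInstance, inferInstance, fun p => partII pat_exq (by decide +kernel) Q₀ hD,
    partI pat_exq Q₀.finrank (θ := Q₀.r) (by rw [Q₀.sq, hD, map_neg, map_natCast])⟩

end Pool.Agent.Lib.MP_580eba_nt
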